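import Pool.Agent.EXP.GermDense

/-!
# EXP / AxGerm: Ax for curves, real coefficients linearly independent over the rational numbers

PROOF.  Put `W_j = exp (x_j)`. `Q` = the ideal of the `f` with `f(W t) = 0` for all `t` near `0`: prime (identity
theorem), no `X j` in it, `trdeg ℂ (ℂ[Y]/Q) = 1` (`X i` is transcendental modulo `Q`, all `X j` are algebraic over
it by `hrel`). For every `j` there is `P_j ∈ ℂ[a][b]` with `P_j(W_i, W_j) = 0` and `∂_b P_j(W_i, W_j)` not zero on
the germ (minimal degree in `b`). Suppose that `∑ lam_j x_j` is constant. Let `A_j = ∂_a P_j`,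
`B_j = X_j ∂_b P_j(X_i, X_j)`. From `A_j W_i' = - B_j x_j'` we get `G (W) W_i' = - (∑ lam_j x_j') ∏ B_l = 0` for
`G = ∑ lam_j A_j ∏_{l ≠ j} B_l`, so `G ∈ Q`. `exists_punct` gives a germ `Y_j = t^(v_j) u_j` in `Tz Q`, `v ≠ 0`; by
`germ_dense` the `B_l` are not zero on it. The same computation backwards gives `∑ lam_j (v_j / t + u_j'/u_j) = 0`
for `t ≠ 0` near `0`; multiply by `t` and let `t → 0`: `∑ lam_j v_j = 0`, against `hlam`.
-/

set_option autoImplicit false

namespace Pool.Agent.EXP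

open MvPolynomial Topology Filter

private noncomputable def rel {n : ℕ} (i j : Fin n) (p : Polynomial (Polynomial ℂ)) :
    MvPolynomial (Fin n) ℂ :=
  Polynomial.eval₂ (Polynomial.eval₂RingHom C (X i)) (X j) p

private lemma eval_rel {n : ℕ} (i j : Fin n) (p : Polynomial (Polynomial ℂ)) (w : Fin n → ℂ) :
    eval w (rel i j p) = ev p (w i) (w j) := by
  unfold rel ev
  rw [Polynomial.hom_eval₂, Polynomial.eval_map, eval_X]
  congr 1
  apply Polynomial.ringHom_ext
  · intro c; simp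
  · simp

/-- the derivative of `p(f(t), g(t))` -/
private lemma exd1 (p : Polynomial (Polynomial ℂ)) : ∃ A : Polynomial (Polynomial ℂ),
    ∀ (f g : ℂ → ℂ) (t f' g' : ℂ), HasDerivAt f f' t → HasDerivAt g g' t →
      HasDerivAt (fun τ => ev p (f τ) (g τ))
        (ev A (f t) (g t) * f' + ev (Polynomial.derivative p) (f t) (g t) * g') t := by
  induction p using Polynomial.induction_on' with
  | add p q hp hq =>
    obtain ⟨A, hA⟩ := hp
    obtain ⟨B, hB⟩ := hq
    refine ⟨A + B, fun f g t f' g' hf hg => ?_⟩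
    have h1 := (hA f g t f' g' hf hg).add (hB f g t f' g' hf hg)
    have e : ∀ (r s : Polynomial (Polynomial ℂ)) (z θ : ℂ), ev (r + s) z θ = ev r z θ + ev s z θ := by
      intro r s z θ
      simp [ev]
    have h2 : (fun τ => ev (p + q) (f τ) (g τ)) =
        (fun τ => ev p (f τ) (g τ)) + fun τ => ev q (f τ) (g τ) := by
      funext τ
      exact e _ _ _ _
    rw [h2]
    refine h1.congr_deriv ?_
    rw [map_add, e, e]
    ring
  | monomial k c =>
    refine ⟨Polynomial.monomial k (Polynomial.derivative c), fun f g t f' g' hf hg => ?_⟩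
    have e : ∀ (k : ℕ) (c : Polynomial ℂ) (z θ : ℂ),
        ev (Polynomial.monomial k c) z θ = c.eval z * θ ^ k := by
      intro k c z θ
      simp [ev]
    have h1 : HasDerivAt (fun τ => c.eval (f τ)) ((Polynomial.derivative c).eval (f t) * f') t :=
      (c.hasDerivAt (f t)).comp t hf
    have h2 := h1.mul (hg.pow k)
    have h3 : (fun τ => ev (Polynomial.monomial k c) (f τ) (g τ)) =
        (fun τ => c.eval (f τ)) * fun τ => g τ ^ k := by
      funext τ
      exact e _ _ _ _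
    rw [h3]
    refine h2.congr_deriv ?_
    rw [Polynomial.derivative_monomial, e, e, Polynomial.eval_mul, Polynomial.eval_natCast]
    simp only [Pi.pow_apply]
    ring

/-- a nonconstant germ satisfies no polynomial equation -/
private lemma trans_germ (f : ℂ → ℂ) (hf : AnalyticAt ℂ f 0)
    (hnc : ∀ c : ℂ, ¬ ∀ᶠ t in 𝓝 (0 : ℂ), f t = c) (c : Polynomial ℂ) (hc : c ≠ 0) :
    ¬ ∀ᶠ t in 𝓝 (0 : ℂ), c.eval (f t) = 0 := by
  intro h
  have h1 : ∀ᶠ t in 𝓝[≠] (0 : ℂ), ∀ r ∈ (c.roots.toFinset : Set ℂ), f t ≠ r := by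
    rw [c.roots.toFinset.finite_toSet.eventually_all]
    intro r _
    rcases (hf.sub (analyticAt_const (v := r))).eventually_eq_zero_or_eventually_ne_zero with h2 | h2
    · exact absurd (h2.mono fun t ht => sub_eq_zero.1 ht) (hnc r)
    · exact h2.mono fun t ht he => ht (sub_eq_zero.2 he)
  obtain ⟨t, h2, h3⟩ := ((h.filter_mono nhdsWithin_le_nhds).and h1).exists
  refine h3 (f t) ?_ rfl
  simp [hc, h2]

/-- a relation whose derivative does not vanish -/
private lemma min_rel (f g : ℂ → ℂ) (hf : AnalyticAt ℂ f 0)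
    (hnc : ∀ c : ℂ, ¬ ∀ᶠ t in 𝓝 (0 : ℂ), f t = c) (N : ℕ) :
    ∀ p : Polynomial (Polynomial ℂ), p.natDegree ≤ N → p ≠ 0 →
      (∀ᶠ t in 𝓝 (0 : ℂ), ev p (f t) (g t) = 0) →
      ∃ q : Polynomial (Polynomial ℂ), (∀ᶠ t in 𝓝 (0 : ℂ), ev q (f t) (g t) = 0) ∧
        ¬ ∀ᶠ t in 𝓝 (0 : ℂ), ev (Polynomial.derivative q) (f t) (g t) = 0 := by
  induction N with
  | zero =>
    intro p hN hp h
    exfalso
    rw [Nat.le_zero] at hN
    rw [Polynomial.eq_C_of_natDegree_eq_zero hN] at h hp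
    refine trans_germ f hf hnc (p.coeff 0) (by simpa using hp) ?_
    filter_upwards [h] with t ht
    simpa [ev] using ht
  | succ N ih =>
    intro p hN hp h
    by_cases hd : ∀ᶠ t in 𝓝 (0 : ℂ), ev (Polynomial.derivative p) (f t) (g t) = 0
    · rcases Nat.eq_zero_or_pos p.natDegree with h0 | h0
      · exact ih p (by omega) hp h
      · refine ih _ ?_ ?_ hd
        · have := Polynomial.natDegree_derivative_lt (p := p) (by omega)
          omega
        · intro h1
          have := Polynomial.derivative_eq_zero.1 h1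
          omega
    · exact ⟨p, h, hd⟩

/-- transport of a relation in two variables -/
private lemma two_rel (P : MvPolynomial (Fin 2) ℂ) (hP : P ≠ 0) :
    ∃ p : Polynomial (Polynomial ℂ), p ≠ 0 ∧ ∀ z θ : ℂ, ev p z θ = eval ![z, θ] P := by
  let Φ : MvPolynomial (Fin 2) ℂ →+* Polynomial (Polynomial ℂ) :=
    eval₂Hom (Polynomial.C.comp Polynomial.C) ![Polynomial.C Polynomial.X, Polynomial.X]
  let Ψ : Polynomial (Polynomial ℂ) →+* MvPolynomial (Fin 2) ℂ :=
    Polynomial.eval₂RingHom (Polynomial.eval₂RingHom C (X 0)) (X 1)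
  have h1 : Ψ.comp Φ = RingHom.id _ := by
    apply MvPolynomial.ringHom_ext
    · intro r
      simp [Φ, Ψ]
    · intro j
      fin_cases j
      · simp [Φ, Ψ]
      · simp [Φ, Ψ]
  refine ⟨Φ P, ?_, ?_⟩
  · intro h
    apply hP
    have h2 := congrArg (fun r => r P) h1
    change Ψ (Φ P) = P at h2
    rw [← h2, h, map_zero]
  · intro z θ
    let E : Polynomial (Polynomial ℂ) →+* ℂ :=
      (Polynomial.evalRingHom θ).comp (Polynomial.mapRingHom (Polynomial.evalRingHom z))
    have h2 : E.comp Φ = (eval ![z, θ] : MvPolynomial (Fin 2) ℂ →+* ℂ) := by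
      apply MvPolynomial.ringHom_ext
      · intro r
        simp [E, Φ]
      · intro j
        fin_cases j
        · simp [E, Φ]
        · simp [E, Φ]
    have h3 := congrArg (fun r => r P) h2
    exact h3


/-- a curve ideal has transcendence degree one -/
private lemma trdeg_one {n : ℕ} (Q : Ideal (MvPolynomial (Fin n) ℂ)) (hQ : Q.IsPrime) (i : Fin n)
    (hti : ∀ c : Polynomial ℂ, c ≠ 0 → Polynomial.eval₂ C (X i) c ∉ Q)
    (halg : ∀ j, ∃ p : Polynomial (Polynomial ℂ), p ≠ 0 ∧ rel i j p ∈ Q) :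
    Algebra.trdeg ℂ (MvPolynomial (Fin n) ℂ ⧸ Q) = 1 := by
  have hdom : IsDomain (MvPolynomial (Fin n) ℂ ⧸ Q) := Ideal.Quotient.isDomain Q
  let R := MvPolynomial (Fin n) ℂ ⧸ Q
  let z : R := Ideal.Quotient.mk Q (X i)
  have hzc : ∀ c : Polynomial ℂ, Polynomial.aeval z c =
      Ideal.Quotient.mk Q (Polynomial.eval₂ C (X i) c) := by
    intro c
    rw [Polynomial.hom_eval₂, Polynomial.aeval_def]
    rfl
  have hz : Transcendental ℂ z := by
    rw [transcendental_iff]
    intro c hc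
    by_contra hne
    rw [hzc, Ideal.Quotient.eq_zero_iff_mem] at hc
    exact hti c hne hc
  let B := Algebra.adjoin ℂ ({z} : Set R)
  have hzB : z ∈ B := Algebra.subset_adjoin rfl
  let g : Polynomial ℂ →+* B :=
    (Polynomial.aeval (⟨z, hzB⟩ : B) : Polynomial ℂ →ₐ[ℂ] B).toRingHom
  have hgv : ∀ q : Polynomial ℂ, ((g q : B) : R) = Polynomial.aeval z q := by
    intro q
    exact (Polynomial.aeval_algHom_apply B.val (⟨z, hzB⟩ : B) q).symm
  have hginj : Function.Injective g := by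
    rw [injective_iff_map_eq_zero]
    intro q hq
    apply transcendental_iff.1 hz q
    rw [← hgv, hq]
    rfl
  have hX : ∀ j, IsAlgebraic B (Ideal.Quotient.mk Q (X j) : R) := by
    intro j
    obtain ⟨p, hp, hpQ⟩ := halg j
    refine ⟨p.map g, ?_, ?_⟩
    · intro h
      apply hp
      exact Polynomial.map_injective g hginj (by rw [h, Polynomial.map_zero])
    · rw [Polynomial.aeval_def, Polynomial.eval₂_map]
      have h1 : (algebraMap B R).comp g =
          (Ideal.Quotient.mk Q).comp (Polynomial.eval₂RingHom C (X i)) := by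
        apply RingHom.ext
        intro q
        change ((g q : B) : R) = Ideal.Quotient.mk Q (Polynomial.eval₂ C (X i) q)
        rw [hgv, hzc]
      rw [h1, ← Polynomial.hom_eval₂]
      exact Ideal.Quotient.eq_zero_iff_mem.2 hpQ
  have hall : ∀ r : R, IsAlgebraic B r := by
    intro r
    obtain ⟨f, rfl⟩ := Ideal.Quotient.mk_surjective r
    induction f using MvPolynomial.induction_on with
    | C c =>
      have h1 : Ideal.Quotient.mk Q (C c) = algebraMap B R (algebraMap ℂ B c) := rfl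
      rw [h1]
      exact isAlgebraic_algebraMap _
    | add f g hf hg =>
      rw [map_add]
      exact hf.add hg
    | mul_X f j hf =>
      rw [map_mul]
      exact hf.mul (hX j)
  have halgB : Algebra.IsAlgebraic (Algebra.adjoin ℂ ({z} : Set R)) R := ⟨hall⟩
  have hind : AlgebraicIndependent ℂ (fun _ : Unit => z) :=
    algebraicIndependent_unique_type_iff.2 hz
  apply le_antisymm
  · have h1 := Algebra.IsAlgebraic.trdeg_le_cardinalMk ℂ ({z} : Set R)
    simpa using h1
  · have h1 := hind.cardinalMk_le_trdeg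
    simpa using h1

private lemma zpow_nc {v : ℤ} (hv : v ≠ 0) (u : ℂ → ℂ) (hu : AnalyticAt ℂ u 0) (hu0 : u 0 ≠ 0)
    (c : ℂ) : ¬ ∀ᶠ t in 𝓝[≠] (0 : ℂ), t ^ v * u t = c := by
  intro h
  have hut : Tendsto u (𝓝[≠] (0 : ℂ)) (𝓝 (u 0)) := hu.continuousAt.tendsto.mono_left
    nhdsWithin_le_nhds
  have hp : ∀ m : ℕ, m ≠ 0 → Tendsto (fun t : ℂ => t ^ m) (𝓝[≠] (0 : ℂ)) (𝓝 0) := by
    intro m hm
    have h1 : Tendsto (fun t : ℂ => t ^ m) (𝓝 0) (𝓝 (0 ^ m)) := (continuous_pow m).tendsto 0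
    rw [zero_pow hm] at h1
    exact h1.mono_left nhdsWithin_le_nhds
  have hne : ∀ᶠ t in 𝓝[≠] (0 : ℂ), t ≠ 0 := eventually_mem_nhdsWithin
  have hune : ∀ᶠ t in 𝓝[≠] (0 : ℂ), u t ≠ 0 :=
    (hu.continuousAt.eventually_ne hu0).filter_mono nhdsWithin_le_nhds
  rcases Int.eq_nat_or_neg v with ⟨m, rfl | rfl⟩
  · have hm : m ≠ 0 := by rintro rfl; exact hv rfl
    have h1 : Tendsto (fun t : ℂ => t ^ m * u t) (𝓝[≠] (0 : ℂ)) (𝓝 (0 * u 0)) := (hp m hm).mul hut
    have h2 : Tendsto (fun _ : ℂ => c) (𝓝[≠] (0 : ℂ)) (𝓝 (0 * u 0)) := by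
      refine h1.congr' ?_
      filter_upwards [h] with t ht
      rw [← ht, zpow_natCast]
    have h3 := tendsto_nhds_unique h2 tendsto_const_nhds
    obtain ⟨t, h4, h5, h6⟩ := (h.and (hne.and hune)).exists
    rw [← h3, zero_mul] at h4
    exact mul_ne_zero (zpow_ne_zero _ h5) h6 h4
  · have hm : m ≠ 0 := by rintro rfl; exact hv (by simp)
    have h1 : Tendsto (fun t : ℂ => t ^ m * c) (𝓝[≠] (0 : ℂ)) (𝓝 (0 * c)) :=
      (hp m hm).mul tendsto_const_nhds
    have h2 : Tendsto u (𝓝[≠] (0 : ℂ)) (𝓝 (0 * c)) := by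
      refine h1.congr' ?_
      filter_upwards [h, hne] with t ht h4
      rw [← ht, ← mul_assoc, zpow_neg, zpow_natCast, mul_inv_cancel₀ (pow_ne_zero _ h4), one_mul]
    have h3 := tendsto_nhds_unique h2 hut
    rw [zero_mul] at h3
    exact hu0 h3.symm

/-- the algebra of both computations -/
private lemma alg_sum {n : ℕ} (lam a b L : Fin n → ℂ) (D : ℂ) (h : ∀ j, a j * D = -(b j * L j)) :
    (∑ j, lam j * a j * ∏ l ∈ Finset.univ.erase j, b l) * D =
      -((∑ j, lam j * L j) * ∏ l, b l) := by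
  rw [Finset.sum_mul, Finset.sum_mul, ← Finset.sum_neg_distrib]
  refine Finset.sum_congr rfl fun j _ => ?_
  rw [← Finset.mul_prod_erase Finset.univ b (Finset.mem_univ j)]
  linear_combination (lam j * ∏ l ∈ Finset.univ.erase j, b l) * h j

theorem ax_germ {n : ℕ} (lam : Fin n → ℝ)
    (hlam : ∀ v : Fin n → ℤ, ∑ j, lam j * v j = 0 → v = 0)
    (x : ℂ → Fin n → ℂ) (hx : ∀ j, AnalyticAt ℂ (fun t => x t j) 0) (i : Fin n)
    (hi : ¬ ∀ᶠ t in 𝓝 (0 : ℂ), x t i = x 0 i)
    (hrel : ∀ j, ∃ P : MvPolynomial (Fin 2) ℂ, P ≠ 0 ∧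
      ∀ᶠ t in 𝓝 (0 : ℂ), eval ![Complex.exp (x t i), Complex.exp (x t j)] P = 0) :
    ¬ ∀ᶠ t in 𝓝 (0 : ℂ), ∑ j, (lam j : ℂ) * x t j = ∑ j, (lam j : ℂ) * x 0 j := by
  intro hcon
  let W : ℂ → Fin n → ℂ := fun t j => Complex.exp (x t j)
  have hW : ∀ j, AnalyticAt ℂ (fun t => W t j) 0 := fun j => (hx j).cexp
  have hWi : ∀ c : ℂ, ¬ ∀ᶠ t in 𝓝 (0 : ℂ), W t i = c := by
    intro c hc
    apply hi
    have h0 : W 0 i = c := hc.self_of_nhds
    have h1 : ∀ᶠ t in 𝓝 (0 : ℂ), ‖x t i - x 0 i‖ < 1 := by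
      have h2 : ContinuousAt (fun t => x t i - x 0 i) 0 :=
        (hx i).continuousAt.sub continuousAt_const
      have h4 : ‖x 0 i - x 0 i‖ < (1 : ℝ) := by rw [sub_self, norm_zero]; exact one_pos
      exact h2.norm.tendsto.eventually (gt_mem_nhds h4)
    filter_upwards [hc, h1] with t ht ht1
    have h2 : Complex.exp (x t i - x 0 i) = 1 := by
      rw [Complex.exp_sub]
      have h3 : Complex.exp (x t i) = Complex.exp (x 0 i) := ht.trans h0.symm
      rw [h3, div_self (Complex.exp_ne_zero _)]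
    rw [Complex.exp_eq_one_iff] at h2
    obtain ⟨m, hm⟩ := h2
    rcases eq_or_ne m 0 with h3 | h3
    · rw [h3] at hm
      simpa [sub_eq_zero] using hm
    · exfalso
      rw [hm] at ht1
      have h4 : ‖((m : ℤ) : ℂ) * (2 * Real.pi * Complex.I)‖ = |(m : ℝ)| * (2 * Real.pi) := by
        rw [norm_mul, norm_mul, norm_mul, Complex.norm_I, Complex.norm_intCast]
        simp [abs_of_pos Real.pi_pos]
      rw [h4] at ht1
      have h5 : (1 : ℝ) ≤ |(m : ℝ)| := by
        have : (1 : ℤ) ≤ |m| := Int.one_le_abs h3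
        exact_mod_cast this
      have h6 := Real.pi_gt_three
      nlinarith
  let Q : Ideal (MvPolynomial (Fin n) ℂ) :=
    { carrier := {f | ∀ᶠ t in 𝓝 (0 : ℂ), eval (W t) f = 0}
      add_mem' := by
        intro f g hf hg
        filter_upwards [hf, hg] with t h1 h2
        rw [map_add, h1, h2, add_zero]
      zero_mem' := Eventually.of_forall fun t => map_zero _
      smul_mem' := by
        intro c f hf
        filter_upwards [hf] with t h1
        rw [smul_eq_mul, map_mul, h1, mul_zero] }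
  have hQm : ∀ f, f ∈ Q ↔ ∀ᶠ t in 𝓝 (0 : ℂ), eval (W t) f = 0 := fun f => Iff.rfl
  have han : ∀ f : MvPolynomial (Fin n) ℂ, AnalyticAt ℂ (fun t => eval (W t) f) 0 := by
    intro f
    have h1 := AnalyticAt.aeval_mvPolynomial (f := fun t j => W t j) hW f
    simpa [aeval_eq_eval] using h1
  have hdich : ∀ f : MvPolynomial (Fin n) ℂ, f ∉ Q → ∀ᶠ t in 𝓝[≠] (0 : ℂ), eval (W t) f ≠ 0 := by
    intro f hf
    rcases (han f).eventually_eq_zero_or_eventually_ne_zero with h | h
    · exact absurd h hf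
    · exact h
  have hQ : Q.IsPrime := by
    refine ⟨?_, ?_⟩
    · rw [Ne, Ideal.eq_top_iff_one, hQm]
      intro h
      have := h.self_of_nhds
      simp at this
    · intro f g hfg
      by_contra hcon2
      push Not at hcon2
      obtain ⟨t, h1, h2, h3⟩ := ((((hQm _).1 hfg).filter_mono nhdsWithin_le_nhds).and
        ((hdich f hcon2.1).and (hdich g hcon2.2))).exists
      rw [map_mul] at h1
      exact mul_ne_zero h2 h3 h1
  have hQX : ∀ j : Fin n, (X j : MvPolynomial (Fin n) ℂ) ∉ Q := by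
    intro j h
    have h1 := ((hQm _).1 h).self_of_nhds
    rw [eval_X] at h1
    exact Complex.exp_ne_zero _ h1
  have hrel' : ∀ j, ∃ p : Polynomial (Polynomial ℂ), p ≠ 0 ∧
      ∀ᶠ t in 𝓝 (0 : ℂ), ev p (W t i) (W t j) = 0 := by
    intro j
    obtain ⟨P, hP, hPz⟩ := hrel j
    obtain ⟨p, hp, hpe⟩ := two_rel P hP
    refine ⟨p, hp, ?_⟩
    filter_upwards [hPz] with t ht
    rw [hpe]
    exact ht
  have hdim : Algebra.trdeg ℂ (MvPolynomial (Fin n) ℂ ⧸ Q) = 1 := by
    refine trdeg_one Q hQ i ?_ ?_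
    · intro c hc h
      refine trans_germ (fun t => W t i) (hW i) hWi c hc ?_
      filter_upwards [(hQm _).1 h] with t ht
      rw [Polynomial.hom_eval₂, eval_X] at ht
      rw [Polynomial.eval, ← ht]
      congr 1
      apply RingHom.ext
      intro r
      simp
    · intro j
      obtain ⟨p, hp, hpz⟩ := hrel' j
      refine ⟨p, hp, ?_⟩
      rw [hQm]
      filter_upwards [hpz] with t ht
      rw [eval_rel, ht]
  have hmin : ∀ j, ∃ q : Polynomial (Polynomial ℂ), (∀ᶠ t in 𝓝 (0 : ℂ), ev q (W t i) (W t j) = 0) ∧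
      ¬ ∀ᶠ t in 𝓝 (0 : ℂ), ev (Polynomial.derivative q) (W t i) (W t j) = 0 := by
    intro j
    obtain ⟨p, hp, hpz⟩ := hrel' j
    exact min_rel (fun t => W t i) (fun t => W t j) (hW i) hWi p.natDegree p le_rfl hp hpz
  choose q hq1 hq2 using hmin
  choose A hA using fun j => exd1 (q j)
  let a : Fin n → MvPolynomial (Fin n) ℂ := fun j => rel i j (A j)
  let b : Fin n → MvPolynomial (Fin n) ℂ := fun j => rel i j (Polynomial.derivative (q j)) * X j
  let G : MvPolynomial (Fin n) ℂ := ∑ j, C (lam j : ℂ) * a j * ∏ l ∈ Finset.univ.erase j, b l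
  have hGe : ∀ w : Fin n → ℂ, eval w G =
      ∑ j, (lam j : ℂ) * eval w (a j) * ∏ l ∈ Finset.univ.erase j, eval w (b l) := by
    intro w
    simp only [G, map_sum, map_mul, map_prod, eval_C]
  have hbe : ∀ (w : Fin n → ℂ) (j : Fin n), eval w (b j) =
      ev (Polynomial.derivative (q j)) (w i) (w j) * w j := by
    intro w j
    simp only [b, map_mul, eval_rel, eval_X]
  have hae : ∀ (w : Fin n → ℂ) (j : Fin n), eval w (a j) = ev (A j) (w i) (w j) := by
    intro w j
    simp only [a, eval_rel]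
  have hqQ : ∀ j, rel i j (q j) ∈ Q := by
    intro j
    rw [hQm]
    filter_upwards [hq1 j] with t ht
    rw [eval_rel, ht]
  have hbQ : ∀ j, b j ∉ Q := by
    intro j h
    rcases hQ.mem_or_mem h with h | h
    · apply hq2 j
      filter_upwards [(hQm _).1 h] with t ht
      rw [← eval_rel, ht]
    · exact hQX j h
  -- the general computation at one point
  have hcomp : ∀ (Z : ℂ → Fin n → ℂ) (L : Fin n → ℂ) (t : ℂ),
      (∀ j, HasDerivAt (fun τ => Z τ j) (Z t j * L j) t) →
      (∀ j, ∀ᶠ τ in 𝓝 t, ev (q j) (Z τ i) (Z τ j) = 0) →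
      eval (Z t) G * (Z t i * L i) =
        -((∑ j, (lam j : ℂ) * L j) * ∏ l, eval (Z t) (b l)) := by
    intro Z L t hd hz
    rw [hGe]
    apply alg_sum
    intro j
    rw [hae, hbe]
    have h1 := hA j (fun τ => Z τ i) (fun τ => Z τ j) t _ _ (hd i) (hd j)
    have h2 : HasDerivAt (fun τ => ev (q j) (Z τ i) (Z τ j)) 0 t := by
      refine (hasDerivAt_const t (0 : ℂ)).congr_of_eventuallyEq ?_
      filter_upwards [hz j] with τ hτ
      exact hτ
    have h3 := h1.unique h2
    linear_combination h3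
  have hG : G ∈ Q := by
    by_contra hG
    have h1 := hdich G hG
    have h2 : ∀ᶠ t in 𝓝 (0 : ℂ), ∀ j, AnalyticAt ℂ (fun τ => x τ j) t :=
      eventually_all.2 fun j => (hx j).eventually_analyticAt
    have h3 : ∀ᶠ t in 𝓝 (0 : ℂ), ∀ j, ∀ᶠ τ in 𝓝 t, ev (q j) (W τ i) (W τ j) = 0 :=
      eventually_all.2 fun j => (hq1 j).eventually_nhds
    have h4 := hcon.eventually_nhds
    have h5 : ∀ᶠ t in 𝓝[≠] (0 : ℂ), deriv (fun τ => x τ i) t = 0 := by
      filter_upwards [h1, h2.filter_mono nhdsWithin_le_nhds, h3.filter_mono nhdsWithin_le_nhds,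
        h4.filter_mono nhdsWithin_le_nhds] with t g1 g2 g3 g4
      have hd : ∀ j, HasDerivAt (fun τ => x τ j) (deriv (fun τ => x τ j) t) t :=
        fun j => (g2 j).differentiableAt.hasDerivAt
      have h6 := hcomp W (fun j => deriv (fun τ => x τ j) t) t (fun j => (hd j).cexp) g3
      have h7 : ∑ j, (lam j : ℂ) * deriv (fun τ => x τ j) t = 0 := by
        have h8 : HasDerivAt (fun τ => ∑ j, (lam j : ℂ) * x τ j)
            (∑ j, (lam j : ℂ) * deriv (fun τ => x τ j) t) t :=
          HasDerivAt.fun_sum fun j _ => (hd j).const_mul _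
        have h9 : HasDerivAt (fun τ => ∑ j, (lam j : ℂ) * x τ j) 0 t := by
          refine (hasDerivAt_const t (∑ j, (lam j : ℂ) * x 0 j)).congr_of_eventuallyEq ?_
          filter_upwards [g4] with τ hτ
          exact hτ
        exact h8.unique h9
      rw [h7, zero_mul, neg_zero] at h6
      have h8 := (mul_eq_zero.1 h6).resolve_left g1
      exact (mul_eq_zero.1 h8).resolve_left (Complex.exp_ne_zero _)
    apply hi
    have h6 : AnalyticAt ℂ (deriv fun τ => x τ i) 0 := (hx i).deriv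
    have h7 : ∀ᶠ t in 𝓝 (0 : ℂ), deriv (fun τ => x τ i) t = 0 := by
      rcases h6.eventually_eq_zero_or_eventually_ne_zero with h | h
      · exact h
      · obtain ⟨t, h8, h9⟩ := (h5.and h).exists
        exact absurd h8 h9
    obtain ⟨r, hr, hball⟩ := Metric.eventually_nhds_iff_ball.1
      (h7.and ((hx i).eventually_analyticAt))
    filter_upwards [Metric.ball_mem_nhds (0 : ℂ) hr] with t ht
    exact Metric.isOpen_ball.is_const_of_deriv_eq_zero
      ((convex_ball (0 : ℂ) r).isPreconnected)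
      (fun y hy => (hball y hy).2.differentiableAt.differentiableWithinAt)
      (fun y hy => (hball y hy).1) ht (Metric.mem_ball_self hr)
  obtain ⟨v, ⟨u, hu, hu0, hpt⟩, hv⟩ := exists_punct Q hQ hQX hdim
  let Y : ℂ → Fin n → ℂ := fun t j => t ^ v j * u j t
  obtain ⟨i', hi'⟩ : ∃ i', v i' ≠ 0 := by
    by_contra hcon2
    push Not at hcon2
    exact hv (funext hcon2)
  have hYm : ∀ j, MeromorphicAt (fun t => Y t j) 0 := fun j =>
    ((MeromorphicAt.id 0).zpow (v j)).mul (hu j).meromorphicAt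
  have hYQ : ∀ᶠ t in 𝓝[≠] (0 : ℂ), ∀ f ∈ Q, eval (Y t) f = 0 := by
    filter_upwards [hpt] with t ht
    exact ht.1
  have hbne : ∀ᶠ t in 𝓝[≠] (0 : ℂ), ∀ j, eval (Y t) (b j) ≠ 0 :=
    eventually_all.2 fun j => germ_dense Q hQ hdim Y hYm hYQ i'
      (fun c => zpow_nc hi' (u i') (hu i') (hu0 i') c) (b j) (hbQ j)
  have hlim : ∀ᶠ t in 𝓝[≠] (0 : ℂ),
      ∑ j, (lam j : ℂ) * ((v j : ℂ) + t * (deriv (u j) t / u j t)) = 0 := by
    have h1 : ∀ᶠ t in 𝓝[≠] (0 : ℂ), t ≠ 0 := eventually_mem_nhdsWithin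
    have h2 : ∀ᶠ t in 𝓝 (0 : ℂ), ∀ j, AnalyticAt ℂ (u j) t :=
      eventually_all.2 fun j => (hu j).eventually_analyticAt
    have h3 : ∀ᶠ t in 𝓝 (0 : ℂ), ∀ j, u j t ≠ 0 :=
      eventually_all.2 fun j => (hu j).continuousAt.eventually_ne (hu0 j)
    have h4 := eventually_eventually_nhdsWithin.2 hYQ
    filter_upwards [h1, h2.filter_mono nhdsWithin_le_nhds, h3.filter_mono nhdsWithin_le_nhds, h4,
      hbne, hYQ] with t g1 g2 g3 g4 g5 g6
    have g4' : ∀ᶠ τ in 𝓝 t, ∀ f ∈ Q, eval (Y τ) f = 0 := by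
      rwa [isOpen_compl_singleton.nhdsWithin_eq g1] at g4
    have hd : ∀ j, HasDerivAt (fun τ => Y τ j)
        (Y t j * ((v j : ℂ) / t + deriv (u j) t / u j t)) t := by
      intro j
      have h5 := (hasDerivAt_zpow (v j) t (Or.inl g1)).mul
        (g2 j).differentiableAt.hasDerivAt
      refine h5.congr_deriv ?_
      change _ = t ^ v j * u j t * _
      rw [zpow_sub_one₀ g1]
      have := g3 j
      field_simp
    have h6 := hcomp Y (fun j => (v j : ℂ) / t + deriv (u j) t / u j t) t hd (by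
      intro j
      filter_upwards [g4'] with τ hτ
      rw [← eval_rel]
      exact hτ _ (hqQ j))
    rw [g6 G hG, zero_mul] at h6
    have h7 : ∏ l, eval (Y t) (b l) ≠ 0 := Finset.prod_ne_zero_iff.2 fun l _ => g5 l
    have h8 := (mul_eq_zero.1 (neg_eq_zero.1 h6.symm)).resolve_right h7
    have h9 : ∑ j, (lam j : ℂ) * ((v j : ℂ) + t * (deriv (u j) t / u j t)) =
        t * ∑ j, (lam j : ℂ) * ((v j : ℂ) / t + deriv (u j) t / u j t) := by
      rw [Finset.mul_sum]
      refine Finset.sum_congr rfl fun j _ => ?_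
      field_simp
    rw [h9, h8, mul_zero]
  have hlim2 : Tendsto (fun t : ℂ => ∑ j, (lam j : ℂ) * ((v j : ℂ) + t * (deriv (u j) t / u j t)))
      (𝓝[≠] (0 : ℂ)) (𝓝 (∑ j, (lam j : ℂ) * ((v j : ℂ) + 0 * (deriv (u j) 0 / u j 0)))) := by
    refine tendsto_finsetSum _ fun j _ => ?_
    have h1 : ContinuousAt (fun t : ℂ => (lam j : ℂ) * ((v j : ℂ) + t * (deriv (u j) t / u j t)))
        0 := by
      refine continuousAt_const.mul (continuousAt_const.add (continuousAt_id.mul ?_))
      exact ((hu j).deriv.continuousAt).div (hu j).continuousAt (hu0 j)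
    exact h1.tendsto.mono_left nhdsWithin_le_nhds
  have h0 : Tendsto (fun t : ℂ => ∑ j, (lam j : ℂ) * ((v j : ℂ) + t * (deriv (u j) t / u j t)))
      (𝓝[≠] (0 : ℂ)) (𝓝 0) := by
    refine tendsto_const_nhds.congr' ?_
    filter_upwards [hlim] with t ht
    exact ht.symm
  have h1 := tendsto_nhds_unique hlim2 h0
  apply hv
  apply hlam
  have h2 : ((∑ j, lam j * v j : ℝ) : ℂ) = 0 := by
    rw [← h1]
    push_cast
    exact Finset.sum_congr rfl fun j _ => by ring
  exact_mod_cast h2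

end Pool.Agent.EXP
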