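import Mathlib

/-!
# EXP / Defs: curves in the torus
-/

set_option autoImplicit false

namespace Pool.Agent.EXP

open MvPolynomial Topology

/-- The zeros of `Q` in the torus. -/
def Tz {n : ℕ} (Q : Ideal (MvPolynomial (Fin n) ℂ)) : Set (Fin n → ℂ) :=
  {w | (∀ f ∈ Q, eval w f = 0) ∧ ∀ j, w j ≠ 0}

/-- `v` is the order vector of a puncture of `Tz Q`. -/
def Punct {n : ℕ} (Q : Ideal (MvPolynomial (Fin n) ℂ)) (v : Fin n → ℤ) : Prop :=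
  ∃ u : Fin n → ℂ → ℂ, (∀ j, AnalyticAt ℂ (u j) 0) ∧ (∀ j, u j 0 ≠ 0) ∧
    ∀ᶠ t in 𝓝[≠] (0 : ℂ), (fun j => t ^ v j * u j t) ∈ Tz Q

/-- `p(z, θ)` -/
noncomputable def ev (p : Polynomial (Polynomial ℂ)) (z θ : ℂ) : ℂ :=
  (p.map (Polynomial.evalRingHom z)).eval θ

end Pool.Agent.EXP
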