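import Pool.Agent.EXP.FibreA
import Pool.Agent.EXK.KGen
import Pool.Agent.EXK.KPlA
import Pool.Agent.EXI.TFTor

/-!
# EXP / Fibre: an irreducible curve in the fibre over a generic point of the hypersurface

PROOF.  `Ω` = algebraic closure of `ℂ(t)`. `(a, b)` = the generic point `p`. Some `b_i` is transcendental over
`k(a)` (`trdeg` of `k(a)` is `n - 1`). `k(a)(b_i) → Ω`, `a ↦ x`, `b_i ↦ t` (`t` is transcendental over `ℂ ⊇ k(x)`,
`k(a) ≅ k(x)`), extend to `k(a, b) → Ω` (algebraic, `Ω` algebraically closed); `b'` = image of `b`.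
`Q` = kernel of `ℂ[Y] → Ω`, `Y ↦ b'`. Prime; `b'_j ≠ 0`; `f(x, Y) ∈ Q` for all `f` over `k` with `f(p) = 0`, so for all
`f ∈ P` (generators over `k`, `hx`). `trdeg = 1`: `t` is transcendental over `ℂ`, and every `b_j` is algebraic over
`k(a)(b_i)`, so `b'_j` is algebraic over `ℂ(t)`.
-/

set_option autoImplicit false

namespace Pool.Agent.EXP

open MvPolynomial Topology Pool.Agent.EXL Pool.Agent.EXI Pool.Agent.EXK

private theorem fibre_aux0 {n : ℕ} (Ω : Type) [Field Ω] [Algebra ℂ Ω] [IsAlgClosed Ω] (T : Ω)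
    (hT : Transcendental ℂ T) (ka : Subfield ℂ) (θ : ka →+* ℂ) (b : Fin n → ℂ)
    (hb : ∀ j, b j ≠ 0)
    (j1 : Fin n) (hbt : AlgebraicIndependent ka (fun _ : Fin 1 => b j1))
    (hbk : ∀ j, IsAlgebraic (Algebra.adjoin ka (Set.range fun _ : Fin 1 => b j1)) (b j)) :
    ∃ Q : Ideal (MvPolynomial (Fin n) ℂ), Q.IsPrime ∧
      (∀ j : Fin n, (X j : MvPolynomial (Fin n) ℂ) ∉ Q) ∧
      Algebra.trdeg ℂ (MvPolynomial (Fin n) ℂ ⧸ Q) = 1 ∧
      ∀ g : MvPolynomial (Fin n) ka, aeval b g = 0 → map θ g ∈ Q := by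
  classical
  have hTi : AlgebraicIndependent ℂ (fun _ : Fin 1 => T) :=
    (algebraicIndependent_unique_type_iff (ι := Fin 1)).2 hT
  let t : Fin 1 → ℂ := fun _ => b j1
  let ψ : ka →+* Ω := (algebraMap ℂ Ω).comp θ
  have hθ : Function.Injective θ := θ.injective
  obtain ⟨κ, hκc, hκt⟩ := base_of_inj t hbt ψ (fun _ => T) (by
    intro f hf h0
    have h1 : aeval (fun _ : Fin 1 => T) (map θ f) = 0 := by
      rw [aeval_def, eval₂_map]
      exact h0
    have h2 := (algebraicIndependent_iff.1 hTi) _ h1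
    exact hf ((map_injective _ hθ) (by rw [h2, map_zero])))
  let F : IntermediateField (IntermediateField.adjoin ka (Set.range t)) ℂ :=
    IntermediateField.adjoin (IntermediateField.adjoin ka (Set.range t)) (Set.range b)
  have hle := IntermediateField.algebra_adjoin_le_adjoin ka (Set.range t)
  have hfd : FiniteDimensional (IntermediateField.adjoin ka (Set.range t)) F := by
    refine IntermediateField.finiteDimensional_adjoin ?_
    rintro x ⟨j, rfl⟩
    have h2 : IsAlgebraic (IntermediateField.adjoin ka (Set.range t)) (b j) := by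
      obtain ⟨p, hp0, hp⟩ := hbk j
      refine ⟨p.map (Subalgebra.inclusion hle).toRingHom,
        (Polynomial.map_ne_zero_iff (Subalgebra.inclusion_injective hle)).2 hp0, ?_⟩
      rw [Polynomial.aeval_def, Polynomial.eval₂_map]
      exact hp
    exact h2.isIntegral
  let _ : Algebra (IntermediateField.adjoin ka (Set.range t)) Ω := κ.toAlgebra
  have hint : Algebra.IsAlgebraic (IntermediateField.adjoin ka (Set.range t)) F :=
    Algebra.IsAlgebraic.of_finite _ _
  let φ : F →ₐ[IntermediateField.adjoin ka (Set.range t)] Ω := IsAlgClosed.lift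
  let bF : Fin n → F := fun j => ⟨b j, IntermediateField.subset_adjoin _ _ ⟨j, rfl⟩⟩
  let β : Fin n → Ω := fun j => φ (bF j)
  have hβt : β j1 = T := by
    have h1 : bF j1 = algebraMap (IntermediateField.adjoin ka (Set.range t)) F
        ⟨t 0, IntermediateField.subset_adjoin ka _ ⟨0, rfl⟩⟩ := rfl
    change φ (bF j1) = T
    rw [h1, φ.commutes]
    exact hκt 0
  let ιF : ka →+* F := (algebraMap (IntermediateField.adjoin ka (Set.range t)) F).comp
    (algebraMap ka (IntermediateField.adjoin ka (Set.range t)))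
  have hφc : ∀ c : ka, φ (ιF c) = ψ c := by
    intro c
    change φ (algebraMap (IntermediateField.adjoin ka (Set.range t)) F
      (algebraMap ka (IntermediateField.adjoin ka (Set.range t)) c)) = _
    rw [φ.commutes]
    exact hκc c
  -- relations over `ka` are transported by `φ`
  have hrel : ∀ {ι : Type} (z : ι → F) (f : MvPolynomial ι ka),
      aeval (fun i => (z i : ℂ)) f = 0 → aeval (fun i => φ (z i)) (map θ f) = 0 := by
    intro ι z f hf
    have h1 : ((eval₂ ιF z f : F) : ℂ) = aeval (fun i => (z i : ℂ)) f := by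
      have h3 := MvPolynomial.eval₂_comp_left F.subtype ιF z f
      exact h3
    have h2 : eval₂ ιF z f = 0 := Subtype.ext (h1.trans hf)
    have h4 := MvPolynomial.eval₂_comp_left φ.toRingHom ιF z f
    have h5 : φ.toRingHom.comp ιF = ψ := RingHom.ext hφc
    rw [h5, h2, map_zero] at h4
    rw [aeval_def, eval₂_map]
    exact h4.symm
  let Φ : MvPolynomial (Fin n) ℂ →ₐ[ℂ] Ω := aeval β
  let Q : Ideal (MvPolynomial (Fin n) ℂ) := RingHom.ker Φ
  have hQ : Q.IsPrime := RingHom.ker_isPrime Φ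
  have hdom : IsDomain (MvPolynomial (Fin n) ℂ ⧸ Q) := (Ideal.Quotient.isDomain_iff_prime Q).2 hQ
  refine ⟨Q, hQ, ?_, ?_, ?_⟩
  · intro j hj
    have h1 : Φ (X j) = 0 := hj
    have h2 : β j = 0 := by
      rw [← h1]
      exact (aeval_X _ _).symm
    have h3 : bF j = 0 := (map_eq_zero φ).1 h2
    exact hb j (congrArg Subtype.val h3)
  · -- transcendence degree
    let ι : (MvPolynomial (Fin n) ℂ ⧸ Q) →ₐ[ℂ] Ω := Ideal.kerLiftAlg Φ
    have hι : Function.Injective ι := Ideal.kerLiftAlg_injective Φ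
    have hιX : ∀ j, ι (Ideal.Quotient.mk Q (X j)) = β j := by
      intro j
      change Ideal.kerLiftAlg Φ (Ideal.Quotient.mk Q (X j)) = β j
      rw [Ideal.kerLiftAlg_mk]
      exact aeval_X _ _
    have hA : AlgebraicIndependent ℂ (fun _ : Fin 1 => Ideal.Quotient.mk Q (X j1)) := by
      apply AlgebraicIndependent.of_comp ι
      have : (ι ∘ fun _ : Fin 1 => Ideal.Quotient.mk Q (X j1)) = fun _ : Fin 1 => T := by
        funext _
        rw [Function.comp_apply, hιX, hβt]
      rw [this]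
      exact hTi
    have hB : ∀ i : Fin n, IsAlgebraic (Algebra.adjoin ℂ
        (Set.range fun _ : Fin 1 => Ideal.Quotient.mk Q (X j1))) (Ideal.Quotient.mk Q (X i)) := by
      intro i
      by_contra hna
      have h1 : AlgebraicIndependent ℂ (fun o : Option (Fin 1) =>
          o.elim (Ideal.Quotient.mk Q (X i)) fun _ : Fin 1 => Ideal.Quotient.mk Q (X j1)) :=
        (hA.option_iff_transcendental _).2 hna
      have h2 := h1.map' (f := ι) hι
      have h3 : (ι ∘ fun o : Option (Fin 1) =>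
          o.elim (Ideal.Quotient.mk Q (X i)) fun _ : Fin 1 => Ideal.Quotient.mk Q (X j1)) =
          fun o : Option (Fin 1) => φ (o.elim (bF i) fun _ : Fin 1 => bF j1) := by
        funext o
        cases o with
        | none => exact hιX i
        | some l => exact hιX j1
      rw [h3] at h2
      have h4 : ¬ AlgebraicIndependent ka
          (fun o : Option (Fin 1) => o.elim (b i) (fun _ : Fin 1 => b j1)) := by
        intro h5
        exact ((hbt.option_iff_transcendental (b i)).1 h5) (hbk i)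
      apply h4
      rw [algebraicIndependent_iff]
      intro f hf
      have h6 : aeval (fun o : Option (Fin 1) =>
          ((o.elim (bF i) (fun _ : Fin 1 => bF j1) : F) : ℂ)) f = 0 := by
        rw [← hf]
        congr 2
        funext o
        cases o <;> rfl
      have h7 := hrel _ f h6
      have h8 := (algebraicIndependent_iff.1 h2) _ h7
      exact (map_injective _ hθ) (by rw [h8, map_zero])
    have hC : Algebra.IsAlgebraic (Algebra.adjoin ℂ
        (Set.range fun _ : Fin 1 => Ideal.Quotient.mk Q (X j1))) (MvPolynomial (Fin n) ℂ ⧸ Q) := by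
      refine ⟨fun q => ?_⟩
      obtain ⟨f, rfl⟩ := Ideal.Quotient.mk_surjective q
      have h1 : ∀ f : MvPolynomial (Fin n) ℂ, Ideal.Quotient.mk Q f ∈ Subalgebra.algebraicClosure
          (Algebra.adjoin ℂ (Set.range fun _ : Fin 1 => Ideal.Quotient.mk Q (X j1)))
          (MvPolynomial (Fin n) ℂ ⧸ Q) := by
        intro f
        induction f using MvPolynomial.induction_on with
        | C a =>
          rw [Subalgebra.mem_algebraicClosure]
          exact isAlgebraic_algebraMap (algebraMap ℂ (Algebra.adjoin ℂ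
            (Set.range fun _ : Fin 1 => Ideal.Quotient.mk Q (X j1))) a)
        | add f g hf hg =>
          rw [map_add]
          exact add_mem hf hg
        | mul_X f i hf =>
          rw [map_mul]
          exact mul_mem hf (hB i)
      exact h1 f
    have hD := hA.isTranscendenceBasis_iff_isAlgebraic.2 hC
    have hE := hD.cardinalMk_eq_trdeg
    rw [← hE, Cardinal.mk_fintype, Fintype.card_fin]
    norm_num
  · intro g hg
    have h1 := hrel bF g hg
    exact h1

private theorem fibre_omega : ∃ (Ω : Type) (_ : Field Ω) (_ : Algebra ℂ Ω) (_ : IsAlgClosed Ω)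
    (T : Ω), Transcendental ℂ T :=
  ⟨AlgebraicClosure (RatFunc ℂ), inferInstance, inferInstance, inferInstance,
    algebraMap (RatFunc ℂ) (AlgebraicClosure (RatFunc ℂ)) RatFunc.X,
    (transcendental_algebraMap_iff (algebraMap (RatFunc ℂ)
      (AlgebraicClosure (RatFunc ℂ))).injective).2 RatFunc.transcendental_X⟩

theorem fibre_aux {n : ℕ} (ka : Subfield ℂ) (θ : ka →+* ℂ) (b : Fin n → ℂ) (hb : ∀ j, b j ≠ 0)
    (j1 : Fin n) (hbt : AlgebraicIndependent ka (fun _ : Fin 1 => b j1))
    (hbk : ∀ j, IsAlgebraic (Algebra.adjoin ka (Set.range fun _ : Fin 1 => b j1)) (b j)) :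
    ∃ Q : Ideal (MvPolynomial (Fin n) ℂ), Q.IsPrime ∧
      (∀ j : Fin n, (X j : MvPolynomial (Fin n) ℂ) ∉ Q) ∧
      Algebra.trdeg ℂ (MvPolynomial (Fin n) ℂ ⧸ Q) = 1 ∧
      ∀ g : MvPolynomial (Fin n) ka, aeval b g = 0 → map θ g ∈ Q := by
  obtain ⟨Ω, i1, i2, i3, T, hT⟩ := fibre_omega
  exact fibre_aux0 Ω T hT ka θ b hb j1 hbt hbk

private theorem fb_le {k ka : Subfield ℂ} (S1 : Subalgebra k ℂ) (S2 : Subalgebra ka ℂ)
    (h : ∀ y ∈ S1, y ∈ S2) (x : ℂ) (hx : IsAlgebraic S1 x) : IsAlgebraic S2 x := by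
  let g : S1 →+* S2 :=
    { toFun := fun y => ⟨y, h y y.2⟩
      map_one' := rfl
      map_mul' := fun _ _ => rfl
      map_zero' := rfl
      map_add' := fun _ _ => rfl }
  have hg : Function.Injective g := by
    intro y z hyz
    exact Subtype.ext (congrArg (fun w : S2 => (w : ℂ)) hyz)
  obtain ⟨q, hq0, hq⟩ := hx
  refine ⟨q.map g, (Polynomial.map_ne_zero_iff hg).2 hq0, ?_⟩
  rw [Polynomial.aeval_def, Polynomial.eval₂_map]
  have : (algebraMap S2 ℂ).comp g = algebraMap S1 ℂ := RingHom.ext fun _ => rfl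
  rw [this]
  exact hq

private theorem fb_adj {k ka : Subfield ℂ} (h : ∀ c ∈ k, c ∈ ka) (Y : Set ℂ)
    (S2 : Subalgebra ka ℂ) (hY : ∀ y ∈ Y, y ∈ S2) (y : ℂ) (hy : y ∈ Algebra.adjoin k Y) :
    y ∈ S2 := by
  induction hy using Algebra.adjoin_induction with
  | mem y hy => exact hY y hy
  | algebraMap r => exact S2.algebraMap_mem ⟨(r : ℂ), h _ r.2⟩
  | add y z _ _ h1 h2 => exact add_mem h1 h2
  | mul y z _ _ h1 h2 => exact mul_mem h1 h2

theorem fibre_curve {n : ℕ} (P : Ideal (MvPolynomial (Fin n ⊕ Fin n) ℂ)) (hP : P.IsPrime)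
    (hY : ∀ j : Fin n, (X (Sum.inr j) : MvPolynomial (Fin n ⊕ Fin n) ℂ) ∉ P)
    (hdim : Algebra.trdeg ℂ (MvPolynomial (Fin n ⊕ Fin n) ℂ ⧸ P) = n)
    (F : MvPolynomial (Fin n) ℂ) (hF0 : F ≠ 0)
    (hF : ∀ f : MvPolynomial (Fin n) ℂ, rename Sum.inl f ∈ P ↔ F ∣ f)
    (k : Subfield ℂ) (hk : (k : Set ℂ).Countable) (p : Fin n ⊕ Fin n → ℂ)
    (hp : ∀ f : MvPolynomial (Fin n ⊕ Fin n) k, aeval p f = 0 ↔ map (algebraMap k ℂ) f ∈ P)
    (hx : ∀ x : Fin n ⊕ Fin n → ℂ, (∀ f : MvPolynomial (Fin n ⊕ Fin n) k,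
      map (algebraMap k ℂ) f ∈ P → aeval x f = 0) → ∀ f ∈ P, eval x f = 0)
    (x : Fin n → ℂ)
    (hxa : ∀ f : MvPolynomial (Fin n) k, aeval x f = 0 ↔ aeval (fun j => p (Sum.inl j)) f = 0) :
    ∃ Q : Ideal (MvPolynomial (Fin n) ℂ), Q.IsPrime ∧
      (∀ j : Fin n, (X j : MvPolynomial (Fin n) ℂ) ∉ Q) ∧
      Algebra.trdeg ℂ (MvPolynomial (Fin n) ℂ ⧸ Q) = 1 ∧
      ∀ w : Fin n → ℂ, (∀ g ∈ Q, eval w g = 0) → ∀ f ∈ P, eval (Sum.elim x w) f = 0 := by
  classical
  -- `n = m + 1`
  cases n with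
  | zero =>
    exfalso
    apply hP.ne_top
    rw [Ideal.eq_top_iff_one]
    have h0 := eq_C_of_isEmpty F
    have hc : coeff 0 F ≠ 0 := by
      intro h1
      apply hF0
      rw [h0, h1, C_0]
    have h1 : F ∣ 1 := by
      refine ⟨C (coeff 0 F)⁻¹, ?_⟩
      conv_rhs => rw [h0]
      rw [coeff_C, if_pos rfl, ← C_mul, mul_inv_cancel₀ hc, C_1]
    have h2 := (hF 1).2 h1
    rwa [map_one] at h2
  | succ m =>
  obtain ⟨a, ha⟩ : ∃ a : Fin (m + 1) → ℂ, a = fun j => p (Sum.inl j) := ⟨_, rfl⟩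
  obtain ⟨b, hbdef⟩ : ∃ b : Fin (m + 1) → ℂ, b = fun j => p (Sum.inr j) := ⟨_, rfl⟩
  have hpe : Sum.elim a b = p := by
    funext i
    cases i with
    | inl j => rw [Sum.elim_inl, ha]
    | inr j => rw [Sum.elim_inr, hbdef]
  have hb : ∀ j, b j ≠ 0 := by
    intro j h0
    apply hY j
    have h1 := (hp (X (Sum.inr j))).1 (by rw [aeval_X, ← hpe]; exact h0)
    rwa [map_X] at h1
  have hta : td (k : Set ℂ) a = m := by rw [ha]; exact td_fibre P hP F hF0 hF k hk p hp hx
  have htd : td (k : Set ℂ) (Sum.elim a b) = m + 1 := by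
    rw [hpe]
    exact td_of_trdeg P hP k hk p hp hx (m + 1) hdim
  obtain ⟨s, j1, hs, ht, haa, hba⟩ := exists_sj k a b htd hta
  rw [← ha] at hxa
  obtain ⟨τ, hτk, hτa⟩ := exists_aut k hk a x (fun f => (hxa f).symm)
  obtain ⟨ka, hka⟩ : ∃ ka : Subfield ℂ, ka = Subfield.closure ((k : Set ℂ) ∪ Set.range a) :=
    ⟨_, rfl⟩
  have hkka : ∀ c ∈ k, c ∈ ka := fun c hc => by rw [hka]; exact Subfield.subset_closure (Or.inl hc)
  have haka : ∀ j, a j ∈ ka := fun j => by rw [hka]; exact Subfield.subset_closure (Or.inr ⟨j, rfl⟩)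
  -- `b j1` is transcendental over `ka`
  have hbt : AlgebraicIndependent ka (fun _ : Fin 1 => b j1) := by
    refine (algebraicIndependent_unique_type_iff (ι := Fin 1)).2 ?_
    intro halg
    have h1 : td (k : Set ℂ) (Fin.snoc (fun i => a (s i)) (b j1) : Fin (m + 1) → ℂ) ≤
        td (k : Set ℂ) a := by
      refine rk_le_of_dep _ _ _ ?_
      intro D hD hz i
      have hDka : D ∈ DerOver (ka : Set ℂ) := by
        rw [hka, derOver_closure]
        intro y hy
        rcases hy with hy | ⟨j, rfl⟩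
        · exact hD y hy
        · exact hz j
      refine Fin.lastCases ?_ (fun j => ?_) i
      · rw [Fin.snoc_last]
        exact derOver_algebraic ka D hDka _ halg
      · rw [Fin.snoc_castSucc]
        exact hz _
    rw [(ind_iff k _).1 ht, hta] at h1
    omega
  -- the other `b j` are algebraic over `ka (b j1)`
  have hbk : ∀ j, IsAlgebraic (Algebra.adjoin ka (Set.range fun _ : Fin 1 => b j1)) (b j) := by
    intro j
    refine fb_le _ _ (fun y hy => fb_adj hkka _ _ ?_ y hy) _ (hba j)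
    rintro y ⟨i, rfl⟩
    refine Fin.lastCases ?_ (fun j => ?_) i
    · rw [Fin.snoc_last]
      exact Algebra.subset_adjoin ⟨0, rfl⟩
    · rw [Fin.snoc_castSucc]
      exact (Algebra.adjoin ka (Set.range fun _ : Fin 1 => b j1)).algebraMap_mem
        ⟨a (s j), haka _⟩
  let θ : ka →+* ℂ := (τ : ℂ →+* ℂ).comp ka.subtype
  obtain ⟨Q, hQ, hQY, hQd, hQg⟩ := fibre_aux ka θ b hb j1 hbt hbk
  refine ⟨Q, hQ, hQY, hQd, ?_⟩
  intro w hw
  apply hx
  intro f hf
  have hf0 := (hp f).2 hf
  -- `g = f(a, Y)`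
  let incl : k →+* ka := Subfield.inclusion hkka
  obtain ⟨g, hg⟩ : ∃ g : MvPolynomial (Fin (m + 1)) ka, g = eval₂ (C.comp incl)
    (Sum.elim (fun j => C (⟨a j, haka j⟩ : ka)) X) f := ⟨_, rfl⟩
  have h1 : aeval b g = aeval p f := by
    rw [hg, ← coe_eval₂Hom, ← AlgHom.coe_toRingHom, ← RingHom.comp_apply]
    rw [aeval_def]
    have : ((aeval b : MvPolynomial (Fin (m + 1)) ka →ₐ[ka] ℂ).toRingHom).comp
        (eval₂Hom (C.comp incl) (Sum.elim (fun j => C (⟨a j, haka j⟩ : ka)) X)) =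
        eval₂Hom (algebraMap k ℂ) p := by
      apply MvPolynomial.ringHom_ext
      · intro r
        rw [RingHom.comp_apply, eval₂Hom_C, eval₂Hom_C, RingHom.comp_apply]
        exact aeval_C _ _
      · intro i
        rw [RingHom.comp_apply, eval₂Hom_X', eval₂Hom_X', ← hpe]
        cases i with
        | inl j => exact aeval_C _ _
        | inr j => exact aeval_X _ _
    exact congrArg (fun h => h f) this
  have h2 := hQg g (h1.trans hf0)
  have h3 := hw _ h2
  have h4 : eval w (map θ g) = aeval (Sum.elim x w) f := by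
    rw [hg, ← coe_eval₂Hom, ← RingHom.comp_apply, ← RingHom.comp_apply, aeval_def]
    have : ((eval w).comp (map θ)).comp
        (eval₂Hom (C.comp incl) (Sum.elim (fun j => C (⟨a j, haka j⟩ : ka)) X)) =
        eval₂Hom (algebraMap k ℂ) (Sum.elim x w) := by
      apply MvPolynomial.ringHom_ext
      · intro r
        rw [RingHom.comp_apply, eval₂Hom_C, eval₂Hom_C, RingHom.comp_apply, RingHom.comp_apply,
          map_C, eval_C]
        exact hτk r r.2
      · intro i
        rw [RingHom.comp_apply, eval₂Hom_X', eval₂Hom_X']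
        cases i with
        | inl j =>
          rw [Sum.elim_inl, Sum.elim_inl, RingHom.comp_apply, map_C, eval_C]
          exact hτa j
        | inr j =>
          rw [Sum.elim_inr, Sum.elim_inr, RingHom.comp_apply, map_X, eval_X]
    exact congrArg (fun h => h f) this
  rw [← h4]
  exact h3

end Pool.Agent.EXP
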