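import Pool.Agent.EXP.LocRoots

/-!
# EXP / Conn: an irreducible curve without finitely many fibres is connected

PROOF.  Let `Z` be the set, `Z ⊆ u ∪ v` with `u, v` open, `Z ∩ u ∩ v = ∅`. For `z ∉ S` let
`q_z = ∏ (X - θ)` over the roots `θ` of `p(z, ·)` with `(z, θ) ∈ u`. By `local_roots` the set of the `i`
with `(z, θ_i(z)) ∈ u` is constant near `z₀`, so the degree of `q_z` is locally constant, hence constant
`= e` (the complement of a finite set in `ℂ` is connected), and the coefficients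
of `q_z` are holomorphic on `ℂ \ S`, bounded by `C (1 + |z|)^M` (roots of a monic polynomial are bounded
by `1 + ∑ |coefficients|`). `poly_of_bound`: `q_z = q(z, ·)` for a monic `q ∈ ℂ[z][Θ]` of degree `e`. The
remainder of `p` modulo the monic `q` vanishes for all `z ∉ S`, so `q ∣ p`, and `e = 0` or `e = deg p` as
`p` is irreducible: `Z ⊆ v` or `Z ⊆ u`.
-/

set_option autoImplicit false

namespace Pool.Agent.EXP

open Topology

private theorem ev_mem {p : Polynomial (Polynomial ℂ)} (hm : p.Monic) (z θ : ℂ) :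
    ev p z θ = 0 ↔ θ ∈ (p.map (Polynomial.evalRingHom z)).roots := by
  rw [Polynomial.mem_roots (hm.map _).ne_zero]
  rfl

open Classical in
/-- the roots in `u` -/
private noncomputable def Ru (p : Polynomial (Polynomial ℂ)) (u : Set (ℂ × ℂ)) (z : ℂ) :
    Multiset ℂ :=
  ((p.map (Polynomial.evalRingHom z)).roots).filter (fun θ => (z, θ) ∈ u)

open Classical in
private theorem Ru_le (p : Polynomial (Polynomial ℂ)) (u : Set (ℂ × ℂ)) (z : ℂ) :
    Ru p u z ≤ (p.map (Polynomial.evalRingHom z)).roots :=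
  Multiset.filter_le _ _

open Classical in
private theorem mem_Ru (p : Polynomial (Polynomial ℂ)) (u : Set (ℂ × ℂ)) (z θ : ℂ) :
    θ ∈ Ru p u z ↔ θ ∈ (p.map (Polynomial.evalRingHom z)).roots ∧ (z, θ) ∈ u :=
  Multiset.mem_filter

/-- the factor of the roots in `u` -/
private noncomputable def Qu (p : Polynomial (Polynomial ℂ)) (u : Set (ℂ × ℂ)) (z : ℂ) :
    Polynomial ℂ :=
  ((Ru p u z).map (fun θ => Polynomial.X - Polynomial.C θ)).prod

private theorem Qu_monic (p : Polynomial (Polynomial ℂ)) (u : Set (ℂ × ℂ)) (z : ℂ) :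
    (Qu p u z).Monic :=
  Polynomial.monic_multiset_prod_of_monic _ _ fun θ _ => Polynomial.monic_X_sub_C θ

private theorem Qu_deg (p : Polynomial (Polynomial ℂ)) (u : Set (ℂ × ℂ)) (z : ℂ) :
    (Qu p u z).natDegree = (Ru p u z).card :=
  Polynomial.natDegree_multiset_prod_X_sub_C_eq_card _

private theorem Qu_dvd (p : Polynomial (Polynomial ℂ)) (u : Set (ℂ × ℂ)) (z : ℂ) :
    Qu p u z ∣ p.map (Polynomial.evalRingHom z) := by
  refine dvd_trans ?_ (Polynomial.prod_multiset_X_sub_C_dvd _)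
  exact Multiset.prod_dvd_prod_of_le (Multiset.map_le_map (Ru_le p u z))

/-- coefficients of a product of linear factors: bound -/
private theorem coeff_bound (B : ℝ) (hB : 0 ≤ B) (T : Multiset ℂ) (hT : ∀ θ ∈ T, ‖θ‖ ≤ B)
    (k : ℕ) :
    ‖((T.map (fun θ => Polynomial.X - Polynomial.C θ)).prod).coeff k‖ ≤ (1 + B) ^ T.card := by
  induction T using Multiset.induction_on generalizing k with
  | empty =>
    simp only [Multiset.map_zero, Multiset.prod_zero, Multiset.card_zero, pow_zero]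
    rw [Polynomial.coeff_one]
    split_ifs <;> simp
  | cons a T ih =>
    have ih' := ih fun θ hθ => hT θ (Multiset.mem_cons_of_mem hθ)
    have ha := hT a (Multiset.mem_cons_self a T)
    rw [Multiset.map_cons, Multiset.prod_cons, Multiset.card_cons, pow_succ, sub_mul,
      Polynomial.coeff_sub, Polynomial.coeff_C_mul]
    have h1 : ‖(Polynomial.X * (T.map (fun θ => Polynomial.X - Polynomial.C θ)).prod).coeff k‖ ≤
        (1 + B) ^ T.card := by
      rcases k with _ | k
      · rw [Polynomial.mul_coeff_zero, Polynomial.coeff_X_zero, zero_mul, norm_zero]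
        positivity
      · rw [Polynomial.coeff_X_mul]
        exact ih' k
    have h2 : ‖a * ((T.map (fun θ => Polynomial.X - Polynomial.C θ)).prod).coeff k‖ ≤
        B * (1 + B) ^ T.card := by
      rw [norm_mul]
      exact mul_le_mul ha (ih' k) (norm_nonneg _) hB
    refine (norm_sub_le _ _).trans ?_
    linarith

/-- coefficients of a product of linear factors: holomorphic -/
private theorem coeff_diff {N : ℕ} (θ : Fin N → ℂ → ℂ) (s : Set ℂ)
    (hθ : ∀ i, DifferentiableOn ℂ (θ i) s) (I : Finset (Fin N)) (k : ℕ) :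
    DifferentiableOn ℂ
      (fun z => (∏ i ∈ I, (Polynomial.X - Polynomial.C (θ i z))).coeff k) s := by
  induction I using Finset.induction_on generalizing k with
  | empty =>
    simp only [Finset.prod_empty]
    exact differentiableOn_const _
  | insert a I ha ih =>
    have h1 : ∀ z, (∏ i ∈ insert a I, (Polynomial.X - Polynomial.C (θ i z))).coeff k =
        (Polynomial.X * ∏ i ∈ I, (Polynomial.X - Polynomial.C (θ i z))).coeff k -
          θ a z * (∏ i ∈ I, (Polynomial.X - Polynomial.C (θ i z))).coeff k := by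
      intro z
      rw [Finset.prod_insert ha, sub_mul, Polynomial.coeff_sub, Polynomial.coeff_C_mul]
    simp_rw [h1]
    refine DifferentiableOn.sub ?_ ((hθ a).mul (ih k))
    rcases k with _ | k
    · simp only [Polynomial.mul_coeff_zero, Polynomial.coeff_X_zero, zero_mul]
      exact differentiableOn_const _
    · simp_rw [Polynomial.coeff_X_mul]
      exact ih k

/-- a polynomial has polynomial growth -/
private theorem poly_growth (c : Polynomial ℂ) (M : ℕ) (hM : c.natDegree ≤ M) : ∃ C : ℝ, 0 ≤ C ∧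
    ∀ z : ℂ, ‖c.eval z‖ ≤ C * (1 + ‖z‖) ^ M := by
  refine ⟨∑ i ∈ Finset.range (c.natDegree + 1), ‖c.coeff i‖,
    Finset.sum_nonneg fun i _ => norm_nonneg _, fun z => ?_⟩
  rw [Polynomial.eval_eq_sum_range, Finset.sum_mul]
  refine (norm_sum_le _ _).trans (Finset.sum_le_sum fun i hi => ?_)
  rw [norm_mul, norm_pow]
  refine mul_le_mul_of_nonneg_left ?_ (norm_nonneg _)
  have h1 : i ≤ M := by
    have := Finset.mem_range.1 hi
    omega
  have h2 : 1 ≤ 1 + ‖z‖ := by linarith [norm_nonneg z]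
  calc ‖z‖ ^ i ≤ (1 + ‖z‖) ^ i := pow_le_pow_left₀ (norm_nonneg _) (by linarith) i
    _ ≤ (1 + ‖z‖) ^ M := pow_le_pow_right₀ h2 h1

/-- the roots of a monic polynomial are bounded -/
private theorem root_bound (P : Polynomial ℂ) (hP : P.Monic) (θ : ℂ) (hθ : P.eval θ = 0) :
    ‖θ‖ ≤ 1 + ∑ i ∈ Finset.range P.natDegree, ‖P.coeff i‖ := by
  have hs : 0 ≤ ∑ i ∈ Finset.range P.natDegree, ‖P.coeff i‖ :=
    Finset.sum_nonneg fun i _ => norm_nonneg _
  by_cases h1 : ‖θ‖ ≤ 1
  · linarith
  push Not at h1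
  have hn : P.natDegree ≠ 0 := by
    intro h0
    have h2 : P = 1 := (Polynomial.Monic.natDegree_eq_zero hP).1 h0
    rw [h2] at hθ
    simp at hθ
  obtain ⟨n, hn'⟩ := Nat.exists_eq_succ_of_ne_zero hn
  rw [Polynomial.eval_eq_sum_range, Finset.sum_range_succ, hP.coeff_natDegree, one_mul] at hθ
  have h3 : ‖θ‖ ^ P.natDegree ≤ (∑ i ∈ Finset.range P.natDegree, ‖P.coeff i‖) * ‖θ‖ ^ n := by
    have h4 : θ ^ P.natDegree = -∑ i ∈ Finset.range P.natDegree, P.coeff i * θ ^ i := by
      linear_combination hθ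
    rw [← norm_pow, h4, norm_neg, Finset.sum_mul]
    refine (norm_sum_le _ _).trans (Finset.sum_le_sum fun i hi => ?_)
    rw [norm_mul, norm_pow]
    refine mul_le_mul_of_nonneg_left ?_ (norm_nonneg _)
    refine pow_le_pow_right₀ h1.le ?_
    have := Finset.mem_range.1 hi
    omega
  have h5 : 0 < ‖θ‖ ^ n := by positivity
  rw [hn', Nat.succ_eq_add_one, pow_succ'] at h3
  have h6 := le_of_mul_le_mul_right h3 h5
  rw [hn', Nat.succ_eq_add_one]
  linarith

open Classical in
/-- the local form of the factor -/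
private theorem Qu_local (p : Polynomial (Polynomial ℂ)) (hm : p.Monic) (S : Finset ℂ)
    (hS : ∀ z ∉ S, (p.map (Polynomial.evalRingHom z)).Separable) (u v : Set (ℂ × ℂ))
    (hu : IsOpen u) (hv : IsOpen v)
    (huv : {q : ℂ × ℂ | q.1 ∉ S ∧ ev p q.1 q.2 = 0} ⊆ u ∪ v)
    (hd : {q : ℂ × ℂ | q.1 ∉ S ∧ ev p q.1 q.2 = 0} ∩ (u ∩ v) = ∅) (z₀ : ℂ) (hz₀ : z₀ ∉ S) :
    ∃ (r : ℝ) (θ : Fin p.natDegree → ℂ → ℂ) (I : Finset (Fin p.natDegree)), 0 < r ∧
      (∀ i, DifferentiableOn ℂ (θ i) (Metric.ball z₀ r)) ∧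
      (∀ z ∈ Metric.ball z₀ r, (Ru p u z).card = I.card ∧
        Qu p u z = ∏ i ∈ I, (Polynomial.X - Polynomial.C (θ i z))) ∧
      (p.map (Polynomial.evalRingHom z₀)).roots.card = p.natDegree := by
  obtain ⟨r, θ, hr, hθd, -, hθp⟩ := local_roots p hm z₀ (hS z₀ hz₀)
  have hroots : ∀ z ∈ Metric.ball z₀ r, (p.map (Polynomial.evalRingHom z)).roots =
      (Finset.univ : Finset (Fin p.natDegree)).val.map (fun i => θ i z) := by
    intro z hz
    rw [hθp z hz]
    have h1 : ∏ i, (Polynomial.X - Polynomial.C (θ i z)) =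
        (((Finset.univ : Finset (Fin p.natDegree)).val.map (fun i => θ i z)).map
          (fun a => Polynomial.X - Polynomial.C a)).prod := by
      rw [Multiset.map_map]
      rfl
    rw [h1, Polynomial.roots_multiset_prod_X_sub_C]
  have hz0 : z₀ ∈ Metric.ball z₀ r := Metric.mem_ball_self hr
  have hmemZ : ∀ z ∈ Metric.ball z₀ r, z ∉ S → ∀ i,
      ((z, θ i z) : ℂ × ℂ) ∈ {q : ℂ × ℂ | q.1 ∉ S ∧ ev p q.1 q.2 = 0} := by
    intro z hz hzS i
    refine ⟨hzS, ?_⟩
    rw [ev_mem hm, hroots z hz, Multiset.mem_map]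
    exact ⟨i, Finset.mem_univ i, rfl⟩
  -- the eventual behaviour
  have hev : ∀ i, ∀ᶠ z in 𝓝 z₀, (if ((z₀, θ i z₀) : ℂ × ℂ) ∈ u then ((z, θ i z) : ℂ × ℂ) ∈ u
      else ((z, θ i z) : ℂ × ℂ) ∈ v) := by
    intro i
    have hc : ContinuousAt (fun z => ((z, θ i z) : ℂ × ℂ)) z₀ :=
      continuousAt_id.prodMk (((hθd i).differentiableAt
        (Metric.isOpen_ball.mem_nhds hz0)).continuousAt)
    split_ifs with h
    · exact hc.eventually (hu.mem_nhds h)
    · have h2 := huv (hmemZ z₀ hz0 hz₀ i)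
      exact hc.eventually (hv.mem_nhds (h2.resolve_left h))
  have hevS : ∀ᶠ z in 𝓝 z₀, z ∉ S := by
    have h1 : IsOpen ((S : Set ℂ)ᶜ) := S.finite_toSet.isClosed.isOpen_compl
    exact h1.mem_nhds hz₀
  have hall : ∀ᶠ z in 𝓝 z₀, z ∈ Metric.ball z₀ r ∧ z ∉ S ∧
      ∀ i, (if ((z₀, θ i z₀) : ℂ × ℂ) ∈ u then ((z, θ i z) : ℂ × ℂ) ∈ u
        else ((z, θ i z) : ℂ × ℂ) ∈ v) :=
    Filter.Eventually.and (Metric.ball_mem_nhds z₀ hr) (hevS.and (Filter.eventually_all.2 hev))
  obtain ⟨r', hr', hball⟩ := Metric.eventually_nhds_iff_ball.1 hall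
  refine ⟨r', θ, Finset.univ.filter (fun i => ((z₀, θ i z₀) : ℂ × ℂ) ∈ u), hr', ?_, ?_, ?_⟩
  · intro i
    exact (hθd i).mono fun z hz => (hball z hz).1
  · intro z hz
    obtain ⟨hzr, hzS, hi⟩ := hball z hz
    have hiff : ∀ i, ((z, θ i z) : ℂ × ℂ) ∈ u ↔ ((z₀, θ i z₀) : ℂ × ℂ) ∈ u := by
      intro i
      have h1 := hi i
      split_ifs at h1 with h2
      · exact ⟨fun _ => h2, fun _ => h1⟩
      · refine ⟨fun h3 => ?_, fun h3 => absurd h3 h2⟩
        exfalso
        have h4 : ((z, θ i z) : ℂ × ℂ) ∈ {q : ℂ × ℂ | q.1 ∉ S ∧ ev p q.1 q.2 = 0} ∩ (u ∩ v) :=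
          ⟨hmemZ z hzr hzS i, h3, h1⟩
        rw [hd] at h4
        exact h4
    have hRu : Ru p u z = ((Finset.univ.filter (fun i => ((z₀, θ i z₀) : ℂ × ℂ) ∈ u)).val).map
        (fun i => θ i z) := by
      unfold Ru
      rw [hroots z hzr, Multiset.filter_map, Finset.filter_val]
      congr 1
      refine Multiset.filter_congr fun i _ => ?_
      exact hiff i
    refine ⟨?_, ?_⟩
    · rw [hRu, Multiset.card_map]
      rfl
    · unfold Qu
      rw [hRu, Multiset.map_map]
      rfl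
  · rw [hroots z₀ hz0, Multiset.card_map]
    simp

theorem conn (p : Polynomial (Polynomial ℂ)) (hm : p.Monic) (hirr : Irreducible p) (S : Finset ℂ)
    (hS : ∀ z ∉ S, (p.map (Polynomial.evalRingHom z)).Separable) :
    IsPreconnected {q : ℂ × ℂ | q.1 ∉ S ∧ ev p q.1 q.2 = 0} := by
  rw [isPreconnected_iff_subset_of_disjoint]
  intro u v hu hv huv hd
  have hloc := Qu_local p hm S hS u v hu hv huv hd
  -- the complement of `S` is connected
  have hScon : IsPreconnected ((S : Set ℂ)ᶜ) :=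
    (S.countable_toSet.isConnected_compl_of_one_lt_rank (by
      rw [Complex.rank_real_complex]
      norm_num)).isPreconnected
  have hSne : ∃ z₁ : ℂ, z₁ ∉ S := Infinite.exists_notMem_finset S
  obtain ⟨z₁, hz₁⟩ := hSne
  obtain ⟨e, he⟩ : ∃ e : ℕ, e = (Ru p u z₁).card := ⟨_, rfl⟩
  have hcard : ∀ z ∉ S, (Ru p u z).card = e := by
    intro z hz
    rw [he]
    refine hScon.constant (f := fun z => (Ru p u z).card) ?_ hz hz₁
    intro w hw
    obtain ⟨r, θ, I, hr, -, h2, -⟩ := hloc w hw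
    refine ContinuousAt.continuousWithinAt ?_
    have h3 : (fun z => (Ru p u z).card) =ᶠ[𝓝 w] fun _ => I.card := by
      filter_upwards [Metric.ball_mem_nhds w hr] with z hz
      exact (h2 z hz).1
    exact continuousAt_const.congr h3.symm
  have hdeg : ∀ z ∉ S, (Qu p u z).natDegree = e := fun z hz => by
    rw [Qu_deg, hcard z hz]
  have hN : ∀ z ∉ S, (p.map (Polynomial.evalRingHom z)).roots.card = p.natDegree := by
    intro z hz
    obtain ⟨r, θ, I, -, -, -, h⟩ := hloc z hz
    exact h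
  -- holomorphy of the coefficients
  have hdiff : ∀ k, DifferentiableOn ℂ (fun z => (Qu p u z).coeff k) ((S : Set ℂ)ᶜ) := by
    intro k w hw
    obtain ⟨r, θ, I, hr, h1, h2, -⟩ := hloc w hw
    have h3 := coeff_diff θ (Metric.ball w r) h1 I k
    have h4 : DifferentiableAt ℂ (fun z => (∏ i ∈ I,
        (Polynomial.X - Polynomial.C (θ i z))).coeff k) w :=
      h3.differentiableAt (Metric.ball_mem_nhds w hr)
    refine DifferentiableAt.differentiableWithinAt ?_
    refine h4.congr_of_eventuallyEq ?_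
    filter_upwards [Metric.ball_mem_nhds w hr] with z hz
    rw [(h2 z hz).2]
  -- growth of the coefficients
  obtain ⟨D, hD⟩ : ∃ D : ℕ, D = ∑ i ∈ Finset.range p.natDegree, (p.coeff i).natDegree :=
    ⟨_, rfl⟩
  have hgr : ∀ i : ℕ, ∃ C : ℝ, 0 ≤ C ∧ (i ∈ Finset.range p.natDegree →
      ∀ z : ℂ, ‖(p.coeff i).eval z‖ ≤ C * (1 + ‖z‖) ^ D) := by
    intro i
    by_cases hi : i ∈ Finset.range p.natDegree
    · obtain ⟨C, h0, h⟩ := poly_growth (p.coeff i) D (by
        rw [hD]
        exact Finset.single_le_sum (f := fun i => (p.coeff i).natDegree)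
          (fun i _ => Nat.zero_le _) hi)
      exact ⟨C, h0, fun _ => h⟩
    · exact ⟨0, le_rfl, fun h => absurd h hi⟩
  choose Cc hCc0 hCc using hgr
  obtain ⟨C', hC'⟩ : ∃ C' : ℝ, C' = 1 + ∑ i ∈ Finset.range p.natDegree, Cc i := ⟨_, rfl⟩
  have hC'1 : 1 ≤ C' := by
    rw [hC']
    linarith [Finset.sum_nonneg fun i (_ : i ∈ Finset.range p.natDegree) => hCc0 i]
  have hroot : ∀ z θ : ℂ, θ ∈ (p.map (Polynomial.evalRingHom z)).roots →
      ‖θ‖ ≤ C' * (1 + ‖z‖) ^ D := by
    intro z θ hθ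
    have h1 := root_bound (p.map (Polynomial.evalRingHom z)) (hm.map _) θ
      ((Polynomial.mem_roots (hm.map _).ne_zero).1 hθ)
    rw [hm.natDegree_map] at h1
    refine h1.trans ?_
    have h2 : (1 : ℝ) ≤ (1 + ‖z‖) ^ D := one_le_pow₀ (by linarith [norm_nonneg z])
    rw [hC', add_mul, one_mul, Finset.sum_mul]
    refine add_le_add h2 (Finset.sum_le_sum fun i hi => ?_)
    rw [Polynomial.coeff_map, Polynomial.coe_evalRingHom]
    exact hCc i hi z
  have hcoef : ∀ k, ∀ z ∉ S, ‖(Qu p u z).coeff k‖ ≤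
      (2 * C') ^ p.natDegree * (1 + ‖z‖) ^ (D * p.natDegree) := by
    intro k z hz
    have h2 : (1 : ℝ) ≤ (1 + ‖z‖) ^ D := one_le_pow₀ (by linarith [norm_nonneg z])
    have h3 : 1 ≤ C' * (1 + ‖z‖) ^ D := by nlinarith
    have h4 := coeff_bound (C' * (1 + ‖z‖) ^ D) (by linarith) (Ru p u z) (fun θ hθ =>
      hroot z θ (Multiset.mem_of_le (Ru_le p u z) hθ)) k
    have h5 : (Ru p u z).card ≤ p.natDegree := by
      rw [← hN z hz]
      exact Multiset.card_le_card (Ru_le p u z)
    refine h4.trans ?_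
    calc (1 + C' * (1 + ‖z‖) ^ D) ^ (Ru p u z).card ≤ (1 + C' * (1 + ‖z‖) ^ D) ^ p.natDegree :=
          pow_le_pow_right₀ (by linarith) h5
      _ ≤ (2 * C' * (1 + ‖z‖) ^ D) ^ p.natDegree :=
          pow_le_pow_left₀ (by linarith) (by linarith) _
      _ = _ := by rw [mul_pow, ← pow_mul]
  choose qk hqk using fun k => poly_of_bound S (fun z => (Qu p u z).coeff k) (hdiff k) _ _
    (hcoef k)
  -- the polynomial
  obtain ⟨q, hq⟩ : ∃ q : Polynomial (Polynomial ℂ), q = Polynomial.X ^ e +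
      ∑ k ∈ Finset.range e, Polynomial.C (qk k) * Polynomial.X ^ k := ⟨_, rfl⟩
  have hqdeg : (∑ k ∈ Finset.range e, Polynomial.C (qk k) * Polynomial.X ^ k :
      Polynomial (Polynomial ℂ)).degree < e := by
    refine Polynomial.mem_degreeLT.1 (Submodule.sum_mem _ fun k hk => Polynomial.mem_degreeLT.2 ?_)
    refine (Polynomial.degree_C_mul_X_pow_le _ _).trans_lt ?_
    exact_mod_cast Finset.mem_range.1 hk
  have hqm : q.Monic := by
    rw [hq]
    exact Polynomial.monic_X_pow_add hqdeg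
  have hqn : q.natDegree = e := by
    rw [hq]
    rw [Polynomial.natDegree_add_eq_left_of_degree_lt]
    · exact Polynomial.natDegree_X_pow e
    · rw [Polynomial.degree_X_pow]
      exact hqdeg
  have hqz : ∀ z ∉ S, q.map (Polynomial.evalRingHom z) = Qu p u z := by
    intro z hz
    ext k
    rcases lt_trichotomy k e with hk | hk | hk
    · rw [Polynomial.coeff_map, hq, Polynomial.coeff_add, Polynomial.coeff_X_pow,
        if_neg (by omega), zero_add, Polynomial.finsetSum_coeff]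
      simp only [Polynomial.coeff_C_mul, Polynomial.coeff_X_pow]
      rw [Finset.sum_eq_single k]
      · simp only [if_true, mul_one, Polynomial.coe_evalRingHom]
        exact (hqk k z hz).symm
      · intro b _ hb
        rw [if_neg (Ne.symm hb), mul_zero]
      · intro h
        exact absurd (Finset.mem_range.2 hk) h
    · subst hk
      have h1 : (q.map (Polynomial.evalRingHom z)).coeff k = 1 := by
        have := (hqm.map (Polynomial.evalRingHom z)).coeff_natDegree
        rwa [hqm.natDegree_map, hqn] at this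
      have h2 : (Qu p u z).coeff k = 1 := by
        have := (Qu_monic p u z).coeff_natDegree
        rwa [hdeg z hz] at this
      rw [h1, h2]
    · rw [Polynomial.coeff_eq_zero_of_natDegree_lt, Polynomial.coeff_eq_zero_of_natDegree_lt]
      · rw [hdeg z hz]; exact hk
      · rw [hqm.natDegree_map, hqn]; exact hk
  -- `q` divides `p`
  have hdvd : q ∣ p := by
    rw [← Polynomial.modByMonic_eq_zero_iff_dvd hqm]
    have h1 : ∀ z ∉ S, (p %ₘ q).map (Polynomial.evalRingHom z) = 0 := by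
      intro z hz
      rw [Polynomial.map_modByMonic _ hqm, hqz z hz,
        Polynomial.modByMonic_eq_zero_iff_dvd (Qu_monic p u z)]
      exact Qu_dvd p u z
    ext1 k
    rw [Polynomial.coeff_zero]
    refine Polynomial.eq_zero_of_infinite_isRoot _ (Set.Infinite.mono ?_
      S.finite_toSet.infinite_compl)
    intro z hz
    have h2 := congrArg (fun P => P.coeff k) (h1 z hz)
    simp only [Polynomial.coeff_map, Polynomial.coe_evalRingHom, Polynomial.coeff_zero] at h2
    exact h2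
  obtain ⟨w, hw⟩ := hdvd
  rcases hirr.isUnit_or_isUnit hw with h | h
  · -- `e = 0`
    right
    have he0 : e = 0 := by rw [← hqn]; exact Polynomial.natDegree_eq_zero_of_isUnit h
    rintro ⟨z, θ⟩ hzθ
    rcases huv hzθ with h1 | h1
    · exfalso
      have h2 : θ ∈ Ru p u z := (mem_Ru p u z θ).2 ⟨(ev_mem hm z θ).1 hzθ.2, h1⟩
      have h3 : Ru p u z = 0 := Multiset.card_eq_zero.1 (by rw [hcard z hzθ.1, he0])
      rw [h3] at h2
      exact Multiset.notMem_zero _ h2
    · exact h1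
  · left
    have hw0 : w ≠ 0 := h.ne_zero
    have heN : e = p.natDegree := by
      rw [hw, Polynomial.natDegree_mul hqm.ne_zero hw0, hqn,
        Polynomial.natDegree_eq_zero_of_isUnit h, add_zero]
    rintro ⟨z, θ⟩ hzθ
    have h1 : Ru p u z = (p.map (Polynomial.evalRingHom z)).roots := by
      refine Multiset.eq_of_le_of_card_le (Ru_le p u z) ?_
      rw [hcard z hzθ.1, heN, hN z hzθ.1]
    have h2 : θ ∈ Ru p u z := by
      rw [h1]
      exact (ev_mem hm z θ).1 hzθ.2
    exact ((mem_Ru p u z θ).1 h2).2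

end Pool.Agent.EXP
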