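import Pool.Agent.EXP.Defs

/-!
# EXP / Model: the plane model of a curve

PROOF.  `R = ℂ[Y]/Q`, `K = Frac R`, `z` = class of `X i0`, transcendental over `ℂ` (not constant: if it were
algebraic over `ℂ` it would be a constant, `ℂ` algebraically closed), `K` finite over `ℂ(z)`
(transcendence degree one, finitely generated). Primitive element `θ` (characteristic zero;
multiply it by an element of `ℂ[z]`) integral over `ℂ[z]`; `p` its minimal polynomial over `ℂ(z)`, which is
in `ℂ[z][Θ]` (integrally closed), monic, irreducible. `y_j = A_j(z, θ) / D(z)`, `y_j⁻¹ = B_j(z, θ) / D(z)`,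
a common denominator `D`, where `K = ⊕ ℂ(z) θ^i`; `θ = S₁(y) / S₂(y)` with `S₁, S₂ ∈ ℂ[Y]`, `S₂ ∉ Q`.
(1) If `D(z₀) ≠ 0`, `p(z₀, θ₀) = 0`, there is a ring homomorphism `ℂ[z, θ][1/D] → ℂ`, `z ↦ z₀`, `θ ↦ θ₀`
(`ℂ[z][Θ]/(p) → K` is injective), and `y_j, y_j⁻¹` are in `ℂ[z, θ][1/D] ⊆ K`: the image of `y` is in `Tz Q`,
`A_j(z₀, θ₀)/D(z₀)`; for `j = i0` it is `z₀`.
(2) `S = S₂ * D(X i0)` (so `S ∉ Q`): for `w ∈ Tz Q` with `S(w) ≠ 0` put `θ₀ = S₁(w)/S₂(w)`; the relations
`p(z, θ) = 0`, `D(z) y_j = A_j(z, θ)` hold in `K`, multiply by powers of `S₂`: relations in `Q`.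
-/

set_option autoImplicit false

namespace Pool.Agent.EXP

open MvPolynomial

/-- evaluation of `p(z, θ)` in an extension field of `ℂ` -/
private noncomputable def evK {K : Type} [Field K] [Algebra ℂ K] (z θ : K) :
    Polynomial (Polynomial ℂ) →+* K :=
  Polynomial.eval₂RingHom (Polynomial.aeval z : Polynomial ℂ →ₐ[ℂ] K).toRingHom θ

private theorem prim {K : Type} [Field K] [Algebra ℂ K] (z : K) (hz : Transcendental ℂ z)
    (S : Set K) (hSf : S.Finite) (hS : IntermediateField.adjoin ℂ S = ⊤)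
    (halg : ∀ x ∈ S, ∃ f : Polynomial (Polynomial ℂ), f ≠ 0 ∧ evK z x f = 0) :
    ∃ (θ : K) (p : Polynomial (Polynomial ℂ)), p.Monic ∧ Irreducible p ∧
      (∀ g, evK z θ g = 0 ↔ p ∣ g) ∧
      ∀ x : K, ∃ (D : Polynomial ℂ) (G : Polynomial (Polynomial ℂ)), D ≠ 0 ∧
        Polynomial.aeval z D * x = evK z θ G := by
  let algP : Algebra (Polynomial ℂ) K :=
    (Polynomial.aeval z : Polynomial ℂ →ₐ[ℂ] K).toRingHom.toAlgebra
  have hmap : ∀ f : Polynomial ℂ, algebraMap (Polynomial ℂ) K f = Polynomial.aeval z f :=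
    fun f => rfl
  have hinj : Function.Injective (algebraMap (Polynomial ℂ) K) :=
    transcendental_iff_injective.1 hz
  have hev : ∀ (x : K) (f : Polynomial (Polynomial ℂ)), evK z x f = Polynomial.aeval x f :=
    fun x f => rfl
  have t1 : IsScalarTower ℂ (Polynomial ℂ) K := IsScalarTower.of_algebraMap_eq fun c => by
    rw [hmap, Polynomial.algebraMap_eq, Polynomial.aeval_C]
  have : FaithfulSMul (Polynomial ℂ) K := (faithfulSMul_iff_algebraMap_injective _ _).2 hinj
  let F0 := FractionRing (Polynomial ℂ)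
  let algF : Algebra F0 K := FractionRing.liftAlgebra (Polynomial ℂ) K
  have t2 : IsScalarTower (Polynomial ℂ) F0 K :=
    FractionRing.isScalarTower_liftAlgebra (Polynomial ℂ) K
  have t3 : IsScalarTower ℂ F0 K := IsScalarTower.of_algebraMap_eq fun c => by
    rw [IsScalarTower.algebraMap_apply ℂ (Polynomial ℂ) K,
      IsScalarTower.algebraMap_apply ℂ (Polynomial ℂ) F0,
      ← IsScalarTower.algebraMap_apply (Polynomial ℂ) F0 K]
  have : CharZero F0 := charZero_of_injective_algebraMap
    (IsFractionRing.injective (Polynomial ℂ) F0)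
  have halg' : ∀ x ∈ S, IsIntegral F0 x := by
    intro x hx
    obtain ⟨f, hf, hfx⟩ := halg x hx
    have h1 : IsAlgebraic (Polynomial ℂ) x := ⟨f, hf, by rw [← hev]; exact hfx⟩
    exact ((IsFractionRing.isAlgebraic_iff (Polynomial ℂ) F0 K).1 h1).isIntegral
  have htop : IntermediateField.adjoin F0 S = ⊤ := by
    rw [eq_top_iff]
    intro x _
    have h1 : IntermediateField.adjoin ℂ S ≤
        (IntermediateField.adjoin F0 S).restrictScalars ℂ := by
      rw [IntermediateField.adjoin_le_iff]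
      intro y hy
      exact IntermediateField.subset_adjoin F0 S hy
    have h2 : x ∈ IntermediateField.adjoin ℂ S := by rw [hS]; trivial
    exact h1 h2
  have : Finite S := hSf
  have fd : FiniteDimensional F0 K := by
    have h1 : FiniteDimensional F0 (IntermediateField.adjoin F0 S) :=
      IntermediateField.finiteDimensional_adjoin halg'
    rw [htop] at h1
    exact LinearEquiv.finiteDimensional
      (IntermediateField.topEquiv (F := F0) (E := K)).toLinearEquiv
  obtain ⟨α, hα⟩ := Field.exists_primitive_element F0 K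
  have hαa : IsAlgebraic (Polynomial ℂ) α :=
    (IsFractionRing.isAlgebraic_iff (Polynomial ℂ) F0 K).2 (IsAlgebraic.of_finite F0 α)
  obtain ⟨d, hd, hint⟩ := hαa.exists_integral_multiple
  set θ : K := d • α with hθ
  have hd' : algebraMap (Polynomial ℂ) F0 d ≠ 0 := by
    intro h
    exact hd ((IsFractionRing.injective (Polynomial ℂ) F0) (by rw [h, map_zero]))
  have hθtop : IntermediateField.adjoin F0 {θ} = ⊤ := by
    rw [eq_top_iff, ← hα, IntermediateField.adjoin_simple_le_iff]
    have h1 : α = (algebraMap (Polynomial ℂ) F0 d)⁻¹ • θ := by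
      rw [hθ, ← algebraMap_smul F0 d α, smul_smul, inv_mul_cancel₀ hd', one_smul]
    rw [h1]
    exact IntermediateField.smul_mem _ (IntermediateField.mem_adjoin_simple_self F0 θ)
  refine ⟨θ, minpoly (Polynomial ℂ) θ, minpoly.monic hint, minpoly.irreducible hint, ?_, ?_⟩
  · intro g
    rw [hev]
    exact minpoly.isIntegrallyClosed_dvd_iff hint g
  · intro x
    have h1 : x ∈ IntermediateField.adjoin F0 {θ} := by rw [hθtop]; trivial
    have h2 : x ∈ (IntermediateField.adjoin F0 {θ}).toSubalgebra := h1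
    rw [IntermediateField.adjoin_simple_toSubalgebra_of_isAlgebraic
      (IsAlgebraic.of_finite F0 θ), Algebra.adjoin_singleton_eq_range_aeval] at h2
    obtain ⟨g, hg⟩ := h2
    obtain ⟨b, hbM, hb⟩ := IsLocalization.integerNormalization_spec
      (nonZeroDivisors (Polynomial ℂ)) g
    refine ⟨b, IsLocalization.integerNormalization (nonZeroDivisors (Polynomial ℂ)) g,
      nonZeroDivisors.ne_zero hbM, ?_⟩
    have h3 : (Polynomial.aeval θ) g = x := hg
    have h4 : Polynomial.aeval θ
        (IsLocalization.integerNormalization (nonZeroDivisors (Polynomial ℂ)) g) =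
        Polynomial.aeval θ (Polynomial.map (algebraMap (Polynomial ℂ) F0)
        (IsLocalization.integerNormalization (nonZeroDivisors (Polynomial ℂ)) g)) :=
      (Polynomial.aeval_map_algebraMap F0 θ _).symm
    rw [hev, h4, hb, ← algebraMap_smul F0 b g, map_smul, algebraMap_smul, h3, ← hmap,
      Algebra.smul_def]


private theorem homA {n : ℕ} (A : Fin n → Polynomial (Polynomial ℂ)) (D : Polynomial ℂ)
    (f : MvPolynomial (Fin n) ℂ) : ∃ (N : ℕ) (F : Polynomial (Polynomial ℂ)),
    ∀ (Ω : Type) (_ : Field Ω) (ψ : Polynomial (Polynomial ℂ) →+* Ω),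
      ψ (Polynomial.C D) ≠ 0 → ψ F = ψ (Polynomial.C D) ^ N *
        eval₂ ((ψ.comp Polynomial.C).comp Polynomial.C)
          (fun j => ψ (A j) / ψ (Polynomial.C D)) f := by
  induction f using MvPolynomial.induction_on with
  | C c =>
    refine ⟨0, Polynomial.C (Polynomial.C c), fun Ω _ ψ _ => ?_⟩
    simp
  | add f g hf hg =>
    obtain ⟨N1, F1, h1⟩ := hf
    obtain ⟨N2, F2, h2⟩ := hg
    refine ⟨N1 + N2, Polynomial.C D ^ N2 * F1 + Polynomial.C D ^ N1 * F2, fun Ω _ ψ hψ => ?_⟩
    rw [map_add, map_mul, map_mul, map_pow, map_pow, h1 Ω _ ψ hψ, h2 Ω _ ψ hψ, eval₂_add]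
    ring
  | mul_X f j hf =>
    obtain ⟨N1, F1, h1⟩ := hf
    refine ⟨N1 + 1, F1 * A j, fun Ω _ ψ hψ => ?_⟩
    rw [map_mul, h1 Ω _ ψ hψ, eval₂_mul, eval₂_X]
    field_simp
    ring

private theorem homB {n : ℕ} (i0 : Fin n) (S1 S2 : MvPolynomial (Fin n) ℂ)
    (g : Polynomial (Polynomial ℂ)) : ∃ (N : ℕ) (G : MvPolynomial (Fin n) ℂ),
    ∀ (Ω : Type) (_ : Field Ω) (ψ : MvPolynomial (Fin n) ℂ →+* Ω), ψ S2 ≠ 0 →
      ψ G = ψ S2 ^ N * Polynomial.eval₂ (Polynomial.eval₂RingHom (ψ.comp C) (ψ (X i0)))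
        (ψ S1 / ψ S2) g := by
  have hP : ∀ f : Polynomial ℂ, ∃ G : MvPolynomial (Fin n) ℂ,
      ∀ (Ω : Type) (_ : Field Ω) (ψ : MvPolynomial (Fin n) ℂ →+* Ω),
      ψ G = Polynomial.eval₂RingHom (ψ.comp C) (ψ (X i0)) f := by
    intro f
    refine ⟨Polynomial.eval₂ C (X i0) f, fun Ω _ ψ => ?_⟩
    rw [Polynomial.hom_eval₂]
    rfl
  induction g using Polynomial.induction_on' with
  | add f g hf hg =>
    obtain ⟨N1, F1, h1⟩ := hf
    obtain ⟨N2, F2, h2⟩ := hg
    refine ⟨N1 + N2, S2 ^ N2 * F1 + S2 ^ N1 * F2, fun Ω _ ψ hψ => ?_⟩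
    rw [map_add, map_mul, map_mul, map_pow, map_pow, h1 Ω _ ψ hψ, h2 Ω _ ψ hψ,
      Polynomial.eval₂_add]
    ring
  | monomial k c =>
    obtain ⟨G, hG⟩ := hP c
    refine ⟨k, G * S1 ^ k, fun Ω _ ψ hψ => ?_⟩
    rw [map_mul, map_pow, hG, Polynomial.eval₂_monomial, div_pow]
    field_simp


private lemma evK_C {K : Type} [Field K] [Algebra ℂ K] (z θ : K) (D : Polynomial ℂ) :
    evK z θ (Polynomial.C D) = Polynomial.aeval z D := by
  simp [evK]

private noncomputable def ps0 (z θ : ℂ) : Polynomial (Polynomial ℂ) →+* ℂ :=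
  (Polynomial.evalRingHom θ).comp (Polynomial.mapRingHom (Polynomial.evalRingHom z))

private lemma ps0_apply (z θ : ℂ) (g : Polynomial (Polynomial ℂ)) : ps0 z θ g = ev g z θ := rfl

private lemma ps0_C (z θ : ℂ) (D : Polynomial ℂ) : ps0 z θ (Polynomial.C D) = D.eval z := by
  simp [ps0]

theorem model {n : ℕ} (Q : Ideal (MvPolynomial (Fin n) ℂ)) (hQ : Q.IsPrime)
    (hY : ∀ j : Fin n, (X j : MvPolynomial (Fin n) ℂ) ∉ Q)
    (hdim : Algebra.trdeg ℂ (MvPolynomial (Fin n) ℂ ⧸ Q) = 1) (i0 : Fin n)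
    (hi0 : ∀ c : ℂ, (X i0 - C c : MvPolynomial (Fin n) ℂ) ∉ Q) :
    ∃ (p : Polynomial (Polynomial ℂ)) (A : Fin n → Polynomial (Polynomial ℂ)) (D : Polynomial ℂ)
      (S : MvPolynomial (Fin n) ℂ), p.Monic ∧ Irreducible p ∧ D ≠ 0 ∧ S ∉ Q ∧
      (∀ z θ : ℂ, D.eval z ≠ 0 → ev p z θ = 0 → (fun j => ev (A j) z θ / D.eval z) ∈ Tz Q ∧
        ev (A i0) z θ / D.eval z = z) ∧
      ∀ w ∈ Tz Q, eval w S ≠ 0 → D.eval (w i0) ≠ 0 ∧ ∃ θ : ℂ, ev p (w i0) θ = 0 ∧
        ∀ j, w j = ev (A j) (w i0) θ / D.eval (w i0) := by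
  classical
  have hdom : IsDomain (MvPolynomial (Fin n) ℂ ⧸ Q) := Ideal.Quotient.isDomain Q
  let R := MvPolynomial (Fin n) ℂ ⧸ Q
  let K := FractionRing R
  let π : MvPolynomial (Fin n) ℂ →+* K := (algebraMap R K).comp (Ideal.Quotient.mk Q)
  have hinjRK : Function.Injective (algebraMap R K) := IsFractionRing.injective R K
  have hπ : ∀ f, π f = 0 ↔ f ∈ Q := by
    intro f
    rw [← Ideal.Quotient.eq_zero_iff_mem]
    constructor
    · intro h
      exact hinjRK (by rw [map_zero]; exact h)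
    · intro h
      change algebraMap R K (Ideal.Quotient.mk Q f) = 0
      rw [h, map_zero]
  have hπC : ∀ c : ℂ, π (C c) = algebraMap ℂ K c := by
    intro c
    rw [IsScalarTower.algebraMap_apply ℂ R K]
    rfl
  let y : Fin n → K := fun j => π (X j)
  let z : K := y i0
  have hy0 : ∀ j, y j ≠ 0 := fun j h => hY j ((hπ _).1 h)
  have hz : Transcendental ℂ z := by
    intro h
    have h1 := minpoly.mem_range_of_degree_eq_one ℂ z
      (IsAlgClosed.degree_eq_one_of_irreducible ℂ (minpoly.irreducible h.isIntegral))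
    obtain ⟨c, hc⟩ := h1
    apply hi0 c
    rw [← hπ, map_sub, hπC, hc]
    exact sub_self _
  have hzinj : ∀ f : Polynomial ℂ, Polynomial.aeval z f = 0 → f = 0 := fun f hf =>
    transcendental_iff.1 hz f hf
  have hmem : ∀ f : MvPolynomial (Fin n) ℂ, π f ∈ IntermediateField.adjoin ℂ (Set.range y) := by
    intro f
    induction f using MvPolynomial.induction_on with
    | C c =>
      rw [hπC]
      exact IntermediateField.algebraMap_mem _ c
    | add f g hf hg =>
      rw [map_add]
      exact add_mem hf hg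
    | mul_X f j hf =>
      rw [map_mul]
      exact mul_mem hf (IntermediateField.subset_adjoin ℂ _ ⟨j, rfl⟩)
  have hfrac : ∀ x : K, ∃ f g : MvPolynomial (Fin n) ℂ, π g ≠ 0 ∧ x = π f / π g := by
    intro x
    obtain ⟨r, s, hs, hrs⟩ := IsFractionRing.div_surjective (A := R) x
    obtain ⟨f, rfl⟩ := Ideal.Quotient.mk_surjective r
    obtain ⟨g, rfl⟩ := Ideal.Quotient.mk_surjective s
    refine ⟨f, g, ?_, hrs.symm⟩
    intro h
    have h1 : (Ideal.Quotient.mk Q) g = 0 := Ideal.Quotient.eq_zero_iff_mem.2 ((hπ g).1 h)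
    exact nonZeroDivisors.ne_zero hs h1
  have hadj : IntermediateField.adjoin ℂ (Set.range y) = ⊤ := by
    rw [eq_top_iff]
    intro x _
    obtain ⟨f, g, -, rfl⟩ := hfrac x
    exact div_mem (hmem f) (hmem g)
  have halg : ∀ x ∈ Set.range y, ∃ f : Polynomial (Polynomial ℂ), f ≠ 0 ∧ evK z x f = 0 := by
    rintro _ ⟨j, rfl⟩
    let zR : R := Ideal.Quotient.mk Q (X i0)
    have hzR : Transcendental ℂ zR := by
      rw [transcendental_iff]
      intro f hf
      apply hzinj f
      have h1 : Polynomial.aeval z f = algebraMap R K (Polynomial.aeval zR f) := by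
        rw [← Polynomial.aeval_algebraMap_apply]
        rfl
      rw [h1, hf, map_zero]
    have hind : AlgebraicIndependent ℂ (fun _ : Unit => zR) :=
      algebraicIndependent_unique_type_iff.2 hzR
    have hbas := hind.isTranscendenceBasis_of_trdeg_le_of_finite (by
      rw [hdim]; simp)
    have halgR := hbas.isAlgebraic
    obtain ⟨f, hf, hfx⟩ := halgR.isAlgebraic (Ideal.Quotient.mk Q (X j) : R)
    let B := Algebra.adjoin ℂ (Set.range fun _ : Unit => zR)
    have hzB : zR ∈ B := Algebra.subset_adjoin ⟨(), rfl⟩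
    let g : Polynomial ℂ →+* B := (Polynomial.aeval (⟨zR, hzB⟩ : B) : Polynomial ℂ →ₐ[ℂ] B).toRingHom
    have hgv : ∀ q : Polynomial ℂ, ((g q : B) : R) = Polynomial.aeval zR q := by
      intro q
      exact (Polynomial.aeval_algHom_apply B.val (⟨zR, hzB⟩ : B) q).symm
    have hgs : Function.Surjective g := by
      rintro ⟨b, hb⟩
      have hb' : b ∈ Algebra.adjoin ℂ {zR} := by
        have : Set.range (fun _ : Unit => zR) = {zR} := by simp
        rw [← this]; exact hb
      rw [Algebra.adjoin_singleton_eq_range_aeval] at hb'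
      obtain ⟨q, hq⟩ := hb'
      refine ⟨q, Subtype.ext ?_⟩
      rw [hgv]
      exact hq
    obtain ⟨f', hf'⟩ := Polynomial.map_surjective g hgs f
    refine ⟨f', ?_, ?_⟩
    · rintro rfl
      apply hf
      rw [← hf', Polynomial.map_zero]
    · rw [← hf', Polynomial.aeval_def, Polynomial.eval₂_map] at hfx
      have h1 := congrArg (algebraMap R K) hfx
      rw [Polynomial.hom_eval₂, map_zero] at h1
      have h2 : (algebraMap R K).comp ((algebraMap B R).comp g) =
          (Polynomial.aeval z : Polynomial ℂ →ₐ[ℂ] K).toRingHom := by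
        apply RingHom.ext
        intro q
        change algebraMap R K ((g q : B) : R) = Polynomial.aeval z q
        rw [hgv, ← Polynomial.aeval_algebraMap_apply]
        rfl
      rw [h2] at h1
      exact h1
  obtain ⟨θ, p, hmon, hirr, hdvd, hrep⟩ := prim z hz (Set.range y) (Set.finite_range y) hadj halg
  choose D1 G1 hD1 hG1 using fun j => hrep (y j)
  choose D2 G2 hD2 hG2 using fun j => hrep (y j)⁻¹
  let D : Polynomial ℂ := ∏ j, D1 j * D2 j
  have hD : D ≠ 0 := Finset.prod_ne_zero_iff.2 fun j _ => mul_ne_zero (hD1 j) (hD2 j)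
  have hA : ∀ j, ∃ A : Polynomial (Polynomial ℂ), Polynomial.aeval z D * y j = evK z θ A := by
    intro j
    obtain ⟨E, hE⟩ : D1 j ∣ D :=
      (Dvd.intro _ rfl).trans (Finset.dvd_prod_of_mem (fun j => D1 j * D2 j) (Finset.mem_univ j))
    refine ⟨Polynomial.C E * G1 j, ?_⟩
    rw [map_mul, evK_C, ← hG1, hE, map_mul]
    ring
  have hB : ∀ j, ∃ A : Polynomial (Polynomial ℂ), Polynomial.aeval z D * (y j)⁻¹ = evK z θ A := by
    intro j
    obtain ⟨E, hE⟩ : D2 j ∣ D :=
      (Dvd.intro_left _ rfl).trans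
        (Finset.dvd_prod_of_mem (fun j => D1 j * D2 j) (Finset.mem_univ j))
    refine ⟨Polynomial.C E * G2 j, ?_⟩
    rw [map_mul, evK_C, ← hG2, hE, map_mul]
    ring
  choose A hA using hA
  choose B hB using hB
  obtain ⟨S1, S2, hS2, hθ⟩ := hfrac θ
  let DX : MvPolynomial (Fin n) ℂ := Polynomial.eval₂ C (X i0) D
  have hDX : π DX = Polynomial.aeval z D := by
    change π (Polynomial.eval₂ C (X i0) D) = _
    rw [Polynomial.hom_eval₂, Polynomial.aeval_def]
    congr 1
  have hDz : Polynomial.aeval z D ≠ 0 := fun h => hD (hzinj D h)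
  refine ⟨p, A, D, S2 * DX, hmon, hirr, hD, ?_, ?_, ?_⟩
  · rw [← hπ, map_mul, hDX]
    exact mul_ne_zero hS2 hDz
  · intro z0 θ0 hD0 hp0
    have hker : ∀ g, evK z θ g = 0 → ps0 z0 θ0 g = 0 := by
      intro g hg
      obtain ⟨q, rfl⟩ := (hdvd g).1 hg
      rw [map_mul, ps0_apply, hp0, zero_mul]
    refine ⟨⟨?_, ?_⟩, ?_⟩
    · intro f hf
      obtain ⟨N, F, hF⟩ := homA A D f
      have h1 := hF K _ (evK z θ) (by rw [evK_C]; exact hDz)
      have h2 : eval₂ (((evK z θ).comp Polynomial.C).comp Polynomial.C)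
          (fun j => evK z θ (A j) / evK z θ (Polynomial.C D)) f = π f := by
        have h3 : ((evK z θ).comp Polynomial.C).comp Polynomial.C = π.comp C := by
          apply RingHom.ext
          intro c
          change evK z θ (Polynomial.C (Polynomial.C c)) = π (C c)
          rw [evK_C, Polynomial.aeval_C, hπC]
        have h4 : (fun j => evK z θ (A j) / evK z θ (Polynomial.C D)) = fun j => π (X j) := by
          funext j
          rw [evK_C, ← hA, mul_div_cancel_left₀ _ hDz]
        rw [h3, h4]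
        conv_rhs => rw [← MvPolynomial.eval₂_eta f, MvPolynomial.eval₂_comp_left π C X f]
        rfl
      rw [h2, (hπ f).2 hf, mul_zero] at h1
      have h5 := hker F h1
      have h6 := hF ℂ _ (ps0 z0 θ0) (by rw [ps0_C]; exact hD0)
      rw [h5] at h6
      have h7 : ps0 z0 θ0 (Polynomial.C D) ^ N ≠ 0 := pow_ne_zero _ (by rw [ps0_C]; exact hD0)
      have h8 := (mul_eq_zero.1 h6.symm).resolve_left h7
      have h9 : ((ps0 z0 θ0).comp Polynomial.C).comp Polynomial.C = RingHom.id ℂ := by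
        apply RingHom.ext
        intro c
        change ps0 z0 θ0 (Polynomial.C (Polynomial.C c)) = c
        rw [ps0_C, Polynomial.eval_C]
      have h10 : (fun j => ps0 z0 θ0 (A j) / ps0 z0 θ0 (Polynomial.C D)) =
          fun j => ev (A j) z0 θ0 / Polynomial.eval z0 D := by
        funext j
        rw [ps0_C, ps0_apply]
      rw [h9, h10] at h8
      exact h8
    · intro j
      have h1 : evK z θ (A j * B j - Polynomial.C (D * D)) = 0 := by
        rw [map_sub, map_mul, ← hA, ← hB, evK_C, map_mul]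
        have := mul_inv_cancel₀ (hy0 j)
        linear_combination (Polynomial.aeval z D) ^ 2 * this
      have h2 := hker _ h1
      rw [map_sub, map_mul, ps0_C, Polynomial.eval_mul] at h2
      apply div_ne_zero _ hD0
      intro h3
      rw [ps0_apply, ps0_apply, h3, zero_mul, zero_sub, neg_eq_zero] at h2
      exact mul_ne_zero hD0 hD0 h2
    · have h1 : evK z θ (A i0 - Polynomial.C (D * Polynomial.X)) = 0 := by
        rw [map_sub, ← hA, evK_C, map_mul, Polynomial.aeval_X]
        exact sub_self _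
      have h2 := hker _ h1
      rw [map_sub, ps0_C, Polynomial.eval_mul, Polynomial.eval_X, ps0_apply, sub_eq_zero] at h2
      rw [h2, mul_div_cancel_left₀ _ hD0]
  · intro w hw hSw
    rw [map_mul] at hSw
    have hS2w : eval w S2 ≠ 0 := left_ne_zero_of_mul hSw
    have hDw' : eval w DX = D.eval (w i0) := by
      change eval w (Polynomial.eval₂ C (X i0) D) = _
      rw [Polynomial.hom_eval₂, Polynomial.eval, MvPolynomial.eval_X]
      congr 1
      apply RingHom.ext
      intro c
      simp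
    have hDw : D.eval (w i0) ≠ 0 := by rw [← hDw']; exact right_ne_zero_of_mul hSw
    refine ⟨hDw, eval w S1 / eval w S2, ?_⟩
    have hkey : ∀ g : Polynomial (Polynomial ℂ), ∃ (N : ℕ) (G : MvPolynomial (Fin n) ℂ),
        π G = π S2 ^ N * evK z θ g ∧
        eval w G = eval w S2 ^ N * ev g (w i0) (eval w S1 / eval w S2) := by
      intro g
      obtain ⟨N, G, hG⟩ := homB i0 S1 S2 g
      refine ⟨N, G, ?_, ?_⟩
      · rw [hG K _ π hS2, ← hθ]
        congr 1
      · have h0 := hG ℂ _ (eval w) hS2w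
        rw [h0]
        congr 1
        have h3 : Polynomial.eval₂RingHom ((eval w).comp C) (eval w (X i0)) =
            Polynomial.evalRingHom (w i0) := by
          apply Polynomial.ringHom_ext
          · intro c
            simp
          · simp
        rw [h3, ev, Polynomial.eval_map]
    constructor
    · obtain ⟨N, G, h1, h2⟩ := hkey p
      rw [(hdvd p).2 dvd_rfl, mul_zero] at h1
      rw [hw.1 G ((hπ G).1 h1)] at h2
      exact (mul_eq_zero.1 h2.symm).resolve_left (pow_ne_zero _ hS2w)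
    · intro j
      obtain ⟨N, G, h1, h2⟩ := hkey (A j)
      have h3 : G - S2 ^ N * DX * X j ∈ Q := by
        rw [← hπ, map_sub, map_mul, map_mul, map_pow, h1, ← hA, hDX]
        change π S2 ^ N * (Polynomial.aeval z D * π (X j)) -
          π S2 ^ N * Polynomial.aeval z D * π (X j) = 0
        ring
      have h4 := hw.1 _ h3
      rw [map_sub, map_mul, map_mul, map_pow, hDw', MvPolynomial.eval_X, h2, mul_assoc,
        ← mul_sub] at h4
      have h5 := (mul_eq_zero.1 h4).resolve_left (pow_ne_zero _ hS2w)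
      rw [eq_div_iff hDw]
      linear_combination -h5

end Pool.Agent.EXP
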