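import Pool.Agent.EXP.Defs

/-!
# EXP / NormB: norms are rational, positivity

PROOF.  `norm_poly`: the resultant of `p` and `A` (as polynomials over `ℂ[z]`), or the determinant of the
multiplication by `A` on `ℂ[z][Θ]/(p)`, or symmetric polynomials.
`pos_const`: factor `R j = c_j ∏_{a ∈ T} (X - a)^{m_{j a}}` over a common finite set `T` of roots. Then
`∑ lam_j log |R_j(z)| = c' + ∑_a E_a log |z - a|`, `E_a = ∑_j lam_j m_{j a}`, for `z ∉ T`. If some `E_a > 0` then it
tends to `-∞` at `a`; if `∑ E_a < 0` it tends to `-∞` at infinity. So `E_a ≤ 0` for all `a`, `∑ E_a ≥ 0`, all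
`E_a = 0`.
-/

set_option autoImplicit false

namespace Pool.Agent.EXP

open Topology Filter

/-- `log |R(z)|` for a polynomial. -/
private theorem log_poly (R : Polynomial ℂ) (hR : R ≠ 0) (T : Finset ℂ)
    (hT : ∀ a, R.IsRoot a → a ∈ T) (z : ℂ) (hz : R.eval z ≠ 0) :
    Real.log ‖R.eval z‖ = Real.log ‖R.leadingCoeff‖ +
      ∑ a ∈ T, (R.rootMultiplicity a : ℝ) * Real.log ‖z - a‖ := by
  have h1 := (IsAlgClosed.splits R).eval_eq_prod_roots z
  have hl : R.leadingCoeff ≠ 0 := Polynomial.leadingCoeff_ne_zero.2 hR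
  have hp : (R.roots.map (z - ·)).prod ≠ 0 := by
    intro h
    rw [h1, h, mul_zero] at hz
    exact hz rfl
  have h2 : ∀ G : Multiset ℂ, (G.map (z - ·)).prod ≠ 0 →
      Real.log ‖(G.map (z - ·)).prod‖ = (G.map fun a => Real.log ‖z - a‖).sum := by
    intro G
    induction G using Multiset.induction_on with
    | empty => intro _; simp
    | cons a G ih =>
      intro hG
      rw [Multiset.map_cons, Multiset.prod_cons] at hG
      have ha := left_ne_zero_of_mul hG
      have hG' := right_ne_zero_of_mul hG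
      rw [Multiset.map_cons, Multiset.prod_cons, Multiset.map_cons, Multiset.sum_cons, norm_mul,
        Real.log_mul (norm_ne_zero_iff.2 ha) (norm_ne_zero_iff.2 hG'), ih hG']
  rw [h1, norm_mul, Real.log_mul (norm_ne_zero_iff.2 hl) (norm_ne_zero_iff.2 hp), h2 _ hp,
    Finset.sum_multiset_map_count]
  congr 1
  have hsub : R.roots.toFinset ⊆ T := by
    intro a ha
    exact hT a (Polynomial.isRoot_of_mem_roots (Multiset.mem_toFinset.1 ha))
  rw [← Finset.sum_subset hsub]
  · refine Finset.sum_congr rfl fun a _ => ?_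
    rw [nsmul_eq_mul, Polynomial.count_roots]
  · intro a _ ha
    rw [Multiset.mem_toFinset] at ha
    rw [← Polynomial.count_roots, Multiset.count_eq_zero_of_notMem ha]
    simp

theorem pos_const {ι : Type} [Fintype ι] (R : ι → Polynomial ℂ) (hR : ∀ j, R j ≠ 0)
    (lam : ι → ℝ) (S : Finset ℂ) (c : ℝ)
    (hpos : ∀ z ∉ S, (∀ j, (R j).eval z ≠ 0) → c < ∑ j, lam j * Real.log ‖(R j).eval z‖) :
    ∃ C : ℝ, ∀ z : ℂ, (∀ j, (R j).eval z ≠ 0) → ∑ j, lam j * Real.log ‖(R j).eval z‖ = C := by
  classical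
  set T : Finset ℂ := Finset.univ.biUnion fun j => (R j).roots.toFinset with hTdef
  have hT : ∀ j a, (R j).IsRoot a → a ∈ T := by
    intro j a ha
    rw [hTdef, Finset.mem_biUnion]
    exact ⟨j, Finset.mem_univ _, Multiset.mem_toFinset.2 ((Polynomial.mem_roots (hR j)).2 ha)⟩
  have hT' : ∀ z ∉ T, ∀ j, (R j).eval z ≠ 0 := fun z hz j h => hz (hT j z h)
  set E : ℂ → ℝ := fun a => ∑ j, lam j * ((R j).rootMultiplicity a : ℝ) with hE
  set c' : ℝ := ∑ j, lam j * Real.log ‖(R j).leadingCoeff‖ with hc'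
  have hform : ∀ z : ℂ, (∀ j, (R j).eval z ≠ 0) →
      ∑ j, lam j * Real.log ‖(R j).eval z‖ = c' + ∑ a ∈ T, E a * Real.log ‖z - a‖ := by
    intro z hz
    have h1 : ∀ j ∈ (Finset.univ : Finset ι), lam j * Real.log ‖(R j).eval z‖ =
        lam j * Real.log ‖(R j).leadingCoeff‖ +
          ∑ a ∈ T, lam j * ((R j).rootMultiplicity a : ℝ) * Real.log ‖z - a‖ := by
      intro j _
      rw [log_poly (R j) (hR j) T (hT j) z (hz j), mul_add, Finset.mul_sum]
      congr 1
      refine Finset.sum_congr rfl fun a _ => ?_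
      ring
    rw [Finset.sum_congr rfl h1, Finset.sum_add_distrib, Finset.sum_comm]
    congr 1
    refine Finset.sum_congr rfl fun a _ => ?_
    rw [hE, Finset.sum_mul]
  -- points outside S and T
  have hlow : ∀ z ∉ S ∪ T, c < c' + ∑ a ∈ T, E a * Real.log ‖z - a‖ := by
    intro z hz
    rw [Finset.mem_union, not_or] at hz
    rw [← hform z (hT' z hz.2)]
    exact hpos z hz.1 (hT' z hz.2)
  -- no positive exponent
  have hE1 : ∀ a ∈ T, E a ≤ 0 := by
    intro a ha
    by_contra hpos'
    rw [not_le] at hpos'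
    have h1 : Tendsto (fun z : ℂ => c' + ∑ b ∈ T, E b * Real.log ‖z - b‖) (𝓝[≠] a) atBot := by
      have h2 : (fun z : ℂ => c' + ∑ b ∈ T, E b * Real.log ‖z - b‖) = fun z : ℂ =>
          (c' + ∑ b ∈ T.erase a, E b * Real.log ‖z - b‖) + E a * Real.log ‖z - a‖ := by
        funext z
        rw [← Finset.add_sum_erase T _ ha]
        ring
      rw [h2]
      have h3 : Tendsto (fun z : ℂ => c' + ∑ b ∈ T.erase a, E b * Real.log ‖z - b‖) (𝓝[≠] a)
          (𝓝 (c' + ∑ b ∈ T.erase a, E b * Real.log ‖a - b‖)) := by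
        refine Tendsto.mono_left ?_ nhdsWithin_le_nhds
        refine tendsto_const_nhds.add (tendsto_finsetSum _ fun b hb => ?_)
        have hab : ‖a - b‖ ≠ 0 := by
          rw [norm_ne_zero_iff, sub_ne_zero]
          exact (Finset.ne_of_mem_erase hb).symm
        refine Tendsto.const_mul _ ?_
        exact ((continuous_id.sub continuous_const).norm.tendsto a).log hab
      have h4 : Tendsto (fun z : ℂ => E a * Real.log ‖z - a‖) (𝓝[≠] a) atBot := by
        refine Tendsto.const_mul_atBot hpos' ?_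
        refine Real.tendsto_log_nhdsGT_zero.comp ?_
        exact tendsto_norm_sub_self_nhdsNE a
      exact h3.add_atBot h4
    have h5 : ∀ᶠ z in 𝓝[≠] a, z ∉ S ∪ T := by
      have h6 : ((S ∪ T : Finset ℂ) : Set ℂ).Finite := Finset.finite_toSet _
      have h7 : ((↑(S ∪ T : Finset ℂ) : Set ℂ) \ {a})ᶜ ∈ 𝓝 a := by
        apply IsOpen.mem_nhds
        · exact (h6.subset Set.sdiff_subset).isClosed.isOpen_compl
        · simp
      filter_upwards [mem_nhdsWithin_of_mem_nhds h7, self_mem_nhdsWithin] with z hz hza hzS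
      exact hz ⟨hzS, hza⟩
    obtain ⟨z, hz1, hz2⟩ := ((h1.eventually (eventually_lt_atBot c)).and h5).exists
    exact absurd (hlow z hz2) (not_lt.2 hz1.le)
  -- the sum of the exponents is not negative
  have hE2 : 0 ≤ ∑ a ∈ T, E a := by
    by_contra hneg
    rw [not_le] at hneg
    have h1 : Tendsto (fun x : ℝ => c' + ∑ b ∈ T, E b * Real.log ‖(x : ℂ) - b‖) atTop atBot := by
      have h2 : (fun x : ℝ => c' + ∑ b ∈ T, E b * Real.log ‖(x : ℂ) - b‖) =ᶠ[atTop] fun x : ℝ =>
          (c' + ∑ b ∈ T, E b * Real.log ‖1 - b / (x : ℂ)‖) + (∑ b ∈ T, E b) * Real.log x := by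
        have h8 : ∀ᶠ x : ℝ in atTop, ∀ b ∈ T, (x : ℂ) ≠ b := by
          rw [eventually_all_finset]
          intro b _
          filter_upwards [eventually_gt_atTop b.re] with x hx h
          rw [← h, Complex.ofReal_re] at hx
          exact lt_irrefl _ hx
        filter_upwards [eventually_gt_atTop 0, h8] with x hx hxb
        rw [Finset.sum_mul, add_assoc, ← Finset.sum_add_distrib]
        congr 1
        refine Finset.sum_congr rfl fun b hb => ?_
        have hx0 : (x : ℂ) ≠ 0 := by exact_mod_cast hx.ne'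
        have h3 : (x : ℂ) - b = (1 - b / (x : ℂ)) * x := by
          field_simp
        have h4 : (1 - b / (x : ℂ)) ≠ 0 := by
          intro h5
          rw [h5, zero_mul, sub_eq_zero] at h3
          exact hxb b hb h3
        rw [h3, norm_mul, Real.log_mul (norm_ne_zero_iff.2 h4) (by simpa using hx.ne'),
          Complex.norm_real, Real.norm_of_nonneg hx.le]
        ring
      rw [tendsto_congr' h2]
      have h3 : Tendsto (fun x : ℝ => c' + ∑ b ∈ T, E b * Real.log ‖1 - b / (x : ℂ)‖) atTop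
          (𝓝 (c' + ∑ b ∈ T, E b * Real.log ‖(1 : ℂ) - 0‖)) := by
        refine tendsto_const_nhds.add (tendsto_finsetSum _ fun b _ => ?_)
        refine Tendsto.const_mul _ ?_
        have h5 : Tendsto (fun x : ℝ => b / (x : ℂ)) atTop (𝓝 0) := by
          rw [tendsto_zero_iff_norm_tendsto_zero]
          have h6 : (fun x : ℝ => ‖b / (x : ℂ)‖) = fun x : ℝ => ‖b‖ / |x| := by
            funext x
            rw [norm_div, Complex.norm_real, Real.norm_eq_abs]
          rw [h6]
          exact tendsto_const_nhds.div_atTop (tendsto_abs_atTop_atTop)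
        exact (tendsto_const_nhds.sub h5).norm.log (by simp)
      exact h3.add_atBot (Tendsto.const_mul_atTop_of_neg hneg Real.tendsto_log_atTop)
    have h5 : ∀ᶠ x : ℝ in atTop, (x : ℂ) ∉ S ∪ T := by
      have h8 : ∀ᶠ x : ℝ in atTop, ∀ b ∈ S ∪ T, (x : ℂ) ≠ b := by
        rw [eventually_all_finset]
        intro b _
        filter_upwards [eventually_gt_atTop b.re] with x hx h
        rw [← h, Complex.ofReal_re] at hx
        exact lt_irrefl _ hx
      filter_upwards [h8] with x hx hxS
      exact hx _ hxS rfl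
    obtain ⟨x, hx1, hx2⟩ := ((h1.eventually (eventually_lt_atBot c)).and h5).exists
    exact absurd (hlow _ hx2) (not_lt.2 hx1.le)
  have hE3 : ∀ a ∈ T, E a = 0 := by
    have h1 : ∑ a ∈ T, E a = 0 := le_antisymm (Finset.sum_nonpos hE1) hE2
    exact (Finset.sum_eq_zero_iff_of_nonpos hE1).1 h1
  refine ⟨c', fun z hz => ?_⟩
  rw [hform z hz, Finset.sum_eq_zero, add_zero]
  intro a ha
  rw [hE3 a ha, zero_mul]

end Pool.Agent.EXP
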