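import Pool.Agent.EXP.FinZ
import Pool.Agent.EXP.Model
import Pool.Agent.EXP.Conn
import Pool.Agent.EXP.Norm

/-!
# EXP / Amoeba: `∑ λ_j log |w_j|` takes every real value on a curve with a suitable puncture

PROOF.  `i0` with `v i0 ≠ 0` (so `X i0` is not constant on `Tz Q`: `hi0`). `model`, `S₀` = finite set of the `z` with
`D(z) = 0` or `p(z, ·)` not separable (`sep_finite`), `Z = {(z, θ) | z ∉ S₀, ev p z θ = 0}`, connected by `conn`.
`u(z, θ) = ∑ λ_j log |ev (A j) z θ / D(z)|` is continuous on `Z`.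
(1) `u` is not bounded on `Z`: at the puncture `∑ λ_j log |w_j(t)| = (∑ λ_j v_j) log |t| + O(1)`; `w(t)` leaves
every finite set as `t → 0`, so by `fin_zeros` `S(w(t)) ≠ 0` and `w(t) i0 ∉ S₀` (`fin_zeros` for `X i0 - C c`)
for small `t ≠ 0`, and `u(w(t) i0, θ) = ∑ λ_j log |w_j(t)|` by `model`.
(2) `u` takes the value `κ` on `Z`: otherwise `u > κ` on `Z` or `u < κ` on `Z` (connected). In the first case
(the second: `-λ`, `-κ`) let `R_j` be `norm_poly p (A j)` and sum over the `N` roots: for `z ∉ S₀`: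
`∑_j λ_j log |R_j(z)| - N (∑ λ_j) log |D(z)| = ∑_θ u(z, θ) > N κ`. `pos_const`: it is a constant `C`
(`R_j(z) ≠ 0` for `z ∉ S₀`). So `κ < u(z, θ) ≤ C - (N - 1) κ`, against (1).
(3) Local branches: for `(z₀, θ₀) ∈ Z`, `local_roots` gives an analytic `θ(z)`, `θ(z₀) = θ₀`,
`w_j(t) = ev (A j) (z₀ + t) (θ (z₀ + t)) / D(z₀ + t) ≠ 0`, `x_j(t)` an analytic logarithm of `w_j(t)` (on a disc).
Then `exp (x t) ∈ Tz Q` and `Re ∑ λ_j x_j = u`. Say that `(z₀, θ₀)` is flat if `∑ λ_j x_j` is constant near `0`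
(equivalently `u` is locally constant on `Z` near `(z₀, θ₀)`). The set of flat points is open and its
complement is open (identity theorem on the disc of a branch), so all or no points of `Z` are flat. If all
are flat then `u` is locally constant, so constant on `Z`, against (1). So no point is flat, and the point
of (2) is as wanted.
-/

set_option autoImplicit false

namespace Pool.Agent.EXP

open MvPolynomial Topology

private theorem am_ev_eq (p : Polynomial (Polynomial ℂ)) (z θ : ℂ) :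
    ev p z θ = ∑ i ∈ Finset.range (p.natDegree + 1), (p.coeff i).eval z * θ ^ i := by
  unfold ev
  rw [Polynomial.eval_map, Polynomial.eval₂_eq_sum_range]
  simp

private theorem am_ev_cont (p : Polynomial (Polynomial ℂ)) :
    Continuous fun q : ℂ × ℂ => ev p q.1 q.2 := by
  simp only [am_ev_eq]
  refine continuous_finsetSum _ fun i _ => ?_
  exact ((Polynomial.continuous _).comp continuous_fst).mul (continuous_snd.pow i)

private theorem am_ev_diff (p : Polynomial (Polynomial ℂ)) {U : Set ℂ} {θ : ℂ → ℂ}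
    (hθ : DifferentiableOn ℂ θ U) : DifferentiableOn ℂ (fun z => ev p z (θ z)) U := by
  simp only [am_ev_eq]
  refine DifferentiableOn.fun_sum fun i _ => ?_
  exact ((Polynomial.differentiable _).differentiableOn).mul (hθ.pow i)

/-- holomorphic logarithm on a disk -/
private theorem am_log {c : ℂ} {r : ℝ} (hr : 0 < r) {w : ℂ → ℂ}
    (hw : DifferentiableOn ℂ w (Metric.ball c r)) (h0 : ∀ z ∈ Metric.ball c r, w z ≠ 0) :
    ∃ g : ℂ → ℂ, DifferentiableOn ℂ g (Metric.ball c r) ∧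
      ∀ z ∈ Metric.ball c r, Complex.exp (g z) = w z := by
  have hw' : DifferentiableOn ℂ (deriv w) (Metric.ball c r) := hw.deriv Metric.isOpen_ball
  have hq : DifferentiableOn ℂ (fun z => deriv w z / w z) (Metric.ball c r) := hw'.div hw h0
  obtain ⟨g, hgc, hg⟩ := (hq.isExactOn_ball).with_val_at c (Complex.log (w c))
  have hcm : c ∈ Metric.ball c r := Metric.mem_ball_self hr
  refine ⟨g, fun z hz => (hg z hz).differentiableAt.differentiableWithinAt, ?_⟩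
  have hwd : ∀ z ∈ Metric.ball c r, HasDerivAt w (deriv w z) z := fun z hz =>
    ((hw z hz).differentiableAt (Metric.isOpen_ball.mem_nhds hz)).hasDerivAt
  have hF : ∀ z ∈ Metric.ball c r, HasDerivAt (fun z => w z * Complex.exp (-g z)) 0 z := by
    intro z hz
    have h1 := (hwd z hz).mul ((hg z hz).neg.cexp)
    convert! h1 using 1
    field_simp [h0 z hz]
    ring
  have hconst : ∀ z ∈ Metric.ball c r, w z * Complex.exp (-g z) = w c * Complex.exp (-g c) := by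
    intro z hz
    refine Metric.isOpen_ball.is_const_of_deriv_eq_zero (𝕜 := ℂ) (s := Metric.ball c r)
      (f := fun z => w z * Complex.exp (-g z))
      (convex_ball c r).isPreconnected
      (fun x hx => (hF x hx).differentiableAt.differentiableWithinAt) ?_ hz hcm
    intro x hx
    exact (hF x hx).deriv
  intro z hz
  have h1 := hconst z hz
  rw [hgc] at h1
  have h2 : w c * Complex.exp (-Complex.log (w c)) = 1 := by
    rw [Complex.exp_neg, Complex.exp_log (h0 c hcm)]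
    exact mul_inv_cancel₀ (h0 c hcm)
  rw [h2, Complex.exp_neg] at h1
  have h3 := Complex.exp_ne_zero (g z)
  field_simp at h1
  exact h1.symm

private theorem am_tend {n : ℕ} (v : Fin n → ℤ) (u : Fin n → ℂ → ℂ)
    (hu : ∀ j, AnalyticAt ℂ (u j) 0) (hu0 : ∀ j, u j 0 ≠ 0) (c : Fin n → ℝ)
    (hc : ∑ j, c j * v j ≠ 0) :
    Filter.Tendsto (fun t : ℂ => |∑ j, c j * Real.log ‖t ^ v j * u j t‖|) (𝓝[≠] 0)
      Filter.atTop := by
  have h1 : ∀ᶠ t in 𝓝[≠] (0 : ℂ), ∑ j, c j * Real.log ‖t ^ v j * u j t‖ =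
      (∑ j, c j * v j) * Real.log ‖t‖ + ∑ j, c j * Real.log ‖u j t‖ := by
    have h2 : ∀ᶠ t in 𝓝[≠] (0 : ℂ), ∀ j, u j t ≠ 0 := by
      rw [Filter.eventually_all]
      intro j
      exact ((hu j).continuousAt.eventually_ne (hu0 j)).filter_mono nhdsWithin_le_nhds
    filter_upwards [h2, self_mem_nhdsWithin] with t ht ht0
    rw [Finset.sum_mul, ← Finset.sum_add_distrib]
    refine Finset.sum_congr rfl fun j _ => ?_
    rw [norm_mul, norm_zpow, Real.log_mul (zpow_ne_zero _ (norm_ne_zero_iff.2 ht0))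
      (norm_ne_zero_iff.2 (ht j)), Real.log_zpow]
    ring
  have h3 : Filter.Tendsto (fun t : ℂ => ∑ j, c j * Real.log ‖u j t‖) (𝓝[≠] 0)
      (𝓝 (∑ j, c j * Real.log ‖u j 0‖)) := by
    refine Filter.Tendsto.mono_left ?_ nhdsWithin_le_nhds
    refine tendsto_finsetSum _ fun j _ => ?_
    exact (((hu j).continuousAt.norm.log (norm_ne_zero_iff.2 (hu0 j))).tendsto).const_mul (c j)
  have h4 : Filter.Tendsto (fun t : ℂ => Real.log ‖t‖) (𝓝[≠] 0) Filter.atBot :=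
    Real.tendsto_log_nhdsGT_zero.comp tendsto_norm_nhdsNE_zero
  refine Filter.Tendsto.congr'
    (f₁ := fun t => |(∑ j, c j * v j) * Real.log ‖t‖ + ∑ j, c j * Real.log ‖u j t‖|) ?_ ?_
  · filter_upwards [h1] with t ht
    rw [ht]
  rcases lt_or_gt_of_ne hc with hneg | hpos
  · have h5 := (h4.const_mul_atBot_of_neg hneg)
    exact Filter.tendsto_abs_atTop_atTop.comp (h5.atTop_add h3)
  · have h5 := (h4.const_mul_atBot hpos)
    exact Filter.tendsto_abs_atBot_atTop.comp (h5.atBot_add h3)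

private theorem am_single {n : ℕ} (i0 : Fin n) (f : Fin n → ℝ) :
    ∑ j, (Pi.single i0 1 : Fin n → ℝ) j * f j = f i0 := by
  rw [Finset.sum_eq_single i0]
  · simp
  · intro b _ hb
    simp [hb]
  · simp

private theorem am_avoid {n : ℕ} (Q : Ideal (MvPolynomial (Fin n) ℂ)) (hQ : Q.IsPrime)
    (hdim : Algebra.trdeg ℂ (MvPolynomial (Fin n) ℂ ⧸ Q) = 1) (v : Fin n → ℤ)
    (u : Fin n → ℂ → ℂ) (hu : ∀ j, AnalyticAt ℂ (u j) 0) (hu0 : ∀ j, u j 0 ≠ 0)
    (hw : ∀ᶠ t in 𝓝[≠] (0 : ℂ), (fun j => t ^ v j * u j t) ∈ Tz Q) (i0 : Fin n)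
    (hi0 : v i0 ≠ 0) (S : MvPolynomial (Fin n) ℂ) (hS : S ∉ Q) :
    ∀ᶠ t in 𝓝[≠] (0 : ℂ), eval (fun j => t ^ v j * u j t) S ≠ 0 := by
  have hfin := fin_zeros Q hQ hdim S hS
  have ht := am_tend v u hu hu0 (Pi.single i0 1) (by
    rw [am_single i0 (fun j => (v j : ℝ))]
    exact_mod_cast hi0)
  obtain ⟨M, hM⟩ := (hfin.image (fun w : Fin n → ℂ =>
    |∑ j, (Pi.single i0 1 : Fin n → ℝ) j * Real.log ‖w j‖|)).bddAbove
  filter_upwards [hw, ht.eventually_gt_atTop M] with t h1 h2 h3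
  have := hM ⟨_, ⟨h1.1, h3⟩, rfl⟩
  exact absurd this (not_le.2 h2)

private theorem am_nonconst {n : ℕ} (Q : Ideal (MvPolynomial (Fin n) ℂ)) (v : Fin n → ℤ)
    (u : Fin n → ℂ → ℂ) (hu : ∀ j, AnalyticAt ℂ (u j) 0) (hu0 : ∀ j, u j 0 ≠ 0)
    (hw : ∀ᶠ t in 𝓝[≠] (0 : ℂ), (fun j => t ^ v j * u j t) ∈ Tz Q) (i0 : Fin n)
    (hi0 : v i0 ≠ 0) (c : ℂ) : (X i0 - C c : MvPolynomial (Fin n) ℂ) ∉ Q := by
  intro hc
  have ht := am_tend v u hu hu0 (Pi.single i0 1) (by
    rw [am_single i0 (fun j => (v j : ℝ))]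
    exact_mod_cast hi0)
  have h1 := (hw.and (ht.eventually_gt_atTop |Real.log ‖c‖|)).exists
  obtain ⟨t, h1, h2⟩ := h1
  have h3 := h1.1 _ hc
  simp only [map_sub, eval_X, eval_C, sub_eq_zero] at h3
  rw [am_single i0 (fun j => Real.log ‖t ^ v j * u j t‖)] at h2
  simp only [h3] at h2
  exact lt_irrefl _ h2

private theorem am_ms {n : ℕ} (f : Fin n → ℂ → ℂ) (d : ℂ) (hd : d ≠ 0) (lam : Fin n → ℝ)
    (s : Multiset ℂ) (hs : ∀ θ ∈ s, ∀ j, f j θ ≠ 0) :
    (s.map fun θ => ∑ j, lam j * Real.log ‖f j θ / d‖).sum =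
      ∑ j, lam j * Real.log ‖(s.map (f j)).prod‖ +
        ∑ j, (-((s.card : ℝ) * lam j)) * Real.log ‖d‖ ∧ ∀ j, (s.map (f j)).prod ≠ 0 := by
  induction s using Multiset.induction with
  | empty => simp
  | cons a s ih =>
    obtain ⟨h1, h2⟩ := ih (fun θ hθ => hs θ (Multiset.mem_cons_of_mem hθ))
    have h3 : ∀ j, f j a ≠ 0 := hs a (Multiset.mem_cons_self a s)
    refine ⟨?_, fun j => ?_⟩
    · rw [Multiset.map_cons, Multiset.sum_cons, h1, ← Finset.sum_add_distrib,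
        ← Finset.sum_add_distrib, ← Finset.sum_add_distrib]
      refine Finset.sum_congr rfl fun j _ => ?_
      rw [Multiset.map_cons, Multiset.prod_cons, norm_mul, norm_div,
        Real.log_mul (norm_ne_zero_iff.2 (h3 j)) (norm_ne_zero_iff.2 (h2 j)),
        Real.log_div (norm_ne_zero_iff.2 (h3 j)) (norm_ne_zero_iff.2 hd), Multiset.card_cons]
      push_cast
      ring
    · rw [Multiset.map_cons, Multiset.prod_cons]
      exact mul_ne_zero (h3 j) (h2 j)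

private theorem am_bdd {n : ℕ} (p : Polynomial (Polynomial ℂ)) (hm : p.Monic)
    (A : Fin n → Polynomial (Polynomial ℂ)) (D : Polynomial ℂ) (hD : D ≠ 0) (S₀ : Finset ℂ)
    (hD0 : ∀ z ∉ S₀, D.eval z ≠ 0)
    (hA : ∀ z ∉ S₀, ∀ θ, ev p z θ = 0 → ∀ j, ev (A j) z θ ≠ 0) (lam : Fin n → ℝ) (κ : ℝ)
    (hκ : ∀ z ∉ S₀, ∀ θ, ev p z θ = 0 → κ < ∑ j, lam j * Real.log ‖ev (A j) z θ / D.eval z‖) :
    ∃ M : ℝ, ∀ z ∉ S₀, ∀ θ, ev p z θ = 0 →
      |∑ j, lam j * Real.log ‖ev (A j) z θ / D.eval z‖| ≤ M := by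
  choose R hR using fun j => norm_poly p hm (A j)
  have hmap : ∀ z, (p.map (Polynomial.evalRingHom z)) ≠ 0 := fun z => (hm.map _).ne_zero
  have hroot : ∀ z θ, θ ∈ (p.map (Polynomial.evalRingHom z)).roots ↔ ev p z θ = 0 := by
    intro z θ
    rw [Polynomial.mem_roots (hmap z)]
    rfl
  have hcard : ∀ z, (p.map (Polynomial.evalRingHom z)).roots.card = p.natDegree := by
    intro z
    rw [← hm.natDegree_map (Polynomial.evalRingHom z)]
    exact (IsAlgClosed.splits _).natDegree_eq_card_roots.symm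
  have hkey : ∀ z ∉ S₀, ((p.map (Polynomial.evalRingHom z)).roots.map
      fun θ => ∑ j, lam j * Real.log ‖ev (A j) z θ / D.eval z‖).sum =
      ∑ j, lam j * Real.log ‖(R j).eval z‖ +
        ∑ j, (-((p.natDegree : ℝ) * lam j)) * Real.log ‖D.eval z‖ ∧ ∀ j, (R j).eval z ≠ 0 := by
    intro z hz
    have h1 := am_ms (fun j θ => ev (A j) z θ) (D.eval z) (hD0 z hz) lam
      (p.map (Polynomial.evalRingHom z)).roots
      (fun θ hθ j => hA z hz θ ((hroot z θ).1 hθ) j)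
    rw [hcard z] at h1
    simp only [hR]
    exact h1
  obtain ⟨z₁, hz₁⟩ := Set.Infinite.nonempty (S₀.finite_toSet.infinite_compl)
  have hz₁' : z₁ ∉ S₀ := by simpa using hz₁
  have hR0 : ∀ j, R j ≠ 0 := by
    intro j h
    apply (hkey z₁ hz₁').2 j
    rw [h, Polynomial.eval_zero]
  obtain ⟨C, hC⟩ := pos_const (ι := Fin n ⊕ Fin n) (Sum.elim R fun _ => D)
    (by rintro (j | j)
        · exact hR0 j
        · exact hD)
    (Sum.elim lam fun j => -((p.natDegree : ℝ) * lam j)) S₀ (p.natDegree * κ - 1) (by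
      intro z hz _
      rw [Fintype.sum_sum_type]
      simp only [Sum.elim_inl, Sum.elim_inr]
      rw [← (hkey z hz).1]
      have h2 := Multiset.card_nsmul_le_sum (s := (p.map (Polynomial.evalRingHom z)).roots.map
        fun θ => ∑ j, lam j * Real.log ‖ev (A j) z θ / D.eval z‖) (a := κ) (by
          intro x hx
          obtain ⟨θ, hθ, rfl⟩ := Multiset.mem_map.1 hx
          exact (hκ z hz θ ((hroot z θ).1 hθ)).le)
      rw [Multiset.card_map, hcard z, nsmul_eq_mul] at h2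
      linarith)
  refine ⟨|C| + (p.natDegree + 1) * |κ|, fun z hz θ hθ => ?_⟩
  have h3 := hC z (by
    rintro (j | j)
    · exact (hkey z hz).2 j
    · exact hD0 z hz)
  rw [Fintype.sum_sum_type] at h3
  simp only [Sum.elim_inl, Sum.elim_inr] at h3
  rw [← (hkey z hz).1] at h3
  obtain ⟨s, hs⟩ := Multiset.exists_cons_of_mem ((hroot z θ).2 hθ)
  have hsc : s.card + 1 = p.natDegree := by
    rw [← hcard z, hs, Multiset.card_cons]
  rw [hs, Multiset.map_cons, Multiset.sum_cons] at h3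
  have h4 := Multiset.card_nsmul_le_sum (s := s.map
    fun θ => ∑ j, lam j * Real.log ‖ev (A j) z θ / D.eval z‖) (a := κ) (by
      intro x hx
      obtain ⟨θ', hθ', rfl⟩ := Multiset.mem_map.1 hx
      refine (hκ z hz θ' ((hroot z θ').1 ?_)).le
      rw [hs]
      exact Multiset.mem_cons_of_mem hθ')
  rw [Multiset.card_map, nsmul_eq_mul] at h4
  have h5 := hκ z hz θ hθ
  have h6 : (s.card : ℝ) + 1 = p.natDegree := by exact_mod_cast hsc
  have h7 : -( (s.card : ℝ) * |κ|) ≤ s.card * κ := by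
    have := mul_le_mul_of_nonneg_left (neg_abs_le κ) (Nat.cast_nonneg (α := ℝ) s.card)
    linarith
  rw [abs_le]
  have h8 := neg_abs_le κ
  have h9 := le_abs_self C
  have h10 := abs_nonneg κ
  have h11 := abs_nonneg C
  have h12 : 0 ≤ (s.card : ℝ) * |κ| := by positivity
  constructor
  · rw [← h6]
    nlinarith
  · rw [← h6]
    nlinarith

private theorem am_branch (p : Polynomial (Polynomial ℂ)) (hm : p.Monic) (S₀ : Finset ℂ)
    (hsep : ∀ z ∉ S₀, (p.map (Polynomial.evalRingHom z)).Separable) (q₀ : ℂ × ℂ)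
    (h0 : q₀.1 ∉ S₀) (h1 : ev p q₀.1 q₀.2 = 0) :
    ∃ (r : ℝ) (θ : ℂ → ℂ), 0 < r ∧ DifferentiableOn ℂ θ (Metric.ball q₀.1 r) ∧ θ q₀.1 = q₀.2 ∧
      (∀ z ∈ Metric.ball q₀.1 r, z ∉ S₀ ∧ ev p z (θ z) = 0) ∧
      ∀ᶠ q in 𝓝 q₀, ev p q.1 q.2 = 0 → q.1 ∈ Metric.ball q₀.1 r ∧ q.2 = θ q.1 := by
  obtain ⟨r, Θ, hr, hdiff, hne, hprod⟩ := local_roots p hm q₀.1 (hsep _ h0)
  have hev : ∀ z ∈ Metric.ball q₀.1 r, ∀ x, ev p z x = ∏ i, (x - Θ i z) := by
    intro z hz x
    unfold ev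
    rw [hprod z hz, Polynomial.eval_prod]
    simp
  rw [hev _ (Metric.mem_ball_self hr), Finset.prod_eq_zero_iff] at h1
  obtain ⟨i, -, hi⟩ := h1
  have hi' : Θ i q₀.1 = q₀.2 := (sub_eq_zero.1 hi).symm
  obtain ⟨ε, hε, hεS⟩ := Metric.isOpen_iff.1 (S₀.finite_toSet.isClosed.isOpen_compl) q₀.1
    (by simpa using h0)
  have hsub : Metric.ball q₀.1 (min r ε) ⊆ Metric.ball q₀.1 r :=
    Metric.ball_subset_ball (min_le_left _ _)
  refine ⟨min r ε, Θ i, lt_min hr hε, (hdiff i).mono hsub, hi', fun z hz => ⟨?_, ?_⟩, ?_⟩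
  · have := hεS (Metric.ball_subset_ball (min_le_right _ _) hz)
    simpa using this
  · rw [hev z (hsub hz), Finset.prod_eq_zero_iff]
    exact ⟨i, Finset.mem_univ i, sub_self _⟩
  · have hb : ∀ᶠ q : ℂ × ℂ in 𝓝 q₀, q.1 ∈ Metric.ball q₀.1 (min r ε) :=
      continuousAt_fst.eventually (Metric.isOpen_ball.mem_nhds
        (Metric.mem_ball_self (lt_min hr hε)))
    have hk : ∀ᶠ q : ℂ × ℂ in 𝓝 q₀, ∀ k, k ≠ i → q.2 ≠ Θ k q.1 := by
      rw [Filter.eventually_all]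
      intro k
      by_cases hki : k = i
      · exact Filter.Eventually.of_forall fun q h => absurd hki h
      · have hc : ContinuousAt (fun q : ℂ × ℂ => q.2 - Θ k q.1) q₀ := by
          refine continuousAt_snd.sub ?_
          have := ((hdiff k).differentiableAt
            (Metric.isOpen_ball.mem_nhds (Metric.mem_ball_self hr))).continuousAt
          exact ContinuousAt.comp (f := Prod.fst) (g := Θ k) this continuousAt_fst
        have h2 : q₀.2 - Θ k q₀.1 ≠ 0 := by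
          rw [← hi', sub_ne_zero]
          exact hne _ (Metric.mem_ball_self hr) i k (Ne.symm hki)
        filter_upwards [hc.eventually_ne h2] with q hq _
        exact sub_ne_zero.1 hq
    filter_upwards [hb, hk] with q hq1 hq2 hq3
    refine ⟨hq1, ?_⟩
    rw [hev _ (hsub hq1), Finset.prod_eq_zero_iff] at hq3
    obtain ⟨k, -, hk⟩ := hq3
    by_cases hki : k = i
    · rw [← hki]
      exact sub_eq_zero.1 hk
    · exact absurd (sub_eq_zero.1 hk) (hq2 k hki)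

private theorem am_locconst {Z : Set (ℂ × ℂ)} (hZ : IsPreconnected Z) (P : ℂ × ℂ → Prop)
    (h : ∀ q ∈ Z, ∀ᶠ q' in 𝓝[Z] q, (P q' ↔ P q)) {a b : ℂ × ℂ} (ha : a ∈ Z) (hb : b ∈ Z)
    (hP : P a) : P b := by
  classical
  have hc : ContinuousOn (fun q => decide (P q)) Z := by
    intro q hq
    refine (tendsto_const_nhds (x := decide (P q))).congr' ?_
    filter_upwards [h q hq] with q' hq'
    exact (decide_eq_decide.2 hq').symm
  have h1 := hZ.constant hc ha hb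
  have h2 := decide_eq_decide.1 h1
  exact h2.1 hP

/-- a function that is analytic on a disk and whose real part is constant near a point of the disk is
constant on the disk -/
private theorem am_ident {c : ℂ} {r : ℝ} {f : ℂ → ℂ} (hf : DifferentiableOn ℂ f (Metric.ball c r))
    {z₁ : ℂ} (hz₁ : z₁ ∈ Metric.ball c r) (h : ∀ᶠ z in 𝓝 z₁, (f z).re = (f z₁).re) :
    ∀ z ∈ Metric.ball c r, f z = f z₁ := by
  have han : AnalyticOnNhd ℂ f (Metric.ball c r) := hf.analyticOnNhd Metric.isOpen_ball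
  obtain ⟨ε, hε, hεb⟩ := Metric.eventually_nhds_iff_ball.1
    (h.and (Metric.isOpen_ball.mem_nhds hz₁))
  obtain ⟨d, hd⟩ := AnalyticOnNhd.eq_const_of_re_eq_const (U := Metric.ball z₁ ε) (f := f)
    (c₀ := (f z₁).re) (fun z hz => han z (hεb z hz).2) (fun z hz => (hεb z hz).1)
    Metric.isOpen_ball ((convex_ball z₁ ε).isConnected ⟨z₁, Metric.mem_ball_self hε⟩)
  have h1 : ∀ᶠ z in 𝓝 z₁, f z = f z₁ := by
    filter_upwards [Metric.ball_mem_nhds z₁ hε] with z hz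
    rw [hd z hz, hd z₁ (Metric.mem_ball_self hε)]
  have h2 := han.eqOn_of_preconnected_of_eventuallyEq (g := fun _ => f z₁)
    analyticOnNhd_const (convex_ball c r).isPreconnected hz₁ h1
  exact fun z hz => h2 hz

theorem amoeba {n : ℕ} (Q : Ideal (MvPolynomial (Fin n) ℂ)) (hQ : Q.IsPrime)
    (hY : ∀ j : Fin n, (X j : MvPolynomial (Fin n) ℂ) ∉ Q)
    (hdim : Algebra.trdeg ℂ (MvPolynomial (Fin n) ℂ ⧸ Q) = 1) (lam : Fin n → ℝ)
    (v : Fin n → ℤ) (hv : Punct Q v) (hlv : ∑ j, lam j * v j ≠ 0) (κ : ℝ) :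
    ∃ x : ℂ → Fin n → ℂ, (∀ j, AnalyticAt ℂ (fun t => x t j) 0) ∧
      (∀ᶠ t in 𝓝 (0 : ℂ), (fun j => Complex.exp (x t j)) ∈ Tz Q) ∧
      (∑ j, (lam j : ℂ) * x 0 j).re = κ ∧
      ¬ ∀ᶠ t in 𝓝 (0 : ℂ), ∑ j, (lam j : ℂ) * x t j = ∑ j, (lam j : ℂ) * x 0 j := by
  classical
  obtain ⟨u, hu, hu0, hw⟩ := hv
  have hi0 : ∃ i0, v i0 ≠ 0 := by
    by_contra h
    push Not at h
    apply hlv
    simp [h]
  obtain ⟨i0, hi0⟩ := hi0
  have hnc := am_nonconst Q v u hu hu0 hw i0 hi0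
  obtain ⟨p, A, D, S, hm, hirr, hD, hS, hmod1, hmod2⟩ := model Q hQ hY hdim i0 hnc
  have hfinD : {z : ℂ | D.eval z = 0}.Finite := Polynomial.finite_setOfPred_isRoot hD
  obtain ⟨S₀, hS₀⟩ : ∃ S₀ : Finset ℂ,
      S₀ = hfinD.toFinset ∪ (sep_finite p hm hirr).toFinset := ⟨_, rfl⟩
  have hD0 : ∀ z ∉ S₀, D.eval z ≠ 0 := by
    intro z hz h
    apply hz
    rw [hS₀, Finset.mem_union]
    exact Or.inl (hfinD.mem_toFinset.2 h)
  have hsep : ∀ z ∉ S₀, (p.map (Polynomial.evalRingHom z)).Separable := by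
    intro z hz
    by_contra h
    apply hz
    rw [hS₀, Finset.mem_union]
    exact Or.inr ((sep_finite p hm hirr).mem_toFinset.2 h)
  obtain ⟨Z, hZd⟩ : ∃ Z : Set (ℂ × ℂ), Z = {q | q.1 ∉ S₀ ∧ ev p q.1 q.2 = 0} := ⟨_, rfl⟩
  have hZm : ∀ q : ℂ × ℂ, q ∈ Z ↔ q.1 ∉ S₀ ∧ ev p q.1 q.2 = 0 := by
    intro q
    rw [hZd]
    rfl
  have hZ : IsPreconnected Z := by
    rw [hZd]
    exact conn p hm hirr S₀ hsep
  have hTz : ∀ q ∈ Z, (fun j => ev (A j) q.1 q.2 / D.eval q.1) ∈ Tz Q := fun q hq =>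
    (hmod1 q.1 q.2 (hD0 _ ((hZm q).1 hq).1) ((hZm q).1 hq).2).1
  have hA0 : ∀ z ∉ S₀, ∀ θ, ev p z θ = 0 → ∀ j, ev (A j) z θ ≠ 0 := by
    intro z hz θ hθ j h
    have h1 := (hmod1 z θ (hD0 z hz) hθ).1.2 j
    simp [h] at h1
  obtain ⟨U, hU⟩ : ∃ U : (Fin n → ℝ) → ℂ × ℂ → ℝ, U = fun l q =>
      ∑ j, l j * Real.log ‖ev (A j) q.1 q.2 / D.eval q.1‖ := ⟨_, rfl⟩
  have hUv : ∀ l q, U l q = ∑ j, l j * Real.log ‖ev (A j) q.1 q.2 / D.eval q.1‖ := by
    intro l q
    rw [hU]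
  have hUc : ContinuousOn (U lam) Z := by
    rw [hU]
    refine continuousOn_finsetSum _ fun j _ => ?_
    refine ContinuousOn.mul continuousOn_const ?_
    refine ContinuousOn.log ?_ ?_
    · refine ContinuousOn.norm ?_
      refine ContinuousOn.div (am_ev_cont (A j)).continuousOn
        ((Polynomial.continuous D).comp continuous_fst).continuousOn ?_
      intro q hq
      exact hD0 _ ((hZm q).1 hq).1
    · intro q hq
      exact norm_ne_zero_iff.2 ((hTz q hq).2 j)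
  -- (1) `u` is not bounded
  have hunb : ∀ M : ℝ, ∃ q ∈ Z, M < |U lam q| := by
    intro M
    have h1 := am_avoid Q hQ hdim v u hu hu0 hw i0 hi0 S hS
    have h2 : ∀ᶠ t in 𝓝[≠] (0 : ℂ), ∀ c ∈ S₀, t ^ v i0 * u i0 t ≠ c := by
      rw [Filter.eventually_all_finset]
      intro c _
      filter_upwards [am_avoid Q hQ hdim v u hu hu0 hw i0 hi0 (X i0 - C c) (hnc c)] with t ht h
      apply ht
      simp [h]
    have h3 := (am_tend v u hu hu0 lam hlv).eventually_gt_atTop M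
    obtain ⟨t, ⟨⟨ht1, ht2⟩, ht3⟩, ht4⟩ := (((hw.and h1).and h2).and h3).exists
    obtain ⟨hDz, θ, hθ, hθj⟩ := hmod2 _ ht1 ht2
    refine ⟨(t ^ v i0 * u i0 t, θ), (hZm _).2 ⟨fun h => ht3 _ h rfl, hθ⟩, ?_⟩
    have h5 : U lam (t ^ v i0 * u i0 t, θ) = ∑ j, lam j * Real.log ‖t ^ v j * u j t‖ := by
      rw [hUv]
      refine Finset.sum_congr rfl fun j _ => ?_
      rw [hθj j]
    rw [h5]
    exact ht4
  -- (2) `u` takes the value `κ`
  have hval : ∃ q ∈ Z, U lam q = κ := by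
    by_contra hcon
    push Not at hcon
    obtain ⟨q₁, hq₁, -⟩ := hunb 0
    have hord := (hZ.image _ hUc).ordConnected
    have hfalse : ∀ (l : Fin n → ℝ) (κ' : ℝ), (∀ q ∈ Z, κ' < U l q) →
        (∀ q, |U l q| = |U lam q|) → False := by
      intro l κ' h1 h2
      obtain ⟨M, hM⟩ := am_bdd p hm A D hD S₀ hD0 hA0 l κ' (fun z hz θ hθ => by
        have := h1 (z, θ) ((hZm _).2 ⟨hz, hθ⟩)
        rwa [hUv] at this)
      obtain ⟨q, hq, hqM⟩ := hunb M
      have h3 := hM q.1 ((hZm q).1 hq).1 q.2 ((hZm q).1 hq).2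
      rw [← h2 q, hUv] at hqM
      exact absurd h3 (not_le.2 hqM)
    rcases lt_or_gt_of_ne (hcon q₁ hq₁) with hlt | hgt
    · have hneg : ∀ q, U (-lam) q = - U lam q := by
        intro q
        rw [hUv, hUv, ← Finset.sum_neg_distrib]
        refine Finset.sum_congr rfl fun j _ => ?_
        rw [Pi.neg_apply]
        ring
      refine hfalse (-lam) (-κ) (fun q hq => ?_) (fun q => ?_)
      · rw [hneg, neg_lt_neg_iff]
        by_contra hge
        push Not at hge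
        obtain ⟨q', hq', hq''⟩ := hord.out ⟨q₁, hq₁, rfl⟩ ⟨q, hq, rfl⟩ ⟨hlt.le, hge⟩
        exact hcon q' hq' hq''
      · rw [hneg, abs_neg]
    · refine hfalse lam κ (fun q hq => ?_) (fun q => rfl)
      by_contra hge
      push Not at hge
      obtain ⟨q', hq', hq''⟩ := hord.out ⟨q, hq, rfl⟩ ⟨q₁, hq₁, rfl⟩ ⟨hge, hgt.le⟩
      exact hcon q' hq' hq''
  -- (3) branches
  have hbr : ∀ q₀ ∈ Z, ∃ (r : ℝ) (θ : ℂ → ℂ) (x : Fin n → ℂ → ℂ), 0 < r ∧
      DifferentiableOn ℂ θ (Metric.ball q₀.1 r) ∧ θ q₀.1 = q₀.2 ∧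
      (∀ z ∈ Metric.ball q₀.1 r, (z, θ z) ∈ Z) ∧
      (∀ j, DifferentiableOn ℂ (x j) (Metric.ball q₀.1 r)) ∧
      (∀ z ∈ Metric.ball q₀.1 r, ∀ j, Complex.exp (x j z) = ev (A j) z (θ z) / D.eval z) ∧
      ∀ᶠ q in 𝓝[Z] q₀, q.1 ∈ Metric.ball q₀.1 r ∧ q.2 = θ q.1 := by
    intro q₀ hq₀
    obtain ⟨r, θ, hr, hθd, hθ0, hθZ, hθloc⟩ := am_branch p hm S₀ hsep q₀ ((hZm q₀).1 hq₀).1
      ((hZm q₀).1 hq₀).2
    have hlog : ∀ j, ∃ g : ℂ → ℂ, DifferentiableOn ℂ g (Metric.ball q₀.1 r) ∧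
        ∀ z ∈ Metric.ball q₀.1 r, Complex.exp (g z) = ev (A j) z (θ z) / D.eval z := by
      intro j
      refine am_log hr (w := fun z => ev (A j) z (θ z) / D.eval z) ?_ ?_
      · refine (am_ev_diff (A j) hθd).div (Polynomial.differentiable D).differentiableOn ?_
        intro z hz
        exact hD0 z (hθZ z hz).1
      · intro z hz
        exact div_ne_zero (hA0 z (hθZ z hz).1 _ (hθZ z hz).2 j) (hD0 z (hθZ z hz).1)
    choose x hx1 hx2 using hlog
    refine ⟨r, θ, x, hr, hθd, hθ0, fun z hz => (hZm _).2 (hθZ z hz), hx1,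
      fun z hz j => hx2 j z hz, ?_⟩
    filter_upwards [hθloc.filter_mono nhdsWithin_le_nhds, self_mem_nhdsWithin] with q hq1 hq2
    exact hq1 ((hZm q).1 hq2).2
  have hre : ∀ (x : Fin n → ℂ) (q : ℂ × ℂ),
      (∀ j, Complex.exp (x j) = ev (A j) q.1 q.2 / D.eval q.1) →
      (∑ j, (lam j : ℂ) * x j).re = U lam q := by
    intro x q h
    rw [hUv, Complex.re_sum]
    refine Finset.sum_congr rfl fun j _ => ?_
    rw [← h j, Complex.norm_exp, Real.log_exp, Complex.re_ofReal_mul]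
  -- flatness propagates along a branch
  have hkey : ∀ q₀ ∈ Z, ∀ (r : ℝ) (θ : ℂ → ℂ) (x : Fin n → ℂ → ℂ),
      DifferentiableOn ℂ θ (Metric.ball q₀.1 r) →
      (∀ z ∈ Metric.ball q₀.1 r, (z, θ z) ∈ Z) →
      (∀ j, DifferentiableOn ℂ (x j) (Metric.ball q₀.1 r)) →
      (∀ z ∈ Metric.ball q₀.1 r, ∀ j, Complex.exp (x j z) = ev (A j) z (θ z) / D.eval z) →
      ∀ z₁ ∈ Metric.ball q₀.1 r, (∀ᶠ q in 𝓝[Z] (z₁, θ z₁), U lam q = U lam (z₁, θ z₁)) →
      ∀ z ∈ Metric.ball q₀.1 r, U lam (z, θ z) = U lam (z₁, θ z₁) := by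
    intro q₀ _ r θ x hθd hθZ hx1 hx2 z₁ hz₁ hfl z hz
    have hfd : DifferentiableOn ℂ (fun z => ∑ j, (lam j : ℂ) * x j z) (Metric.ball q₀.1 r) :=
      DifferentiableOn.fun_sum fun j _ => (hx1 j).const_mul _
    have hfre : ∀ z ∈ Metric.ball q₀.1 r, (∑ j, (lam j : ℂ) * x j z).re = U lam (z, θ z) :=
      fun z hz => hre (fun j => x j z) (z, θ z) (hx2 z hz)
    have htend : Filter.Tendsto (fun z => (z, θ z)) (𝓝 z₁) (𝓝[Z] (z₁, θ z₁)) := by
      refine tendsto_nhdsWithin_iff.2 ⟨?_, ?_⟩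
      · have hc := (hθd.differentiableAt (Metric.isOpen_ball.mem_nhds hz₁)).continuousAt
        exact (continuousAt_id.prodMk hc)
      · filter_upwards [Metric.isOpen_ball.mem_nhds hz₁] with z hz
        exact hθZ z hz
    have hev : ∀ᶠ z in 𝓝 z₁, (∑ j, (lam j : ℂ) * x j z).re = (∑ j, (lam j : ℂ) * x j z₁).re := by
      filter_upwards [htend.eventually hfl, Metric.isOpen_ball.mem_nhds hz₁] with z h1 h2
      rw [hfre z h2, hfre z₁ hz₁]
      exact h1
    have h3 := am_ident hfd hz₁ hev z hz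
    rw [← hfre z hz, ← hfre z₁ hz₁]
    exact congrArg Complex.re h3
  have hflat : ∀ q ∈ Z, ∀ᶠ q' in 𝓝[Z] q, ((∀ᶠ q'' in 𝓝[Z] q', U lam q'' = U lam q') ↔
      (∀ᶠ q'' in 𝓝[Z] q, U lam q'' = U lam q)) := by
    intro q hq
    by_cases hfl : ∀ᶠ q'' in 𝓝[Z] q, U lam q'' = U lam q
    · filter_upwards [hfl, eventually_eventually_nhdsWithin.2 hfl] with q' h1 h2
      refine ⟨fun _ => hfl, fun _ => ?_⟩
      filter_upwards [h2] with q'' h3
      rw [h3, h1]
    · obtain ⟨r, θ, x, hr, hθd, hθ0, hθZ, hx1, hx2, hloc⟩ := hbr q hq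
      filter_upwards [hloc] with q' h1
      refine ⟨fun h2 => ?_, fun h => absurd h hfl⟩
      have hq' : q' = (q'.1, θ q'.1) := Prod.ext rfl h1.2
      have h3 := hkey q hq r θ x hθd hθZ hx1 hx2 q'.1 h1.1 (by rw [← hq']; exact h2)
      filter_upwards [hloc] with q'' h4
      have hq'' : q'' = (q''.1, θ q''.1) := Prod.ext rfl h4.2
      have h5 := h3 q''.1 h4.1
      have h6 := h3 q.1 (Metric.mem_ball_self hr)
      rw [← hq''] at h5
      rw [hθ0] at h6
      rw [h5, ← h6]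
  have hnone : ∀ q ∈ Z, ¬ ∀ᶠ q'' in 𝓝[Z] q, U lam q'' = U lam q := by
    intro q₁ hq₁ hfl
    have hall : ∀ q ∈ Z, ∀ᶠ q'' in 𝓝[Z] q, U lam q'' = U lam q := fun q hq =>
      am_locconst hZ (fun q => ∀ᶠ q'' in 𝓝[Z] q, U lam q'' = U lam q) hflat hq₁ hq hfl
    obtain ⟨q, hq, hqM⟩ := hunb |U lam q₁|
    have h1 : U lam q = U lam q₁ := by
      refine am_locconst hZ (fun q => U lam q = U lam q₁) ?_ hq₁ hq rfl
      intro q hq
      filter_upwards [hall q hq] with q' h2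
      rw [h2]
    rw [h1] at hqM
    exact lt_irrefl _ hqM
  -- (4) the end
  obtain ⟨q₀, hq₀, hq₀κ⟩ := hval
  obtain ⟨r, θ, x, hr, hθd, hθ0, hθZ, hx1, hx2, hloc⟩ := hbr q₀ hq₀
  have hb0 : q₀.1 ∈ Metric.ball q₀.1 r := Metric.mem_ball_self hr
  have htr : Filter.Tendsto (fun t : ℂ => q₀.1 + t) (𝓝 0) (𝓝 q₀.1) := by
    have : ContinuousAt (fun t : ℂ => q₀.1 + t) 0 := by fun_prop
    simpa [ContinuousAt] using this
  refine ⟨fun t j => x j (q₀.1 + t), fun j => ?_, ?_, ?_, ?_⟩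
  · have h1 : AnalyticAt ℂ (x j) (q₀.1 + 0) := by
      rw [add_zero]
      exact (hx1 j).analyticAt (Metric.isOpen_ball.mem_nhds hb0)
    exact h1.fun_comp (g := x j) (f := fun t : ℂ => q₀.1 + t) (by fun_prop)
  · filter_upwards [htr.eventually (Metric.isOpen_ball.mem_nhds hb0)] with t ht
    have h1 := hTz _ (hθZ _ ht)
    have h2 : (fun j => Complex.exp (x j (q₀.1 + t))) =
        fun j => ev (A j) (q₀.1 + t) (θ (q₀.1 + t)) / D.eval (q₀.1 + t) :=
      funext fun j => hx2 _ ht j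
    rw [h2]
    exact h1
  · simp only [add_zero]
    rw [hre (fun j => x j q₀.1) q₀ (fun j => by rw [hx2 _ hb0 j, hθ0])]
    exact hq₀κ
  · intro hcst
    simp only [add_zero] at hcst
    apply hnone q₀ hq₀
    have h1 : ∀ᶠ z in 𝓝 q₀.1, ∑ j, (lam j : ℂ) * x j z = ∑ j, (lam j : ℂ) * x j q₀.1 := by
      have htr' : Filter.Tendsto (fun z : ℂ => z - q₀.1) (𝓝 q₀.1) (𝓝 0) := by
        have : ContinuousAt (fun z : ℂ => z - q₀.1) q₀.1 := by fun_prop
        simpa [ContinuousAt] using this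
      filter_upwards [htr'.eventually hcst] with z hz
      simpa using hz
    have h2 : ∀ᶠ q in 𝓝[Z] q₀, ∑ j, (lam j : ℂ) * x j q.1 = ∑ j, (lam j : ℂ) * x j q₀.1 :=
      (continuousAt_fst.eventually h1).filter_mono nhdsWithin_le_nhds
    filter_upwards [h2, hloc] with q h3 h4
    have hq : q = (q.1, θ q.1) := Prod.ext rfl h4.2
    have h5 := hre (fun j => x j q.1) q (fun j => by rw [hx2 _ h4.1 j, ← h4.2])
    have h6 := hre (fun j => x j q₀.1) q₀ (fun j => by rw [hx2 _ hb0 j, hθ0])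
    rw [← h5, ← h6]
    exact congrArg Complex.re h3

end Pool.Agent.EXP
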