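import Mathlib

/-!
# EXP / Avoid: a real point outside countably many hypersurfaces (helper42)

PROOF.  Induction on `n`.  `D i`, as a polynomial in `X_0` over `C[X_1..X_m]` (`finSuccEquiv`), has a nonzero leading
coefficient; by induction there is `y'` real with all leading coefficients nonzero at `y'`; then every `D i (., y')` is a
nonzero polynomial in one variable, all roots together are countable, so there is a real `y_0` outside.
-/

set_option autoImplicit false

namespace Pool.Agent.EXP

open MvPolynomial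

private theorem avoid_one {ι : Type} [Countable ι] (Q : ι → Polynomial ℂ) (hQ : ∀ i, Q i ≠ 0) :
    ∃ t : ℝ, ∀ i, (Q i).eval (t : ℂ) ≠ 0 := by
  by_contra hcon
  push Not at hcon
  apply Cardinal.not_countable_real
  have h1 : (Set.univ : Set ℝ) ⊆ ⋃ i, {t : ℝ | (Q i).eval (t : ℂ) = 0} := by
    intro t _
    obtain ⟨i, hi⟩ := hcon t
    exact Set.mem_iUnion.2 ⟨i, hi⟩
  refine (Set.countable_iUnion fun i => ?_).mono h1
  have h2 : {t : ℝ | (Q i).eval (t : ℂ) = 0} = (fun t : ℝ => (t : ℂ)) ⁻¹' {z | (Q i).IsRoot z} := rfl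
  rw [h2]
  exact ((Polynomial.finite_setOf_isRoot (hQ i)).preimage
    (Complex.ofReal_injective.injOn)).countable

theorem exists_real_avoid {n : ℕ} {ι : Type} [Countable ι] (D : ι → MvPolynomial (Fin n) ℂ)
    (hD : ∀ i, D i ≠ 0) : ∃ y : Fin n → ℝ, ∀ i, eval (fun j => (y j : ℂ)) (D i) ≠ 0 := by
  induction n with
  | zero =>
    refine ⟨fun _ => 0, fun i h => hD i ?_⟩
    have h1 := eq_C_of_isEmpty (D i)
    rw [h1, eval_C] at h
    rw [h1, h, C_0]
  | succ n ih =>
    have hP : ∀ i, finSuccEquiv ℂ n (D i) ≠ 0 := by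
      intro i h
      exact hD i ((map_eq_zero_iff _ (finSuccEquiv ℂ n).injective).1 h)
    obtain ⟨y, hy⟩ := ih (fun i => (finSuccEquiv ℂ n (D i)).leadingCoeff)
      (fun i => Polynomial.leadingCoeff_ne_zero.2 (hP i))
    obtain ⟨t, ht⟩ := avoid_one
      (fun i => (finSuccEquiv ℂ n (D i)).map (eval fun j => (y j : ℂ))) (by
        intro i h
        apply hy i
        have h1 := congrArg (fun p => Polynomial.coeff p (finSuccEquiv ℂ n (D i)).natDegree) h
        simp only [Polynomial.coeff_map, Polynomial.coeff_zero] at h1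
        exact h1)
    refine ⟨Fin.cons t y, fun i => ?_⟩
    have h2 : (fun j => ((Fin.cons t y : Fin (n + 1) → ℝ) j : ℂ)) =
        (Fin.cons (t : ℂ) (fun j => (y j : ℂ)) : Fin (n + 1) → ℂ) := by
      funext j
      refine Fin.cases ?_ (fun j => ?_) j
      · rfl
      · rfl
    rw [h2, eval_eq_eval_mv_eval']
    exact ht i

end Pool.Agent.EXP
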