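import Pool.Agent.EXP.Elim
import Pool.Agent.EXP.Avoid

/-!
# EXP / Gen: a real line in the direction `v` which meets `G = 0` outside countably many hypersurfaces

PROOF.  For a polynomial `S` in `n` variables let `S^(Z, Y) = S(Y + Z v)` in `n + 1` variables (`Z = X_0`).  This is the
image of `rename Fin.succ S` under the automorphism `X_0 -> X_0`, `X_(j+1) -> X_(j+1) + v_j X_0` (inverse: `- v_j`).  So
`G^` is irreducible, and `G^` divides `S^` only if `rename succ G` divides `rename succ S`, i.e. `G` divides `S`.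
`G^` involves `X_0` (`hv`).  `elim2` gives `D_i ≠ 0` in `C[Y]` with `D_i(y) = 0` if `G(y + ρ v) = S_i(y + ρ v) = 0`.
`y` real with all `D_i(y) ≠ 0`, with the leading coefficient of `G^` in `X_0` nonzero at `y` (so that
`σ ↦ G(y + σ v)` is a polynomial of positive degree: it has a root and a nonroot).
-/

set_option autoImplicit false

namespace Pool.Agent.EXP

open MvPolynomial

/-- `X_0 ↦ X_0`, `X_(j+1) ↦ X_(j+1) + v_j X_0`. -/
private noncomputable def sh {n : ℕ} (v : Fin n → ℂ) :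
    MvPolynomial (Fin (n + 1)) ℂ →ₐ[ℂ] MvPolynomial (Fin (n + 1)) ℂ :=
  aeval (Fin.cons (X 0) fun j => X j.succ + C (v j) * X 0)

private theorem sh_zero {n : ℕ} (v : Fin n → ℂ) : sh v (X 0) = X 0 := by
  unfold sh
  rw [aeval_X, Fin.cons_zero]

private theorem sh_succ {n : ℕ} (v : Fin n → ℂ) (j : Fin n) :
    sh v (X j.succ) = X j.succ + C (v j) * X 0 := by
  unfold sh
  rw [aeval_X, Fin.cons_succ]

private theorem sh_sh {n : ℕ} (v : Fin n → ℂ) :
    (sh v).comp (sh fun j => - v j) = AlgHom.id ℂ _ := by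
  apply MvPolynomial.algHom_ext
  intro i
  refine Fin.cases ?_ (fun j => ?_) i
  · rw [AlgHom.comp_apply, sh_zero, sh_zero, AlgHom.id_apply]
  · rw [AlgHom.comp_apply, sh_succ, map_add, map_mul, sh_succ, sh_zero, AlgHom.id_apply]
    have h1 : sh v (C (-v j)) = C (-v j) := by
      rw [← MvPolynomial.algebraMap_eq]
      exact AlgHom.commutes _ _
    rw [h1, C_neg]
    ring

private noncomputable def shE {n : ℕ} (v : Fin n → ℂ) :
    MvPolynomial (Fin (n + 1)) ℂ ≃ₐ[ℂ] MvPolynomial (Fin (n + 1)) ℂ :=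
  AlgEquiv.ofAlgHom (sh v) (sh fun j => - v j) (sh_sh v) (by
    have h := sh_sh (fun j => - v j)
    simpa using h)

/-- `S^(Z, Y) = S(Y + Z v)` -/
private noncomputable def hat {n : ℕ} (v : Fin n → ℂ) (S : MvPolynomial (Fin n) ℂ) :
    MvPolynomial (Fin (n + 1)) ℂ := shE v (rename Fin.succ S)

private theorem eval_hat {n : ℕ} (v : Fin n → ℂ) (S : MvPolynomial (Fin n) ℂ) (t : ℂ)
    (y : Fin n → ℂ) : eval (Fin.cons t y : Fin (n + 1) → ℂ) (hat v S) = eval (fun j => y j + t * v j) S := by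
  have h : (aeval (Fin.cons t y : Fin (n + 1) → ℂ)).comp ((sh v).comp (rename Fin.succ)) =
      (aeval (fun j => y j + t * v j) : MvPolynomial (Fin n) ℂ →ₐ[ℂ] ℂ) := by
    apply MvPolynomial.algHom_ext
    intro j
    rw [AlgHom.comp_apply, AlgHom.comp_apply, rename_X, sh_succ, aeval_X]
    simp only [map_add, map_mul, aeval_X, Fin.cons_succ, Fin.cons_zero, aeval_C]
    simp only [Algebra.algebraMap_self, RingHom.id_apply]
    ring
  have h2 := DFunLike.congr_fun h S
  exact h2

private theorem fs_succ {n : ℕ} (S : MvPolynomial (Fin n) ℂ) :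
    finSuccEquiv ℂ n (rename Fin.succ S) = Polynomial.C S := by
  have h : ((finSuccEquiv ℂ n : _ ≃ₐ[ℂ] _) : _ →ₐ[ℂ] _).comp (rename Fin.succ) =
      (Polynomial.CAlgHom : MvPolynomial (Fin n) ℂ →ₐ[MvPolynomial (Fin n) ℂ] _).restrictScalars ℂ := by
    apply MvPolynomial.algHom_ext
    intro j
    simp [finSuccEquiv_X_succ]
  exact DFunLike.congr_fun h S

private theorem irr_hat {n : ℕ} (v : Fin n → ℂ) {G : MvPolynomial (Fin n) ℂ} (hG : Irreducible G) :
    Irreducible (hat v G) := by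
  unfold hat
  rw [MulEquiv.irreducible_iff]
  have h1 : Prime (Polynomial.C G) :=
    Polynomial.prime_C_iff.2 (UniqueFactorizationMonoid.irreducible_iff_prime.1 hG)
  rw [← fs_succ] at h1
  exact (MulEquiv.irreducible_iff (finSuccEquiv ℂ n)).1 h1.irreducible

private theorem dvd_hat {n : ℕ} (v : Fin n → ℂ) {G S : MvPolynomial (Fin n) ℂ}
    (h : hat v G ∣ hat v S) : G ∣ S := by
  unfold hat at h
  have h1 := (map_dvd_iff (shE v)).1 h
  have h2 := (map_dvd_iff (finSuccEquiv ℂ n)).2 h1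
  rw [fs_succ, fs_succ] at h2
  have h3 := (Polynomial.C_dvd_iff_dvd_coeff _ _).1 h2 0
  rwa [Polynomial.coeff_C_zero] at h3

theorem gen {n : ℕ} {ι : Type} [Countable ι] (G : MvPolynomial (Fin n) ℂ) (hG : Irreducible G)
    (v : Fin n → ℤ)
    (hv : ∃ (x : Fin n → ℂ) (t : ℂ), eval (fun j => x j + t * v j) G ≠ eval x G)
    (S : ι → MvPolynomial (Fin n) ℂ) (hS : ∀ i, ¬ G ∣ S i) :
    ∃ (y : Fin n → ℝ) (ρ : ℂ), eval (fun j => (y j : ℂ) + ρ * v j) G = 0 ∧
      (∃ σ : ℂ, eval (fun j => (y j : ℂ) + σ * v j) G ≠ 0) ∧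
      ∀ i, eval (fun j => (y j : ℂ) + ρ * v j) (S i) ≠ 0 := by
  set w : Fin n → ℂ := fun j => (v j : ℂ) with hw
  set F := hat w G with hF
  have hFirr : Irreducible F := irr_hat w hG
  have hdeg : 0 < (finSuccEquiv ℂ n F).natDegree := by
    by_contra h0
    have h1 : (finSuccEquiv ℂ n F).natDegree = 0 := by omega
    obtain ⟨a, ha⟩ := Polynomial.natDegree_eq_zero.1 h1
    obtain ⟨x, t, hxt⟩ := hv
    apply hxt
    have h2 : ∀ s : ℂ, eval (Fin.cons s x : Fin (n + 1) → ℂ) F = eval x a := by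
      intro s
      rw [eval_eq_eval_mv_eval', ← ha, Polynomial.map_C, Polynomial.eval_C]
    have h3 := h2 t
    have h4 := h2 0
    rw [hF, eval_hat] at h3 h4
    rw [h3, ← h4]
    congr 1
    congr 1
    funext j
    simp
  have hF0 : 0 < degreeOf 0 F := by
    rw [← natDegree_finSuccEquiv]
    exact hdeg
  choose D hD1 hD2 using fun i => elim2 F hFirr hF0 (hat w (S i)) (fun h => hS i (dvd_hat w h))
  have hlead : (finSuccEquiv ℂ n F).leadingCoeff ≠ 0 := by
    rw [Polynomial.leadingCoeff_ne_zero]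
    rintro h
    rw [h] at hdeg
    simp at hdeg
  obtain ⟨y, hy⟩ := exists_real_avoid
    (fun o : Option ι => o.elim (finSuccEquiv ℂ n F).leadingCoeff D) (by
      intro o
      cases o with
      | none => exact hlead
      | some i => exact hD1 i)
  set p := Polynomial.map (eval fun j => (y j : ℂ)) (finSuccEquiv ℂ n F) with hp
  have hev : ∀ s : ℂ, p.eval s = eval (fun j => (y j : ℂ) + s * v j) G := by
    intro s
    rw [hp, ← eval_eq_eval_mv_eval', hF, eval_hat]
  have hpd : p.natDegree = (finSuccEquiv ℂ n F).natDegree := by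
    rw [hp]
    exact Polynomial.natDegree_map_of_leadingCoeff_ne_zero _ (hy none)
  have hp0 : p ≠ 0 := by
    rintro h
    rw [h, Polynomial.natDegree_zero] at hpd
    omega
  have hpd0 : p.degree ≠ 0 := by
    rw [Polynomial.degree_eq_natDegree hp0, hpd]
    exact_mod_cast hdeg.ne'
  obtain ⟨ρ, hρ⟩ := IsAlgClosed.exists_root p hpd0
  refine ⟨y, ρ, ?_, ?_, ?_⟩
  · rw [← hev]
    exact hρ
  · by_contra hcon
    push Not at hcon
    apply hp0
    apply Polynomial.funext
    intro s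
    rw [hev, hcon s, Polynomial.eval_zero]
  · intro i hi
    apply hy (some i)
    have h1 := hD2 i (Fin.cons ρ fun j => (y j : ℂ)) (by rw [hF, eval_hat]; rw [← hev]; exact hρ)
      (by rw [eval_hat]; exact hi)
    simpa using h1

end Pool.Agent.EXP
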