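import Pool.Agent.EXP.Defs
import Pool.Agent.EXK.KPlB

/-!
# EXP / PunctB: a place at which a transcendental element has a zero
-/

set_option autoImplicit false

namespace Pool.Agent.EXP

open MvPolynomial Pool.Agent.EXL Pool.Agent.EXI Pool.Agent.EXK

theorem exists_pl1 (k : Subfield ℂ) {n : ℕ} (b : Fin n → ℂ) (β : ℂ)
    (hβ : β ∈ IntermediateField.adjoin k (Set.range b))
    (ht : AlgebraicIndependent k (fun _ : Fin 1 => β))
    (halg : ∀ j, IsAlgebraic (Algebra.adjoin k (Set.range fun _ : Fin 1 => β)) (b j)) :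
    ∃ (pl : Place k (IntermediateField.adjoin k (Set.range b))) (N : ℤ) (ε : pl.O), N ≠ 0 ∧
      pl.ρ ε ≠ 0 ∧
      (⟨β, hβ⟩ : IntermediateField.adjoin k (Set.range b)) = pl.t ^ N * ε := by
  classical
  let τ : Fin 0 → ℂ := fun _ => 0
  let t : Fin 1 → ℂ := fun _ => β
  have hac := isAlgClosed_Om k τ
  have hind : AlgebraicIndependent k
      fun l : {l : Fin 1 // l ≠ 0} => (((fun _ => 1 : Fin 1 → Om k τ) l : Om k τ) : ℂ) := by
    have : IsEmpty {l : Fin 1 // l ≠ 0} := ⟨fun l => l.2 (Subsingleton.elim _ _)⟩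
    exact algebraicIndependent_empty_type
  obtain ⟨κ, hκc, hκt⟩ := tor_base (le_Om k τ) t ht (fun _ => 1) (fun _ => 1) 0
    one_ne_zero rfl hind
  let F : IntermediateField (IntermediateField.adjoin k (Set.range t)) ℂ :=
    IntermediateField.adjoin (IntermediateField.adjoin k (Set.range t)) (Set.range b)
  have hle := IntermediateField.algebra_adjoin_le_adjoin k (Set.range t)
  have hfd : FiniteDimensional (IntermediateField.adjoin k (Set.range t)) F := by
    refine IntermediateField.finiteDimensional_adjoin ?_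
    rintro x ⟨j, rfl⟩
    have h2 : IsAlgebraic (IntermediateField.adjoin k (Set.range t)) (b j) := by
      obtain ⟨p, hp0, hp⟩ := halg j
      refine ⟨p.map (Subalgebra.inclusion hle).toRingHom,
        (Polynomial.map_ne_zero_iff (Subalgebra.inclusion_injective hle)).2 hp0, ?_⟩
      rw [Polynomial.aeval_def, Polynomial.eval₂_map]
      exact hp
    exact h2.isIntegral
  obtain ⟨e, he, χ, hχc, hχ1, ss, hss, hmin⟩ := emb (F := F) (Ω := Om k τ) κ 0
  have hs0 : ss ≠ 0 := by
    rintro rfl
    have hdeg := congrArg Polynomial.natDegree hmin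
    rw [minpoly.zero, Polynomial.map_X, Polynomial.natDegree_X, Multiset.map_zero,
      Multiset.prod_zero, Polynomial.natDegree_one] at hdeg
    exact one_ne_zero hdeg
  obtain ⟨σ, hσs⟩ := Multiset.exists_mem_of_ne_zero hs0
  have hσ := hss σ hσs
  have hKF : ∀ x ∈ IntermediateField.adjoin k (Set.range b), x ∈ F := by
    intro x hx
    induction hx using IntermediateField.adjoin_induction with
    | mem x hx => exact IntermediateField.subset_adjoin _ _ hx
    | algebraMap x =>
      exact F.algebraMap_mem (algebraMap k (IntermediateField.adjoin k (Set.range t)) x)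
    | add x y hx hy h1 h2 => exact F.add_mem h1 h2
    | inv x hx h1 => exact F.inv_mem h1
    | mul x y hx hy h1 h2 => exact F.mul_mem h1 h2
  let incl : IntermediateField.adjoin k (Set.range b) →+* F :=
    { toFun := fun x => ⟨x, hKF x x.2⟩
      map_one' := rfl
      map_mul' := fun _ _ => rfl
      map_zero' := rfl
      map_add' := fun _ _ => rfl }
  have hσκ : ∀ z : IntermediateField.adjoin k (Set.range t),
      σ (algebraMap (IntermediateField.adjoin k (Set.range t)) F z) = χ (κ z) := fun z => by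
    have := congrArg (fun g => g z) hσ
    simpa only [RingHom.comp_apply] using this
  have hc : ∀ c : k, (σ.comp incl) (algebraMap k (IntermediateField.adjoin k (Set.range b)) c) =
      HahnSeries.C (⟨c, le_Om k τ c.2⟩ : Om k τ) := by
    intro c0
    have h1 := hσκ (algebraMap k (IntermediateField.adjoin k (Set.range t)) c0)
    rw [hκc] at h1
    change σ (algebraMap (IntermediateField.adjoin k (Set.range t)) F
      (algebraMap k (IntermediateField.adjoin k (Set.range t)) c0)) = _
    rw [h1]
    exact hχc _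
  have hb1 : (σ.comp incl) ⟨β, hβ⟩ = HahnSeries.single (e : ℤ) 1 := by
    have h1 := hσκ ⟨t 0, IntermediateField.subset_adjoin k _ ⟨0, rfl⟩⟩
    rw [hκt 0, hχ1] at h1
    exact h1
  have hord : ((σ.comp incl) ⟨β, hβ⟩).order = e := by
    rw [hb1, HahnSeries.order_single one_ne_zero]
  obtain ⟨pl, hO, hρ⟩ := exists_place k (Om k τ) (le_Om k τ) (σ.comp incl) hc ⟨β, hβ⟩
    (by rw [hord]; exact_mod_cast he.ne')
  have hne : (⟨β, hβ⟩ : IntermediateField.adjoin k (Set.range b)) ≠ 0 := by
    intro h0
    rw [h0, map_zero] at hord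
    rw [HahnSeries.order_zero] at hord
    exact he.ne (by exact_mod_cast hord)
  obtain ⟨N, ε, hε, hβε⟩ := pl.fac ⟨β, hβ⟩ hne
  refine ⟨pl, N, ε, ?_, hε, hβε⟩
  rintro rfl
  rw [zpow_zero, one_mul] at hβε
  apply hε
  rw [hρ, ← hβε, hb1, HahnSeries.coeff_single_of_ne (by exact_mod_cast he.ne)]
  rfl

end Pool.Agent.EXP
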