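import Pool.Agent.EXP.Defs
import Pool.Agent.EXI.CIft
import Pool.Agent.EXI.CLoc

/-!
# EXP / PunctC: a puncture from a chart of a place of the field of functions
-/

set_option autoImplicit false

namespace Pool.Agent.EXP

open MvPolynomial Pool.Agent.EXL Pool.Agent.EXI Topology Filter

theorem pc_hasDerivAt {k : Subfield ℂ} (P : MvPolynomial (Fin 1) k) (a τ : ℂ) :
    HasDerivAt (fun τ : ℂ => aeval (fun _ : Fin 1 => a + τ) P)
      (aeval (fun _ : Fin 1 => a + τ) (pderiv 0 P)) τ := by
  induction P using MvPolynomial.induction_on with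
  | C c =>
    simp only [aeval_C, pderiv_C, map_zero]
    exact hasDerivAt_const _ _
  | add p q hp hq =>
    simp only [map_add]
    exact hp.add hq
  | mul_X p i hp =>
    have hi : i = 0 := Subsingleton.elim _ _
    subst hi
    have h := hp.mul ((hasDerivAt_id τ).const_add a)
    simp only [map_mul, aeval_X, pderiv_mul, pderiv_X_self, map_add, map_one]
    exact h

theorem punct_of_chart {k : Subfield ℂ} {n : ℕ} (Q : Ideal (MvPolynomial (Fin n) ℂ)) (b : Fin n → ℂ)
    (hp : ∀ f : MvPolynomial (Fin n) k, aeval b f = 0 ↔ map (algebraMap k ℂ) f ∈ Q)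
    (hx : ∀ x : Fin n → ℂ, (∀ f : MvPolynomial (Fin n) k, map (algebraMap k ℂ) f ∈ Q →
      aeval x f = 0) → ∀ f ∈ Q, eval x f = 0)
    {K : Type} [Field K] [Algebra k K] {pl : Place k K} (ch : Chart pl 0) (B : Fin n → K)
    (hB : ∀ f : MvPolynomial (Fin n) k, aeval b f = 0 → aeval B f = 0)
    (v : Fin n → ℤ) (A D : Fin n → MvPolynomial (Option (Fin 1)) k)
    (hA : ∀ j, aeval (fun i => pl.ρ (ch.x i)) (A j) ≠ 0)
    (hD : ∀ j, aeval (fun i => pl.ρ (ch.x i)) (D j) ≠ 0)
    (hrep : ∀ j, B j * aeval (fun i => (ch.x i : K)) (D j) =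
      aeval (fun i => (ch.x (some i) : K)) ch.P ^ v j * aeval (fun i => (ch.x i : K)) (A j)) :
    Punct Q v := by
  classical
  let x0 : Option (Fin 1) → ℂ := fun i => pl.ρ (ch.x i)
  obtain ⟨W, hW0, hWc, hWs, -⟩ := local_spec ch x0 (fun f hf => hf) ch.hGW
  let xx : ℂ → (Fin 1 → ℂ) := fun τ _ => x0 (some 0) + τ
  have hxx0 : xx 0 = fun i => x0 (some i) := by
    funext i
    have hi : i = 0 := Subsingleton.elim _ _
    subst hi
    exact add_zero _
  let z : ℂ → Option (Fin 1) → ℂ := fun τ => cons (W (xx τ)) (xx τ)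
  have hz0 : z 0 = x0 := by
    funext i
    cases i with
    | none =>
      change W (xx 0) = x0 none
      rw [hxx0]
      exact hW0
    | some i =>
      change xx 0 i = x0 (some i)
      rw [hxx0]
  have hxxc : ContDiff ℂ 1 xx := contDiff_pi.2 fun _ => contDiff_const.add contDiff_id
  have hWan : AnalyticAt ℂ (fun τ => W (xx τ)) 0 := by
    have h1 : ContDiffAt ℂ 1 (fun τ => W (xx τ)) 0 := by
      have h2 : ContDiffAt ℂ 1 W (xx 0) := by rw [hxx0]; exact hWc
      exact h2.comp (0 : ℂ) hxxc.contDiffAt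
    rw [Complex.analyticAt_iff_eventually_differentiableAt]
    filter_upwards [h1.eventually (by simp)] with τ hτ
    exact hτ.differentiableAt (by simp)
  have hzan : ∀ i, AnalyticAt ℂ (fun τ => z τ i) 0 := by
    intro i
    cases i with
    | none => exact hWan
    | some i => exact analyticAt_const.add analyticAt_id
  have hfan : ∀ f : MvPolynomial (Option (Fin 1)) k, AnalyticAt ℂ (fun τ => aeval (z τ) f) 0 := by
    intro f
    induction f using MvPolynomial.induction_on with
    | C c =>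
      simp only [aeval_C]
      exact analyticAt_const
    | add p q hp hq =>
      simp only [map_add]
      exact hp.add hq
    | mul_X p i hp =>
      simp only [map_mul, aeval_X]
      exact hp.mul (hzan i)
  -- the equation of the special fibre
  obtain ⟨p, hpdef⟩ : ∃ p : ℂ → ℂ, p = fun τ => aeval (xx τ) ch.P := ⟨_, rfl⟩
  have hpz : ∀ τ, p τ = aeval (z τ) (rename some ch.P) := by
    intro τ
    rw [hpdef, aeval_rename]
    rfl
  have hpan : AnalyticAt ℂ p 0 := by
    have : p = fun τ => aeval (z τ) (rename some ch.P) := funext hpz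
    rw [this]
    exact hfan _
  have hp0 : p 0 = 0 := by
    rw [hpdef]
    simp only
    rw [hxx0]
    exact (ch.kerP ch.P).2 dvd_rfl
  have hpd : HasDerivAt p (aeval (fun i : Fin 1 => x0 (some i)) (pderiv 0 ch.P)) 0 := by
    have h := pc_hasDerivAt ch.P (x0 (some 0)) 0
    rw [hpdef]
    have h1 : (fun _ : Fin 1 => x0 (some 0) + 0) = fun i : Fin 1 => x0 (some i) := hxx0
    rw [h1] at h
    exact h
  have hpd0 : aeval (fun i : Fin 1 => x0 (some i)) (pderiv 0 ch.P) ≠ 0 := ch.hPY
  obtain ⟨P1, hP1⟩ : ∃ P1 : ℂ → ℂ, P1 = dslope p 0 := ⟨_, rfl⟩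
  have hP1an : AnalyticAt ℂ P1 0 := by
    obtain ⟨q, hq⟩ := hpan
    rw [hP1]
    exact hq.has_fpower_series_dslope_fslope.analyticAt
  have hP10 : P1 0 ≠ 0 := by
    rw [hP1, dslope_same, hpd.deriv]
    exact hpd0
  have hpP1 : ∀ τ, p τ = τ * P1 τ := by
    intro τ
    have h := sub_smul_dslope p 0 τ
    rw [hp0, sub_zero, sub_zero, smul_eq_mul] at h
    rw [hP1, h]
  have hA0 : ∀ j, aeval (z 0) (A j) ≠ 0 := fun j => by rw [hz0]; exact hA j
  have hD0 : ∀ j, aeval (z 0) (D j) ≠ 0 := fun j => by rw [hz0]; exact hD j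
  refine ⟨fun j τ => P1 τ ^ v j * aeval (z τ) (A j) / aeval (z τ) (D j), ?_, ?_, ?_⟩
  · intro j
    exact ((hP1an.zpow hP10).mul (hfan (A j))).div (hfan (D j)) (hD0 j)
  · intro j
    exact div_ne_zero (mul_ne_zero (zpow_ne_zero _ hP10) (hA0 j)) (hD0 j)
  · have e1 : ∀ᶠ τ in 𝓝 (0 : ℂ), Spec k (fun i => (ch.x i : K)) (z τ) := by
      have h1 : Tendsto xx (𝓝 0) (𝓝 (fun i => x0 (some i))) := by
        rw [← hxx0]
        exact hxxc.continuous.tendsto 0
      exact h1.eventually hWs
    have e2 : ∀ᶠ τ in 𝓝 (0 : ℂ), ∀ j, aeval (z τ) (A j) ≠ 0 :=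
      eventually_all.2 fun j => (hfan (A j)).continuousAt.eventually_ne (hA0 j)
    have e3 : ∀ᶠ τ in 𝓝 (0 : ℂ), ∀ j, aeval (z τ) (D j) ≠ 0 :=
      eventually_all.2 fun j => (hfan (D j)).continuousAt.eventually_ne (hD0 j)
    have e4 : ∀ᶠ τ in 𝓝 (0 : ℂ), P1 τ ≠ 0 := hP1an.continuousAt.eventually_ne hP10
    rw [eventually_nhdsWithin_iff]
    filter_upwards [e1, e2, e3, e4] with τ h1 h2 h3 h4 hτ
    have hτ0 : τ ≠ 0 := hτ
    have hpτ : p τ ≠ 0 := by rw [hpP1]; exact mul_ne_zero hτ0 h4
    have hw : (fun j => τ ^ v j * (P1 τ ^ v j * aeval (z τ) (A j) / aeval (z τ) (D j))) =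
        fun j => aeval (z τ) (rename some ch.P ^ (v j).toNat * A j) /
          aeval (z τ) (rename some ch.P ^ (-(v j)).toNat * D j) := by
      funext j
      rw [map_mul, map_mul, map_pow, map_pow, ← hpz]
      have h5 : τ ^ v j * P1 τ ^ v j = p τ ^ v j := by rw [hpP1, mul_zpow]
      have h6 : p τ ^ v j * p τ ^ ((-(v j)).toNat) = p τ ^ ((v j).toNat) := by
        rw [← zpow_natCast, ← zpow_natCast, ← zpow_add₀ hpτ]
        congr 1
        omega
      have h7 : p τ ^ ((-(v j)).toNat) ≠ 0 := pow_ne_zero _ hpτ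
      rw [← h6]
      have h8 := h3 j
      field_simp
      rw [h5, mul_comm]
    rw [hw]
    have hPK : aeval (fun i => (ch.x (some i) : K)) ch.P ≠ 0 := by
      obtain ⟨ε, hε, hε'⟩ := ch.unif
      rw [hε']
      refine mul_ne_zero pl.t_ne ?_
      intro h0
      apply hε
      have : ε = 0 := Subtype.ext h0
      rw [this, map_zero]
    have hPr : aeval (fun i => (ch.x i : K)) (rename some ch.P) =
        aeval (fun i => (ch.x (some i) : K)) ch.P := by
      rw [aeval_rename]
      rfl
    have hspec := spec_frac (fun i => (ch.x i : K)) (z τ) h1 B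
      (fun j => rename some ch.P ^ (v j).toNat * A j)
      (fun j => rename some ch.P ^ (-(v j)).toNat * D j) (by
        intro j
        rw [map_mul, map_mul, map_pow, map_pow, hPr]
        have h6 : aeval (fun i => (ch.x (some i) : K)) ch.P ^ ((-(v j)).toNat) *
            aeval (fun i => (ch.x (some i) : K)) ch.P ^ v j =
            aeval (fun i => (ch.x (some i) : K)) ch.P ^ ((v j).toNat) := by
          rw [← zpow_natCast, ← zpow_natCast, ← zpow_add₀ hPK]
          congr 1
          omega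
        rw [← h6, mul_left_comm, hrep j]
        ring) (by
        intro j
        rw [map_mul, map_pow, ← hpz]
        exact mul_ne_zero (pow_ne_zero _ hpτ) (h3 j))
    refine ⟨?_, ?_⟩
    · apply hx
      intro f hf
      have h5 : aeval B f = 0 := hB f ((hp f).2 hf)
      have h6 := hspec (rename Sum.inr f) (by
        rw [aeval_rename]
        exact h5)
      rw [aeval_rename] at h6
      exact h6
    · intro j
      refine div_ne_zero ?_ ?_
      · rw [map_mul, map_pow, ← hpz]
        exact mul_ne_zero (pow_ne_zero _ hpτ) (h2 j)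
      · rw [map_mul, map_pow, ← hpz]
        exact mul_ne_zero (pow_ne_zero _ hpτ) (h3 j)

end Pool.Agent.EXP
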