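import Pool.Agent.EXP.PunctA
import Pool.Agent.EXP.PunctB
import Pool.Agent.EXP.PunctC
import Pool.Agent.EXK.KTrd
import Pool.Agent.EXK.KGen
import Pool.Agent.EXI.CChart

/-!
# EXP / Punct: punctures of curves

PROOF.  `exists_gen` (KGen) for `Q`: `k` countable, `b : Fin n → ℂ` generic (`aeval b f = 0 ↔ map f ∈ Q`);
`b j ≠ 0`; `td k b = 1` (`td_of_trdeg`, KTrd). `β = ∏ b_j ^ μ_j` is transcendental over `k`
(PunctA). `K = k(b)` is finite over `k(β)`, so there is a place with `β = t^N ε`, `N ≠ 0` (PunctB).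
`exists_chart` (CChart, `m = 0`). `ch.rep`: `b_j D_j(x) = P(x)^{v_j} A_j(x)`, residues of `A_j`, `D_j`
not zero; comparing orders, `μ · v ≠ 0`. The local parameter of the chart: PunctC.
-/

set_option autoImplicit false

namespace Pool.Agent.EXP

open MvPolynomial Pool.Agent.EXL Pool.Agent.EXI Pool.Agent.EXK Topology

section units

variable {k : Subfield ℂ} {K : Type} [Field K] [Algebra k K] (pl : Place k K)

/-- units of the valuation ring -/
private def Un (x : K) : Prop := ∃ ε : pl.O, pl.ρ ε ≠ 0 ∧ (ε : K) = x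

private theorem Un.mul {x y : K} (hx : Un pl x) (hy : Un pl y) : Un pl (x * y) := by
  obtain ⟨ε, h1, rfl⟩ := hx
  obtain ⟨η, h2, rfl⟩ := hy
  exact ⟨ε * η, by rw [map_mul]; exact mul_ne_zero h1 h2, rfl⟩

private theorem Un.ne {x : K} (hx : Un pl x) : x ≠ 0 := by
  obtain ⟨ε, h1, rfl⟩ := hx
  intro h
  apply h1
  have : ε = 0 := Subtype.ext h
  rw [this, map_zero]

private theorem Un.inv {x : K} (hx : Un pl x) : Un pl x⁻¹ := by
  have hne := hx.ne
  obtain ⟨ε, h1, rfl⟩ := hx
  have hi := pl.inv_mem ε h1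
  have h2 : (⟨(ε : K)⁻¹, hi⟩ : pl.O) * ε = 1 := Subtype.ext (inv_mul_cancel₀ hne)
  refine ⟨⟨(ε : K)⁻¹, hi⟩, ?_, rfl⟩
  intro h
  have h3 := congrArg pl.ρ h2
  rw [map_mul, h, zero_mul, map_one] at h3
  exact zero_ne_one h3

private theorem Un.one : Un pl (1 : K) := ⟨1, by rw [map_one]; exact one_ne_zero, rfl⟩

private theorem Un.pow {x : K} (hx : Un pl x) (m : ℕ) : Un pl (x ^ m) := by
  induction m with
  | zero => rw [pow_zero]; exact Un.one pl
  | succ m ih => rw [pow_succ]; exact Un.mul pl ih hx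

private theorem Un.zpow {x : K} (hx : Un pl x) (m : ℤ) : Un pl (x ^ m) := by
  rcases Int.eq_nat_or_neg m with ⟨i, rfl | rfl⟩
  · rw [zpow_natCast]; exact Un.pow pl hx i
  · rw [zpow_neg, zpow_natCast]; exact Un.inv pl (Un.pow pl hx i)

private theorem Un.prod {n : ℕ} {x : Fin n → K} (hx : ∀ i, Un pl (x i)) : Un pl (∏ i, x i) := by
  classical
  have : ∀ T : Finset (Fin n), Un pl (∏ i ∈ T, x i) := by
    intro T
    induction T using Finset.induction_on with
    | empty => rw [Finset.prod_empty]; exact Un.one pl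
    | insert i T hi ih => rw [Finset.prod_insert hi]; exact Un.mul pl (hx i) ih
  exact this Finset.univ

/-- a power of the uniformizer which is a unit -/
private theorem Un.t_zpow {m : ℤ} (h : Un pl (pl.t ^ m)) : m = 0 := by
  have key : ∀ m : ℕ, Un pl (pl.t ^ (m + 1)) → False := by
    intro m hm
    obtain ⟨ε, h1, h2⟩ := hm
    apply h1
    have : ε = ⟨pl.t, pl.t_mem⟩ ^ (m + 1) := Subtype.ext h2
    rw [this, map_pow, pl.ρt, zero_pow (Nat.succ_ne_zero m)]
  by_contra hm
  rcases lt_or_gt_of_ne hm with h0 | h0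
  · obtain ⟨i, hi⟩ : ∃ i : ℕ, m = -((i + 1 : ℕ) : ℤ) := ⟨(-m - 1).toNat, by push_cast; omega⟩
    rw [hi, zpow_neg, zpow_natCast] at h
    have h1 := Un.inv pl h
    rw [inv_inv] at h1
    exact key i h1
  · obtain ⟨i, hi⟩ : ∃ i : ℕ, m = ((i + 1 : ℕ) : ℤ) := ⟨(m - 1).toNat, by push_cast; omega⟩
    rw [hi, zpow_natCast] at h
    exact key i h

end units

private theorem fg_adj (k : Subfield ℂ) {ι : Type} [Fintype ι] (z : ι → ℂ) :
    ∃ S : Finset (IntermediateField.adjoin k (Set.range z)),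
      IntermediateField.adjoin k (S : Set (IntermediateField.adjoin k (Set.range z))) = ⊤ := by
  classical
  set K := IntermediateField.adjoin k (Set.range z) with hK
  have hz : ∀ i, z i ∈ K := fun i => IntermediateField.subset_adjoin k _ ⟨i, rfl⟩
  refine ⟨Finset.univ.image (fun i => (⟨z i, hz i⟩ : K)), ?_⟩
  rw [eq_top_iff]
  intro x _
  set L := IntermediateField.adjoin k
    ((Finset.univ.image (fun i => (⟨z i, hz i⟩ : K)) : Finset K) : Set K) with hL
  have h1 : K ≤ L.map K.val := by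
    refine IntermediateField.adjoin_le_iff.2 ?_
    rintro _ ⟨i, rfl⟩
    refine ⟨⟨z i, hz i⟩, ?_, rfl⟩
    apply IntermediateField.subset_adjoin
    simp
  obtain ⟨y, hy, hyx⟩ := h1 x.2
  have : y = x := Subtype.ext hyx
  rw [← this]
  exact hy

/-- every `b j` is algebraic over `k(β)` -/
private theorem alg_of_td1 (k : Subfield ℂ) {n : ℕ} (b : Fin n → ℂ) (htd : td (k : Set ℂ) b = 1)
    (β : ℂ) (hβ : β ∈ IntermediateField.adjoin k (Set.range b))
    (ht : AlgebraicIndependent k (fun _ : Fin 1 => β)) (j : Fin n) :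
    IsAlgebraic (Algebra.adjoin k (Set.range fun _ : Fin 1 => β)) (b j) := by
  by_contra hna
  have h3 : AlgebraicIndependent k (fun o : Option (Fin 1) => o.elim (b j) (fun _ : Fin 1 => β)) :=
    (ht.option_iff_transcendental (b j)).2 hna
  have h4 := h3.comp (_root_.finSuccEquiv 1) (_root_.finSuccEquiv 1).injective
  have hmem : ∀ o : Option (Fin 1), (fun o : Option (Fin 1) => o.elim (b j) (fun _ : Fin 1 => β)) o ∈
      IntermediateField.adjoin k (Set.range b) := by
    intro o
    cases o with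
    | none => exact IntermediateField.subset_adjoin k _ ⟨j, rfl⟩
    | some i => exact hβ
  refine td_not_ind k b (m := 1) (by rw [htd]) (fun i => ⟨_, hmem (_root_.finSuccEquiv 1 i)⟩) ?_
  exact AlgebraicIndependent.of_comp (IntermediateField.adjoin k (Set.range b)).val h4

theorem punct {n : ℕ} (Q : Ideal (MvPolynomial (Fin n) ℂ)) (hQ : Q.IsPrime)
    (hY : ∀ j : Fin n, (X j : MvPolynomial (Fin n) ℂ) ∉ Q)
    (hdim : Algebra.trdeg ℂ (MvPolynomial (Fin n) ℂ ⧸ Q) = 1) (μ : Fin n → ℤ)
    (hμ : ∀ c : ℂ, ∃ w ∈ Tz Q, ∏ j, w j ^ μ j ≠ c) :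
    ∃ v : Fin n → ℤ, Punct Q v ∧ ∑ j, μ j * v j ≠ 0 := by
  classical
  obtain ⟨k, hk, b, -, hp, hx⟩ := exists_gen Q hQ ∅
  have hb : ∀ j, b j ≠ 0 := by
    intro j h0
    apply hY j
    have h1 := (hp (X j)).1 (by rw [aeval_X]; exact h0)
    rwa [map_X] at h1
  have htd : td (k : Set ℂ) b = 1 :=
    td_of_trdeg Q hQ k hk b hp hx 1 (by rw [hdim]; norm_num)
  obtain ⟨β, hβdef⟩ : ∃ β : ℂ, β = ∏ j, b j ^ μ j := ⟨_, rfl⟩
  have hβt : Transcendental k β := by rw [hβdef]; exact trans_mono Q hQ hY k b hb hp μ hμ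
  have hbm : ∀ j, b j ∈ IntermediateField.adjoin k (Set.range b) := fun j =>
    IntermediateField.subset_adjoin k _ ⟨j, rfl⟩
  let B : Fin n → IntermediateField.adjoin k (Set.range b) := fun j => ⟨b j, hbm j⟩
  have hBβ : ((∏ j, B j ^ μ j : IntermediateField.adjoin k (Set.range b)) : ℂ) = β := by
    rw [hβdef]
    have h1 := map_prod (IntermediateField.adjoin k (Set.range b)).val (fun j => B j ^ μ j)
      Finset.univ
    refine h1.trans (Finset.prod_congr rfl fun j _ => ?_)
    rw [map_zpow₀]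
    rfl
  have hβm : β ∈ IntermediateField.adjoin k (Set.range b) := by
    rw [← hBβ]
    exact (∏ j, B j ^ μ j : IntermediateField.adjoin k (Set.range b)).2
  have ht : AlgebraicIndependent k (fun _ : Fin 1 => β) :=
    (algebraicIndependent_unique_type_iff (ι := Fin 1)).2 hβt
  obtain ⟨pl, N, ε, hN, hε, hβε⟩ := exists_pl1 k b β hβm ht (alg_of_td1 k b htd β hβm ht)
  have hBne : ∀ j, B j ≠ 0 := fun j h0 => hb j (congrArg Subtype.val h0)
  obtain ⟨ch, -⟩ := exists_chart pl (fg_adj k b) (m := 0)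
    (fun y => td_not_ind k b (m := 1) (by rw [htd]) y) Fin.elim0 algebraicIndependent_empty_type
  choose v A D hA hD hrep using fun j => ch.rep (B j) (hBne j)
  refine ⟨v, punct_of_chart Q b hp hx ch B ?_ v A D hA hD hrep, ?_⟩
  · intro f hf
    have h4 := MvPolynomial.comp_aeval_apply B
      (IntermediateField.adjoin k (Set.range b)).val f
    apply Subtype.ext
    exact h4.trans hf
  · intro hsum
    apply hN
    -- values at `x` with nonzero residues are units
    have hU : ∀ f : MvPolynomial (Option (Fin 1)) k, aeval (fun i => pl.ρ (ch.x i)) f ≠ 0 →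
        Un pl (aeval (fun i => (ch.x i : IntermediateField.adjoin k (Set.range b))) f) := by
      intro f hf
      obtain ⟨h, e⟩ := cden_aeval pl ch.x f
      exact ⟨⟨_, h⟩, by rw [e]; exact hf, rfl⟩
    have hUq : ∀ j, Un pl (aeval (fun i => (ch.x i : IntermediateField.adjoin k (Set.range b)))
        (A j) * (aeval (fun i => (ch.x i : IntermediateField.adjoin k (Set.range b))) (D j))⁻¹) :=
      fun j => Un.mul pl (hU _ (hA j)) (Un.inv pl (hU _ (hD j)))
    obtain ⟨PK, hPK⟩ : ∃ PK, PK = aeval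
      (fun i => (ch.x (some i) : IntermediateField.adjoin k (Set.range b))) ch.P := ⟨_, rfl⟩
    have hPK0 : PK ≠ 0 := by
      obtain ⟨η, hη, hη'⟩ := ch.unif
      rw [hPK, hη']
      exact mul_ne_zero pl.t_ne (Un.ne pl ⟨η, hη, rfl⟩)
    have hBj : ∀ j, B j = PK ^ v j *
        (aeval (fun i => (ch.x i : IntermediateField.adjoin k (Set.range b))) (A j) *
          (aeval (fun i => (ch.x i : IntermediateField.adjoin k (Set.range b))) (D j))⁻¹) := by
      intro j
      have hDne := Un.ne pl (hU _ (hD j))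
      rw [← mul_assoc, ← div_eq_mul_inv, eq_div_iff hDne, hPK]
      exact hrep j
    have hprod : (∏ j, B j ^ μ j) = ∏ j,
        (aeval (fun i => (ch.x i : IntermediateField.adjoin k (Set.range b))) (A j) *
          (aeval (fun i => (ch.x i : IntermediateField.adjoin k (Set.range b))) (D j))⁻¹) ^ μ j := by
      have h1 : ∀ j, B j ^ μ j = PK ^ (μ j * v j) *
          (aeval (fun i => (ch.x i : IntermediateField.adjoin k (Set.range b))) (A j) *
          (aeval (fun i => (ch.x i : IntermediateField.adjoin k (Set.range b))) (D j))⁻¹) ^ μ j := by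
        intro j
        rw [hBj j, mul_zpow, ← zpow_mul, mul_comm (v j)]
      rw [Finset.prod_congr rfl fun j _ => h1 j, Finset.prod_mul_distrib]
      have h2 : ∏ j, PK ^ (μ j * v j) = 1 := by
        have h3 : ∀ T : Finset (Fin n), ∏ j ∈ T, PK ^ (μ j * v j) = PK ^ (∑ j ∈ T, μ j * v j) := by
          intro T
          induction T using Finset.induction_on with
          | empty => simp
          | insert i T hi ih => rw [Finset.prod_insert hi, Finset.sum_insert hi, ih, zpow_add₀ hPK0]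
        rw [h3, hsum, zpow_zero]
      rw [h2, one_mul]
    have hβU : Un pl (⟨β, hβm⟩ : IntermediateField.adjoin k (Set.range b)) := by
      have h1 : (⟨β, hβm⟩ : IntermediateField.adjoin k (Set.range b)) = ∏ j, B j ^ μ j :=
        Subtype.ext hBβ.symm
      rw [h1, hprod]
      exact Un.prod pl fun j => Un.zpow pl (hUq j) (μ j)
    have h5 : Un pl (pl.t ^ N) := by
      have h6 : pl.t ^ N = (⟨β, hβm⟩ : IntermediateField.adjoin k (Set.range b)) *
          (ε : IntermediateField.adjoin k (Set.range b))⁻¹ := by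
        rw [hβε, mul_assoc, mul_inv_cancel₀ (Un.ne pl ⟨ε, hε, rfl⟩), mul_one]
      rw [h6]
      exact Un.mul pl hβU (Un.inv pl ⟨ε, hε, rfl⟩)
    exact Un.t_zpow pl h5

end Pool.Agent.EXP
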