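import Pool.Agent.EXP.FinZ
import Pool.Agent.EXP.Punct

/-!
# EXP / GermDense: germs of meromorphic curves on a curve are dense, existence of a puncture
-/

set_option autoImplicit false

namespace Pool.Agent.EXP

open MvPolynomial Topology Filter

theorem exists_pt {n : ℕ} (Q : Ideal (MvPolynomial (Fin n) ℂ)) (hQ : Q.IsPrime)
    (hY : ∀ j : Fin n, (X j : MvPolynomial (Fin n) ℂ) ∉ Q) (g : MvPolynomial (Fin n) ℂ)
    (hg : g ∉ Q) : ∃ w ∈ Tz Q, eval w g ≠ 0 := by
  have hprod : g * ∏ j, (X j : MvPolynomial (Fin n) ℂ) ∉ Q := by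
    intro h
    rcases hQ.mem_or_mem h with h | h
    · exact hg h
    · obtain ⟨j, -, hj⟩ := hQ.prod_mem_iff.mp h
      exact hY j hj
  by_contra hcon
  push Not at hcon
  apply hprod
  rw [← MvPolynomial.IsPrime.vanishingIdeal_zeroLocus (K := ℂ) Q]
  rw [mem_vanishingIdeal_iff]
  intro x hx
  rw [mem_zeroLocus_iff] at hx
  simp only [map_mul, map_prod, aeval_X]
  by_cases hz : ∀ j, x j ≠ 0
  · have h1 : x ∈ Tz Q := ⟨fun f hf => by simpa [aeval_eq_eval] using hx f hf, hz⟩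
    have h2 := hcon x h1
    rw [show (aeval x) g = eval x g by simp [aeval_eq_eval], h2, zero_mul]
  · push Not at hz
    obtain ⟨j, hj⟩ := hz
    rw [Finset.prod_eq_zero (Finset.mem_univ j) hj, mul_zero]

theorem mero_eval {n : ℕ} (Y : ℂ → Fin n → ℂ) (hYm : ∀ j, MeromorphicAt (fun t => Y t j) 0)
    (g : MvPolynomial (Fin n) ℂ) : MeromorphicAt (fun t => eval (Y t) g) 0 := by
  induction g using MvPolynomial.induction_on with
  | C a => simpa using MeromorphicAt.const a 0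
  | add p q hp hq =>
      have h := hp.add hq
      refine h.congr ?_
      exact Eventually.of_forall fun t => by simp
  | mul_X p j hp =>
      have h := hp.mul (hYm j)
      refine h.congr ?_
      exact Eventually.of_forall fun t => by simp

theorem germ_dense {n : ℕ} (Q : Ideal (MvPolynomial (Fin n) ℂ)) (hQ : Q.IsPrime)
    (hdim : Algebra.trdeg ℂ (MvPolynomial (Fin n) ℂ ⧸ Q) = 1)
    (Y : ℂ → Fin n → ℂ) (hYm : ∀ j, MeromorphicAt (fun t => Y t j) 0)
    (hYQ : ∀ᶠ t in 𝓝[≠] (0 : ℂ), ∀ f ∈ Q, eval (Y t) f = 0) (i : Fin n)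
    (hnc : ∀ c : ℂ, ¬ ∀ᶠ t in 𝓝[≠] (0 : ℂ), Y t i = c) (g : MvPolynomial (Fin n) ℂ) (hg : g ∉ Q) :
    ∀ᶠ t in 𝓝[≠] (0 : ℂ), eval (Y t) g ≠ 0 := by
  rcases (mero_eval Y hYm g).eventually_eq_zero_or_eventually_ne_zero with h | h
  · exfalso
    have hfin := fin_zeros Q hQ hdim g hg
    set F := {w : Fin n → ℂ | (∀ f ∈ Q, eval w f = 0) ∧ eval w g = 0} with hF
    have hfi : ((fun w : Fin n → ℂ => w i) '' F).Finite := hfin.image _
    have hne : ∀ᶠ t in 𝓝[≠] (0 : ℂ), ∀ c ∈ (fun w : Fin n → ℂ => w i) '' F, Y t i ≠ c := by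
      rw [hfi.eventually_all]
      intro c _
      have hm : MeromorphicAt (fun t => Y t i - c) 0 := (hYm i).sub (MeromorphicAt.const c 0)
      rcases hm.eventually_eq_zero_or_eventually_ne_zero with h1 | h1
      · exact absurd (h1.mono fun t ht => sub_eq_zero.mp ht) (hnc c)
      · exact h1.mono fun t ht he => ht (sub_eq_zero.mpr he)
    obtain ⟨t, h1, h2, h3⟩ := (h.and (hYQ.and hne)).exists
    exact h3 (Y t i) ⟨Y t, ⟨h2, h1⟩, rfl⟩ rfl
  · exact h

theorem exists_punct {n : ℕ} (Q : Ideal (MvPolynomial (Fin n) ℂ)) (hQ : Q.IsPrime)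
    (hY : ∀ j : Fin n, (X j : MvPolynomial (Fin n) ℂ) ∉ Q)
    (hdim : Algebra.trdeg ℂ (MvPolynomial (Fin n) ℂ ⧸ Q) = 1) :
    ∃ v : Fin n → ℤ, Punct Q v ∧ v ≠ 0 := by
  have hex : ∃ j : Fin n, ∀ c : ℂ, ∃ w ∈ Tz Q, w j ≠ c := by
    by_contra hcon
    push Not at hcon
    choose c hc using hcon
    have hmem : ∀ j, (X j - C (c j) : MvPolynomial (Fin n) ℂ) ∈ Q := by
      intro j
      by_contra hj
      obtain ⟨w, hw, hw2⟩ := exists_pt Q hQ hY _ hj
      exact hw2 (by simp [hc j w hw])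
    have hsurj : Function.Surjective (algebraMap ℂ (MvPolynomial (Fin n) ℂ ⧸ Q)) := by
      intro a
      obtain ⟨f, rfl⟩ := Ideal.Quotient.mk_surjective a
      refine ⟨eval c f, ?_⟩
      induction f using MvPolynomial.induction_on with
      | C a => simp [IsScalarTower.algebraMap_apply ℂ (MvPolynomial (Fin n) ℂ) (MvPolynomial (Fin n) ℂ ⧸ Q)]
      | add p q hp hq => simp [map_add, hp, hq]
      | mul_X p j hp =>
          rw [map_mul, map_mul, map_mul, hp, eval_X]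
          congr 1
          rw [IsScalarTower.algebraMap_apply ℂ (MvPolynomial (Fin n) ℂ) (MvPolynomial (Fin n) ℂ ⧸ Q)]
          symm
          exact Ideal.Quotient.eq.mpr (by simpa using hmem j)
    have : Q.IsPrime := hQ
    have : Algebra.IsAlgebraic ℂ (MvPolynomial (Fin n) ℂ ⧸ Q) := by
      constructor
      intro a
      obtain ⟨b, rfl⟩ := hsurj a
      exact isAlgebraic_algebraMap b
    have h0 : Algebra.trdeg ℂ (MvPolynomial (Fin n) ℂ ⧸ Q) = 0 := by exact _root_.trdeg_eq_zero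
    rw [h0] at hdim
    exact zero_ne_one hdim
  obtain ⟨j, hj⟩ := hex
  obtain ⟨v, hv, hvj⟩ := punct Q hQ hY hdim (Pi.single j 1) (by
    intro c
    obtain ⟨w, hw, hwc⟩ := hj c
    refine ⟨w, hw, ?_⟩
    rw [Finset.prod_eq_single j]
    · simpa using hwc
    · intro b _ hb
      simp [Pi.single_eq_of_ne hb]
    · simp)
  refine ⟨v, hv, ?_⟩
  rintro rfl
  simp at hvj

end Pool.Agent.EXP
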