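import Mathlib

/-!
# EXP / Hur: Hurwitz' lemma

PROOF.  `z0` is an isolated zero of `f`: there is `0 < r' ≤ r` with `f ≠ 0` on the circle `|z - z0| = r'`; `m` = minimum
of `|f|` there, `d = m / 3`.  If `g` has no zero in the closed disc of radius `r'`, then `1 / g` is analytic there and
`3 / m < 1 / |g z0| ≤ max over the circle of 1 / |g| ≤ 3 / (2 m)` (maximum principle), a contradiction.
-/

set_option autoImplicit false

namespace Pool.Agent.EXP

open Filter Topology

theorem hurwitz (f : ℂ → ℂ) (z0 : ℂ) (r : ℝ) (hr : 0 < r)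
    (hf : AnalyticOnNhd ℂ f (Metric.closedBall z0 r)) (h0 : f z0 = 0)
    (hne : ¬ ∀ᶠ z in 𝓝 z0, f z = 0) :
    ∃ d > 0, ∀ g : ℂ → ℂ, AnalyticOnNhd ℂ g (Metric.closedBall z0 r) →
      (∀ z ∈ Metric.closedBall z0 r, ‖g z - f z‖ < d) →
        ∃ z ∈ Metric.closedBall z0 r, g z = 0 := by
  have hfz : AnalyticAt ℂ f z0 := hf z0 (Metric.mem_closedBall_self hr.le)
  have hiso : ∀ᶠ z in 𝓝[≠] z0, f z ≠ 0 :=
    hfz.eventually_eq_zero_or_eventually_ne_zero.resolve_left hne
  rw [eventually_nhdsWithin_iff, Metric.eventually_nhds_iff] at hiso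
  obtain ⟨e, he, hiso⟩ := hiso
  set r' : ℝ := min r (e / 2) with hr'
  have hr'0 : 0 < r' := lt_min hr (by linarith)
  have hr'r : r' ≤ r := min_le_left _ _
  have hr'e : r' < e := lt_of_le_of_lt (min_le_right _ _) (by linarith)
  have hsub : Metric.closedBall z0 r' ⊆ Metric.closedBall z0 r :=
    Metric.closedBall_subset_closedBall hr'r
  have hsph : IsCompact (Metric.sphere z0 r') := isCompact_sphere z0 r'
  have hne' : (Metric.sphere z0 r').Nonempty := NormedSpace.sphere_nonempty.2 hr'0.le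
  have hcont : ContinuousOn (fun z => ‖f z‖) (Metric.sphere z0 r') := by
    refine ContinuousOn.norm fun z hz => ?_
    exact (hf z (hsub (Metric.sphere_subset_closedBall hz))).continuousAt.continuousWithinAt
  obtain ⟨z1, hz1, hmin⟩ := hsph.exists_isMinOn hne' hcont
  set m : ℝ := ‖f z1‖ with hm
  have hm0 : 0 < m := by
    rw [hm, norm_pos_iff]
    have hd : dist z1 z0 = r' := hz1
    refine hiso (by rw [hd]; exact hr'e) ?_
    intro h
    rw [Set.mem_singleton_iff] at h
    rw [h, dist_self] at hd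
    linarith
  refine ⟨m / 3, by positivity, fun g hg hgf => ?_⟩
  by_contra hcon
  push Not at hcon
  have hd : DiffContOnCl ℂ (fun z => (g z)⁻¹) (Metric.ball z0 r') := by
    apply DifferentiableOn.diffContOnCl
    rw [closure_ball z0 hr'0.ne']
    intro z hz
    have h1 := (hg z (hsub hz)).differentiableAt
    exact (h1.inv (hcon z (hsub hz))).differentiableWithinAt
  have hb : ∀ z ∈ frontier (Metric.ball z0 r'), ‖(g z)⁻¹‖ ≤ 3 / (2 * m) := by
    intro z hz
    rw [frontier_ball z0 hr'0.ne'] at hz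
    have h1 : m ≤ ‖f z‖ := hmin hz
    have h2 := hgf z (hsub (Metric.sphere_subset_closedBall hz))
    have h3 : ‖f z‖ ≤ ‖g z‖ + ‖g z - f z‖ := by
      calc ‖f z‖ = ‖g z - (g z - f z)‖ := by congr 1; ring
        _ ≤ _ := norm_sub_le _ _
    have h4 : 2 * m / 3 ≤ ‖g z‖ := by linarith
    rw [norm_inv, inv_le_comm₀ (by linarith) (by positivity), inv_div]
    linarith
  have hz0 : z0 ∈ closure (Metric.ball z0 r') := by
    rw [closure_ball z0 hr'0.ne']
    exact Metric.mem_closedBall_self hr'0.le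
  have h5 := Complex.norm_le_of_forall_mem_frontier_norm_le Metric.isBounded_ball hd hb hz0
  have h6 := hgf z0 (Metric.mem_closedBall_self hr.le)
  rw [h0, sub_zero] at h6
  have h7 : 0 < ‖g z0‖ := norm_pos_iff.2 (hcon z0 (Metric.mem_closedBall_self hr.le))
  rw [norm_inv, inv_le_comm₀ h7 (by positivity), inv_div] at h5
  linarith

end Pool.Agent.EXP
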