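import Pool.Agent.EXP.Defs
import Pool.Agent.EXP.Hur

/-!
# EXP / NearA: nonreal zero of the leading form on a real line in the direction `v`

PROOF.  `n = m + 1`, `d = F.totalDegree`, `L` = leading form.  Let `η = sign (Im ρ)`, `T = η |T|`, `|T| → ∞`, `l_j` = nearest
integer to `T y_j / (2 π)`, `x(σ) = 2 π i l + i T σ v + b(e^{i T σ})`, `b` = a local analytic logarithm of `u` at `0`
(`exp (b_j t) = u_j t`).  For `σ` near `ρ`: `t = e^{i T σ}`, `|t| = e^{- T Im σ} ≤ e^{- |T| |Im ρ| / 2}`, tends to `0`.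
`F(x(σ)) / (i T)^d → L(y + σ v)` uniformly for `σ` near `ρ` (`x(σ) / (i T) → y + σ v` uniformly); `L(y + σ v)` is not
identically `0` and is `0` at `σ = ρ`: Hurwitz gives, for every small `r` and all large `|T|`, a zero `σ_T` of
`F(x(σ))` with `|σ_T - ρ| ≤ r`.  `z = x(σ_T)`: `exp z_j = t^(v_j) u_j(t)`, so `exp z ∈ Tz Q`.
`E(z', exp z) = t^N Σ_μ a_μ(t) z'^μ`, and `Σ_μ a_μ(t) z'^μ = s(z') + Σ_μ O(|t|) |z'|^|μ|`, divided by `(i T)^D`,
`D = s.totalDegree`, tends to `s_D(y' + ρ v') ≠ 0` (if `r` is small: is near it).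
-/

set_option autoImplicit false

namespace Pool.Agent.EXP

open MvPolynomial Filter Topology

private lemma eval_scale {ι : Type} [Fintype ι] {d : ℕ} (L : MvPolynomial ι ℂ)
    (hL : L.IsHomogeneous d) (s : ℂ) (x : ι → ℂ) : eval (fun j => s * x j) L = s ^ d * eval x L := by
  rw [eval_eq', eval_eq', Finset.mul_sum]
  refine Finset.sum_congr rfl fun m hm => ?_
  have h1 : m.degree = d := by
    by_contra h
    exact (mem_support_iff.1 hm) (hL.coeff_eq_zero h)
  have h2 : ∏ i, (s * x i) ^ m i = s ^ d * ∏ i, x i ^ m i := by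
    simp_rw [mul_pow]
    rw [Finset.prod_mul_distrib, Finset.prod_pow_eq_pow_sum, ← h1, Finsupp.degree_eq_sum]
  rw [h2]
  ring

/-- the homogenized polynomial function -/
private noncomputable def Phi {ι : Type} (P : MvPolynomial ι ℂ) (q : ℂ × (ι → ℂ)) : ℂ :=
  ∑ k ∈ Finset.range (P.totalDegree + 1),
    q.1 ^ (P.totalDegree - k) * eval q.2 (homogeneousComponent k P)

private lemma Phi_cont {ι : Type} (P : MvPolynomial ι ℂ) : Continuous (Phi P) := by
  unfold Phi
  apply continuous_finsetSum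
  intro k _
  exact (continuous_fst.pow _).mul ((MvPolynomial.continuous_eval _).comp continuous_snd)

private lemma Phi_zero {ι : Type} (P : MvPolynomial ι ℂ) (w : ι → ℂ) :
    Phi P (0, w) = eval w (homogeneousComponent P.totalDegree P) := by
  unfold Phi
  rw [Finset.sum_range_succ, Nat.sub_self, pow_zero, one_mul, Finset.sum_eq_zero, zero_add]
  intro k hk
  have hk' := Finset.mem_range.1 hk
  rw [zero_pow (by omega), zero_mul]

private lemma Phi_eq {ι : Type} [Fintype ι] (P : MvPolynomial ι ℂ) (c : ℂ) (hc : c ≠ 0)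
    (z : ι → ℂ) : eval z P / c ^ P.totalDegree = Phi P (c⁻¹, fun j => c⁻¹ * z j) := by
  unfold Phi
  conv_lhs => rw [← sum_homogeneousComponent P]
  rw [map_sum, Finset.sum_div]
  apply Finset.sum_congr rfl
  intro k hk
  have hk' := Finset.mem_range.1 hk
  rw [eval_scale _ (homogeneousComponent_isHomogeneous k P), ← mul_assoc, ← pow_add,
    Nat.sub_add_cancel (by omega), inv_pow, inv_mul_eq_div]
  congr 2
  have htd : (∑ i ∈ Finset.range (P.totalDegree + 1), homogeneousComponent i P).totalDegree =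
      P.totalDegree := by rw [sum_homogeneousComponent]
  rw [htd]

/-- uniform convergence to the leading form -/
private lemma lead_lim {ι : Type} [Fintype ι] (P : MvPolynomial ι ℂ) (Z : ℝ → ℂ → (ι → ℂ))
    (c : ℝ → ℂ) (A : ℂ → (ι → ℂ)) (K : Set ℂ) (hK : IsCompact K) (hA : Continuous A)
    (hc : ∀ δ > 0, ∀ᶠ R in atTop, c R ≠ 0 ∧ ‖(c R)⁻¹‖ < δ)
    (hZ : ∀ δ > 0, ∀ᶠ R in atTop, ∀ σ ∈ K, ∀ j, ‖(c R)⁻¹ * Z R σ j - A σ j‖ < δ) :
    ∀ δ > 0, ∀ᶠ R in atTop, ∀ σ ∈ K,
      ‖eval (Z R σ) P / (c R) ^ P.totalDegree -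
        eval (A σ) (homogeneousComponent P.totalDegree P)‖ < δ := by
  intro δ hδ
  have hcomp : IsCompact (({0} : Set ℂ) ×ˢ (A '' K)) := isCompact_singleton.prod (hK.image hA)
  have h1 := hcomp.uniformContinuousAt_of_continuousAt (Phi P)
    (fun a _ => (Phi_cont P).continuousAt) (Metric.dist_mem_uniformity hδ)
  rw [Metric.mem_uniformity_dist] at h1
  obtain ⟨δ', hδ', h2⟩ := h1
  filter_upwards [hc δ' hδ', hZ (δ' / 2) (by positivity)] with R h3 h4 σ hσ
  have h5 : dist ((0 : ℂ), A σ) ((c R)⁻¹, fun j => (c R)⁻¹ * Z R σ j) < δ' := by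
    rw [Prod.dist_eq]
    apply max_lt
    · rw [dist_comm, dist_zero_right]
      exact h3.2
    · refine lt_of_le_of_lt ?_ (by linarith : δ' / 2 < δ')
      rw [dist_pi_le_iff (by positivity)]
      intro j
      rw [dist_comm, dist_eq_norm]
      exact (h4 σ hσ j).le
  have h6 := h2 h5 ⟨rfl, σ, hσ, rfl⟩
  have h7 : dist (Phi P (0, A σ)) (Phi P ((c R)⁻¹, fun j => (c R)⁻¹ * Z R σ j)) < δ := h6
  rw [Phi_zero, ← Phi_eq P (c R) h3.1, dist_comm, dist_eq_norm] at h7
  exact h7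

/-- `exp (i η R σ)` is in every punctured neighbourhood of `0`, uniformly in `σ` -/
private lemma tev (η : ℝ) (κ : ℝ) (hκ : 0 < κ) (K : Set ℂ) (hK : ∀ σ ∈ K, κ ≤ η * σ.im)
    (p : ℂ → Prop) (hp : ∀ᶠ t in 𝓝[≠] (0 : ℂ), p t) :
    ∀ᶠ R : ℝ in atTop, ∀ σ ∈ K, p (Complex.exp (Complex.I * ((η * R : ℝ) : ℂ) * σ)) := by
  rw [eventually_nhdsWithin_iff, Metric.eventually_nhds_iff] at hp
  obtain ⟨δ, hδ, h⟩ := hp
  have hlim : Tendsto (fun R : ℝ => Real.exp (-(κ * R))) atTop (𝓝 0) :=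
    Real.tendsto_exp_neg_atTop_nhds_zero.comp (tendsto_id.const_mul_atTop hκ)
  filter_upwards [hlim.eventually (gt_mem_nhds hδ), eventually_ge_atTop 0] with R hR hR0 σ hσ
  apply h
  · rw [dist_zero_right, Complex.norm_exp]
    refine lt_of_le_of_lt ?_ hR
    apply Real.exp_le_exp.2
    have : (Complex.I * ((η * R : ℝ) : ℂ) * σ).re = -(η * R * σ.im) := by
      simp
    rw [this]
    have := mul_le_mul_of_nonneg_right (hK σ hσ) hR0
    linarith
  · exact Complex.exp_ne_zero _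

private lemma t_norm (η κ R : ℝ) (σ : ℂ) (hσ : κ ≤ η * σ.im) (hR : 0 ≤ R) :
    ‖Complex.exp (Complex.I * ((η * R : ℝ) : ℂ) * σ)‖ ≤ Real.exp (-(κ * R)) := by
  rw [Complex.norm_exp]
  apply Real.exp_le_exp.2
  have : (Complex.I * ((η * R : ℝ) : ℂ) * σ).re = -(η * R * σ.im) := by
    simp
  rw [this]
  have := mul_le_mul_of_nonneg_right hσ hR
  linarith

/-- a local logarithm -/
private lemma exists_log (u : ℂ → ℂ) (hu : AnalyticAt ℂ u 0) (hu0 : u 0 ≠ 0) :
    ∃ b : ℂ → ℂ, AnalyticAt ℂ b 0 ∧ ∀ᶠ t in 𝓝 (0 : ℂ), Complex.exp (b t) = u t := by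
  refine ⟨fun t => Complex.log (u 0) + Complex.log (u t / u 0), ?_, ?_⟩
  · apply analyticAt_const.add
    apply AnalyticAt.clog
    · exact hu.div analyticAt_const hu0
    · rw [div_self hu0]
      exact Complex.one_mem_slitPlane
  · filter_upwards [hu.continuousAt.eventually_ne hu0] with t ht
    rw [Complex.exp_add, Complex.exp_log hu0, Complex.exp_log (div_ne_zero ht hu0),
      mul_div_cancel₀ _ hu0]

theorem nearA {m : ℕ} (Q : Ideal (MvPolynomial (Fin (m + 1)) ℂ))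
    (F : MvPolynomial (Fin (m + 1)) ℂ) (v : Fin (m + 1) → ℤ) (u : Fin (m + 1) → ℂ → ℂ)
    (hu : ∀ j, AnalyticAt ℂ (u j) 0) (hu0 : ∀ j, u j 0 ≠ 0)
    (hW : ∀ᶠ t in 𝓝[≠] (0 : ℂ), (fun j => t ^ v j * u j t) ∈ Tz Q)
    (y : Fin (m + 1) → ℝ) (ρ : ℂ) (hρ : ρ.im ≠ 0)
    (hL0 : eval (fun j => (y j : ℂ) + ρ * v j) (homogeneousComponent F.totalDegree F) = 0)
    (hL1 : ∃ σ : ℂ, eval (fun j => (y j : ℂ) + σ * v j)
      (homogeneousComponent F.totalDegree F) ≠ 0)
    (E : MvPolynomial (Fin m) (MvPolynomial (Fin (m + 1)) ℂ))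
    (N : ℤ) (a : (Fin m →₀ ℕ) → ℂ → ℂ) (s : MvPolynomial (Fin m) ℂ)
    (ha : ∀ μ, AnalyticAt ℂ (a μ) 0) (has : ∀ μ, a μ 0 = coeff μ s)
    (haE : ∀ μ, ∀ᶠ t in 𝓝[≠] (0 : ℂ),
      eval (fun j => t ^ v j * u j t) (coeff μ E) = t ^ N * a μ t)
    (hs : eval (fun j : Fin m => (y j.succ : ℂ) + ρ * v j.succ)
      (homogeneousComponent s.totalDegree s) ≠ 0) :
    ∃ z : Fin (m + 1) → ℂ, eval z F = 0 ∧ (fun j => Complex.exp (z j)) ∈ Tz Q ∧
      eval (fun j => z j.succ) (map (eval fun j => Complex.exp (z j)) E) ≠ 0 := by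
  classical
  choose b hb hbu using fun j => exists_log (u j) (hu j) (hu0 j)
  -- the sign
  obtain ⟨η, hη1, hηρ⟩ : ∃ η : ℝ, |η| = 1 ∧ η * ρ.im = |ρ.im| := by
    rcases lt_or_gt_of_ne hρ with h | h
    · exact ⟨-1, by norm_num, by rw [abs_of_neg h]; ring⟩
    · exact ⟨1, by norm_num, by rw [abs_of_pos h]; ring⟩
  have hη0 : η ≠ 0 := by
    rintro rfl
    simp at hη1
  -- the radius
  have hA' : Continuous fun σ : ℂ => (fun j : Fin m => (y j.succ : ℂ) + σ * v j.succ) := by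
    fun_prop
  have hAc : Continuous fun σ : ℂ => (fun j : Fin (m + 1) => (y j : ℂ) + σ * v j) := by
    fun_prop
  have hsc : Continuous fun σ : ℂ => eval (fun j : Fin m => (y j.succ : ℂ) + σ * v j.succ)
      (homogeneousComponent s.totalDegree s) := (MvPolynomial.continuous_eval _).comp hA'
  obtain ⟨κ0, hκ0, hκs⟩ : ∃ κ0 > 0, 2 * κ0 ≤ ‖eval (fun j : Fin m => (y j.succ : ℂ) + ρ * v j.succ)
      (homogeneousComponent s.totalDegree s)‖ :=
    ⟨‖eval (fun j : Fin m => (y j.succ : ℂ) + ρ * v j.succ)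
      (homogeneousComponent s.totalDegree s)‖ / 2, by positivity, by linarith⟩
  obtain ⟨r1, hr1, hr1s⟩ := Metric.continuousAt_iff.1 hsc.continuousAt κ0 hκ0
  set r : ℝ := min (r1 / 2) (|ρ.im| / 2) with hr
  have hρ' : 0 < |ρ.im| := abs_pos.2 hρ
  have hrpos : 0 < r := lt_min (by positivity) (by positivity)
  set K : Set ℂ := Metric.closedBall ρ r with hKdef
  have hKc : IsCompact K := isCompact_closedBall _ _
  set κ : ℝ := |ρ.im| / 2 with hκ
  have hκpos : 0 < κ := by positivity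
  have hKim : ∀ σ ∈ K, κ ≤ η * σ.im := by
    intro σ hσ
    have h1 : |(σ - ρ).im| ≤ r := (Complex.abs_im_le_norm _).trans (by
      have := Metric.mem_closedBall.1 hσ
      rwa [dist_eq_norm] at this)
    have h2 : r ≤ |ρ.im| / 2 := min_le_right _ _
    have h3 : η * σ.im = η * ρ.im + η * (σ - ρ).im := by
      rw [Complex.sub_im]; ring
    have h4 : |η * (σ - ρ).im| ≤ |ρ.im| / 2 := by
      rw [abs_mul, hη1, one_mul]
      exact h1.trans h2
    have h5 := neg_le_of_abs_le h4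
    rw [h3, hηρ, hκ]
    linarith
  have hKs : ∀ σ ∈ K, κ0 ≤ ‖eval (fun j : Fin m => (y j.succ : ℂ) + σ * v j.succ)
      (homogeneousComponent s.totalDegree s)‖ := by
    intro σ hσ
    have h1 : dist σ ρ < r1 := by
      have h2 := Metric.mem_closedBall.1 hσ
      have h3 : r ≤ r1 / 2 := min_le_left _ _
      linarith
    have h4 := hr1s h1
    rw [dist_eq_norm] at h4
    have h5 := norm_sub_norm_le (eval (fun j : Fin m => (y j.succ : ℂ) + ρ * v j.succ)
      (homogeneousComponent s.totalDegree s)) (eval (fun j : Fin m => (y j.succ : ℂ) + σ * v j.succ)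
      (homogeneousComponent s.totalDegree s))
    rw [norm_sub_rev] at h5
    linarith
  -- the curve
  let c : ℝ → ℂ := fun R => Complex.I * ((η * R : ℝ) : ℂ)
  let tt : ℝ → ℂ → ℂ := fun R σ => Complex.exp (c R * σ)
  let l : ℝ → Fin (m + 1) → ℤ := fun R j => round (η * R * y j / (2 * Real.pi))
  let Z : ℝ → ℂ → (Fin (m + 1) → ℂ) := fun R σ j =>
    2 * Real.pi * Complex.I * l R j + c R * σ * v j + b j (tt R σ)
  have hcn : ∀ R : ℝ, 0 < R → ‖c R‖ = R := by
    intro R hR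
    change ‖Complex.I * ((η * R : ℝ) : ℂ)‖ = R
    rw [norm_mul, Complex.norm_I, one_mul, Complex.norm_real, Real.norm_eq_abs, abs_mul, hη1,
      one_mul, abs_of_pos hR]
  have hc : ∀ δ > 0, ∀ᶠ R in atTop, c R ≠ 0 ∧ ‖(c R)⁻¹‖ < δ := by
    intro δ hδ
    filter_upwards [eventually_gt_atTop 0, eventually_gt_atTop δ⁻¹] with R hR hR2
    have h1 := hcn R hR
    refine ⟨?_, ?_⟩
    · intro h
      rw [h, norm_zero] at h1
      exact hR.ne h1
    · rw [norm_inv, h1]
      exact inv_lt_of_inv_lt₀ hδ hR2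
  -- events in `t`
  have htev : ∀ p : ℂ → Prop, (∀ᶠ t in 𝓝[≠] (0 : ℂ), p t) →
      ∀ᶠ R : ℝ in atTop, ∀ σ ∈ K, p (tt R σ) := fun p hp => tev η κ hκpos K hKim p hp
  have hbB : ∀ j, ∀ᶠ R : ℝ in atTop, ∀ σ ∈ K, ‖b j (tt R σ)‖ ≤ ‖b j 0‖ + 1 := by
    intro j
    apply htev (fun t => ‖b j t‖ ≤ ‖b j 0‖ + 1)
    apply eventually_nhdsWithin_of_eventually_nhds
    have h1 := (hb j).continuousAt.norm
    filter_upwards [h1.eventually (ge_mem_nhds (show ‖b j 0‖ < ‖b j 0‖ + 1 by linarith))] with t ht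
    exact ht
  have hZ : ∀ δ > 0, ∀ᶠ R in atTop, ∀ σ ∈ K, ∀ j,
      ‖(c R)⁻¹ * Z R σ j - ((y j : ℂ) + σ * v j)‖ < δ := by
    intro δ hδ
    have h1 : ∀ j, ∀ᶠ R : ℝ in atTop, ∀ σ ∈ K,
        ‖(c R)⁻¹ * Z R σ j - ((y j : ℂ) + σ * v j)‖ < δ := by
      intro j
      filter_upwards [hbB j, hc δ hδ, eventually_gt_atTop 0,
        eventually_gt_atTop ((Real.pi + (‖b j 0‖ + 1)) / δ)] with R h2 h3 hR h4 σ hσ
      have hcR := hcn R hR
      have hTR : ((η * R : ℝ) : ℂ) ≠ 0 := by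
        exact_mod_cast mul_ne_zero hη0 hR.ne'
      have e1 : (c R)⁻¹ * Z R σ j - ((y j : ℂ) + σ * v j) =
          (c R)⁻¹ * (Complex.I * ((2 * Real.pi * l R j - η * R * y j : ℝ) : ℂ) + b j (tt R σ)) := by
        have h5 : (c R)⁻¹ * (c R) = 1 := inv_mul_cancel₀ h3.1
        have h6 : (y j : ℂ) = (c R)⁻¹ * (c R * y j) := by rw [← mul_assoc, h5, one_mul]
        have h7 : σ * v j = (c R)⁻¹ * (c R * (σ * v j)) := by rw [← mul_assoc, h5, one_mul]
        rw [h6, h7]
        change (c R)⁻¹ * (2 * Real.pi * Complex.I * l R j + c R * σ * v j + b j (tt R σ)) - _ = _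
        have h8 : c R = Complex.I * ((η * R : ℝ) : ℂ) := rfl
        rw [h8]
        push_cast
        ring
      rw [e1, norm_mul, norm_inv, hcR]
      have e2 : ‖Complex.I * ((2 * Real.pi * l R j - η * R * y j : ℝ) : ℂ) + b j (tt R σ)‖ ≤
          Real.pi + (‖b j 0‖ + 1) := by
        refine (norm_add_le _ _).trans (add_le_add ?_ (h2 σ hσ))
        rw [norm_mul, Complex.norm_I, one_mul, Complex.norm_real, Real.norm_eq_abs]
        have h9 := abs_sub_round (η * R * y j / (2 * Real.pi))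
        have h10 : 2 * Real.pi * (l R j : ℝ) - η * R * y j =
            -(2 * Real.pi * (η * R * y j / (2 * Real.pi) - (l R j : ℝ))) := by
          field_simp
          ring
        rw [h10, abs_neg, abs_mul, abs_of_pos (by positivity : 0 < 2 * Real.pi)]
        calc 2 * Real.pi * |η * R * y j / (2 * Real.pi) - (l R j : ℝ)| ≤ 2 * Real.pi * (1 / 2) :=
              mul_le_mul_of_nonneg_left h9 (by positivity)
          _ = Real.pi := by ring
      calc R⁻¹ * ‖Complex.I * ((2 * Real.pi * l R j - η * R * y j : ℝ) : ℂ) + b j (tt R σ)‖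
          ≤ R⁻¹ * (Real.pi + (‖b j 0‖ + 1)) := mul_le_mul_of_nonneg_left e2 (by positivity)
        _ < δ := by
          rw [div_lt_iff₀ hδ] at h4
          rw [inv_mul_lt_iff₀ hR]
          exact h4
    filter_upwards [eventually_all.2 h1] with R hR σ hσ j
    exact hR j σ hσ
  -- convergence to the leading forms
  have hFlim := lead_lim F Z c (fun σ j => (y j : ℂ) + σ * v j) K hKc hAc hc hZ
  have hslim := lead_lim s (fun R σ j => Z R σ j.succ) c
    (fun σ j => (y j.succ : ℂ) + σ * v j.succ) K hKc hA' hc (by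
      intro δ hδ
      filter_upwards [hZ δ hδ] with R h σ hσ j
      exact h σ hσ j.succ)
  -- Hurwitz
  have hfa : AnalyticOnNhd ℂ (fun σ : ℂ => eval (fun j => (y j : ℂ) + σ * v j)
      (homogeneousComponent F.totalDegree F)) Set.univ := by
    intro σ _
    have h := AnalyticAt.aeval_mvPolynomial (𝕜 := ℂ) (f := fun σ : ℂ => fun j : Fin (m + 1) =>
      (y j : ℂ) + σ * v j) (z := σ) (fun j => by fun_prop) (homogeneousComponent F.totalDegree F)
    simpa [MvPolynomial.aeval_eq_eval] using h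
  have hne : ¬ ∀ᶠ σ in 𝓝 ρ, eval (fun j => (y j : ℂ) + σ * v j)
      (homogeneousComponent F.totalDegree F) = 0 := by
    intro h
    obtain ⟨σ1, hσ1⟩ := hL1
    apply hσ1
    have h2 := hfa.eqOn_zero_of_preconnected_of_eventuallyEq_zero isPreconnected_univ
      (Set.mem_univ ρ) h
    exact h2 (Set.mem_univ σ1)
  obtain ⟨δ, hδ, hhur⟩ := hurwitz (fun σ : ℂ => eval (fun j => (y j : ℂ) + σ * v j)
      (homogeneousComponent F.totalDegree F)) ρ r hrpos (fun σ _ => hfa σ (Set.mem_univ σ)) hL0 hne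
  -- the support
  set S : Finset (Fin m →₀ ℕ) := E.support ∪ s.support with hS
  -- bounds for the error terms
  obtain ⟨B, hB0, hB⟩ : ∃ B : ℝ, 0 < B ∧ ∀ᶠ R : ℝ in atTop, ∀ σ ∈ K, ∀ j : Fin m,
      ‖Z R σ j.succ‖ ≤ B * R := by
    obtain ⟨B0, hB0⟩ := hKc.exists_bound_of_continuousOn (f := fun σ : ℂ =>
      (fun j : Fin m => (y j.succ : ℂ) + σ * v j.succ)) hA'.continuousOn
    refine ⟨|B0| + 1, by positivity, ?_⟩
    filter_upwards [hZ 1 one_pos, hc 1 one_pos, eventually_gt_atTop 0] with R h1 h2 hR σ hσ j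
    have h3 := h1 σ hσ j.succ
    have h4 : ‖(y j.succ : ℂ) + σ * v j.succ‖ ≤ B0 :=
      (norm_le_pi_norm (fun j : Fin m => (y j.succ : ℂ) + σ * v j.succ) j).trans (hB0 σ hσ)
    have h5 : ‖(c R)⁻¹ * Z R σ j.succ‖ ≤ |B0| + 1 := by
      have h6 := norm_sub_norm_le ((c R)⁻¹ * Z R σ j.succ) ((y j.succ : ℂ) + σ * v j.succ)
      have h7 := le_abs_self B0
      linarith
    rw [norm_mul, norm_inv, hcn R hR, inv_mul_le_iff₀ hR] at h5
    linarith
  have herr : ∀ μ, ∀ δ > 0, ∀ᶠ R : ℝ in atTop, ∀ σ ∈ K,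
      ‖(a μ (tt R σ) - a μ 0) * ∏ j, (Z R σ (Fin.succ j)) ^ μ j‖ < δ := by
    intro μ δ hδ
    obtain ⟨Ca, hCa⟩ := ((ha μ).differentiableAt.isBigO_sub).bound
    have h1 := htev _ (eventually_nhdsWithin_of_eventually_nhds hCa)
    have hlim : Tendsto (fun R : ℝ => |Ca| * Real.exp (-(κ * R)) * ∏ j : Fin m, (B * R) ^ μ j) atTop
        (𝓝 0) := by
      have e1 : ∀ R : ℝ, |Ca| * Real.exp (-(κ * R)) * ∏ j : Fin m, (B * R) ^ μ j =
          (|Ca| * (B / κ) ^ μ.degree) * ((κ * R) ^ μ.degree * Real.exp (-(κ * R))) := by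
        intro R
        rw [Finset.prod_pow_eq_pow_sum, Finsupp.degree_eq_sum]
        have : B * R = B / κ * (κ * R) := by field_simp
        rw [this, mul_pow]
        ring
      simp_rw [e1]
      have h2 := (Real.tendsto_pow_mul_exp_neg_atTop_nhds_zero μ.degree).comp
        (tendsto_id.const_mul_atTop hκpos)
      have h3 := h2.const_mul (|Ca| * (B / κ) ^ μ.degree)
      rw [mul_zero] at h3
      exact h3
    filter_upwards [h1, hB, hlim.eventually (gt_mem_nhds hδ), eventually_ge_atTop 0] with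
      R h2 h3 h4 hR σ hσ
    refine lt_of_le_of_lt ?_ h4
    rw [norm_mul, norm_prod]
    apply mul_le_mul
    · have h5 := h2 σ hσ
      rw [sub_zero] at h5
      refine h5.trans ?_
      have h6 := t_norm η κ R σ (hKim σ hσ) hR
      exact mul_le_mul (le_abs_self _) h6 (norm_nonneg _) (abs_nonneg _)
    · apply Finset.prod_le_prod
      · intro j _
        exact norm_nonneg _
      · intro j _
        rw [norm_pow]
        exact pow_le_pow_left₀ (norm_nonneg _) (h3 σ hσ j) _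
    · exact Finset.prod_nonneg fun j _ => norm_nonneg _
    · positivity
  -- choose `R`
  have hcard : 0 < ((S.card : ℝ) + 1) := by positivity
  have hall1 : ∀ᶠ R : ℝ in atTop, ∀ μ ∈ S, ∀ σ ∈ K,
      ‖(a μ (tt R σ) - a μ 0) * ∏ j, (Z R σ (Fin.succ j)) ^ μ j‖ < κ0 / 4 / (S.card + 1) := by
    rw [Filter.eventually_all_finset]
    intro μ _
    exact herr μ _ (by positivity)
  have hall2 : ∀ᶠ R : ℝ in atTop, ∀ μ ∈ S, ∀ σ ∈ K,
      eval (fun j => (tt R σ) ^ v j * u j (tt R σ)) (coeff μ E) = (tt R σ) ^ N * a μ (tt R σ) := by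
    rw [Filter.eventually_all_finset]
    intro μ _
    exact htev _ (haE μ)
  have hall3 : ∀ᶠ R : ℝ in atTop, ∀ j, ∀ σ ∈ K, AnalyticAt ℂ (b j) (tt R σ) :=
    eventually_all.2 fun j =>
      htev _ (eventually_nhdsWithin_of_eventually_nhds (hb j).eventually_analyticAt)
  have hall4 : ∀ᶠ R : ℝ in atTop, ∀ j, ∀ σ ∈ K, Complex.exp (b j (tt R σ)) = u j (tt R σ) :=
    eventually_all.2 fun j => htev _ (eventually_nhdsWithin_of_eventually_nhds (hbu j))
  obtain ⟨R, hF, hsR, h1, h2, h3, h4, h5, hcR, hR1⟩ := ((hFlim δ hδ).and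
    ((hslim (κ0 / 2) (by positivity)).and (hall1.and (hall2.and (hall3.and (hall4.and
    ((htev _ hW).and ((hc 1 one_pos).and (eventually_ge_atTop 1))))))))).exists
  -- the zero
  have hga : AnalyticOnNhd ℂ (fun σ => eval (Z R σ) F / (c R) ^ F.totalDegree) K := by
    intro σ hσ
    apply AnalyticAt.div _ analyticAt_const (pow_ne_zero _ hcR.1)
    have h := AnalyticAt.aeval_mvPolynomial (𝕜 := ℂ) (f := fun σ : ℂ => Z R σ) (z := σ) (fun j => by
      change AnalyticAt ℂ (fun σ => 2 * Real.pi * Complex.I * l R j + c R * σ * v j +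
        b j (tt R σ)) σ
      apply AnalyticAt.add
      · fun_prop
      · have h7 : AnalyticAt ℂ (fun σ => tt R σ) σ := by
          change AnalyticAt ℂ (fun σ => Complex.exp (c R * σ)) σ
          fun_prop
        exact (h3 j σ hσ).comp h7) F
    simpa [MvPolynomial.aeval_eq_eval] using h
  obtain ⟨σ, hσ, hz⟩ := hhur _ hga (fun σ hσ => hF σ hσ)
  have hz0 : eval (Z R σ) F = 0 := by
    rcases div_eq_zero_iff.1 hz with h | h
    · exact h
    · exact absurd h (pow_ne_zero _ hcR.1)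
  have hexp : (fun j => Complex.exp (Z R σ j)) = fun j => (tt R σ) ^ v j * u j (tt R σ) := by
    funext j
    change Complex.exp (2 * Real.pi * Complex.I * l R j + c R * σ * v j + b j (tt R σ)) = _
    rw [Complex.exp_add, Complex.exp_add, h4 j σ hσ]
    have e1 : Complex.exp (2 * Real.pi * Complex.I * l R j) = 1 := by
      rw [mul_comm (2 * (Real.pi : ℂ) * Complex.I)]
      exact Complex.exp_int_mul_two_pi_mul_I (l R j)
    have e2 : Complex.exp (c R * σ * v j) = (tt R σ) ^ v j := by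
      rw [mul_comm (c R * σ), Complex.exp_int_mul]
    rw [e1, e2, one_mul]
  refine ⟨Z R σ, hz0, ?_, ?_⟩
  · rw [hexp]
    exact h5 σ hσ
  · rw [hexp]
    have ht0 : tt R σ ≠ 0 := Complex.exp_ne_zero _
    -- the value as a sum over `S`
    have e1 : eval (fun j => Z R σ (Fin.succ j))
        (map (eval fun j => (tt R σ) ^ v j * u j (tt R σ)) E) =
        (tt R σ) ^ N * ∑ μ ∈ S, a μ (tt R σ) * ∏ j, (Z R σ (Fin.succ j)) ^ μ j := by
      rw [eval_map, eval₂_eq', Finset.mul_sum]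
      have e2 : ∑ μ ∈ S, (eval fun j => (tt R σ) ^ v j * u j (tt R σ)) (coeff μ E) *
          ∏ j, (Z R σ (Fin.succ j)) ^ μ j = ∑ μ ∈ E.support,
          (eval fun j => (tt R σ) ^ v j * u j (tt R σ)) (coeff μ E) *
          ∏ j, (Z R σ (Fin.succ j)) ^ μ j := by
        symm
        apply Finset.sum_subset Finset.subset_union_left
        intro μ _ hμ
        rw [notMem_support_iff.1 hμ, map_zero, zero_mul]
      rw [← e2]
      apply Finset.sum_congr rfl
      intro μ hμ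
      rw [h2 μ hμ σ hσ]
      ring
    have e3 : eval (fun j => Z R σ (Fin.succ j)) s =
        ∑ μ ∈ S, a μ 0 * ∏ j, (Z R σ (Fin.succ j)) ^ μ j := by
      rw [eval_eq']
      have e4 : ∑ μ ∈ S, a μ 0 * ∏ j, (Z R σ (Fin.succ j)) ^ μ j =
          ∑ μ ∈ S, coeff μ s * ∏ j, (Z R σ (Fin.succ j)) ^ μ j :=
        Finset.sum_congr rfl fun μ _ => by rw [has]
      rw [e4]
      apply Finset.sum_subset Finset.subset_union_right
      intro μ _ hμ
      rw [notMem_support_iff.1 hμ, zero_mul]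
    have e5 : ‖∑ μ ∈ S, a μ (tt R σ) * ∏ j, (Z R σ (Fin.succ j)) ^ μ j -
        eval (fun j => Z R σ (Fin.succ j)) s‖ ≤ κ0 / 4 := by
      rw [e3, ← Finset.sum_sub_distrib]
      refine (norm_sum_le _ _).trans ?_
      calc ∑ μ ∈ S, ‖a μ (tt R σ) * ∏ j, (Z R σ (Fin.succ j)) ^ μ j -
            a μ 0 * ∏ j, (Z R σ (Fin.succ j)) ^ μ j‖
          ≤ ∑ μ ∈ S, κ0 / 4 / (S.card + 1) := by
            apply Finset.sum_le_sum
            intro μ hμ
            rw [← sub_mul]
            exact (h1 μ hμ σ hσ).le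
        _ = (S.card : ℝ) * (κ0 / 4 / (S.card + 1)) := by
            rw [Finset.sum_const, nsmul_eq_mul]
        _ ≤ κ0 / 4 := by
            rw [mul_div_assoc', div_le_iff₀ hcard]
            nlinarith
    have e6 : κ0 / 2 ≤ ‖eval (fun j => Z R σ (Fin.succ j)) s‖ := by
      have h6 := hsR σ hσ
      have h7 := hKs σ hσ
      have h8 := norm_sub_norm_le (eval (fun j : Fin m => (y j.succ : ℂ) + σ * v j.succ)
        (homogeneousComponent s.totalDegree s))
        (eval (fun j => Z R σ (Fin.succ j)) s / (c R) ^ s.totalDegree)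
      rw [norm_sub_rev] at h8
      have h9 : κ0 / 2 ≤ ‖eval (fun j => Z R σ (Fin.succ j)) s / (c R) ^ s.totalDegree‖ := by
        linarith
      rw [norm_div, norm_pow, hcn R (by linarith)] at h9
      refine h9.trans ?_
      apply div_le_self (norm_nonneg _)
      exact one_le_pow₀ hR1
    rw [e1]
    apply mul_ne_zero (zpow_ne_zero _ ht0)
    intro h0
    rw [h0, zero_sub, norm_neg] at e5
    linarith

end Pool.Agent.EXP
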