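import Mathlib

/-!
# EXP / Dens: density of `c . Z^n`, simultaneous approximation
-/

set_option autoImplicit false

namespace Pool.Agent.EXP

open Filter Topology

theorem dens {n : ℕ} (hn : 2 ≤ n) (c : Fin n → ℝ)
    (hc : ∀ v : Fin n → ℤ, v ≠ 0 → ∑ j, c j * v j ≠ 0) (θ ε : ℝ) (hε : 0 < ε) :
    ∃ l : Fin n → ℤ, |∑ j, c j * l j - θ| < ε := by
  let φ : (Fin n → ℤ) →+ ℝ :=
    { toFun := fun l => ∑ j, c j * l j
      map_zero' := by simp
      map_add' := fun a b => by
        simp only [Pi.add_apply, Int.cast_add, mul_add, Finset.sum_add_distrib] }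
  have hφ : ∀ l, φ l = ∑ j, c j * l j := fun l => rfl
  have hs : ∀ i, φ (Pi.single i 1) = c i := by
    intro i
    rw [hφ, Finset.sum_eq_single i]
    · simp
    · intro j _ hj
      simp [Pi.single_eq_of_ne hj]
    · simp
  rcases AddSubgroup.dense_or_cyclic φ.range with hd | ⟨a, ha⟩
  · have h1 : θ ∈ closure (φ.range : Set ℝ) := hd θ
    rw [Metric.mem_closure_iff] at h1
    obtain ⟨b, ⟨l, hl⟩, hb⟩ := h1 ε hε
    refine ⟨l, ?_⟩
    rw [← hφ, hl, ← Real.dist_eq, dist_comm]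
    exact hb
  · exfalso
    let i0 : Fin n := ⟨0, by omega⟩
    let i1 : Fin n := ⟨1, by omega⟩
    have h01 : i0 ≠ i1 := by
      intro h
      have := congrArg Fin.val h
      simp [i0, i1] at this
    have hm : ∀ i, ∃ k : ℤ, k • a = c i := by
      intro i
      have : c i ∈ φ.range := ⟨Pi.single i 1, hs i⟩
      rw [ha, AddSubgroup.mem_closure_singleton] at this
      exact this
    obtain ⟨k0, hk0⟩ := hm i0
    obtain ⟨k1, hk1⟩ := hm i1
    have hc0 : c i0 ≠ 0 := by
      have := hc (Pi.single i0 1) (by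
        intro h
        have := congrFun h i0
        simp at this)
      rw [← hφ, hs] at this
      exact this
    have hk0' : k0 ≠ 0 := by
      intro h
      rw [h, zero_smul] at hk0
      exact hc0 hk0.symm
    set v : Fin n → ℤ := k1 • Pi.single i0 1 - k0 • Pi.single i1 1 with hv
    have hv1 : v i1 = -k0 := by
      rw [hv]
      simp [Pi.single_eq_of_ne h01.symm]
    have hv0 : v ≠ 0 := by
      intro h
      have := congrFun h i1
      rw [hv1, Pi.zero_apply] at this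
      omega
    apply hc v hv0
    rw [← hφ, hv, map_sub, map_zsmul, map_zsmul, hs, hs, ← hk0, ← hk1, smul_smul, smul_smul,
      mul_comm k1 k0, sub_self]

theorem recur {n : ℕ} (α : Fin n → ℝ) (ε T0 : ℝ) (hε : 0 < ε) :
    ∃ T : ℝ, T0 < T ∧ ∃ p : Fin n → ℤ, ∀ j, |T * α j - p j| < ε := by
  set M : ℝ := |T0| + 1 with hM
  have hM0 : 0 < M := by positivity
  have hMT : T0 < M := by
    have := le_abs_self T0
    linarith
  let x : ℕ → (Fin n → ℝ) := fun k j => Int.fract ((k : ℝ) * M * α j)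
  have hx : ∀ k, x k ∈ Set.Icc (0 : Fin n → ℝ) 1 := fun k =>
    ⟨fun j => Int.fract_nonneg _, fun j => (Int.fract_lt_one _).le⟩
  obtain ⟨y, _, φ, hφ, ht⟩ := isCompact_Icc.tendsto_subseq hx
  rw [Metric.tendsto_atTop] at ht
  obtain ⟨N, hN⟩ := ht (ε / 2) (by positivity)
  have h1 := hN N le_rfl
  have h2 := hN (N + 1) (by omega)
  have hlt : φ N < φ (N + 1) := hφ (by omega)
  refine ⟨((φ (N + 1) : ℝ) - φ N) * M, ?_, fun j =>
    ⌊(φ (N + 1) : ℝ) * M * α j⌋ - ⌊(φ N : ℝ) * M * α j⌋, fun j => ?_⟩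
  · have h3 : (1 : ℝ) ≤ (φ (N + 1) : ℝ) - φ N := by
      have : (φ N : ℝ) + 1 ≤ φ (N + 1) := by exact_mod_cast hlt
      linarith
    nlinarith
  · have h4 := (dist_le_pi_dist (x (φ N)) y j).trans_lt h1
    have h5 := (dist_le_pi_dist (x (φ (N + 1))) y j).trans_lt h2
    rw [Real.dist_eq] at h4 h5
    have h6 : ((φ (N + 1) : ℝ) - φ N) * M * α j -
        ((⌊(φ (N + 1) : ℝ) * M * α j⌋ - ⌊(φ N : ℝ) * M * α j⌋ : ℤ) : ℝ) =
        (x (φ (N + 1)) j - y j) - (x (φ N) j - y j) := by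
      simp only [x, Int.fract]
      push_cast
      ring
    rw [h6]
    calc |(x (φ (N + 1)) j - y j) - (x (φ N) j - y j)|
        ≤ |x (φ (N + 1)) j - y j| + |x (φ N) j - y j| := abs_sub _ _
      _ < ε := by linarith

end Pool.Agent.EXP
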