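import Pool.Agent.EXP.NbA

/-!
# EXP / NbB: asymptotics of `E_w` at `T α + y`, `T → ∞`, uniform in `w`
-/

set_option autoImplicit false

namespace Pool.Agent.EXP

open MvPolynomial Filter Topology

theorem nb_Ebdd {m n : ℕ} (P : MvPolynomial (Fin m) (MvPolynomial (Fin n) ℂ)) (B : ℝ) :
    ∃ C : ℝ, 0 ≤ C ∧ ∀ (w : Fin n → ℂ) (a : Fin m → ℂ), (∀ j, ‖w j‖ ≤ B) → (∀ j, ‖a j‖ ≤ B) →
      ‖eval a (map (eval w) P)‖ ≤ C := by
  induction P using MvPolynomial.induction_on with
  | C p =>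
    obtain ⟨C, hC0, hC⟩ := nb_bdd p B
    refine ⟨C, hC0, fun w a hw _ => ?_⟩
    rw [map_C, eval_C]
    exact hC w hw
  | add P Q hP hQ =>
    obtain ⟨C₁, h10, h1⟩ := hP
    obtain ⟨C₂, h20, h2⟩ := hQ
    refine ⟨C₁ + C₂, by positivity, fun w a hw ha => ?_⟩
    rw [map_add, map_add]
    exact (norm_add_le _ _).trans (add_le_add (h1 w a hw ha) (h2 w a hw ha))
  | mul_X P i hP =>
    obtain ⟨C₁, h10, h1⟩ := hP
    refine ⟨C₁ * |B|, by positivity, fun w a hw ha => ?_⟩
    rw [map_mul, map_mul, map_X, eval_X, norm_mul]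
    exact mul_le_mul (h1 w a hw ha) ((ha i).trans (le_abs_self B)) (norm_nonneg _) h10

theorem nb_Elip {m n : ℕ} (P : MvPolynomial (Fin m) (MvPolynomial (Fin n) ℂ)) (B : ℝ) :
    ∃ C : ℝ, 0 ≤ C ∧ ∀ (w : Fin n → ℂ) (a y : Fin m → ℂ) (h : ℂ), (∀ j, ‖w j‖ ≤ B) →
      (∀ j, ‖a j‖ ≤ B) → (∀ j, ‖y j‖ ≤ B) → ‖h‖ ≤ 1 →
      ‖eval (fun j => a j + h * y j) (map (eval w) P) - eval a (map (eval w) P)‖ ≤ C * ‖h‖ := by
  induction P using MvPolynomial.induction_on with
  | C p =>
    refine ⟨0, le_rfl, fun w a y h _ _ _ _ => ?_⟩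
    rw [map_C, eval_C, eval_C]
    simp
  | add P Q hP hQ =>
    obtain ⟨C₁, h10, h1⟩ := hP
    obtain ⟨C₂, h20, h2⟩ := hQ
    refine ⟨C₁ + C₂, by positivity, fun w a y h hw ha hy hh => ?_⟩
    rw [map_add, map_add, map_add, add_mul]
    have e : ∀ p q r s : ℂ, p + q - (r + s) = (p - r) + (q - s) := fun p q r s => by ring
    rw [e]
    exact (norm_add_le _ _).trans (add_le_add (h1 w a y h hw ha hy hh) (h2 w a y h hw ha hy hh))
  | mul_X P i hP =>
    obtain ⟨C₁, h10, h1⟩ := hP
    obtain ⟨C₂, h20, h2⟩ := nb_Ebdd P B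
    refine ⟨C₁ * (2 * |B|) + C₂ * |B|, by positivity, fun w a y h hw ha hy hh => ?_⟩
    rw [map_mul, map_mul, map_mul, map_X, eval_X, eval_X]
    have e : ∀ p q a y : ℂ, p * (a + h * y) - q * a = (p - q) * (a + h * y) + q * (h * y) :=
      fun p q a y => by ring
    rw [e]
    have hyi : ‖y i‖ ≤ |B| := (hy i).trans (le_abs_self B)
    have hai : ‖a i‖ ≤ |B| := (ha i).trans (le_abs_self B)
    have h3 : ‖a i + h * y i‖ ≤ 2 * |B| := by
      refine (norm_add_le _ _).trans ?_
      rw [norm_mul]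
      have : ‖h‖ * ‖y i‖ ≤ 1 * |B| := mul_le_mul hh hyi (norm_nonneg _) zero_le_one
      linarith
    refine (norm_add_le _ _).trans ?_
    rw [norm_mul, norm_mul, norm_mul, add_mul]
    refine add_le_add ?_ ?_
    · calc _ ≤ C₁ * ‖h‖ * (2 * |B|) :=
            mul_le_mul (h1 w a y h hw ha hy hh) h3 (norm_nonneg _) (by positivity)
        _ = _ := by ring
    · calc ‖eval a (map (eval w) P)‖ * (‖h‖ * ‖y i‖) ≤ C₂ * (‖h‖ * |B|) := by
            have := h2 w a hw ha
            gcongr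
        _ = _ := by ring

theorem nb_Econt {m n : ℕ} (P : MvPolynomial (Fin m) (MvPolynomial (Fin n) ℂ)) (a : Fin m → ℂ) :
    Continuous fun w : Fin n → ℂ => eval a (map (eval w) P) := by
  induction P using MvPolynomial.induction_on with
  | C p =>
    simp only [map_C, eval_C]
    exact MvPolynomial.continuous_eval p
  | add P Q hP hQ =>
    simp only [map_add]
    exact hP.add hQ
  | mul_X P i hP =>
    simp only [map_mul, map_X, eval_X]
    exact hP.mul continuous_const

theorem nb_map_comp {m : ℕ} {A : Type} [CommRing A] (f : A →+* ℂ) (P : MvPolynomial (Fin m) A)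
    (k : ℕ) : homogeneousComponent k (map f P) = map f (homogeneousComponent k P) := by
  ext s
  rw [coeff_homogeneousComponent, coeff_map, coeff_map, coeff_homogeneousComponent]
  split_ifs
  · rfl
  · rw [map_zero]

theorem nb_Esum {m : ℕ} (Q : MvPolynomial (Fin m) ℂ) {D : ℕ} (hD : Q.totalDegree ≤ D) :
    Q = ∑ k ∈ Finset.range (D + 1), homogeneousComponent k Q := by
  conv_lhs => rw [← MvPolynomial.sum_homogeneousComponent Q]
  refine Finset.sum_subset (Finset.range_subset_range.2 (by omega)) fun k _ hk => ?_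
  refine homogeneousComponent_eq_zero _ _ ?_
  rw [Finset.mem_range] at hk
  omega

/-- Leading behaviour of `E_w (2 π i l + x)`, `l = T α + e`. -/
theorem nb_Emain {m n : ℕ} (E : MvPolynomial (Fin m) (MvPolynomial (Fin n) ℂ)) (D : ℕ)
    (α : Fin m → ℝ) (B : ℝ) : ∃ C : ℝ, 0 ≤ C ∧
    ∀ (T : ℝ) (l : Fin m → ℝ) (x : Fin m → ℂ) (w : Fin n → ℂ), 1 ≤ T →
      (∀ j, |l j - T * α j| ≤ B) → (∀ j, ‖x j‖ ≤ B) → (∀ j, ‖w j‖ ≤ B) →
      (map (eval w) E).totalDegree ≤ D →
      ‖eval (fun j => 2 * Real.pi * Complex.I * l j + x j) (map (eval w) E) /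
          (2 * Real.pi * Complex.I * T) ^ D -
        eval (fun j => (α j : ℂ)) (homogeneousComponent D (map (eval w) E))‖ ≤ C / T := by
  set A : Fin m → ℂ := fun j => (α j : ℂ) with hA
  obtain ⟨B', hBB, hB', hBα, hB0⟩ : ∃ B' : ℝ, B ≤ B' ∧ B + B ≤ B' ∧ (∀ j, ‖A j‖ ≤ B') ∧
      0 ≤ B' := by
    refine ⟨|B| + |B| + ∑ j, ‖A j‖, ?_, ?_, fun j => ?_, by positivity⟩
    · have h1 := le_abs_self B
      have h3 := abs_nonneg B
      have h2 : 0 ≤ ∑ j, ‖A j‖ := Finset.sum_nonneg fun j _ => norm_nonneg _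
      linarith
    · have h1 := le_abs_self B
      have h2 : 0 ≤ ∑ j, ‖A j‖ := Finset.sum_nonneg fun j _ => norm_nonneg _
      linarith
    · have h1 := Finset.single_le_sum (f := fun j => ‖A j‖) (fun j _ => norm_nonneg _)
        (Finset.mem_univ j)
      have h2 := abs_nonneg B
      linarith
  obtain ⟨C₂, h20, h2⟩ := nb_Elip (homogeneousComponent D E) B'
  choose C₃ h30 h3 using fun k => nb_Ebdd (homogeneousComponent k E) (B' + B')
  have hpi := Real.pi_gt_three
  refine ⟨C₂ + ∑ k ∈ Finset.range D, C₃ k, by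
    have : 0 ≤ ∑ k ∈ Finset.range D, C₃ k := Finset.sum_nonneg fun k _ => h30 k
    positivity, fun T l x w hT hl hx hw hwD => ?_⟩
  have hT0 : 0 < T := by linarith
  set θ : ℂ := 2 * Real.pi * Complex.I with hθ
  have hθn : ‖θ‖ = 2 * Real.pi := by
    rw [hθ]
    simp [abs_of_pos Real.pi_pos]
  have hθ0 : θ ≠ 0 := by
    rw [← norm_pos_iff, hθn]
    positivity
  have hTc : (T : ℂ) ≠ 0 := by exact_mod_cast hT0.ne'
  obtain ⟨y, hy⟩ : ∃ y : Fin m → ℂ, y = fun j => ((l j : ℂ) - T * α j) + x j / θ := ⟨_, rfl⟩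
  obtain ⟨h, hh⟩ : ∃ h : ℂ, h = (T : ℂ)⁻¹ := ⟨_, rfl⟩
  have hhn : ‖h‖ = 1 / T := by
    rw [hh, norm_inv, Complex.norm_real, Real.norm_eq_abs, abs_of_pos hT0, one_div]
  have hh1 : ‖h‖ ≤ 1 := by
    rw [hhn, div_le_one hT0]
    exact hT
  have hyB : ∀ j, ‖y j‖ ≤ B' := by
    intro j
    rw [hy]
    refine (norm_add_le _ _).trans ?_
    have e1 : ‖(l j : ℂ) - T * α j‖ ≤ B := by
      have : (l j : ℂ) - T * α j = ((l j - T * α j : ℝ) : ℂ) := by push_cast; ring
      rw [this, Complex.norm_real, Real.norm_eq_abs]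
      exact hl j
    have e2 : ‖x j / θ‖ ≤ B := by
      rw [norm_div, hθn]
      refine (div_le_self (norm_nonneg _) (by linarith)).trans (hx j)
    linarith
  have hpt : (fun j => θ * l j + x j) = fun j => (θ * T) * (A j + h * y j) := by
    funext j
    rw [hy, hh, hA]
    field_simp
    ring
  have hAy : ∀ j, ‖A j + h * y j‖ ≤ B' + B' := by
    intro j
    refine (norm_add_le _ _).trans (add_le_add (hBα j) ?_)
    rw [norm_mul]
    calc ‖h‖ * ‖y j‖ ≤ 1 * B' := mul_le_mul hh1 (hyB j) (norm_nonneg _) zero_le_one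
      _ = B' := one_mul _
  have hθT0 : θ * T ≠ 0 := mul_ne_zero hθ0 hTc
  have hsum : eval (fun j => θ * l j + x j) (map (eval w) E) = ∑ k ∈ Finset.range (D + 1),
      (θ * T) ^ k * eval (fun j => A j + h * y j) (map (eval w) (homogeneousComponent k E)) := by
    conv_lhs => rw [nb_Esum _ hwD]
    rw [map_sum]
    refine Finset.sum_congr rfl fun k _ => ?_
    rw [hpt, nb_scale (homogeneousComponent_isHomogeneous k _), nb_map_comp]
  have hmain : eval (fun j => θ * l j + x j) (map (eval w) E) / (θ * T) ^ D -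
      eval A (homogeneousComponent D (map (eval w) E)) =
      (eval (fun j => A j + h * y j) (map (eval w) (homogeneousComponent D E)) -
        eval A (map (eval w) (homogeneousComponent D E))) +
      ∑ k ∈ Finset.range D, eval (fun j => A j + h * y j)
        (map (eval w) (homogeneousComponent k E)) / (θ * T) ^ (D - k) := by
    rw [hsum, Finset.sum_range_succ, nb_map_comp]
    have e1 : ∑ k ∈ Finset.range D, eval (fun j => A j + h * y j)
        (map (eval w) (homogeneousComponent k E)) / (θ * T) ^ (D - k) =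
        (∑ k ∈ Finset.range D, (θ * T) ^ k * eval (fun j => A j + h * y j)
          (map (eval w) (homogeneousComponent k E))) / (θ * T) ^ D := by
      rw [Finset.sum_div]
      refine Finset.sum_congr rfl fun k hk => ?_
      have hkd : k ≤ D := (Finset.mem_range.1 hk).le
      have e2 : (θ * T) ^ D = (θ * T) ^ k * (θ * T) ^ (D - k) := by
        rw [← pow_add]
        congr 1
        omega
      rw [e2]
      have := pow_ne_zero k hθT0
      field_simp
    rw [e1]
    have hp := pow_ne_zero D hθT0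
    field_simp
    ring
  rw [hmain]
  have b2 : ‖eval (fun j => A j + h * y j) (map (eval w) (homogeneousComponent D E)) -
      eval A (map (eval w) (homogeneousComponent D E))‖ ≤ C₂ / T := by
    have := h2 w A y h (fun j => (hw j).trans hBB) hBα hyB hh1
    rw [hhn] at this
    calc _ ≤ C₂ * (1 / T) := this
      _ = C₂ / T := by ring
  have b3 : ‖∑ k ∈ Finset.range D, eval (fun j => A j + h * y j)
      (map (eval w) (homogeneousComponent k E)) / (θ * T) ^ (D - k)‖ ≤
      (∑ k ∈ Finset.range D, C₃ k) / T := by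
    rw [Finset.sum_div]
    refine (norm_sum_le _ _).trans (Finset.sum_le_sum fun k hk => ?_)
    have hkd : k < D := Finset.mem_range.1 hk
    rw [norm_div, norm_pow, norm_mul, hθn, Complex.norm_real, Real.norm_eq_abs,
      abs_of_pos hT0]
    have e1 : T ≤ (2 * Real.pi * T) ^ (D - k) := by
      have e2 : T ≤ 2 * Real.pi * T := by nlinarith
      have e3 : (1 : ℝ) ≤ 2 * Real.pi * T := by linarith
      calc T ≤ (2 * Real.pi * T) ^ 1 := by rw [pow_one]; exact e2
        _ ≤ (2 * Real.pi * T) ^ (D - k) := pow_le_pow_right₀ e3 (by omega)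
    have := h3 k w _ (fun j => (hw j).trans (by linarith)) hAy
    have h4 := h30 k
    gcongr
  calc _ ≤ C₂ / T + (∑ k ∈ Finset.range D, C₃ k) / T :=
        (norm_add_le _ _).trans (add_le_add b2 b3)
    _ = _ := by ring

end Pool.Agent.EXP
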