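import Pool.Agent.EXP.Defs
import Pool.Agent.EXP.Hur
import Pool.Agent.EXP.Dens
import Pool.Agent.EXP.NbB

/-!
# EXP / NearB: real zero `α` of `G`, real gradient `c`

PROOF.  `n = m + 1`, `d = F.totalDegree`, `κ = - F_{d-1}(α) / R(α)`, `f(t) = c . x(t) - c . x(0)`, `f(0) = 0`, `f` not locally
`0`.  Given `ε`: `l_0 ∈ Z^n` with `|2 π c . l_0 - Im (κ - c . x(0))| < ε` (`dens`); then `T` large and `p ∈ Z^n` with
`|T α - p| < ε'` (`recur`, `ε'` as small as we like, after `l_0`), `l = p + l_0`, `e = p - T α + l_0` (bounded).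
Taylor: `L(2 π i l + x) = (2 π i)^d L(T α + e + x / (2 π i)) = (2 π i)^d T^(d-1) ∇L(α) . (e + x / (2 π i)) + O(T^(d-2))`
with `L(α) = 0`, `∇L(α) = R(α) c`; `F_{d-1}(2 π i l + x) = (2 π i)^(d-1) T^(d-1) F_{d-1}(α) + O(T^(d-2))`.  So
`F(2 π i l + x(t)) / ((2 π i T)^(d-1) R(α)) = 2 π i c . e + c . x(t) - κ + O(1/T)`, uniformly for `t` near `0`, and
`2 π i c . e = i Im (κ - c . x(0)) + O(ε)`, `Re κ = Re c . x(0)` (`hx0`): this is `f(t) + O(ε)`.  Hurwitz gives a zero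
`t_ε` near `0`; `z = 2 π i l + x(t_ε)`, `exp z = exp x(t_ε) ∈ Tz Q`.
`E(z', exp z) / T^D → (2 π i)^D (E_w)_D (α')`, `w = exp x(t)`, uniformly for `t` near `0` (`hD`: no terms of higher degree
at points of `Tz Q`); this is not `0` for `t` near `0` (`hE`, continuity).
-/

set_option autoImplicit false

namespace Pool.Agent.EXP

open MvPolynomial Filter Topology

theorem nb_an {n : ℕ} (P : MvPolynomial (Fin n) ℂ) (X : ℂ → Fin n → ℂ) (t₀ : ℂ)
    (hX : ∀ j, AnalyticAt ℂ (fun t => X t j) t₀) : AnalyticAt ℂ (fun t => eval (X t) P) t₀ := by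
  induction P using MvPolynomial.induction_on with
  | C c =>
    simp only [eval_C]
    exact analyticAt_const
  | add P Q hP hQ =>
    simp only [map_add]
    exact hP.add hQ
  | mul_X P i hP =>
    simp only [map_mul, eval_X]
    exact hP.mul (hX i)

/-- `nearB` with the density of `c . Z^n` as a hypothesis. -/
theorem nearB' {m : ℕ} (Q : Ideal (MvPolynomial (Fin (m + 1)) ℂ))
    (F G R : MvPolynomial (Fin (m + 1)) ℂ)
    (hL : homogeneousComponent F.totalDegree F = G * R) (hd : 0 < F.totalDegree)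
    (α : Fin (m + 1) → ℝ) (hα : eval (fun j => (α j : ℂ)) G = 0) (c : Fin (m + 1) → ℝ)
    (hc : ∀ j, eval (fun j => (α j : ℂ)) (pderiv j G) = c j)
    (hdens : ∀ θ ε : ℝ, 0 < ε → ∃ l : Fin (m + 1) → ℤ, |∑ j, c j * l j - θ| < ε)
    (hR : eval (fun j => (α j : ℂ)) R ≠ 0)
    (x : ℂ → Fin (m + 1) → ℂ) (hx : ∀ j, AnalyticAt ℂ (fun t => x t j) 0)
    (hxW : ∀ᶠ t in 𝓝 (0 : ℂ), (fun j => Complex.exp (x t j)) ∈ Tz Q)
    (hx0 : (∑ j, (c j : ℂ) * x 0 j).re =
      (-(eval (fun j => (α j : ℂ)) (homogeneousComponent (F.totalDegree - 1) F)) /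
        eval (fun j => (α j : ℂ)) R).re)
    (hx1 : ¬ ∀ᶠ t in 𝓝 (0 : ℂ), ∑ j, (c j : ℂ) * x t j = ∑ j, (c j : ℂ) * x 0 j)
    (E : MvPolynomial (Fin m) (MvPolynomial (Fin (m + 1)) ℂ)) (D : ℕ)
    (hD : ∀ w ∈ Tz Q, (map (eval w) E).totalDegree ≤ D)
    (hE : eval (fun j : Fin m => (α j.succ : ℂ))
      (homogeneousComponent D (map (eval fun j => Complex.exp (x 0 j)) E)) ≠ 0) :
    ∃ z : Fin (m + 1) → ℂ, eval z F = 0 ∧ (fun j => Complex.exp (z j)) ∈ Tz Q ∧
      eval (fun j => z j.succ) (map (eval fun j => Complex.exp (z j)) E) ≠ 0 := by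
  have hpi := Real.pi_gt_three
  have hpi0 : 0 < Real.pi := Real.pi_pos
  -- the value of the leading part of `E` at `exp x(t)`
  set φ : ℂ → ℂ := fun t => eval (fun j : Fin m => (α j.succ : ℂ))
    (homogeneousComponent D (map (eval fun j => Complex.exp (x t j)) E)) with hφ
  have hφc : ContinuousAt φ 0 := by
    have h1 : φ = (fun w : Fin (m + 1) → ℂ => eval (fun j : Fin m => (α j.succ : ℂ))
        (map (eval w) (homogeneousComponent D E))) ∘ fun t j => Complex.exp (x t j) := by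
      funext t
      rw [hφ]
      simp only [Function.comp_apply]
      rw [nb_map_comp]
    rw [h1]
    refine ContinuousAt.comp (nb_Econt _ _).continuousAt ?_
    exact continuousAt_pi.2 fun j => (hx j).continuousAt.cexp
  obtain ⟨δ₀, hδ₀, hδφ⟩ : ∃ δ₀ : ℝ, 0 < δ₀ ∧ ∀ᶠ t in 𝓝 (0 : ℂ), δ₀ ≤ ‖φ t‖ := by
    have h0 : 0 < ‖φ 0‖ := norm_pos_iff.2 hE
    refine ⟨‖φ 0‖ / 2, by positivity, ?_⟩
    have h1 : ∀ᶠ t in 𝓝 (0 : ℂ), ‖φ 0‖ / 2 < ‖φ t‖ :=
      hφc.norm.eventually_const_lt (by linarith)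
    exact h1.mono fun t ht => ht.le
  -- a closed disc
  have hev : ∀ᶠ t in 𝓝 (0 : ℂ), (∀ j, AnalyticAt ℂ (fun t => x t j) t) ∧
      (fun j => Complex.exp (x t j)) ∈ Tz Q ∧ δ₀ ≤ ‖φ t‖ :=
    (eventually_all.2 fun j => (hx j).eventually_analyticAt).and (hxW.and hδφ)
  obtain ⟨r', hr', hball⟩ := Metric.eventually_nhds_iff_ball.1 hev
  obtain ⟨r, hr, hrr⟩ : ∃ r : ℝ, 0 < r ∧ r < r' := ⟨r' / 2, by linarith, by linarith⟩
  have hcl : ∀ t ∈ Metric.closedBall (0 : ℂ) r, (∀ j, AnalyticAt ℂ (fun t => x t j) t) ∧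
      (fun j => Complex.exp (x t j)) ∈ Tz Q ∧ δ₀ ≤ ‖φ t‖ := fun t ht =>
    hball t (Metric.closedBall_subset_ball hrr ht)
  -- a bound
  obtain ⟨B₁, hB₁, hB₂⟩ : ∃ B₁ : ℝ, (∀ t ∈ Metric.closedBall (0 : ℂ) r, ∀ j, ‖x t j‖ ≤ B₁) ∧
      ∀ t ∈ Metric.closedBall (0 : ℂ) r, ∀ j, ‖Complex.exp (x t j)‖ ≤ B₁ := by
    have hcont : ∀ j, ContinuousOn (fun t => x t j) (Metric.closedBall (0 : ℂ) r) :=
      fun j t ht => ((hcl t ht).1 j).continuousAt.continuousWithinAt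
    choose b₁ hb₁ using fun j =>
      (isCompact_closedBall (0 : ℂ) r).exists_bound_of_continuousOn (hcont j)
    choose b₂ hb₂ using fun j =>
      (isCompact_closedBall (0 : ℂ) r).exists_bound_of_continuousOn (hcont j).cexp
    refine ⟨∑ j, (|b₁ j| + |b₂ j|), fun t ht j => ?_, fun t ht j => ?_⟩
    · refine (hb₁ j t ht).trans ?_
      have h1 := Finset.single_le_sum (f := fun j => |b₁ j| + |b₂ j|)
        (fun j _ => by positivity) (Finset.mem_univ j)
      have h2 := le_abs_self (b₁ j)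
      have h3 := abs_nonneg (b₂ j)
      linarith
    · refine (hb₂ j t ht).trans ?_
      have h1 := Finset.single_le_sum (f := fun j => |b₁ j| + |b₂ j|)
        (fun j _ => by positivity) (Finset.mem_univ j)
      have h2 := le_abs_self (b₂ j)
      have h3 := abs_nonneg (b₁ j)
      linarith
  -- the limit function
  set f : ℂ → ℂ := fun t => ∑ j, (c j : ℂ) * x t j - ∑ j, (c j : ℂ) * x 0 j with hf
  have hfa : AnalyticOnNhd ℂ f (Metric.closedBall 0 r) := by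
    intro t ht
    refine AnalyticAt.sub ?_ analyticAt_const
    exact Finset.analyticAt_fun_sum _ fun j _ => analyticAt_const.mul ((hcl t ht).1 j)
  have hf0 : f 0 = 0 := sub_self _
  have hfne : ¬ ∀ᶠ t in 𝓝 (0 : ℂ), f t = 0 := fun h =>
    hx1 (h.mono fun t ht => sub_eq_zero.1 ht)
  obtain ⟨δ, hδ, hH⟩ := hurwitz f 0 r hr hfa hf0 hfne
  -- constants
  set A : Fin (m + 1) → ℂ := fun j => (α j : ℂ) with hA
  set κ : ℂ := -(eval A (homogeneousComponent (F.totalDegree - 1) F)) / eval A R with hκ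
  set X0 : ℂ := ∑ j, (c j : ℂ) * x 0 j with hX0
  obtain ⟨l₀, hl₀⟩ := hdens (-(X0 - κ).im / (2 * Real.pi))
    (δ / (8 * Real.pi)) (by positivity)
  obtain ⟨B, hBB, hBl⟩ : ∃ B : ℝ, B₁ ≤ B ∧ ∀ j, |(l₀ j : ℝ)| + 1 ≤ B := by
    refine ⟨|B₁| + ∑ j, (|(l₀ j : ℝ)| + 1), ?_, fun j => ?_⟩
    · have h1 := le_abs_self B₁
      have h2 : 0 ≤ ∑ j, (|(l₀ j : ℝ)| + 1) := Finset.sum_nonneg fun j _ => by positivity
      linarith
    · have h1 := Finset.single_le_sum (f := fun j => |(l₀ j : ℝ)| + 1)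
        (fun j _ => by positivity) (Finset.mem_univ j)
      have h2 := abs_nonneg B₁
      linarith
  obtain ⟨C₁, hC₁0, hC₁⟩ := nb_main F G R hL hd α hα c hc hR B
  obtain ⟨C₂, hC₂0, hC₂⟩ := nb_Emain E D (fun j : Fin m => α j.succ) B
  have hS0 : 0 ≤ ∑ j, |c j| := Finset.sum_nonneg fun j _ => abs_nonneg _
  obtain ⟨ε, hε, hε1, hεc⟩ : ∃ ε : ℝ, 0 < ε ∧ ε ≤ 1 ∧
      2 * Real.pi * ((∑ j, |c j|) * ε) ≤ δ / 4 := by
    refine ⟨min 1 (δ / (8 * Real.pi * (1 + ∑ j, |c j|))), by positivity, min_le_left _ _, ?_⟩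
    calc 2 * Real.pi * ((∑ j, |c j|) * min 1 (δ / (8 * Real.pi * (1 + ∑ j, |c j|))))
        ≤ 2 * Real.pi * ((1 + ∑ j, |c j|) * (δ / (8 * Real.pi * (1 + ∑ j, |c j|)))) := by
          gcongr
          · linarith
          · exact min_le_right _ _
      _ = δ / 4 := by
          have : 1 + ∑ j, |c j| ≠ 0 := by positivity
          field_simp
          ring
  obtain ⟨T, hT, p, hp⟩ := recur α ε (max 1 (max (4 * C₁ / δ) (C₂ / δ₀))) hε
  have hT1 : 1 ≤ T := (le_max_left _ _).trans hT.le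
  have hT0 : 0 < T := by linarith
  have hTC₁ : C₁ / T ≤ δ / 4 := by
    have h1 : 4 * C₁ / δ ≤ T := ((le_max_left _ _).trans (le_max_right _ _)).trans hT.le
    rw [div_le_iff₀ hδ] at h1
    rw [div_le_div_iff₀ hT0 (by norm_num)]
    linarith
  have hTC₂ : C₂ / T < δ₀ := by
    have h1 : C₂ / δ₀ < T := lt_of_le_of_lt ((le_max_right _ _).trans (le_max_right _ _)) hT
    rw [div_lt_iff₀ hδ₀] at h1
    rw [div_lt_iff₀ hT0]
    linarith
  set l : Fin (m + 1) → ℤ := fun j => p j + l₀ j with hl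
  have hlB : ∀ j, |((l j : ℤ) : ℝ) - T * α j| ≤ B := by
    intro j
    have h1 : ((l j : ℤ) : ℝ) - T * α j = -(T * α j - p j) + l₀ j := by
      rw [hl]
      push_cast
      ring
    rw [h1]
    refine (abs_add_le _ _).trans ?_
    rw [abs_neg]
    have h2 := (hp j).le
    have h3 := hBl j
    linarith
  set θ : ℂ := 2 * Real.pi * Complex.I with hθ
  have hθn : ‖θ‖ = 2 * Real.pi := by
    rw [hθ]
    simp [abs_of_pos Real.pi_pos]
  have hθ0 : θ ≠ 0 := by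
    rw [← norm_pos_iff, hθn]
    positivity
  have hTc : (T : ℂ) ≠ 0 := by exact_mod_cast hT0.ne'
  have hden : (θ * T) ^ (F.totalDegree - 1) * eval A R ≠ 0 :=
    mul_ne_zero (pow_ne_zero _ (mul_ne_zero hθ0 hTc)) hR
  set g : ℂ → ℂ := fun t => eval (fun j => θ * (((l j : ℤ) : ℝ) : ℂ) + x t j) F /
    ((θ * T) ^ (F.totalDegree - 1) * eval A R) with hg
  have hga : AnalyticOnNhd ℂ g (Metric.closedBall 0 r) := by
    intro t ht
    refine AnalyticAt.div ?_ analyticAt_const hden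
    exact nb_an F (fun t j => θ * (((l j : ℤ) : ℝ) : ℂ) + x t j) t fun j =>
      analyticAt_const.add ((hcl t ht).1 j)
  -- the constant `η`
  have hη : ‖θ * ∑ j, (c j : ℂ) * ((((l j : ℤ) : ℝ) : ℂ) - T * α j) + X0 - κ‖ ≤ δ / 2 := by
    obtain ⟨s, hs⟩ : ∃ s : ℝ, s = ∑ j, c j * (((l j : ℤ) : ℝ) - T * α j) := ⟨_, rfl⟩
    have hsc : ∑ j, (c j : ℂ) * ((((l j : ℤ) : ℝ) : ℂ) - T * α j) = (s : ℂ) := by
      rw [hs]
      push_cast
      rfl
    rw [hsc]
    have hre : (θ * s + X0 - κ).re = 0 := by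
      have h1 : (θ * s).re = 0 := by rw [hθ]; simp
      rw [Complex.sub_re, Complex.add_re, h1, zero_add, hx0, sub_self]
    have him : (θ * s + X0 - κ).im = 2 * Real.pi * s + (X0 - κ).im := by
      have h1 : (θ * s).im = 2 * Real.pi * s := by rw [hθ]; simp
      rw [add_sub_assoc, Complex.add_im, h1]
    have hs2 : s = ∑ j, c j * l₀ j + ∑ j, c j * (p j - T * α j) := by
      rw [hs, ← Finset.sum_add_distrib]
      refine Finset.sum_congr rfl fun j _ => ?_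
      rw [hl]
      push_cast
      ring
    have hs3 : |∑ j, c j * ((p j : ℝ) - T * α j)| ≤ (∑ j, |c j|) * ε := by
      rw [Finset.sum_mul]
      refine (Finset.abs_sum_le_sum_abs _ _).trans (Finset.sum_le_sum fun j _ => ?_)
      rw [abs_mul, abs_sub_comm]
      exact mul_le_mul_of_nonneg_left (hp j).le (abs_nonneg _)
    have him2 : |(θ * s + X0 - κ).im| ≤ δ / 2 := by
      rw [him, hs2]
      have e : 2 * Real.pi * (∑ j, c j * l₀ j + ∑ j, c j * ((p j : ℝ) - T * α j)) +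
          (X0 - κ).im = 2 * Real.pi * (∑ j, c j * l₀ j - -(X0 - κ).im / (2 * Real.pi)) +
          2 * Real.pi * ∑ j, c j * ((p j : ℝ) - T * α j) := by
        field_simp
        ring
      rw [e]
      refine (abs_add_le _ _).trans ?_
      rw [abs_mul (2 * Real.pi), abs_mul (2 * Real.pi),
        abs_of_pos (by positivity : (0 : ℝ) < 2 * Real.pi)]
      have h1 : 2 * Real.pi * |∑ j, c j * (l₀ j : ℝ) - -(X0 - κ).im / (2 * Real.pi)| ≤
          δ / 4 := by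
        calc _ ≤ 2 * Real.pi * (δ / (8 * Real.pi)) := by
              gcongr
          _ = δ / 4 := by
              field_simp
              ring
      have h2 : 2 * Real.pi * |∑ j, c j * ((p j : ℝ) - T * α j)| ≤ δ / 4 := by
        refine le_trans ?_ hεc
        gcongr
      linarith
    calc ‖θ * s + X0 - κ‖ ≤ |(θ * s + X0 - κ).re| + |(θ * s + X0 - κ).im| :=
          Complex.norm_le_abs_re_add_abs_im _
      _ ≤ δ / 2 := by
          rw [hre, abs_zero, zero_add]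
          exact him2
  have hgf : ∀ t ∈ Metric.closedBall (0 : ℂ) r, ‖g t - f t‖ < δ := by
    intro t ht
    have h1 := hC₁ T (fun j => ((l j : ℤ) : ℝ)) (x t) hT1 hlB
      (fun j => (hB₁ t ht j).trans hBB)
    have e : g t - f t = (g t - (θ * ∑ j, (c j : ℂ) * ((((l j : ℤ) : ℝ) : ℂ) - T * α j) +
        ∑ j, (c j : ℂ) * x t j - κ)) +
        (θ * ∑ j, (c j : ℂ) * ((((l j : ℤ) : ℝ) : ℂ) - T * α j) + X0 - κ) := by
      rw [hf]
      ring
    rw [e]
    calc _ ≤ C₁ / T + δ / 2 := (norm_add_le _ _).trans (add_le_add h1 hη)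
      _ ≤ δ / 4 + δ / 2 := by linarith
      _ < δ := by linarith
  obtain ⟨t, ht, hgt⟩ := hH g hga hgf
  -- the zero
  have hexp : (fun j => Complex.exp (θ * (((l j : ℤ) : ℝ) : ℂ) + x t j)) =
      fun j => Complex.exp (x t j) := by
    funext j
    have h1 : θ * (((l j : ℤ) : ℝ) : ℂ) = (l j : ℂ) * (2 * Real.pi * Complex.I) := by
      rw [hθ]
      push_cast
      ring
    rw [Complex.exp_add, h1, Complex.exp_int_mul_two_pi_mul_I, one_mul]
  refine ⟨fun j => θ * (((l j : ℤ) : ℝ) : ℂ) + x t j, ?_, ?_, ?_⟩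
  · rcases div_eq_zero_iff.1 hgt with h | h
    · exact h
    · exact absurd h hden
  · rw [hexp]
    exact (hcl t ht).2.1
  · rw [hexp]
    have hw : (fun j => Complex.exp (x t j)) ∈ Tz Q := (hcl t ht).2.1
    have h1 := hC₂ T (fun j : Fin m => ((l j.succ : ℤ) : ℝ)) (fun j : Fin m => x t j.succ)
      (fun j => Complex.exp (x t j)) hT1 (fun j => hlB j.succ)
      (fun j => (hB₁ t ht j.succ).trans hBB) (fun j => (hB₂ t ht j).trans hBB) (hD _ hw)
    intro h0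
    rw [h0, zero_div, zero_sub, norm_neg] at h1
    have h2 := (hcl t ht).2.2
    rw [hφ] at h2
    exact absurd (h2.trans h1) (not_le.2 hTC₂)

theorem nearB {m : ℕ} (hm : 1 ≤ m) (Q : Ideal (MvPolynomial (Fin (m + 1)) ℂ))
    (F G R : MvPolynomial (Fin (m + 1)) ℂ)
    (hL : homogeneousComponent F.totalDegree F = G * R) (hd : 0 < F.totalDegree)
    (α : Fin (m + 1) → ℝ) (hα : eval (fun j => (α j : ℂ)) G = 0) (c : Fin (m + 1) → ℝ)
    (hc : ∀ j, eval (fun j => (α j : ℂ)) (pderiv j G) = c j)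
    (hcv : ∀ v : Fin (m + 1) → ℤ, v ≠ 0 → ∑ j, c j * v j ≠ 0)
    (hR : eval (fun j => (α j : ℂ)) R ≠ 0)
    (x : ℂ → Fin (m + 1) → ℂ) (hx : ∀ j, AnalyticAt ℂ (fun t => x t j) 0)
    (hxW : ∀ᶠ t in 𝓝 (0 : ℂ), (fun j => Complex.exp (x t j)) ∈ Tz Q)
    (hx0 : (∑ j, (c j : ℂ) * x 0 j).re =
      (-(eval (fun j => (α j : ℂ)) (homogeneousComponent (F.totalDegree - 1) F)) /
        eval (fun j => (α j : ℂ)) R).re)
    (hx1 : ¬ ∀ᶠ t in 𝓝 (0 : ℂ), ∑ j, (c j : ℂ) * x t j = ∑ j, (c j : ℂ) * x 0 j)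
    (E : MvPolynomial (Fin m) (MvPolynomial (Fin (m + 1)) ℂ)) (D : ℕ)
    (hD : ∀ w ∈ Tz Q, (map (eval w) E).totalDegree ≤ D)
    (hE : eval (fun j : Fin m => (α j.succ : ℂ))
      (homogeneousComponent D (map (eval fun j => Complex.exp (x 0 j)) E)) ≠ 0) :
    ∃ z : Fin (m + 1) → ℂ, eval z F = 0 ∧ (fun j => Complex.exp (z j)) ∈ Tz Q ∧
      eval (fun j => z j.succ) (map (eval fun j => Complex.exp (z j)) E) ≠ 0 := by
  exact nearB' Q F G R hL hd α hα c hc (fun θ ε hε => dens (by omega) c hcv θ ε hε) hR x hx hxW hx0 hx1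
    E D hD hE

end Pool.Agent.EXP
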