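import Pool.Agent.EXP.Defs

/-!
# EXP / Order: the order in `t` of a polynomial over `C[Y]` along the germ `Y(t) = t^v u(t)`

PROOF.  Every `eval (Y t) f` is meromorphic at `0`; `N` = minimum of the orders of the coefficients which
are not locally `0`.
-/

set_option autoImplicit false

namespace Pool.Agent.EXP

open MvPolynomial Filter Topology

private theorem mero_eval {n : ℕ} (v : Fin n → ℤ) (u : Fin n → ℂ → ℂ)
    (hu : ∀ j, AnalyticAt ℂ (u j) 0) (f : MvPolynomial (Fin n) ℂ) :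
    MeromorphicAt (fun t : ℂ => eval (fun j => t ^ v j * u j t) f) 0 := by
  induction f using MvPolynomial.induction_on with
  | C a =>
    simp only [eval_C]
    exact analyticAt_const.meromorphicAt
  | add p q hp hq =>
    simp only [map_add]
    exact hp.fun_add hq
  | mul_X p i hp =>
    simp only [map_mul, eval_X]
    refine hp.fun_mul ?_
    exact ((analyticAt_id.meromorphicAt).fun_zpow (v i)).fun_mul (hu i).meromorphicAt

theorem exists_order {m n : ℕ} (v : Fin n → ℤ) (u : Fin n → ℂ → ℂ)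
    (hu : ∀ j, AnalyticAt ℂ (u j) 0) (hu0 : ∀ j, u j 0 ≠ 0)
    (E : MvPolynomial (Fin m) (MvPolynomial (Fin n) ℂ))
    (hE : ∃ μ, ¬ ∀ᶠ t in 𝓝[≠] (0 : ℂ), eval (fun j => t ^ v j * u j t) (coeff μ E) = 0) :
    ∃ (N : ℤ) (a : (Fin m →₀ ℕ) → ℂ → ℂ) (s : MvPolynomial (Fin m) ℂ), s ≠ 0 ∧
      (∀ μ, AnalyticAt ℂ (a μ) 0) ∧ (∀ μ, a μ 0 = coeff μ s) ∧
      ∀ μ, ∀ᶠ t in 𝓝[≠] (0 : ℂ), eval (fun j => t ^ v j * u j t) (coeff μ E) = t ^ N * a μ t := by
  classical
  set f : (Fin m →₀ ℕ) → ℂ → ℂ := fun μ t => eval (fun j => t ^ v j * u j t) (coeff μ E) with hf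
  let Zr : (Fin m →₀ ℕ) → Prop := fun μ => ∀ᶠ t in 𝓝[≠] (0 : ℂ), f μ t = 0
  have h1 : ∀ μ, ∃ (k : ℤ) (g : ℂ → ℂ), ¬ Zr μ →
      AnalyticAt ℂ g 0 ∧ g 0 ≠ 0 ∧ ∀ᶠ t in 𝓝[≠] (0 : ℂ), f μ t = t ^ k * g t := by
    intro μ
    by_cases hz : Zr μ
    · exact ⟨0, 0, fun h => absurd hz h⟩
    · have hm : MeromorphicAt (f μ) 0 := mero_eval v u hu _
      have h2 : meromorphicOrderAt (f μ) 0 ≠ ⊤ := by
        intro h3
        exact hz (meromorphicOrderAt_eq_top_iff.1 h3)
      obtain ⟨k, hk⟩ := WithTop.ne_top_iff_exists.1 h2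
      obtain ⟨g, hg, hg0, hev⟩ := (meromorphicOrderAt_eq_int_iff hm).1 hk.symm
      refine ⟨k, g, fun _ => ⟨hg, hg0, ?_⟩⟩
      filter_upwards [hev] with t ht
      rw [ht, sub_zero, smul_eq_mul]
  choose k g hk using h1
  have hsupp : ∀ μ, ¬ Zr μ → μ ∈ E.support := by
    intro μ h2
    by_contra h3
    apply h2
    refine Eventually.of_forall fun t => ?_
    simp only [hf]
    rw [notMem_support_iff.1 h3, map_zero]
  obtain ⟨μ₁, hμ₁⟩ := hE
  have hT : (E.support.filter fun μ => ¬ Zr μ).Nonempty :=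
    ⟨μ₁, Finset.mem_filter.2 ⟨hsupp μ₁ hμ₁, hμ₁⟩⟩
  obtain ⟨μ₀, hμ₀, hmin⟩ := Finset.exists_min_image _ k hT
  have hμ₀' := (Finset.mem_filter.1 hμ₀).2
  set N := k μ₀ with hN
  have hle : ∀ μ, ¬ Zr μ → N ≤ k μ := fun μ h => hmin μ (Finset.mem_filter.2 ⟨hsupp μ h, h⟩)
  set a : (Fin m →₀ ℕ) → ℂ → ℂ := fun μ => if Zr μ then fun _ => 0 else
    fun t => t ^ (k μ - N).toNat * g μ t with ha
  have hcoef : ∀ ν, coeff ν (∑ μ ∈ E.support, monomial μ (a μ 0)) = a ν 0 := by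
    intro ν
    rw [coeff_sum]
    simp only [coeff_monomial]
    rw [Finset.sum_ite_eq' E.support ν]
    split_ifs with h
    · rfl
    · have : Zr ν := by
        by_contra h2
        exact h (hsupp ν h2)
      simp only [ha]
      rw [if_pos this]
  refine ⟨N, a, ∑ μ ∈ E.support, monomial μ (a μ 0), ?_, ?_, fun μ => (hcoef μ).symm, ?_⟩
  · intro h0
    have h2 := hcoef μ₀
    rw [h0, coeff_zero] at h2
    simp only [ha] at h2
    rw [if_neg hμ₀'] at h2
    simp only [hN, sub_self, Int.toNat_zero, pow_zero, one_mul] at h2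
    exact (hk μ₀ hμ₀').2.1 h2.symm
  · intro μ
    simp only [ha]
    split_ifs with h
    · exact analyticAt_const
    · exact (analyticAt_id.pow _).mul (hk μ h).1
  · intro μ
    by_cases h : Zr μ
    · have h2 : a μ = fun _ => 0 := by
        simp only [ha]
        rw [if_pos h]
      filter_upwards [h] with t ht
      rw [h2, mul_zero]
      exact ht
    · have h2 : a μ = fun t => t ^ (k μ - N).toNat * g μ t := by
        simp only [ha]
        rw [if_neg h]
      filter_upwards [(hk μ h).2.2, self_mem_nhdsWithin] with t ht ht0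
      have ht0' : t ≠ 0 := ht0
      rw [h2]
      show f μ t = t ^ N * (t ^ (k μ - N).toNat * g μ t)
      rw [ht, ← mul_assoc, ← zpow_natCast, ← zpow_add₀ ht0', Int.toNat_of_nonneg
        (sub_nonneg.2 (hle μ h)), add_sub_cancel]

end Pool.Agent.EXP
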