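import Mathlib

/-!
# EXP / RealG: a form with a generic real zero is real up to a constant

PROOF.  `Ḡ = map (starRingEnd C) G`.  `Ḡ(α) = conj (G(α)) = 0` for real `α`, so `G ∣ Ḡ` (`hgen`), both have the same total
degree, so `Ḡ = C e * G`, `e ≠ 0`.  A nonzero coefficient `g` of `G`: `ḡ = e g`.  `ω = ḡ` (or `1 / g`): all coefficients of
`ω G` are real: if `ḡ' = e g'` also, then `conj (g' / g) = g' / g`.
-/

set_option autoImplicit false

namespace Pool.Agent.EXP

open MvPolynomial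

private theorem conj_eval {n : ℕ} (P : MvPolynomial (Fin n) ℂ) (α : Fin n → ℝ) :
    starRingEnd ℂ (eval (fun j => (α j : ℂ)) P) =
      eval (fun j => (α j : ℂ)) (map (starRingEnd ℂ) P) := by
  rw [eval_map, ← coe_eval₂Hom, ← RingHom.comp_apply]
  congr 1
  apply MvPolynomial.ringHom_ext
  · intro r
    simp
  · intro i
    simp

theorem real_of_generic {n : ℕ} (G : MvPolynomial (Fin n) ℂ) (hG : Irreducible G)
    (α : Fin n → ℝ) (hα : eval (fun j => (α j : ℂ)) G = 0)
    (hgen : eval (fun j => (α j : ℂ)) (map (starRingEnd ℂ) G) = 0 → G ∣ map (starRingEnd ℂ) G) :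
    ∃ ω : ℂ, ω ≠ 0 ∧ ∀ j, ∃ c : ℝ, eval (fun j => (α j : ℂ)) (pderiv j (C ω * G)) = c := by
  have hinj : Function.Injective (starRingEnd ℂ) := (starRingEnd ℂ).injective
  obtain ⟨H, hH⟩ := hgen (by rw [← conj_eval, hα, map_zero])
  have hG0 : G ≠ 0 := hG.ne_zero
  have hm0 : map (starRingEnd ℂ) G ≠ 0 := by
    intro h
    exact hG0 ((MvPolynomial.map_injective _ hinj) (by rw [h, map_zero]))
  have hH0 : H ≠ 0 := by
    rintro rfl
    rw [mul_zero] at hH
    exact hm0 hH
  have hdeg : (map (starRingEnd ℂ) G).totalDegree = G.totalDegree := by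
    unfold MvPolynomial.totalDegree
    rw [MvPolynomial.support_map_of_injective _ hinj]
  have hH1 : H.totalDegree = 0 := by
    rw [hH, MvPolynomial.totalDegree_mul_of_isDomain hG0 hH0] at hdeg
    omega
  obtain ⟨e, he⟩ : ∃ e : ℂ, H = C e := ⟨_, MvPolynomial.totalDegree_eq_zero_iff_eq_C.1 hH1⟩
  have hco : ∀ m, starRingEnd ℂ (coeff m G) = e * coeff m G := by
    intro m
    have h := congrArg (coeff m) hH
    rw [coeff_map, he, mul_comm, coeff_C_mul] at h
    exact h
  obtain ⟨m, hm⟩ := MvPolynomial.ne_zero_iff.1 hG0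
  refine ⟨starRingEnd ℂ (coeff m G), fun h => hm (hinj (by rw [h, map_zero])), fun j => ?_⟩
  set ω : ℂ := starRingEnd ℂ (coeff m G) with hω
  have hfix : map (starRingEnd ℂ) (C ω * G) = C ω * G := by
    ext m'
    rw [coeff_map, coeff_C_mul, map_mul, hco m', hω, Complex.conj_conj, hco m]
    ring
  have h := conj_eval (pderiv j (C ω * G)) α
  rw [← pderiv_map, hfix] at h
  obtain ⟨r, hr⟩ := Complex.conj_eq_iff_real.1 h
  exact ⟨r, hr⟩

end Pool.Agent.EXP
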