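import Mathlib

/-!
# EXP / Recen: moving the center inside the level curve

PROOF.  `f(t) = Σ c_j x_j(t) - Σ c_j x_j(0)` is analytic, `f 0 = 0`, not locally `0`: it is open at `0`
(`AnalyticAt.eventually_constant_or_nhds_le_map_nhds`), so there are points `t ≠ 0` arbitrarily near `0` with
`f(t) = i s`, `s > 0` small: the set `{t : Re f(t) = 0}` accumulates at `0`; the zeros of `g` are isolated (`hg`), and `f` is
not locally constant at any point near `0` (otherwise it would be so at `0`: identity theorem on a small ball).  So there is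
`t0` near `0`, in the ball where everything is analytic and `x t ∈ A`, with `Re f(t0) = 0`, `g(t0) ≠ 0`;
`x'(t) = x(t + t0)`.
-/

set_option autoImplicit false

namespace Pool.Agent.EXP

open Filter Topology

theorem recenter {n : ℕ} (c : Fin n → ℝ) (x : ℂ → Fin n → ℂ)
    (hx : ∀ j, AnalyticAt ℂ (fun t => x t j) 0) (A : Set (Fin n → ℂ))
    (hxA : ∀ᶠ t in 𝓝 (0 : ℂ), x t ∈ A)
    (hx1 : ¬ ∀ᶠ t in 𝓝 (0 : ℂ), ∑ j, (c j : ℂ) * x t j = ∑ j, (c j : ℂ) * x 0 j)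
    (g : (Fin n → ℂ) → ℂ) (hg : AnalyticAt ℂ (fun t => g (x t)) 0)
    (hg0 : ¬ ∀ᶠ t in 𝓝 (0 : ℂ), g (x t) = 0) :
    ∃ x' : ℂ → Fin n → ℂ, (∀ j, AnalyticAt ℂ (fun t => x' t j) 0) ∧
      (∀ᶠ t in 𝓝 (0 : ℂ), x' t ∈ A) ∧
      (∑ j, (c j : ℂ) * x' 0 j).re = (∑ j, (c j : ℂ) * x 0 j).re ∧
      (¬ ∀ᶠ t in 𝓝 (0 : ℂ), ∑ j, (c j : ℂ) * x' t j = ∑ j, (c j : ℂ) * x' 0 j) ∧
      g (x' 0) ≠ 0 := by
  set F : ℂ → ℂ := fun t => ∑ j, (c j : ℂ) * x t j with hF
  have hFa : AnalyticAt ℂ F 0 := by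
    have h := Finset.analyticAt_fun_sum (𝕜 := ℂ) (f := fun (j : Fin n) (t : ℂ) => (c j : ℂ) * x t j)
      (c := (0 : ℂ)) Finset.univ fun j _ => analyticAt_const.mul (hx j)
    exact h
  -- the derivative is not locally zero
  have hd : ¬ ∀ᶠ t in 𝓝 (0 : ℂ), deriv F t = 0 := by
    intro h
    apply hx1
    obtain ⟨r, hr, hb⟩ := Metric.eventually_nhds_iff_ball.1 (h.and hFa.eventually_analyticAt)
    filter_upwards [Metric.ball_mem_nhds (0 : ℂ) hr] with t ht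
    exact Metric.isOpen_ball.is_const_of_deriv_eq_zero (convex_ball (0 : ℂ) r).isPreconnected
      (fun y hy => (hb y hy).2.differentiableAt.differentiableWithinAt)
      (fun y hy => (hb y hy).1) ht (Metric.mem_ball_self hr)
  have hd2 : ∀ᶠ t in 𝓝[≠] (0 : ℂ), deriv F t ≠ 0 :=
    hFa.deriv.eventually_eq_zero_or_eventually_ne_zero.resolve_left hd
  have hg2 : ∀ᶠ t in 𝓝[≠] (0 : ℂ), g (x t) ≠ 0 :=
    hg.eventually_eq_zero_or_eventually_ne_zero.resolve_left hg0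
  have hx2 : ∀ᶠ t in 𝓝 (0 : ℂ), ∀ j, AnalyticAt ℂ (fun t => x t j) t :=
    Filter.eventually_all.2 fun j => (hx j).eventually_analyticAt
  have hA2 : ∀ᶠ t in 𝓝 (0 : ℂ), ∀ᶠ u in 𝓝 t, x u ∈ A := eventually_eventually_nhds.2 hxA
  have hall : ∀ᶠ t in 𝓝 (0 : ℂ), t ≠ 0 → (deriv F t ≠ 0 ∧ g (x t) ≠ 0) ∧
      (∀ j, AnalyticAt ℂ (fun t => x t j) t) ∧ ∀ᶠ u in 𝓝 t, x u ∈ A := by
    filter_upwards [eventually_nhdsWithin_iff.1 (hd2.and hg2), hx2, hA2] with t h1 h2 h3 h4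
    exact ⟨h1 h4, h2, h3⟩
  -- open mapping
  have hopen : 𝓝 (F 0) ≤ map F (𝓝 0) := by
    refine hFa.eventually_constant_or_nhds_le_map_nhds.resolve_left fun h => hx1 ?_
    filter_upwards [h] with t ht
    exact ht
  have himg : F '' {t | t ≠ 0 → (deriv F t ≠ 0 ∧ g (x t) ≠ 0) ∧
      (∀ j, AnalyticAt ℂ (fun t => x t j) t) ∧ ∀ᶠ u in 𝓝 t, x u ∈ A} ∈ 𝓝 (F 0) :=
    hopen (image_mem_map hall)
  have hlim : Tendsto (fun s : ℝ => F 0 + (s : ℂ) * Complex.I) (𝓝[>] 0) (𝓝 (F 0)) := by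
    have h : Continuous fun s : ℝ => F 0 + (s : ℂ) * Complex.I := by fun_prop
    have h2 := h.tendsto 0
    rw [Complex.ofReal_zero, zero_mul, add_zero] at h2
    exact h2.mono_left nhdsWithin_le_nhds
  have hev : ∀ᶠ s : ℝ in 𝓝[>] 0, F 0 + (s : ℂ) * Complex.I ∈ F '' {t | t ≠ 0 →
      (deriv F t ≠ 0 ∧ g (x t) ≠ 0) ∧ (∀ j, AnalyticAt ℂ (fun t => x t j) t) ∧
        ∀ᶠ u in 𝓝 t, x u ∈ A} := hlim himg
  obtain ⟨s, hs, hs0⟩ := (hev.and self_mem_nhdsWithin).exists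
  obtain ⟨t0, ht0, hFt0⟩ := hs
  have hs0' : (0 : ℝ) < s := hs0
  have hne : t0 ≠ 0 := by
    rintro rfl
    have h1 : (s : ℂ) * Complex.I = 0 := by
      have : F 0 = F 0 + (s : ℂ) * Complex.I := hFt0
      linear_combination -this
    rcases mul_eq_zero.1 h1 with h | h
    · exact hs0'.ne' (by exact_mod_cast h)
    · exact Complex.I_ne_zero h
  obtain ⟨⟨hdt, hgt⟩, hxt, hAt⟩ := ht0 hne
  have hshift : Tendsto (fun t : ℂ => t + t0) (𝓝 0) (𝓝 t0) := by
    have h : Continuous fun t : ℂ => t + t0 := by fun_prop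
    have h2 := h.tendsto 0
    rw [zero_add] at h2
    exact h2
  refine ⟨fun t => x (t + t0), fun j => ?_, hshift.eventually hAt, ?_, ?_, ?_⟩
  · have h1 : AnalyticAt ℂ (fun t : ℂ => t + t0) 0 := analyticAt_id.add analyticAt_const
    exact AnalyticAt.comp_of_eq (f := fun t : ℂ => t + t0) (hxt j) h1 (zero_add t0)
  · show (F (0 + t0)).re = (F 0).re
    rw [zero_add, hFt0, Complex.add_re, Complex.mul_re, Complex.I_re, Complex.I_im,
      Complex.ofReal_re, Complex.ofReal_im]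
    ring
  · intro h
    apply hdt
    have h1 : ∀ᶠ u in 𝓝 t0, F u = F t0 := by
      have h2 : Tendsto (fun u : ℂ => u - t0) (𝓝 t0) (𝓝 0) := by
        have h : Continuous fun u : ℂ => u - t0 := by fun_prop
        have h2 := h.tendsto t0
        rw [sub_self] at h2
        exact h2
      filter_upwards [h2.eventually h] with u hu
      have h3 : F (u - t0 + t0) = F (0 + t0) := hu
      rw [sub_add_cancel, zero_add] at h3
      exact h3
    have h4 : F =ᶠ[𝓝 t0] fun _ => F t0 := h1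
    rw [h4.deriv_eq, deriv_const]
  · show g (x (0 + t0)) ≠ 0
    rw [zero_add]
    exact hgt

end Pool.Agent.EXP
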