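import Pool.Agent.EXP.MainA
import Pool.Agent.EXP.Gen
import Pool.Agent.EXP.Order
import Pool.Agent.EXP.NearA
import Pool.Agent.EXP.NearB
import Pool.Agent.EXP.Recen
import Pool.Agent.EXP.RealG
import Pool.Agent.EXP.GermDense
import Pool.Agent.EXP.Amoeba

/-!
# EXP / Main: exponential points are dense in `{F = 0} x W`, `W` a curve
-/

set_option autoImplicit false

namespace Pool.Agent.EXP

open MvPolynomial Filter Topology

theorem puncture_dense {n : ℕ} (Q : Ideal (MvPolynomial (Fin n) ℂ)) (hQ : Q.IsPrime)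
    (hdim : Algebra.trdeg ℂ (MvPolynomial (Fin n) ℂ ⧸ Q) = 1) (v : Fin n → ℤ) (hv : v ≠ 0)
    (u : Fin n → ℂ → ℂ) (hu : ∀ j, AnalyticAt ℂ (u j) 0) (hu0 : ∀ j, u j 0 ≠ 0)
    (hW : ∀ᶠ t in 𝓝[≠] (0 : ℂ), (fun j => t ^ v j * u j t) ∈ Tz Q)
    (g : MvPolynomial (Fin n) ℂ) (hg : g ∉ Q) :
    ¬ ∀ᶠ t in 𝓝[≠] (0 : ℂ), eval (fun j => t ^ v j * u j t) g = 0 := by
  intro h0
  obtain ⟨i, hi⟩ : ∃ i, v i ≠ 0 := by
    by_contra hcon
    push Not at hcon
    exact hv (funext hcon)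
  have h1 := germ_dense Q hQ hdim (fun t j => t ^ v j * u j t)
    (fun j => ((MeromorphicAt.id 0).zpow (v j)).mul (hu j).meromorphicAt)
    (hW.mono fun t ht => ht.1) i (by
      intro c hc
      have hc0 : c ≠ 0 := by
        obtain ⟨t, h2, h3⟩ := (hc.and hW).exists
        rw [← h2]
        exact h3.2 i
      have hlim : Tendsto (u i) (𝓝[≠] (0 : ℂ)) (𝓝 (u i 0)) :=
        (hu i).continuousAt.tendsto.mono_left nhdsWithin_le_nhds
      have hpow : ∀ k : ℕ, k ≠ 0 → Tendsto (fun t : ℂ => t ^ k) (𝓝[≠] (0 : ℂ)) (𝓝 0) := by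
        intro k hk
        have h2 : Tendsto (fun t : ℂ => t ^ k) (𝓝 (0 : ℂ)) (𝓝 (0 ^ k)) :=
          (continuous_pow k).tendsto 0
        rw [zero_pow hk] at h2
        exact h2.mono_left nhdsWithin_le_nhds
      rcases lt_or_gt_of_ne hi with h | h
      · obtain ⟨k, hk⟩ := Int.eq_ofNat_of_zero_le (a := -v i) (by omega)
        have hk' : v i = -(k : ℤ) := by omega
        have hk0 : k ≠ 0 := by omega
        have h2 : Tendsto (u i) (𝓝[≠] (0 : ℂ)) (𝓝 (c * 0)) := by
          refine Tendsto.congr' ?_ ((hpow k hk0).const_mul c)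
          filter_upwards [hc, self_mem_nhdsWithin] with t ht ht0
          have ht0' : t ≠ 0 := ht0
          rw [← ht, hk', zpow_neg, zpow_natCast]
          field_simp
        have h3 := tendsto_nhds_unique hlim h2
        rw [mul_zero] at h3
        exact hu0 i h3
      · obtain ⟨k, hk⟩ := Int.eq_ofNat_of_zero_le (a := v i) (by omega)
        have hk0 : k ≠ 0 := by omega
        have h2 : Tendsto (fun _ : ℂ => c) (𝓝[≠] (0 : ℂ)) (𝓝 (0 * u i 0)) := by
          refine Tendsto.congr' ?_ ((hpow k hk0).mul hlim)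
          filter_upwards [hc] with t ht
          rw [← ht, hk, zpow_natCast]
        have h3 := tendsto_nhds_unique tendsto_const_nhds h2
        rw [zero_mul] at h3
        exact hc0 h3) g hg
  obtain ⟨t, h2, h3⟩ := (h0.and h1).exists
  exact h3 h2

theorem exp_dense {n : ℕ} (Q : Ideal (MvPolynomial (Fin n) ℂ)) (hQ : Q.IsPrime)
    (hdim : Algebra.trdeg ℂ (MvPolynomial (Fin n) ℂ ⧸ Q) = 1) (c : Fin n → ℝ)
    (x : ℂ → Fin n → ℂ) (hx : ∀ j, AnalyticAt ℂ (fun t => x t j) 0)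
    (hxW : ∀ᶠ t in 𝓝 (0 : ℂ), (fun j => Complex.exp (x t j)) ∈ Tz Q)
    (hx1 : ¬ ∀ᶠ t in 𝓝 (0 : ℂ), ∑ j, (c j : ℂ) * x t j = ∑ j, (c j : ℂ) * x 0 j)
    (g : MvPolynomial (Fin n) ℂ) (hg : g ∉ Q) :
    ¬ ∀ᶠ t in 𝓝 (0 : ℂ), eval (fun j => Complex.exp (x t j)) g = 0 := by
  intro h0
  obtain ⟨i, hi⟩ : ∃ i, ¬ ∀ᶠ t in 𝓝 (0 : ℂ), x t i = x 0 i := by
    by_contra hcon
    push Not at hcon
    apply hx1
    filter_upwards [eventually_all.2 hcon] with t ht
    simp only [ht]
  have h1 := germ_dense Q hQ hdim (fun t j => Complex.exp (x t j))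
    (fun j => ((hx j).cexp).meromorphicAt)
    ((hxW.filter_mono nhdsWithin_le_nhds).mono fun t ht => ht.1) i (by
      intro c' hc'
      apply hi
      have hlim : Tendsto (fun t => Complex.exp (x t i)) (𝓝[≠] (0 : ℂ)) (𝓝 (Complex.exp (x 0 i))) :=
        ((hx i).cexp).continuousAt.tendsto.mono_left nhdsWithin_le_nhds
      have h2 : c' = Complex.exp (x 0 i) :=
        tendsto_nhds_unique (tendsto_const_nhds.congr' (hc'.mono fun t ht => ht.symm)) hlim
      subst h2
      have h3 : ∀ᶠ t in 𝓝 (0 : ℂ), Complex.exp (x t i) = Complex.exp (x 0 i) := by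
        have h4 := eventually_nhdsWithin_iff.1 hc'
        filter_upwards [h4] with t ht
        by_cases h5 : t = 0
        · rw [h5]
        · exact ht h5
      have h6 : ∀ᶠ t in 𝓝 (0 : ℂ), ‖x t i - x 0 i‖ < 1 := by
        have h7 : Tendsto (fun t => ‖x t i - x 0 i‖) (𝓝 0) (𝓝 ‖x 0 i - x 0 i‖) :=
          ((hx i).continuousAt.tendsto.sub tendsto_const_nhds).norm
        rw [sub_self, norm_zero] at h7
        exact h7.eventually (gt_mem_nhds one_pos)
      filter_upwards [h3, h6] with t h8 h9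
      have h10 : Complex.exp (x t i - x 0 i) = 1 := by
        rw [Complex.exp_sub, h8, div_self (Complex.exp_ne_zero _)]
      obtain ⟨k, hk⟩ := Complex.exp_eq_one_iff.1 h10
      have hk0 : k = 0 := by
        by_contra hk0
        rw [hk] at h9
        have h11 : ‖(k : ℂ) * (2 * Real.pi * Complex.I)‖ = |(k : ℝ)| * (2 * Real.pi) := by
          rw [norm_mul, Complex.norm_intCast, norm_mul, Complex.norm_I, mul_one, norm_mul,
            Complex.norm_real, Real.norm_eq_abs, abs_of_pos Real.pi_pos]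
          norm_num
        rw [h11] at h9
        have h12 : (1 : ℝ) ≤ |(k : ℝ)| := by
          rw [← Int.cast_abs]
          exact_mod_cast Int.one_le_abs hk0
        nlinarith [Real.pi_gt_three]
      rw [hk0] at hk
      simp only [Int.cast_zero, zero_mul] at hk
      exact sub_eq_zero.1 hk) g hg
  obtain ⟨t, h2, h3⟩ := ((h0.filter_mono nhdsWithin_le_nhds).and h1).exists
  exact h3 h2

theorem exists_ne_line {n : ℕ} (y : Fin n → ℂ) (v : Fin n → ℤ) (P₁ P₂ : MvPolynomial (Fin n) ℂ)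
    (h₁ : ∃ σ : ℂ, eval (fun j => y j + σ * v j) P₁ ≠ 0)
    (h₂ : ∃ σ : ℂ, eval (fun j => y j + σ * v j) P₂ ≠ 0) :
    ∃ σ : ℂ, eval (fun j => y j + σ * v j) (P₁ * P₂) ≠ 0 := by
  have hev : ∀ (P : MvPolynomial (Fin n) ℂ) (σ : ℂ),
      Polynomial.eval σ (aeval (fun j => Polynomial.C (y j) + Polynomial.X *
        Polynomial.C (v j : ℂ)) P) = eval (fun j => y j + σ * v j) P := by
    intro P σ
    induction P using MvPolynomial.induction_on with
    | C a => simp
    | add p q hp hq => rw [map_add, Polynomial.eval_add, hp, hq, map_add]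
    | mul_X p i hp =>
      rw [map_mul, Polynomial.eval_mul, hp, map_mul, aeval_X, eval_X, Polynomial.eval_add,
        Polynomial.eval_mul, Polynomial.eval_C, Polynomial.eval_C, Polynomial.eval_X]
  obtain ⟨σ₁, h₁⟩ := h₁
  obtain ⟨σ₂, h₂⟩ := h₂
  by_contra hcon
  push Not at hcon
  have h3 : (aeval (fun j => Polynomial.C (y j) + Polynomial.X *
        Polynomial.C (v j : ℂ)) P₁ : Polynomial ℂ) * (aeval (fun j => Polynomial.C (y j) + Polynomial.X *
        Polynomial.C (v j : ℂ)) P₂) = 0 := by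
    apply Polynomial.funext
    intro σ
    rw [← map_mul, hev, hcon, Polynomial.eval_zero]
  rcases mul_eq_zero.1 h3 with h4 | h4
  · apply h₁
    rw [← hev, h4, Polynomial.eval_zero]
  · apply h₂
    rw [← hev, h4, Polynomial.eval_zero]

theorem degreeOf_pos_of_top {m : ℕ} (F G R : MvPolynomial (Fin (m + 1)) ℂ) (hF : F ≠ 0)
    (hG0 : 0 < degreeOf 0 G) (hL : homogeneousComponent F.totalDegree F = G * R) :
    0 < degreeOf 0 F := by
  have hL0 := top_ne_zero F hF
  rw [hL] at hL0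
  have h1 : degreeOf 0 (G * R) = degreeOf 0 G + degreeOf 0 R :=
    degreeOf_mul_eq (left_ne_zero_of_mul hL0) (right_ne_zero_of_mul hL0)
  have h2 : degreeOf 0 (homogeneousComponent F.totalDegree F) ≤ degreeOf 0 F := by
    rw [degreeOf_le_iff]
    intro μ hμ
    rw [mem_support_iff, coeff_homogeneousComponent] at hμ
    split_ifs at hμ with h3
    · exact monomial_le_degreeOf 0 (mem_support_iff.2 hμ)
    · exact absurd rfl hμ
  rw [hL] at h2
  omega

theorem exists_max_degree {m n : ℕ} (A : Set (Fin n → ℂ))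
    (E : MvPolynomial (Fin m) (MvPolynomial (Fin n) ℂ)) (w₁ : Fin n → ℂ) (hw₁ : w₁ ∈ A)
    (hE₁ : map (eval w₁) E ≠ 0) :
    ∃ (D : ℕ) (w₂ : Fin n → ℂ), w₂ ∈ A ∧ (∀ w ∈ A, (map (eval w) E).totalDegree ≤ D) ∧
      homogeneousComponent D (map (eval w₂) E) ≠ 0 := by
  have hle : ∀ w : Fin n → ℂ, (map (eval w) E).totalDegree ≤ E.totalDegree := by
    intro w
    refine Finset.sup_mono ?_
    intro μ hμ
    rw [mem_support_iff, coeff_map] at hμ
    rw [mem_support_iff]
    intro h0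
    rw [h0, map_zero] at hμ
    exact hμ rfl
  obtain ⟨D, ⟨w₂, hw₂, h1, h2⟩, hmax⟩ : ∃ D : ℕ, (∃ w ∈ A, map (eval w) E ≠ 0 ∧
      (map (eval w) E).totalDegree = D) ∧ ∀ d, (∃ w ∈ A, map (eval w) E ≠ 0 ∧
      (map (eval w) E).totalDegree = d) → d ≤ D := by
    have key : ∀ P : ℕ → Prop, (∃ d, P d) → (∃ B, ∀ d, P d → d ≤ B) →
        ∃ D, P D ∧ ∀ d, P d → d ≤ D := by
      rintro P ⟨d, hd⟩ ⟨B, hB⟩
      exact ⟨sSup {d | P d}, Nat.sSup_mem ⟨d, hd⟩ ⟨B, hB⟩, fun e he => le_csSup ⟨B, hB⟩ he⟩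
    refine key (fun d => ∃ w ∈ A, map (eval w) E ≠ 0 ∧ (map (eval w) E).totalDegree = d)
      ⟨_, w₁, hw₁, hE₁, rfl⟩ ⟨E.totalDegree, ?_⟩
    rintro d ⟨w, -, -, rfl⟩
    exact hle w
  refine ⟨D, w₂, hw₂, fun w hw => ?_, ?_⟩
  · by_cases h3 : map (eval w) E = 0
    · rw [h3, totalDegree_zero]
      exact Nat.zero_le _
    · exact hmax _ ⟨w, hw, h3, rfl⟩
  · rw [← h2]
    exact top_ne_zero _ h1

/-- THEOREM H. -/
theorem main {m : ℕ} (hm : 1 ≤ m) (F G R : MvPolynomial (Fin (m + 1)) ℂ) (hF : Irreducible F)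
    (hG : Irreducible G) (hL : homogeneousComponent F.totalDegree F = G * R) (hGR : ¬ G ∣ R)
    (hper : ∀ v : Fin (m + 1) → ℤ, v ≠ 0 → ∃ (x : Fin (m + 1) → ℂ) (t : ℂ),
      eval (fun j => x j + t * v j) G ≠ eval x G)
    (Q : Ideal (MvPolynomial (Fin (m + 1)) ℂ)) (hQ : Q.IsPrime)
    (hY : ∀ j, (X j : MvPolynomial (Fin (m + 1)) ℂ) ∉ Q)
    (hdim : Algebra.trdeg ℂ (MvPolynomial (Fin (m + 1)) ℂ ⧸ Q) = 1)
    (h : MvPolynomial (Fin (m + 1) ⊕ Fin (m + 1)) ℂ)
    (hh : ∃ z w : Fin (m + 1) → ℂ, eval z F = 0 ∧ w ∈ Tz Q ∧ eval (Sum.elim z w) h ≠ 0) :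
    ∃ z : Fin (m + 1) → ℂ, eval z F = 0 ∧ (fun j => Complex.exp (z j)) ∈ Tz Q ∧
      eval (Sum.elim z fun j => Complex.exp (z j)) h ≠ 0 := by
  classical
  obtain ⟨z₁, w₁, hz₁, hw₁, hh₁⟩ := hh
  have hG0 := degreeOf_pos G hper
  have hF0 := degreeOf_pos_of_top F G R hF.ne_zero hG0 hL
  obtain ⟨E, hE₁, hE⟩ := elim F hF hF0 h w₁ (by
    rintro ⟨q, hq⟩
    apply hh₁
    have h1 : eval z₁ (aeval (Sum.elim X fun j => C (w₁ j)) h) = eval (Sum.elim z₁ w₁) h := by
      have h2 : ∀ P : MvPolynomial (Fin (m + 1) ⊕ Fin (m + 1)) ℂ,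
          eval z₁ (aeval (Sum.elim X fun j => C (w₁ j)) P) = eval (Sum.elim z₁ w₁) P := by
        intro P
        induction P using MvPolynomial.induction_on with
        | C a => simp
        | add p q hp hq => rw [map_add, map_add, hp, hq, map_add]
        | mul_X p i hp =>
          rw [map_mul, map_mul, hp, map_mul, aeval_X, eval_X]
          rcases i with i | i <;> simp
      exact h2 h
    rw [← h1, hq, map_mul, hz₁, zero_mul])
  have hfin : ∀ z : Fin (m + 1) → ℂ, eval z F = 0 → (fun j => Complex.exp (z j)) ∈ Tz Q →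
      eval (fun j => z j.succ) (map (eval fun j => Complex.exp (z j)) E) ≠ 0 →
      ∃ z : Fin (m + 1) → ℂ, eval z F = 0 ∧ (fun j => Complex.exp (z j)) ∈ Tz Q ∧
      eval (Sum.elim z fun j => Complex.exp (z j)) h ≠ 0 :=
    fun z h1 h2 h3 => ⟨z, h1, h2, fun h4 => h3 (hE z _ h1 h4)⟩
  obtain ⟨v, ⟨u, hu, hu0, hW⟩, hv0⟩ := exists_punct Q hQ hY hdim
  obtain ⟨μ₁, hμ₁⟩ : ∃ μ, eval w₁ (coeff μ E) ≠ 0 := by
    by_contra hcon
    push Not at hcon
    apply hE₁
    ext μ
    rw [coeff_map, hcon, coeff_zero]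
  obtain ⟨N, a, s, hs0, ha, has, haE⟩ := exists_order v u hu hu0 E
    ⟨μ₁, puncture_dense Q hQ hdim v hv0 u hu hu0 hW _ (fun hmem => hμ₁ (hw₁.1 _ hmem))⟩
  obtain ⟨D, w₂, hw₂, hD, hD₂⟩ := exists_max_degree (Tz Q) E w₁ hw₁ hE₁
  set 𝒮 : Set (MvPolynomial (Fin (m + 1)) ℂ) := {S | ¬ G ∣ S ∧ (S = R ∨
    S = map (starRingEnd ℂ) G ∨ S = rename Fin.succ (homogeneousComponent s.totalDegree s) ∨
    S = rename Fin.succ (homogeneousComponent D (map (eval w₂) E)) ∨
    ∃ w : Fin (m + 1) → ℤ, S = dirD w G)} with h𝒮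
  have hcount : 𝒮.Countable := by
    refine Set.Countable.mono (s₂ := ({R, map (starRingEnd ℂ) G,
      rename Fin.succ (homogeneousComponent s.totalDegree s),
      rename Fin.succ (homogeneousComponent D (map (eval w₂) E))} :
        Set (MvPolynomial (Fin (m + 1)) ℂ)) ∪ Set.range fun w : Fin (m + 1) → ℤ => dirD w G) ?_
      ((Set.toFinite _).countable.union (Set.countable_range _))
    rintro S ⟨-, h1 | h1 | h1 | h1 | ⟨w, h1⟩⟩
    · exact Or.inl (by simp [h1])
    · exact Or.inl (by simp [h1])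
    · exact Or.inl (by simp [h1])
    · exact Or.inl (by simp [h1])
    · exact Or.inr ⟨w, h1.symm⟩
  haveI : Countable 𝒮 := hcount.to_subtype
  obtain ⟨y, ρ, hGρ, hσ, hS⟩ := gen G hG v (hper v hv0) (fun i : 𝒮 => i.1) (fun i => i.2.1)
  have hS' : ∀ S, ¬ G ∣ S → (S = R ∨
      S = map (starRingEnd ℂ) G ∨ S = rename Fin.succ (homogeneousComponent s.totalDegree s) ∨
      S = rename Fin.succ (homogeneousComponent D (map (eval w₂) E)) ∨
      ∃ w : Fin (m + 1) → ℤ, S = dirD w G) → eval (fun j => (y j : ℂ) + ρ * v j) S ≠ 0 :=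
    fun S h1 h2 => hS ⟨S, h1, h2⟩
  have hRρ := hS' R hGR (Or.inl rfl)
  have hsρ := hS' _ (not_dvd_rename G hG0 _ (top_ne_zero s hs0)) (Or.inr (Or.inr (Or.inl rfl)))
  have hDρ := hS' _ (not_dvd_rename G hG0 _ hD₂) (Or.inr (Or.inr (Or.inr (Or.inl rfl))))
  rw [eval_rename] at hsρ hDρ
  by_cases hρ : ρ.im = 0
  · -- the real case
    set α : Fin (m + 1) → ℝ := fun j => y j + ρ.re * v j with hα
    have hρ' : (ρ.re : ℂ) = ρ := Complex.ext (by simp) (by simp [hρ])
    have hα' : (fun j => (α j : ℂ)) = fun j => (y j : ℂ) + ρ * v j := by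
      funext j
      rw [hα]
      push_cast
      rw [hρ']
    rw [← hα'] at hGρ hRρ hsρ hDρ
    obtain ⟨ω, hω, hωc⟩ := real_of_generic G hG α hGρ (by
      intro h0
      by_contra h1
      have h2 := hS' _ h1 (Or.inr (Or.inl rfl))
      rw [← hα'] at h2
      exact h2 h0)
    choose c hc using hωc
    have hcv : ∀ w : Fin (m + 1) → ℤ, w ≠ 0 → ∑ j, c j * w j ≠ 0 := by
      intro w hw h0
      have h1 := hS' (dirD w G) (not_dvd_dirD w G (hper w hw))
        (Or.inr (Or.inr (Or.inr (Or.inr ⟨w, rfl⟩))))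
      rw [← hα'] at h1
      apply h1
      have h2 : ω * eval (fun j => (α j : ℂ)) (dirD w G) = ((∑ j, c j * w j : ℝ) : ℂ) := by
        unfold dirD
        push_cast
        rw [map_sum, Finset.mul_sum]
        refine Finset.sum_congr rfl fun j _ => ?_
        rw [← hc j, pderiv_C_mul, map_mul, map_mul, eval_C, eval_C]
        ring
      rw [h0, Complex.ofReal_zero] at h2
      exact (mul_eq_zero.1 h2).resolve_left hω
    obtain ⟨x, hx, hxW, hx0, hx1⟩ := amoeba Q hQ hY hdim c v ⟨u, hu, hu0, hW⟩ (hcv v hv0)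
      (-(eval (fun j => (α j : ℂ)) (homogeneousComponent (F.totalDegree - 1) F)) /
        eval (fun j => (α j : ℂ)) (C ω⁻¹ * R)).re
    have hgQ : eval (fun j : Fin m => C (α j.succ : ℂ)) (homogeneousComponent D E) ∉ Q := by
      intro hmem
      apply hDρ
      have h1 := hw₂.1 _ hmem
      rw [← eval_top] at h1
      exact h1
    obtain ⟨x', hx', hxA', hx0', hx1', hg'⟩ := recenter c x hx
      {X | (fun j => Complex.exp (X j)) ∈ Tz Q} hxW hx1
      (fun X => eval (fun j : Fin m => (α j.succ : ℂ))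
        (homogeneousComponent D (map (eval fun j => Complex.exp (X j)) E)))
      (by
        simp only [eval_top]
        have h1 : ∀ P : MvPolynomial (Fin (m + 1)) ℂ,
            AnalyticAt ℂ (fun t => eval (fun j => Complex.exp (x t j)) P) 0 := by
          intro P
          induction P using MvPolynomial.induction_on with
          | C a => simpa using analyticAt_const
          | add p q hp hq =>
            simp only [map_add]
            exact hp.add hq
          | mul_X p i hp =>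
            simp only [map_mul, eval_X]
            exact hp.mul (hx i).cexp
        exact h1 _)
      (by
        simp only [eval_top]
        exact exp_dense Q hQ hdim c x hx hxW hx1 _ hgQ)
    obtain ⟨z, h1, h2, h3⟩ := nearB hm Q F (C ω * G) (C ω⁻¹ * R) (by
        rw [hL]
        have h4 : (C ω * C ω⁻¹ : MvPolynomial (Fin (m + 1)) ℂ) = 1 := by
          rw [← C_mul, mul_inv_cancel₀ hω, C_1]
        calc G * R = (C ω * C ω⁻¹) * (G * R) := by rw [h4, one_mul]
          _ = _ := by ring)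
      (lt_of_lt_of_le hF0 (degreeOf_le_totalDegree F 0)) α
      (by rw [map_mul, hGρ, mul_zero]) c hc hcv
      (by
        rw [map_mul, eval_C]
        exact mul_ne_zero (inv_ne_zero hω) hRρ)
      x' hx' hxA' (by rw [hx0', hx0]) hx1' E D hD hg'
    exact hfin z h1 h2 h3
  · obtain ⟨z, h1, h2, h3⟩ := nearA Q F v u hu hu0 hW y ρ hρ
      (by rw [hL, map_mul, hGρ, zero_mul])
      (by
        rw [hL]
        exact exists_ne_line (fun j => (y j : ℂ)) v G R hσ ⟨ρ, hRρ⟩)
      E N a s ha has haE hsρ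
    exact hfin z h1 h2 h3

end Pool.Agent.EXP
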