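import Pool.Agent.EXP.Good

/-!
# EXP / Level: points of every norm on the level set of `Re ∑ lam_j eta_j`

PROOF.  `exists_punct` gives `v ≠ 0`, so `∑ lam j * v j ≠ 0`. `amoeba`: the disc `x(t)`, `b_j = exp (x 0 j)`,
`g(t) = ∑ lam_j (x t j - x 0 j)` not constant near `0`. Fix `s > 0` and let
`A = {η | ‖η‖ ≤ s, b e^η ∈ Tz Q}`: closed (`Tz Q` is closed in the torus, `b e^η` has no zero coordinate), so
compact. `H(η) = ∑ lam_j η_j`. The bad points `B` of `good_pts` are finite, so `{η ∈ A | b e^η ∈ B}` is finite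
(`exp` has finite fibres on a ball), `S` = the finite set of the real parts of its `H`-values. Claim: for all real
`κ' ∉ S` close to `0` there is `η ∈ A` with `‖η‖ = s`, `Re H η = κ'`. Suppose not. `E = {y : ℝ | ∃ η ∈ A, H η = κ' + i y}` is
compact. It is not empty: `g` is open at `0` (`AnalyticAt.eventually_constant_or_nhds_le_map_nhds`), `κ'` is
close to `0`, so `κ' = g(t)` for a small `t`, and `η = x t - x 0` has `‖η‖ < s`. `E` is open: `η ∈ A` with
`H η = κ' + i y` has `‖η‖ < s`, `b e^η` is good: disc `x'(τ)` through it, `η(τ) = η + x'(τ) - x'(0) ∈ A` for small `τ`,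
`H(η(τ))` is open at `0`, so covers a neighbourhood of `κ' + i y`. A nonempty compact open subset of `ℝ` does
not exist. Finally take `κ'_k → 0`, `κ'_k ∉ S`, and a limit point of the `η_k` (compactness of the sphere in `A`).
-/

set_option autoImplicit false

namespace Pool.Agent.EXP

open MvPolynomial Topology

/-- the image of a disc in the curve under a nonconstant linear form is a neighbourhood -/
private theorem lv_open {n : ℕ} (Q : Ideal (MvPolynomial (Fin n) ℂ)) (lam : Fin n → ℝ)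
    (x : ℂ → Fin n → ℂ) (hx : ∀ j, AnalyticAt ℂ (fun t => x t j) 0)
    (hT : ∀ᶠ t in 𝓝 (0 : ℂ), (fun j => Complex.exp (x t j)) ∈ Tz Q)
    (hn : ¬ ∀ᶠ t in 𝓝 (0 : ℂ), ∑ j, (lam j : ℂ) * x t j = ∑ j, (lam j : ℂ) * x 0 j)
    (r : ℝ) (hr : 0 < r) :
    ∀ᶠ z in 𝓝 (0 : ℂ), ∃ t : ℂ, ‖(fun j => x t j - x 0 j)‖ < r ∧
      (fun j => Complex.exp (x t j)) ∈ Tz Q ∧ ∑ j, (lam j : ℂ) * (x t j - x 0 j) = z := by
  set g : ℂ → ℂ := fun t => ∑ j, (lam j : ℂ) * x t j with hg
  have hga : AnalyticAt ℂ g 0 := by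
    have h1 : AnalyticAt ℂ (fun t => ∑ j ∈ Finset.univ, (lam j : ℂ) * x t j) 0 := by
      apply Finset.analyticAt_fun_sum
      intro j _
      exact analyticAt_const.mul (hx j)
    exact h1
  have hle : 𝓝 (g 0) ≤ Filter.map g (𝓝 0) :=
    (hga.eventually_constant_or_nhds_le_map_nhds).resolve_left hn
  have hc : ContinuousAt (fun t => (fun j => x t j - x 0 j)) (0 : ℂ) := by
    rw [continuousAt_pi]
    intro j
    exact (hx j).continuousAt.sub continuousAt_const
  have h0 : ∀ᶠ t in 𝓝 (0 : ℂ), ‖(fun j => x t j - x 0 j)‖ < r := by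
    have h1 : Filter.Tendsto (fun t => ‖(fun j => x t j - x 0 j)‖) (𝓝 (0 : ℂ)) (𝓝 0) := by
      have h2 : Filter.Tendsto (fun t => ‖(fun j => x t j - x 0 j)‖) (𝓝 (0 : ℂ))
          (𝓝 ‖(fun j => x 0 j - x 0 j)‖) := hc.norm
      have h3 : ‖(fun j => x 0 j - x 0 j)‖ = 0 := by
        simp only [sub_self]
        exact norm_zero
      rwa [h3] at h2
    exact h1.eventually_lt_const hr
  have hU : {t : ℂ | ‖(fun j => x t j - x 0 j)‖ < r ∧ (fun j => Complex.exp (x t j)) ∈ Tz Q} ∈
      𝓝 (0 : ℂ) := h0.and hT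
  have him := hle (Filter.image_mem_map hU)
  have ht : Filter.Tendsto (fun z : ℂ => g 0 + z) (𝓝 0) (𝓝 (g 0)) := by
    have h1 : Continuous (fun z : ℂ => g 0 + z) := by fun_prop
    have h2 := h1.tendsto 0
    rwa [add_zero] at h2
  filter_upwards [ht him] with z hz
  obtain ⟨t, ⟨ht1, ht2⟩, ht3⟩ := hz
  refine ⟨t, ht1, ht2, ?_⟩
  have h1 : g t - g 0 = z := by
    rw [ht3]
    ring
  rw [← h1, hg]
  simp only [mul_sub, Finset.sum_sub_distrib]

private theorem lv_fib (b w : ℂ) (hb : b ≠ 0) : {z : ℂ | b * Complex.exp z = w}.Countable := by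
  rcases Set.eq_empty_or_nonempty {z : ℂ | b * Complex.exp z = w} with h | ⟨z0, h0⟩
  · rw [h]
    exact Set.countable_empty
  · refine (Set.countable_range fun k : ℤ => z0 + k * (2 * Real.pi * Complex.I)).mono ?_
    intro z hz
    have h1 : Complex.exp z = Complex.exp z0 := by
      have h2 : b * Complex.exp z = b * Complex.exp z0 := by
        rw [Set.mem_ofPred_eq] at hz h0
        rw [hz, h0]
      exact mul_left_cancel₀ hb h2
    obtain ⟨k, hk⟩ := Complex.exp_eq_exp_iff_exists_int.1 h1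
    exact ⟨k, hk.symm⟩

private theorem lv_core {n : ℕ} (Q : Ideal (MvPolynomial (Fin n) ℂ)) (lam : Fin n → ℝ)
    (B : Set (Fin n → ℂ)) (hB : B.Countable)
    (hgood : ∀ w ∈ Tz Q, w ∉ B →
      ∃ x : ℂ → Fin n → ℂ, (∀ j, AnalyticAt ℂ (fun t => x t j) 0) ∧
        (∀ j, Complex.exp (x 0 j) = w j) ∧
        (∀ᶠ t in 𝓝 (0 : ℂ), (fun j => Complex.exp (x t j)) ∈ Tz Q) ∧
        ¬ ∀ᶠ t in 𝓝 (0 : ℂ), ∑ j, (lam j : ℂ) * x t j = ∑ j, (lam j : ℂ) * x 0 j)
    (x : ℂ → Fin n → ℂ) (hx : ∀ j, AnalyticAt ℂ (fun t => x t j) 0)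
    (hT : ∀ᶠ t in 𝓝 (0 : ℂ), (fun j => Complex.exp (x t j)) ∈ Tz Q)
    (hn : ¬ ∀ᶠ t in 𝓝 (0 : ℂ), ∑ j, (lam j : ℂ) * x t j = ∑ j, (lam j : ℂ) * x 0 j)
    (s : ℝ) (hs : 0 < s) :
    ∃ η : Fin n → ℂ, ‖η‖ = s ∧
        (fun j => Complex.exp (x 0 j) * Complex.exp (η j)) ∈ Tz Q ∧
          (∑ j, (lam j : ℂ) * η j).re = 0 := by
  set b : Fin n → ℂ := fun j => Complex.exp (x 0 j) with hb
  have hb0 : ∀ j, b j ≠ 0 := fun j => Complex.exp_ne_zero _
  set H : (Fin n → ℂ) → ℂ := fun η => ∑ j, (lam j : ℂ) * η j with hH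
  have hHc : Continuous H := by
    rw [hH]
    fun_prop
  set A : Set (Fin n → ℂ) := {η | ‖η‖ ≤ s ∧ (fun j => b j * Complex.exp (η j)) ∈ Tz Q} with hA
  have hTc : IsClosed {η : Fin n → ℂ | (fun j => b j * Complex.exp (η j)) ∈ Tz Q} := by
    have h1 : {η : Fin n → ℂ | (fun j => b j * Complex.exp (η j)) ∈ Tz Q} =
        ⋂ f ∈ Q, {η | eval (fun j => b j * Complex.exp (η j)) f = 0} := by
      ext η
      simp only [Set.mem_ofPred_eq, Set.mem_iInter, Tz]
      constructor
      · intro h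
        exact h.1
      · intro h
        exact ⟨h, fun j => mul_ne_zero (hb0 j) (Complex.exp_ne_zero _)⟩
    rw [h1]
    refine isClosed_biInter fun f _ => isClosed_eq ?_ continuous_const
    exact (MvPolynomial.continuous_eval f).comp (by fun_prop)
  have hAc : IsCompact A := by
    have h1 : A = Metric.closedBall 0 s ∩
        {η : Fin n → ℂ | (fun j => b j * Complex.exp (η j)) ∈ Tz Q} := by
      ext η
      simp [hA]
    rw [h1]
    exact (isCompact_closedBall 0 s).inter_right hTc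
  -- the bad real parts
  have hBd : {η : Fin n → ℂ | (fun j => b j * Complex.exp (η j)) ∈ B}.Countable := by
    have h1 : {η : Fin n → ℂ | (fun j => b j * Complex.exp (η j)) ∈ B} ⊆
        ⋃ w ∈ B, {η : Fin n → ℂ | ∀ j, η j ∈ {z : ℂ | b j * Complex.exp z = w j}} := by
      intro η hη
      exact Set.mem_biUnion hη (fun j => rfl)
    exact (hB.biUnion fun w _ => Set.countable_pi fun j => lv_fib (b j) (w j) (hb0 j)).mono h1
  set S : Set ℝ := (fun η => (H η).re) ''
    {η : Fin n → ℂ | (fun j => b j * Complex.exp (η j)) ∈ B} with hS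
  have hSc : S.Countable := hBd.image _
  set R : Set ℝ := (fun η => (H η).re) '' (A ∩ {η | ‖η‖ = s}) with hR
  have hRc : IsClosed R := by
    have h1 : IsCompact (A ∩ {η : Fin n → ℂ | ‖η‖ = s}) :=
      hAc.inter_right (isClosed_eq continuous_norm continuous_const)
    exact (h1.image (Complex.continuous_re.comp hHc)).isClosed
  have hev : ∀ᶠ κ in 𝓝 (0 : ℝ), κ ∉ S → κ ∈ R := by
    have h1 := lv_open Q lam x hx hT hn s hs
    have h2 : Filter.Tendsto (fun κ : ℝ => (κ : ℂ)) (𝓝 0) (𝓝 0) :=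
      Complex.continuous_ofReal.tendsto' 0 0 Complex.ofReal_zero
    filter_upwards [h2.eventually h1] with κ hκ hκS
    by_contra hκR
    obtain ⟨t, ht1, ht2, ht3⟩ := hκ
    set E : Set ℝ := {y | ∃ η ∈ A, H η = κ + y * Complex.I} with hE
    have hEc : IsCompact E := by
      have h3 : E = (fun η => (H η).im) '' (A ∩ {η | (H η).re = κ}) := by
        ext y
        constructor
        · rintro ⟨η, hη, hy⟩
          refine ⟨η, ⟨hη, ?_⟩, ?_⟩
          · show (H η).re = κ
            rw [hy]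
            simp
          · show (H η).im = y
            rw [hy]
            simp
        · rintro ⟨η, ⟨hη, h4⟩, h5⟩
          refine ⟨η, hη, ?_⟩
          apply Complex.ext
          · rw [h4]
            simp
          · have h6 : (H η).im = y := h5
            rw [h6]
            simp
      rw [h3]
      exact (hAc.inter_right (isClosed_eq (Complex.continuous_re.comp hHc)
        continuous_const)).image (Complex.continuous_im.comp hHc)
    have hEn : E.Nonempty := by
      refine ⟨0, fun j => x t j - x 0 j, ⟨ht1.le, ?_⟩, ?_⟩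
      · have h3 : (fun j => b j * Complex.exp (x t j - x 0 j)) = fun j => Complex.exp (x t j) := by
          funext j
          rw [hb, ← Complex.exp_add]
          congr 1
          ring
        rw [h3]
        exact ht2
      · rw [hH]
        simp only [Complex.ofReal_zero, zero_mul, add_zero]
        exact ht3
    have hEo : IsOpen E := by
      rw [isOpen_iff_mem_nhds]
      rintro y ⟨η, hη, hy⟩
      have h3 : ‖η‖ < s := by
        refine lt_of_le_of_ne hη.1 fun h4 => hκR ?_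
        refine ⟨η, ⟨hη, h4⟩, ?_⟩
        show (H η).re = κ
        rw [hy]
        simp
      have h4 : (fun j => b j * Complex.exp (η j)) ∉ B := by
        intro h5
        apply hκS
        refine ⟨η, h5, ?_⟩
        show (H η).re = κ
        rw [hy]
        simp
      obtain ⟨x', hx', hx0, hxT, hxn⟩ := hgood _ hη.2 h4
      have h5 := lv_open Q lam x' hx' hxT hxn (s - ‖η‖) (by linarith)
      have h6 : Filter.Tendsto (fun y' : ℝ => ((y' - y : ℝ) : ℂ) * Complex.I) (𝓝 y) (𝓝 0) := by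
        have h7 : Continuous (fun y' : ℝ => ((y' - y : ℝ) : ℂ) * Complex.I) := by fun_prop
        have h8 := h7.tendsto y
        simpa using h8
      filter_upwards [h6.eventually h5] with y' hy'
      obtain ⟨τ, h7, h8, h9⟩ := hy'
      refine ⟨fun j => η j + (x' τ j - x' 0 j), ⟨?_, ?_⟩, ?_⟩
      · have h10 : ‖(fun j => η j + (x' τ j - x' 0 j))‖ ≤
            ‖η‖ + ‖(fun j => x' τ j - x' 0 j)‖ := norm_add_le η (fun j => x' τ j - x' 0 j)
        linarith
      · have h10 : (fun j => b j * Complex.exp (η j + (x' τ j - x' 0 j))) =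
            fun j => Complex.exp (x' τ j) := by
          funext j
          rw [Complex.exp_add, ← mul_assoc, ← hx0 j, ← Complex.exp_add]
          congr 1
          ring
        show (fun j => b j * Complex.exp (η j + (x' τ j - x' 0 j))) ∈ Tz Q
        rw [h10]
        exact h8
      · have h10 : H (fun j => η j + (x' τ j - x' 0 j)) =
            H η + ∑ j, (lam j : ℂ) * (x' τ j - x' 0 j) := by
          rw [hH]
          simp only [mul_add, Finset.sum_add_distrib]
        rw [h10, hy, h9]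
        push_cast
        ring
    have h3 : E = Set.univ := IsClopen.eq_univ ⟨hEc.isClosed, hEo⟩ hEn
    rw [h3] at hEc
    exact noncompact_univ ℝ hEc
  have h0 : (0 : ℝ) ∈ closure R := by
    have h1 : (0 : ℝ) ∈ closure Sᶜ := (hSc.dense_compl ℝ) 0
    rw [mem_closure_iff_frequently] at h1 ⊢
    exact (h1.and_eventually hev).mono fun κ h => h.2 h.1
  rw [hRc.closure_eq] at h0
  obtain ⟨η, ⟨hη, h1⟩, h2⟩ := h0
  exact ⟨η, h1, hη.2, h2⟩
theorem level {n : ℕ} (Q : Ideal (MvPolynomial (Fin n) ℂ)) (hQ : Q.IsPrime)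
    (hY : ∀ j : Fin n, (X j : MvPolynomial (Fin n) ℂ) ∉ Q)
    (hdim : Algebra.trdeg ℂ (MvPolynomial (Fin n) ℂ ⧸ Q) = 1) (lam : Fin n → ℝ)
    (hlam : ∀ v : Fin n → ℤ, ∑ j, lam j * v j = 0 → v = 0) (κ : ℝ) :
    ∃ b ∈ Tz Q, ∑ j, lam j * Real.log ‖b j‖ = κ ∧
      ∀ s : ℝ, 0 < s → ∃ η : Fin n → ℂ, ‖η‖ = s ∧
        (fun j => b j * Complex.exp (η j)) ∈ Tz Q ∧ (∑ j, (lam j : ℂ) * η j).re = 0 := by
  obtain ⟨v, hv, hv0⟩ := exists_punct Q hQ hY hdim
  have hlv : ∑ j, lam j * v j ≠ 0 := fun h => hv0 (hlam v h)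
  obtain ⟨x, hx, hT, hκ, hn⟩ := amoeba Q hQ hY hdim lam v hv hlv κ
  obtain ⟨B, hB, hgood⟩ := good_pts Q hQ hY hdim lam v hv hlv
  refine ⟨fun j => Complex.exp (x 0 j), hT.self_of_nhds, ?_, fun s hs =>
    lv_core Q lam B hB.countable hgood x hx hT hn s hs⟩
  rw [← hκ, Complex.re_sum]
  refine Finset.sum_congr rfl fun j _ => ?_
  rw [Complex.norm_exp, Real.log_exp, Complex.re_ofReal_mul]

end Pool.Agent.EXP
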