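import Pool.Agent.EXP.Defs

/-!
# EXP / LocA: local branches

PROOF.  `local_roots`: the `N` distinct roots `θ₁, .., θ_N` of `p(z₀, ·)` are simple; implicit function
theorem at each gives analytic functions `θ_i(z)`, distinct for `z` near `z₀`; they are `N` roots of the
monic polynomial `p(z, ·)` of degree `N`.
-/

set_option autoImplicit false

namespace Pool.Agent.EXP

open Topology

private theorem lr_contDiff (p : Polynomial (Polynomial ℂ)) :
    ContDiff ℂ 1 (fun u : ℂ × ℂ => (p.map (Polynomial.evalRingHom u.1)).eval u.2) := by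
  induction p using Polynomial.induction_on' with
  | add p q hp hq =>
    simp only [Polynomial.map_add, Polynomial.eval_add]
    exact hp.add hq
  | monomial n a =>
    simp only [Polynomial.map_monomial, Polynomial.eval_monomial, Polynomial.coe_evalRingHom]
    have h1 : ContDiff ℂ 1 fun x : ℂ => a.eval x := by
      have := Polynomial.contDiff_aeval (𝕜 := ℂ) a 1
      simpa [Polynomial.aeval_def] using this
    exact (h1.comp contDiff_fst).mul (contDiff_snd.pow n)

/-- the implicit function theorem at a simple root -/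
private theorem lr_ift (p : Polynomial (Polynomial ℂ)) (z₀ a : ℂ)
    (h0 : (p.map (Polynomial.evalRingHom z₀)).eval a = 0)
    (h1 : (p.map (Polynomial.evalRingHom z₀)).derivative.eval a ≠ 0) :
    ∃ θ : ℂ → ℂ, θ z₀ = a ∧ ContDiffAt ℂ 1 θ z₀ ∧
      ∀ᶠ z in 𝓝 z₀, (p.map (Polynomial.evalRingHom z)).eval (θ z) = 0 := by
  set f : ℂ × ℂ → ℂ := fun u => (p.map (Polynomial.evalRingHom u.1)).eval u.2 with hf
  have cdf : ContDiffAt ℂ 1 f (z₀, a) := (lr_contDiff p).contDiffAt
  have hd : HasFDerivAt f (fderiv ℂ f (z₀, a)) (z₀, a) :=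
    (cdf.differentiableAt one_ne_zero).hasFDerivAt
  have hinr : HasFDerivAt (fun w : ℂ => ((z₀, w) : ℂ × ℂ)) (ContinuousLinearMap.inr ℂ ℂ ℂ) a :=
    hasFDerivAt_prodMk_right z₀ a
  have hcomp := HasFDerivAt.comp a (g := f) hd hinr
  have hcomp2 := ((p.map (Polynomial.evalRingHom z₀)).hasDerivAt a).hasFDerivAt
  have heq := hcomp.unique hcomp2
  have hinv : (fderiv ℂ f (z₀, a) ∘L .inr ℂ ℂ ℂ).IsInvertible := by
    rw [heq]
    refine ⟨ContinuousLinearEquiv.unitsEquivAut ℂ (Units.mk0 _ h1), ?_⟩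
    ext
    simp
  have e1 := cdf.eventually_apply_implicitFunction one_ne_zero hinv
  have e3 := cdf.contDiffAt_implicitFunction one_ne_zero hinv
  have e4 := cdf.implicitFunction_apply_self one_ne_zero hinv
  refine ⟨cdf.implicitFunction one_ne_zero hinv, e4, e3, ?_⟩
  filter_upwards [e1] with z hz
  rw [← h0]
  exact hz

theorem local_roots (p : Polynomial (Polynomial ℂ)) (hm : p.Monic) (z₀ : ℂ)
    (hsep : (p.map (Polynomial.evalRingHom z₀)).Separable) :
    ∃ (r : ℝ) (θ : Fin p.natDegree → ℂ → ℂ), 0 < r ∧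
      (∀ i, DifferentiableOn ℂ (θ i) (Metric.ball z₀ r)) ∧
      (∀ z ∈ Metric.ball z₀ r, ∀ i j, i ≠ j → θ i z ≠ θ j z) ∧
      ∀ z ∈ Metric.ball z₀ r,
        p.map (Polynomial.evalRingHom z) = ∏ i, (Polynomial.X - Polynomial.C (θ i z)) := by
  classical
  set q := p.map (Polynomial.evalRingHom z₀) with hq
  have hqd : q.natDegree = p.natDegree := hm.natDegree_map _
  have hq0 : q ≠ 0 := (hm.map _).ne_zero
  have hcard : q.roots.toFinset.card = p.natDegree := by
    rw [Multiset.toFinset_card_of_nodup (Polynomial.nodup_roots hsep), ← hqd]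
    exact (IsAlgClosed.splits q).natDegree_eq_card_roots.symm
  let e := (Finset.equivFinOfCardEq hcard).symm
  have hroot : ∀ i, q.eval (e i : ℂ) = 0 := by
    intro i
    have h1 := (e i).2
    rw [Multiset.mem_toFinset, Polynomial.mem_roots hq0] at h1
    exact h1
  have hder : ∀ i, q.derivative.eval (e i : ℂ) ≠ 0 := fun i =>
    hsep.eval₂_derivative_ne_zero (RingHom.id ℂ) (hroot i)
  choose θ hθ0 hθc hθr using fun i => lr_ift p z₀ (e i : ℂ) (hroot i) (hder i)
  have hinj : ∀ i j, i ≠ j → θ i z₀ ≠ θ j z₀ := by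
    intro i j hij h
    rw [hθ0, hθ0] at h
    exact hij (e.injective (Subtype.ext h))
  have ev1 : ∀ᶠ z in 𝓝 z₀, ∀ i, (p.map (Polynomial.evalRingHom z)).eval (θ i z) = 0 :=
    Filter.eventually_all.2 hθr
  have ev2 : ∀ᶠ z in 𝓝 z₀, ∀ i, DifferentiableAt ℂ (θ i) z :=
    Filter.eventually_all.2 fun i =>
      ((hθc i).eventually (by simp)).mono fun z hz => hz.differentiableAt one_ne_zero
  have ev3 : ∀ᶠ z in 𝓝 z₀, ∀ i j, i ≠ j → θ i z ≠ θ j z := by
    refine Filter.eventually_all.2 fun i => Filter.eventually_all.2 fun j => ?_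
    by_cases hij : i = j
    · exact Filter.Eventually.of_forall fun z h => absurd hij h
    · have hc : ContinuousAt (fun z => θ i z - θ j z) z₀ :=
        (hθc i).continuousAt.sub (hθc j).continuousAt
      have h1 := hc.eventually_ne (sub_ne_zero.2 (hinj i j hij))
      filter_upwards [h1] with z hz _
      exact sub_ne_zero.1 hz
  obtain ⟨r, hr, H⟩ := Metric.eventually_nhds_iff_ball.1 (ev1.and (ev2.and ev3))
  refine ⟨r, θ, hr, fun i z hz => ((H z hz).2.1 i).differentiableWithinAt,
    fun z hz => (H z hz).2.2, fun z hz => ?_⟩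
  have h1 := (H z hz).1
  have h2 := (H z hz).2.2
  have hdvd : (∏ i, (Polynomial.X - Polynomial.C (θ i z))) ∣
      p.map (Polynomial.evalRingHom z) := by
    refine Finset.prod_dvd_of_coprime ?_ fun i _ => Polynomial.dvd_iff_isRoot.2 (h1 i)
    intro i _ j _ hij
    exact Polynomial.pairwise_coprime_X_sub_C
      (fun a b hab => by_contra fun hne => h2 a b hne hab) hij
  have hmon : (∏ i, (Polynomial.X - Polynomial.C (θ i z))).Monic :=
    Polynomial.monic_prod_of_monic _ _ fun i _ => Polynomial.monic_X_sub_C _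
  refine Polynomial.eq_of_monic_of_dvd_of_natDegree_le hmon (hm.map _) hdvd ?_
  rw [hm.natDegree_map, Polynomial.natDegree_prod_of_monic _ _
    fun i _ => Polynomial.monic_X_sub_C _]
  simp

end Pool.Agent.EXP
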