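import Mathlib

/-!
# EXP / Elim: elimination of `X_0`

PROOF.  A = C[Y][X_1..X_m].  `F` and `h` are polynomials in `X_0` over `A`, `E` is their
resultant.  It is in the ideal of the two polynomials, so it vanishes at the specialisation given
by a common zero.  At `w₀` it is a power of the leading coefficient of `F` times the resultant of
`F` and `h(., w₀)`, which are coprime over the field of fractions of `C[X_1..X_m]` (Gauss).
-/

set_option autoImplicit false

namespace Pool.Agent.EXP

open MvPolynomial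

/-- the resultant of an irreducible polynomial of positive degree and a polynomial which is not a
multiple -/
theorem res_ne {B : Type} [CommRing B] [IsDomain B] [UniqueFactorizationMonoid B]
    {f g : Polynomial B} (hf : Irreducible f) (hf0 : f.natDegree ≠ 0) (hg : ¬ f ∣ g) :
    Polynomial.resultant f g ≠ 0 := by
  obtain ⟨inst⟩ : Nonempty (NormalizedGCDMonoid B) := inferInstance
  have hp : f.IsPrimitive := hf.isPrimitive hf0
  set K := FractionRing B
  have hinj : Function.Injective (algebraMap B K) := IsFractionRing.injective B K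
  have hirr : Irreducible (f.map (algebraMap B K)) :=
    (hp.irreducible_iff_irreducible_map_fraction_map (K := K)).1 hf
  have hnd : ¬ f.map (algebraMap B K) ∣ g.map (algebraMap B K) := fun h =>
    hg ((hp.dvd_iff_fraction_map_dvd_fraction_map K).2 h)
  have hco : IsCoprime (f.map (algebraMap B K)) (g.map (algebraMap B K)) :=
    (hirr.coprime_iff_not_dvd).2 hnd
  intro h0
  have h1 : Polynomial.resultant (f.map (algebraMap B K)) (g.map (algebraMap B K)) = 0 := by
    rw [Polynomial.natDegree_map_eq_of_injective hinj, Polynomial.natDegree_map_eq_of_injective hinj,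
      Polynomial.resultant_map_map, h0, map_zero]
  exact ((Polynomial.resultant_eq_zero_iff).1 h1).2 hco

theorem elim {m n : ℕ} (F : MvPolynomial (Fin (m + 1)) ℂ) (hF : Irreducible F)
    (hF0 : 0 < degreeOf 0 F) (h : MvPolynomial (Fin (m + 1) ⊕ Fin n) ℂ) (w₀ : Fin n → ℂ)
    (hw : ¬ F ∣ aeval (Sum.elim X fun j => C (w₀ j)) h) :
    ∃ E : MvPolynomial (Fin m) (MvPolynomial (Fin n) ℂ), map (eval w₀) E ≠ 0 ∧
      ∀ (z : Fin (m + 1) → ℂ) (w : Fin n → ℂ), eval z F = 0 → eval (Sum.elim z w) h = 0 →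
        eval (fun j => z j.succ) (map (eval w) E) = 0 := by
  classical
  -- the polynomials over `A`
  let Ψ : MvPolynomial (Fin (m + 1) ⊕ Fin n) ℂ →+*
      Polynomial (MvPolynomial (Fin m) (MvPolynomial (Fin n) ℂ)) :=
    eval₂Hom ((Polynomial.C : _ →+* _).comp ((C : _ →+* _).comp C))
      (Sum.elim (Fin.cases Polynomial.X (fun j => Polynomial.C (X j)))
        (fun j => Polynomial.C (C (X j))))
  set f := Ψ (rename Sum.inl F) with hfd
  set g := Ψ h with hgd
  -- specialisation `Y -> w`
  have hmap : ∀ (w : Fin n → ℂ) (P : MvPolynomial (Fin (m + 1) ⊕ Fin n) ℂ),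
      (Ψ P).map (map (eval w) : MvPolynomial (Fin m) (MvPolynomial (Fin n) ℂ) →+*
        MvPolynomial (Fin m) ℂ) =
      finSuccEquiv ℂ m (aeval (Sum.elim X fun j => C (w j)) P) := by
    intro w P
    have h1 : (Polynomial.mapRingHom (map (eval w) : MvPolynomial (Fin m)
        (MvPolynomial (Fin n) ℂ) →+* MvPolynomial (Fin m) ℂ)).comp Ψ =
        ((finSuccEquiv ℂ m : MvPolynomial (Fin (m + 1)) ℂ →+* Polynomial (MvPolynomial (Fin m) ℂ))).comp
          ((aeval (Sum.elim X fun j => C (w j)) :
            MvPolynomial (Fin (m + 1) ⊕ Fin n) ℂ →ₐ[ℂ] MvPolynomial (Fin (m + 1)) ℂ) :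
            MvPolynomial (Fin (m + 1) ⊕ Fin n) ℂ →+* MvPolynomial (Fin (m + 1)) ℂ) := by
      refine MvPolynomial.ringHom_ext ?_ ?_
      · intro c
        simp [Ψ, finSuccEquiv_apply]
      · rintro (j | j)
        · refine Fin.cases ?_ (fun j => ?_) j
          · simp [Ψ, finSuccEquiv_X_zero]
          · simp [Ψ, finSuccEquiv_X_succ]
        · simp [Ψ, finSuccEquiv_apply]
    exact congrArg (fun φ => φ P) h1
  have hf₀ : ∀ w : Fin n → ℂ, f.map (map (eval w)) = finSuccEquiv ℂ m F := by
    intro w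
    rw [hfd, hmap, aeval_rename]
    have h3 : (Sum.elim X fun j => C (w j)) ∘ Sum.inl
        = (X : Fin (m + 1) → MvPolynomial (Fin (m + 1)) ℂ) := rfl
    rw [h3, aeval_X_left_apply]
  set a := (finSuccEquiv ℂ m F).natDegree with ha
  have ha0 : a ≠ 0 := by
    rw [ha, natDegree_finSuccEquiv]
    omega
  have hfmap : f = (finSuccEquiv ℂ m F).map
      (map C : MvPolynomial (Fin m) ℂ →+* MvPolynomial (Fin m) (MvPolynomial (Fin n) ℂ)) := by
    have h1 : Ψ.comp (rename (R := ℂ) (Sum.inl : Fin (m + 1) → Fin (m + 1) ⊕ Fin n) :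
          MvPolynomial (Fin (m + 1)) ℂ →+* MvPolynomial (Fin (m + 1) ⊕ Fin n) ℂ) =
        (Polynomial.mapRingHom (map C : MvPolynomial (Fin m) ℂ →+*
          MvPolynomial (Fin m) (MvPolynomial (Fin n) ℂ))).comp
        (finSuccEquiv ℂ m : MvPolynomial (Fin (m + 1)) ℂ →+*
          Polynomial (MvPolynomial (Fin m) ℂ)) := by
      refine MvPolynomial.ringHom_ext ?_ ?_
      · intro c
        simp [Ψ, finSuccEquiv_apply]
      · intro j
        refine Fin.cases ?_ (fun j => ?_) j
        · simp [Ψ, finSuccEquiv_X_zero]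
        · simp [Ψ, finSuccEquiv_X_succ]
    exact congrArg (fun φ => φ F) h1
  have hfa : f.natDegree ≤ a := by
    rw [hfmap]
    exact Polynomial.natDegree_map_le
  refine ⟨Polynomial.resultant f g a g.natDegree, ?_, ?_⟩
  · rw [← Polynomial.resultant_map_map, hf₀]
    have hgm : g.map (map (eval w₀)) =
        finSuccEquiv ℂ m (aeval (Sum.elim X fun j => C (w₀ j)) h) := hmap w₀ h
    rw [hgm]
    set G := finSuccEquiv ℂ m (aeval (Sum.elim X fun j => C (w₀ j)) h) with hG
    have hdeg : G.natDegree ≤ g.natDegree := by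
      rw [← hgm]
      exact Polynomial.natDegree_map_le
    obtain ⟨k, hk⟩ := Nat.exists_eq_add_of_le hdeg
    rw [hk, Polynomial.resultant_add_right_deg _ _ _ _ _ le_rfl]
    refine mul_ne_zero (pow_ne_zero _ ?_) ?_
    · have h2 : (finSuccEquiv ℂ m F).coeff a = (finSuccEquiv ℂ m F).leadingCoeff := rfl
      rw [h2, Polynomial.leadingCoeff_ne_zero]
      intro h3
      rw [h3, Polynomial.natDegree_zero] at ha
      exact ha0 ha
    · refine res_ne ?_ ha0 ?_
      · exact (MulEquiv.irreducible_iff (finSuccEquiv ℂ m)).2 hF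
      · intro h2
        exact hw ((map_dvd_iff (finSuccEquiv ℂ m)).1 h2)
  · intro z w hz hh
    set σ : MvPolynomial (Fin m) (MvPolynomial (Fin n) ℂ) →+* ℂ :=
      (eval (fun j => z j.succ)).comp (map (eval w)) with hσ
    have h1 : ∀ P : MvPolynomial (Fin (m + 1) ⊕ Fin n) ℂ,
        (Ψ P).eval₂ σ (z 0) = eval (Sum.elim z w) P := by
      intro P
      have h2 : (Polynomial.eval₂RingHom σ (z 0)).comp Ψ = eval (Sum.elim z w) := by
        refine MvPolynomial.ringHom_ext ?_ ?_
        · intro c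
          simp [Ψ, hσ]
        · rintro (j | j)
          · refine Fin.cases ?_ (fun j => ?_) j
            · simp [Ψ]
            · simp [Ψ, hσ]
          · simp [Ψ, hσ]
      exact congrArg (fun φ => φ P) h2
    obtain ⟨p, q, -, -, hpq⟩ := Polynomial.exists_mul_add_mul_eq_C_resultant f g hfa
      (le_refl g.natDegree) (Or.inl ha0)
    have h3 := congrArg (fun P => Polynomial.eval₂ σ (z 0) P) hpq
    simp only [Polynomial.eval₂_add, Polynomial.eval₂_mul, Polynomial.eval₂_C] at h3
    have h4 : f.eval₂ σ (z 0) = 0 := by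
      rw [hfd, h1, eval_rename]
      exact hz
    have h5 : g.eval₂ σ (z 0) = 0 := by
      rw [hgd, h1]
      exact hh
    rw [h4, h5, zero_mul, zero_mul, add_zero] at h3
    exact h3.symm

/-- Elimination for two polynomials. -/
theorem elim2 {m : ℕ} (F : MvPolynomial (Fin (m + 1)) ℂ) (hF : Irreducible F)
    (hF0 : 0 < degreeOf 0 F) (S : MvPolynomial (Fin (m + 1)) ℂ) (hS : ¬ F ∣ S) :
    ∃ D : MvPolynomial (Fin m) ℂ, D ≠ 0 ∧
      ∀ z : Fin (m + 1) → ℂ, eval z F = 0 → eval z S = 0 → eval (fun j => z j.succ) D = 0 := by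
  obtain ⟨E, hE, h2⟩ := elim (n := 0) F hF hF0 (rename Sum.inl S) (fun _ => 0) (by
    rw [aeval_rename]
    have h3 : (Sum.elim X fun j => C ((fun _ => 0 : Fin 0 → ℂ) j)) ∘ Sum.inl
        = (X : Fin (m + 1) → MvPolynomial (Fin (m + 1)) ℂ) := rfl
    rw [h3, aeval_X_left_apply]
    exact hS)
  refine ⟨_, hE, fun z h3 h4 => h2 z _ h3 ?_⟩
  rw [eval_rename]
  exact h4

end Pool.Agent.EXP
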