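import Mathlib

/-!
# EXP / Homog: factors of homogeneous polynomials are homogeneous
-/

set_option autoImplicit false

namespace Pool.Agent.EXP

open MvPolynomial

private lemma eval_scale {n r : ℕ} (G : MvPolynomial (Fin n) ℂ) (hG : G.IsHomogeneous r)
    (x : Fin n → ℂ) (t : ℂ) : eval (fun j => t * x j) G = eval x G * t ^ r := by
  rw [eval_eq, eval_eq, Finset.sum_mul]
  refine Finset.sum_congr rfl fun μ hμ => ?_
  have h1 : μ.degree = r := by
    have := hG (mem_support_iff.1 hμ)
    rw [← this]
    exact DFunLike.congr_fun Finsupp.degree_eq_weight_one μ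
  rw [mul_assoc]
  congr 1
  simp only [mul_pow, Finset.prod_mul_distrib]
  rw [Finset.prod_pow_eq_pow_sum, ← h1, mul_comm]
  congr 2

private noncomputable def ray {n : ℕ} (x : Fin n → ℂ) (G : MvPolynomial (Fin n) ℂ) :
    Polynomial ℂ :=
  ∑ i ∈ Finset.range (G.totalDegree + 1),
    Polynomial.C (eval x (homogeneousComponent i G)) * Polynomial.X ^ i

private lemma ray_eval {n : ℕ} (x : Fin n → ℂ) (G : MvPolynomial (Fin n) ℂ) (t : ℂ) :
    (ray x G).eval t = eval (fun j => t * x j) G := by
  unfold ray
  conv_rhs => rw [← sum_homogeneousComponent G]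
  rw [Polynomial.eval_finsetSum, map_sum]
  refine Finset.sum_congr rfl fun i _ => ?_
  rw [Polynomial.eval_mul, Polynomial.eval_C, Polynomial.eval_pow, Polynomial.eval_X,
    eval_scale _ (homogeneousComponent_isHomogeneous i G)]

private lemma ray_coeff {n : ℕ} (x : Fin n → ℂ) (G : MvPolynomial (Fin n) ℂ) (k : ℕ) :
    (ray x G).coeff k = eval x (homogeneousComponent k G) := by
  unfold ray
  rw [Polynomial.finsetSum_coeff]
  simp only [Polynomial.coeff_C_mul, Polynomial.coeff_X_pow]
  by_cases hk : k ∈ Finset.range (G.totalDegree + 1)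
  · rw [Finset.sum_eq_single k]
    · simp
    · intro b _ hb
      rw [if_neg hb.symm, mul_zero]
    · intro h
      exact absurd hk h
  · rw [Finset.sum_eq_zero]
    · rw [homogeneousComponent_eq_zero _ _ (by
        rw [Finset.mem_range] at hk
        omega), map_zero]
    · intro b hb
      rw [if_neg, mul_zero]
      rintro rfl
      exact hk hb

theorem homog_of_mul {n d : ℕ} (L G R : MvPolynomial (Fin n) ℂ) (hL0 : L ≠ 0)
    (hL : L.IsHomogeneous d) (hGR : L = G * R) : ∃ r, G.IsHomogeneous r := by
  classical
  have key : ∀ k k', homogeneousComponent k G ≠ 0 → homogeneousComponent k' G ≠ 0 → k = k' := by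
    intro k k' h1 h2
    have h3 : homogeneousComponent k G * homogeneousComponent k' G * L ≠ 0 :=
      mul_ne_zero (mul_ne_zero h1 h2) hL0
    obtain ⟨x, hx⟩ : ∃ x, eval x (homogeneousComponent k G * homogeneousComponent k' G * L) ≠ 0 := by
      by_contra hcon
      push Not at hcon
      exact h3 (MvPolynomial.funext fun x => by rw [hcon x, map_zero])
    rw [map_mul, map_mul] at hx
    have hx1 := left_ne_zero_of_mul (left_ne_zero_of_mul hx)
    have hx2 := right_ne_zero_of_mul (left_ne_zero_of_mul hx)
    have hx3 := right_ne_zero_of_mul hx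
    have h4 : ray x G * ray x R = Polynomial.C (eval x L) * Polynomial.X ^ d := by
      apply Polynomial.funext
      intro t
      rw [Polynomial.eval_mul, ray_eval, ray_eval, ← map_mul, ← hGR, eval_scale L hL,
        Polynomial.eval_mul, Polynomial.eval_C, Polynomial.eval_pow, Polynomial.eval_X]
    have h5 : ray x G ∣ Polynomial.X ^ d := by
      have h6 : IsUnit (Polynomial.C (eval x L)) := (isUnit_iff_ne_zero.2 hx3).map _
      rw [← h6.dvd_mul_left (b := Polynomial.X ^ d), ← h4]
      exact dvd_mul_right _ _
    obtain ⟨i, -, hi⟩ := (dvd_prime_pow Polynomial.prime_X d).1 h5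
    obtain ⟨u, hu⟩ := hi.symm
    obtain ⟨c, hc, hc'⟩ := Polynomial.isUnit_iff.1 u.isUnit
    have h7 : ∀ l, eval x (homogeneousComponent l G) ≠ 0 → l = i := by
      intro l hl
      rw [← ray_coeff, ← hu, ← hc', mul_comm, Polynomial.coeff_C_mul, Polynomial.coeff_X_pow] at hl
      by_contra h8
      rw [if_neg h8, mul_zero] at hl
      exact hl rfl
    rw [h7 k hx1, h7 k' hx2]
  by_cases hG : G = 0
  · subst hG
    exact ⟨0, isHomogeneous_zero _ _ _⟩
  · obtain ⟨k, hk⟩ : ∃ k, homogeneousComponent k G ≠ 0 := by
      by_contra hcon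
      push Not at hcon
      apply hG
      rw [← sum_homogeneousComponent G]
      exact Finset.sum_eq_zero fun i _ => hcon i
    refine ⟨k, ?_⟩
    have h1 : G = homogeneousComponent k G := by
      ext μ
      rw [coeff_homogeneousComponent]
      split_ifs with h2
      · rfl
      · by_contra h3
        have h4 : homogeneousComponent μ.degree G ≠ 0 := by
          intro h5
          apply h3
          have h6 : coeff μ (homogeneousComponent μ.degree G) = 0 := by rw [h5, coeff_zero]
          rwa [coeff_homogeneousComponent, if_pos rfl] at h6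
        exact h2 (key _ _ h4 hk)
    rw [h1]
    exact homogeneousComponent_isHomogeneous k G

end Pool.Agent.EXP
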