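import Pool.Agent.EXP.Perm
import Pool.Agent.EXP.Homog

/-!
# EXP / MainC: exponential points are dense in `{F = 0} x W`, final form
-/

set_option autoImplicit false

namespace Pool.Agent.EXP

open MvPolynomial Filter Topology

theorem mainU {n : ℕ} (F G R : MvPolynomial (Fin n) ℂ) (hF : Irreducible F)
    (hG : Irreducible G) (hL : homogeneousComponent F.totalDegree F = G * R) (hGR : ¬ G ∣ R)
    (hrat : ∀ (c : ℂ) (a : Fin n → ℤ), G ≠ C c * ∑ j, C (a j : ℂ) * X j)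
    (Q : Ideal (MvPolynomial (Fin n) ℂ)) (hQ : Q.IsPrime)
    (hY : ∀ j, (X j : MvPolynomial (Fin n) ℂ) ∉ Q)
    (hdim : Algebra.trdeg ℂ (MvPolynomial (Fin n) ℂ ⧸ Q) = 1) (μ : Fin n → ℤ)
    (hμG : ∀ v : Fin n → ℤ, (∀ x : Fin n → ℂ, eval (fun j => x j + v j) G = eval x G) →
      ∑ j, μ j * v j = 0)
    (hμW : ∀ c : ℂ, ∃ w ∈ Tz Q, ∏ j, w j ^ μ j ≠ c)
    (h : MvPolynomial (Fin n ⊕ Fin n) ℂ)
    (hh : ∃ z w : Fin n → ℂ, eval z F = 0 ∧ w ∈ Tz Q ∧ eval (Sum.elim z w) h ≠ 0) :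
    ∃ z : Fin n → ℂ, eval z F = 0 ∧ (fun j => Complex.exp (z j)) ∈ Tz Q ∧
      eval (Sum.elim z fun j => Complex.exp (z j)) h ≠ 0 := by
  obtain ⟨m, rfl⟩ : ∃ m, n = m + 1 := by
    cases n with
    | zero =>
      exfalso
      obtain ⟨w, -, hw⟩ := hμW 1
      exact hw (by simp)
    | succ m => exact ⟨m, rfl⟩
  obtain ⟨r, hr⟩ := homog_of_mul _ G R (top_ne_zero F hF.ne_zero)
    (homogeneousComponent_isHomogeneous _ F) hL
  obtain ⟨v, hvP, hv⟩ := punct Q hQ hY hdim μ hμW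
  have hvG : dirD v G ≠ 0 := by
    have h1 : ¬ ∀ x : Fin (m + 1) → ℂ, eval (fun j => x j + v j) G = eval x G :=
      fun h2 => hv (hμG v h2)
    push Not at h1
    obtain ⟨x, hx⟩ := h1
    exact dirD_ne_zero v G ⟨x, 1, by simpa using hx⟩
  exact core' F G R hF hG hL hGR (exists_dir' G hG hr hrat) Q hQ hY hdim v hvP hvG h hh

end Pool.Agent.EXP
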