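import Pool.Agent.EXP.MainB

/-!
# EXP / Perm: permutation of the coordinates
-/

set_option autoImplicit false

namespace Pool.Agent.EXP

open MvPolynomial Filter Topology

theorem dirD_rename {n : ℕ} (σ : Equiv.Perm (Fin n)) (v : Fin n → ℤ)
    (G : MvPolynomial (Fin n) ℂ) :
    dirD v (rename σ G) = rename σ (dirD (v ∘ σ) G) := by
  unfold dirD
  rw [map_sum, ← Equiv.sum_comp σ]
  refine Finset.sum_congr rfl fun j _ => ?_
  rw [map_mul, rename_C, pderiv_rename σ.injective, Function.comp_apply]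

/-- The permuted ideal. -/
noncomputable def permI {n : ℕ} (σ : Equiv.Perm (Fin n)) (Q : Ideal (MvPolynomial (Fin n) ℂ)) :
    Ideal (MvPolynomial (Fin n) ℂ) :=
  Q.comap (rename σ.symm : MvPolynomial (Fin n) ℂ →ₐ[ℂ] MvPolynomial (Fin n) ℂ)

theorem mem_permI {n : ℕ} (σ : Equiv.Perm (Fin n)) (Q : Ideal (MvPolynomial (Fin n) ℂ))
    (f : MvPolynomial (Fin n) ℂ) : f ∈ permI σ Q ↔ rename σ.symm f ∈ Q := Iff.rfl

theorem mem_Tz_permI {n : ℕ} (σ : Equiv.Perm (Fin n)) (Q : Ideal (MvPolynomial (Fin n) ℂ))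
    (w : Fin n → ℂ) : w ∈ Tz (permI σ Q) ↔ w ∘ σ ∈ Tz Q := by
  constructor
  · rintro ⟨h1, h2⟩
    refine ⟨fun f hf => ?_, fun j => h2 (σ j)⟩
    rw [← eval_rename]
    refine h1 _ ?_
    rw [mem_permI, rename_rename, Equiv.symm_comp_self, rename_id_apply]
    exact hf
  · rintro ⟨h1, h2⟩
    refine ⟨fun f hf => ?_, fun j => ?_⟩
    · have h3 := h1 _ ((mem_permI σ Q f).1 hf)
      rw [eval_rename, Function.comp_assoc, Equiv.self_comp_symm, Function.comp_id] at h3
      exact h3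
    · have h3 := h2 (σ.symm j)
      rwa [Function.comp_apply, Equiv.apply_symm_apply] at h3

theorem permI_eq_map {n : ℕ} (σ : Equiv.Perm (Fin n)) (Q : Ideal (MvPolynomial (Fin n) ℂ)) :
    permI σ Q = Q.map (renameEquiv ℂ σ : MvPolynomial (Fin n) ℂ →+* MvPolynomial (Fin n) ℂ) := by
  apply le_antisymm
  · intro f hf
    have h1 : f = (renameEquiv ℂ σ : MvPolynomial (Fin n) ℂ →+* MvPolynomial (Fin n) ℂ)
        (rename σ.symm f) := by
      change f = rename σ (rename σ.symm f)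
      rw [rename_rename, Equiv.self_comp_symm, rename_id_apply]
    rw [h1]
    exact Ideal.mem_map_of_mem _ hf
  · rw [Ideal.map_le_iff_le_comap]
    intro f hf
    change rename σ.symm (rename σ f) ∈ Q
    rw [rename_rename, Equiv.symm_comp_self, rename_id_apply]
    exact hf

/-- `core` with any coordinate. -/
theorem core' {m : ℕ} (F G R : MvPolynomial (Fin (m + 1)) ℂ) (hF : Irreducible F)
    (hG : Irreducible G) (hL : homogeneousComponent F.totalDegree F = G * R) (hGR : ¬ G ∣ R)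
    (hrat : ∀ μ : Fin (m + 1) → ℤ, μ ≠ 0 → ∃ w : Fin (m + 1) → ℤ,
      ∑ j, μ j * w j = 0 ∧ dirD w G ≠ 0)
    (Q : Ideal (MvPolynomial (Fin (m + 1)) ℂ)) (hQ : Q.IsPrime)
    (hY : ∀ j, (X j : MvPolynomial (Fin (m + 1)) ℂ) ∉ Q)
    (hdim : Algebra.trdeg ℂ (MvPolynomial (Fin (m + 1)) ℂ ⧸ Q) = 1)
    (v : Fin (m + 1) → ℤ) (hvP : Punct Q v) (hvG : dirD v G ≠ 0)
    (h : MvPolynomial (Fin (m + 1) ⊕ Fin (m + 1)) ℂ)
    (hh : ∃ z w : Fin (m + 1) → ℂ, eval z F = 0 ∧ w ∈ Tz Q ∧ eval (Sum.elim z w) h ≠ 0) :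
    ∃ z : Fin (m + 1) → ℂ, eval z F = 0 ∧ (fun j => Complex.exp (z j)) ∈ Tz Q ∧
      eval (Sum.elim z fun j => Complex.exp (z j)) h ≠ 0 := by
  classical
  -- a coordinate which occurs in `G`
  obtain ⟨i, hi⟩ : ∃ i, 0 < degreeOf i G := by
    by_contra hcon
    push Not at hcon
    apply hvG
    unfold dirD
    refine Finset.sum_eq_zero fun j _ => ?_
    rw [pderiv_eq_zero_of_notMem_vars, mul_zero]
    intro hj
    have h2 := hcon j
    rw [vars_def, Multiset.mem_toFinset, ← Multiset.count_pos] at hj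
    rw [degreeOf_def] at h2
    omega
  set σ : Equiv.Perm (Fin (m + 1)) := Equiv.swap 0 i with hσ
  have hσi : σ i = 0 := Equiv.swap_apply_right 0 i
  have he : ∀ P : MvPolynomial (Fin (m + 1)) ℂ, renameEquiv ℂ σ P = rename σ P := fun P => rfl
  have hFt : (rename σ F).totalDegree = F.totalDegree := totalDegree_renameEquiv σ F
  have hcomp : ∀ v : Fin (m + 1) → ℤ, (v ∘ σ.symm) ∘ σ = v := fun v => by
    rw [Function.comp_assoc, Equiv.symm_comp_self, Function.comp_id]
  obtain ⟨z, h1, h2, h3⟩ := core (rename σ F) (rename σ G) (rename σ R)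
    ((MulEquiv.irreducible_iff (renameEquiv ℂ σ)).2 hF)
    ((MulEquiv.irreducible_iff (renameEquiv ℂ σ)).2 hG)
    (by rw [hFt, ← rename_homogeneousComponent, hL, map_mul])
    (fun hd => hGR ((map_dvd_iff (renameEquiv ℂ σ)).1 hd))
    (by
      have h4 := degreeOf_rename_of_injective (p := G) σ.injective i
      rw [hσi] at h4
      rw [h4]
      exact hi)
    (fun μ hμ => by
      obtain ⟨w, hw1, hw2⟩ := hrat (μ ∘ σ) (by
        intro h0
        apply hμ
        funext j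
        have := congrFun h0 (σ.symm j)
        simpa using this)
      refine ⟨w ∘ σ.symm, ?_, ?_⟩
      · rw [← hw1, ← Equiv.sum_comp σ]
        refine Finset.sum_congr rfl fun j _ => ?_
        simp
      · rw [dirD_rename, hcomp]
        intro h0
        exact hw2 (rename_injective _ σ.injective (by rw [h0, map_zero])))
    (permI σ Q) (Ideal.comap_isPrime _ _)
    (fun j => by
      rw [mem_permI, rename_X]
      exact hY _)
    (by
      rw [← hdim]
      exact ((Ideal.quotientEquivAlg Q (permI σ Q) (renameEquiv ℂ σ)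
        (permI_eq_map σ Q)).trdeg_eq).symm)
    (v ∘ σ.symm)
    (by
      obtain ⟨u, hu, hu0, hW⟩ := hvP
      refine ⟨fun j => u (σ.symm j), fun j => hu _, fun j => hu0 _, hW.mono fun t ht => ?_⟩
      rw [mem_Tz_permI]
      convert ht using 1
      funext j
      simp)
    (by
      rw [dirD_rename, hcomp]
      intro h0
      exact hvG (rename_injective _ σ.injective (by rw [h0, map_zero])))
    (rename (Sum.map σ σ) h)
    (by
      obtain ⟨z, w, h1, h2, h3⟩ := hh
      have h4 : Sum.elim (z ∘ σ.symm) (w ∘ σ.symm) ∘ Sum.map σ σ = Sum.elim z w := by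
        funext k
        rcases k with k | k <;> simp
      refine ⟨z ∘ σ.symm, w ∘ σ.symm, ?_, ?_, ?_⟩
      · rw [eval_rename, Function.comp_assoc, Equiv.symm_comp_self, Function.comp_id]
        exact h1
      · rw [mem_Tz_permI, Function.comp_assoc, Equiv.symm_comp_self, Function.comp_id]
        exact h2
      · rw [eval_rename, h4]
        exact h3)
  refine ⟨z ∘ σ, ?_, ?_, ?_⟩
  · rw [← eval_rename]
    exact h1
  · rw [mem_Tz_permI] at h2
    exact h2
  · rw [eval_rename] at h3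
    have h4 : (Sum.elim z fun j => Complex.exp (z j)) ∘ Sum.map σ σ =
        Sum.elim (z ∘ σ) fun j => Complex.exp ((z ∘ σ) j) := by
      funext k
      rcases k with k | k <;> simp
    rw [h4] at h3
    exact h3

/-- An integer vector orthogonal to all integer periods of `G`. -/
theorem exists_orth {n : ℕ} (G : MvPolynomial (Fin n) ℂ) (j₀ : Fin n) (hj₀ : pderiv j₀ G ≠ 0) :
    ∃ μ : Fin n → ℤ, μ ≠ 0 ∧ ∀ w : Fin n → ℤ, ∑ j, μ j * w j ≠ 0 → dirD w G ≠ 0 := by
  classical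
  let T : (Fin n → ℚ) →ₗ[ℚ] MvPolynomial (Fin n) ℂ :=
    { toFun := fun a => ∑ j, C ((a j : ℚ) : ℂ) * pderiv j G
      map_add' := fun a b => by
        rw [← Finset.sum_add_distrib]
        refine Finset.sum_congr rfl fun j _ => ?_
        rw [Pi.add_apply, Rat.cast_add, C_add, add_mul]
      map_smul' := fun q a => by
        rw [RingHom.id_apply, Finset.smul_sum]
        refine Finset.sum_congr rfl fun j _ => ?_
        rw [Pi.smul_apply, smul_eq_mul, Rat.cast_mul, C_mul, mul_assoc]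
        rw [Algebra.smul_def]
        rfl }
  have hT : ∀ a : Fin n → ℚ, T a = ∑ j, C ((a j : ℚ) : ℂ) * pderiv j G := fun a => rfl
  have hlt : LinearMap.ker T < ⊤ := by
    rw [lt_top_iff_ne_top]
    intro htop
    have h1 : (Pi.single j₀ (1 : ℚ) : Fin n → ℚ) ∈ LinearMap.ker T := by
      rw [htop]
      exact Submodule.mem_top
    rw [LinearMap.mem_ker, hT, Finset.sum_eq_single j₀] at h1
    · simp at h1
      exact hj₀ h1
    · intro b _ hb
      simp [hb]
    · simp
  obtain ⟨f, hf0, hf⟩ := Submodule.exists_le_ker_of_lt_top _ hlt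
  have hfs : ∀ a : Fin n → ℚ, f a = ∑ j, a j * f (Pi.single j 1) := by
    intro a
    conv_lhs => rw [pi_eq_sum_univ' a]
    rw [map_sum]
    refine Finset.sum_congr rfl fun j _ => ?_
    rw [map_smul, smul_eq_mul]
  set N : ℕ := ∏ j, (f (Pi.single j 1)).den with hN
  have hN0 : N ≠ 0 := Finset.prod_ne_zero_iff.2 fun i _ => (f (Pi.single i 1)).den_nz
  have hμ : ∀ j, ∃ a : ℤ, (a : ℚ) = f (Pi.single j 1) * N := by
    intro j
    obtain ⟨k, hk⟩ : (f (Pi.single j 1)).den ∣ N := Finset.dvd_prod_of_mem _ (Finset.mem_univ j)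
    refine ⟨(f (Pi.single j 1)).num * k, ?_⟩
    rw [hk]
    push_cast
    rw [← mul_assoc, Rat.mul_den_eq_num]
  choose μ hμ' using hμ
  refine ⟨μ, ?_, ?_⟩
  · intro h0
    apply hf0
    apply LinearMap.ext
    intro a
    rw [hfs, LinearMap.zero_apply]
    refine Finset.sum_eq_zero fun j _ => ?_
    have h1 := hμ' j
    rw [h0, Pi.zero_apply, Int.cast_zero] at h1
    rw [(mul_eq_zero.1 h1.symm).resolve_right (by exact_mod_cast hN0), mul_zero]
  · intro w hw h0
    apply hw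
    have h1 : (fun j => (w j : ℚ)) ∈ LinearMap.ker T := by
      rw [LinearMap.mem_ker, hT, ← h0]
      unfold dirD
      refine Finset.sum_congr rfl fun j _ => ?_
      norm_num
    have h2 := hf h1
    rw [LinearMap.mem_ker, hfs] at h2
    have h3 : ((∑ j, μ j * w j : ℤ) : ℚ) = 0 := by
      push_cast
      have h4 : (N : ℚ) * ∑ j, (w j : ℚ) * f (Pi.single j 1) = 0 := by rw [h2, mul_zero]
      rw [← h4, Finset.mul_sum]
      refine Finset.sum_congr rfl fun j _ => ?_
      rw [hμ' j]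
      ring
    exact_mod_cast h3

/-- THEOREM H'. -/
theorem mainH {n : ℕ} (hn : 2 ≤ n) (F G R : MvPolynomial (Fin n) ℂ) (hF : Irreducible F)
    (hG : Irreducible G) (hL : homogeneousComponent F.totalDegree F = G * R) (hGR : ¬ G ∣ R)
    (Q : Ideal (MvPolynomial (Fin n) ℂ)) (hQ : Q.IsPrime)
    (hY : ∀ j, (X j : MvPolynomial (Fin n) ℂ) ∉ Q)
    (hdim : Algebra.trdeg ℂ (MvPolynomial (Fin n) ℂ ⧸ Q) = 1)
    (hGW : (∀ v : Fin n → ℤ, v ≠ 0 → ∃ x : Fin n → ℂ, eval (fun j => x j + v j) G ≠ eval x G) ∨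
      ((∃ r, G.IsHomogeneous r) ∧
        (∀ (c : ℂ) (a : Fin n → ℤ), G ≠ C c * ∑ j, C (a j : ℂ) * X j) ∧
        ∀ μ : Fin n → ℤ, μ ≠ 0 → ∀ c : ℂ, ∃ w ∈ Tz Q, ∏ j, w j ^ μ j ≠ c))
    (h : MvPolynomial (Fin n ⊕ Fin n) ℂ)
    (hh : ∃ z w : Fin n → ℂ, eval z F = 0 ∧ w ∈ Tz Q ∧ eval (Sum.elim z w) h ≠ 0) :
    ∃ z : Fin n → ℂ, eval z F = 0 ∧ (fun j => Complex.exp (z j)) ∈ Tz Q ∧
      eval (Sum.elim z fun j => Complex.exp (z j)) h ≠ 0 := by
  obtain ⟨m, rfl⟩ : ∃ m, n = m + 1 := ⟨n - 1, by omega⟩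
  rcases hGW with hper | ⟨⟨r, hr⟩, hrat, hfree⟩
  · have hper' : ∀ v : Fin (m + 1) → ℤ, v ≠ 0 → dirD v G ≠ 0 := by
      intro v hv
      obtain ⟨x, hx⟩ := hper v hv
      exact dirD_ne_zero v G ⟨x, 1, by simpa using hx⟩
    obtain ⟨v, hvP, hv0⟩ := exists_punct Q hQ hY hdim
    exact core' F G R hF hG hL hGR (exists_dir hn G hper') Q hQ hY hdim v hvP (hper' v hv0) h hh
  · -- a vector orthogonal to all integer periods
    have hrat' := exists_dir' G hG hr hrat
    obtain ⟨w₁, -, hw₁⟩ := hrat' (fun _ => 1) (by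
      intro h0
      have := congrFun h0 0
      simp at this)
    obtain ⟨j₀, hj₀⟩ : ∃ j, pderiv j G ≠ 0 := by
      by_contra hcon
      push Not at hcon
      apply hw₁
      unfold dirD
      refine Finset.sum_eq_zero fun j _ => ?_
      rw [hcon j, mul_zero]
    obtain ⟨μ, hμ0, hμ⟩ := exists_orth G j₀ hj₀
    obtain ⟨v, hvP, hv⟩ := punct Q hQ hY hdim μ (hfree μ hμ0)
    exact core' F G R hF hG hL hGR hrat' Q hQ hY hdim v hvP (hμ v hv) h hh

end Pool.Agent.EXP
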