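import Pool.Agent.EXP.Defs

/-!
# EXP / AxIdeal: the ideal of an analytic germ of a curve in the torus (part A of AxGerm)
-/

set_option autoImplicit false

namespace Pool.Agent.EXP

open MvPolynomial Topology Filter

theorem ax_an {n : ℕ} (x : ℂ → Fin n → ℂ) (hx : ∀ j, AnalyticAt ℂ (fun t => x t j) 0)
    (f : MvPolynomial (Fin n) ℂ) :
    AnalyticAt ℂ (fun t => eval (fun j => Complex.exp (x t j)) f) 0 := by
  induction f using MvPolynomial.induction_on with
  | C a => simpa using analyticAt_const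
  | add p q hp hq => simpa using hp.fun_add hq
  | mul_X p j hp => simpa using hp.fun_mul (hx j).cexp

theorem ax_const {x : ℂ → ℂ} (hx : AnalyticAt ℂ x 0) {c : ℂ}
    (h : ∀ᶠ t in 𝓝 (0 : ℂ), Complex.exp (x t) = c) : ∀ᶠ t in 𝓝 (0 : ℂ), x t = x 0 := by
  have h0 : Complex.exp (x 0) = c := h.self_of_nhds
  have h1 : ∀ᶠ t in 𝓝 (0 : ℂ), ‖x t - x 0‖ < 1 := by
    have h2 : ContinuousAt (fun t => ‖x t - x 0‖) 0 :=
      (hx.continuousAt.sub continuousAt_const).norm
    exact h2.eventually_lt_const (by simp)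
  filter_upwards [h, h1] with t h2 h3
  rw [← h0, Complex.exp_eq_exp_iff_exists_int] at h2
  obtain ⟨m, hm⟩ := h2
  have hm0 : m = 0 := by
    by_contra hm0
    rw [hm, add_sub_cancel_left] at h3
    have h4 : ‖(m : ℂ) * (2 * (Real.pi : ℂ) * Complex.I)‖ = |(m : ℝ)| * (2 * Real.pi) := by
      rw [norm_mul, norm_mul, norm_mul, Complex.norm_I, Complex.norm_intCast, mul_one,
        Complex.norm_real, Real.norm_of_nonneg Real.pi_pos.le]
      simp
    rw [h4] at h3
    have h5 : (1 : ℝ) ≤ |(m : ℝ)| := by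
      have : (1 : ℤ) ≤ |m| := Int.one_le_abs hm0
      exact_mod_cast this
    have h6 := Real.pi_gt_three
    nlinarith
  rw [hm, hm0]
  simp

/-- the ideal of the germ -/
def axI {n : ℕ} (x : ℂ → Fin n → ℂ) : Ideal (MvPolynomial (Fin n) ℂ) where
  carrier := {f | ∀ᶠ t in 𝓝 (0 : ℂ), eval (fun j => Complex.exp (x t j)) f = 0}
  add_mem' := fun {a b} ha hb => by
    have ha' : ∀ᶠ t in 𝓝 (0 : ℂ), eval (fun j => Complex.exp (x t j)) a = 0 := ha
    have hb' : ∀ᶠ t in 𝓝 (0 : ℂ), eval (fun j => Complex.exp (x t j)) b = 0 := hb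
    show ∀ᶠ t in 𝓝 (0 : ℂ), eval (fun j => Complex.exp (x t j)) (a + b) = 0
    filter_upwards [ha', hb'] with t h1 h2
    rw [map_add, h1, h2, add_zero]
  zero_mem' := by
    show ∀ᶠ t in 𝓝 (0 : ℂ), eval (fun j => Complex.exp (x t j)) 0 = 0
    exact Eventually.of_forall fun t => map_zero _
  smul_mem' := fun c {a} ha => by
    have ha' : ∀ᶠ t in 𝓝 (0 : ℂ), eval (fun j => Complex.exp (x t j)) a = 0 := ha
    show ∀ᶠ t in 𝓝 (0 : ℂ), eval (fun j => Complex.exp (x t j)) (c • a) = 0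
    filter_upwards [ha'] with t h1
    rw [smul_eq_mul, map_mul, h1, mul_zero]

theorem mem_axI {n : ℕ} (x : ℂ → Fin n → ℂ) (f : MvPolynomial (Fin n) ℂ) :
    f ∈ axI x ↔ ∀ᶠ t in 𝓝 (0 : ℂ), eval (fun j => Complex.exp (x t j)) f = 0 := Iff.rfl

theorem axI_ne {n : ℕ} (x : ℂ → Fin n → ℂ) (hx : ∀ j, AnalyticAt ℂ (fun t => x t j) 0)
    (f : MvPolynomial (Fin n) ℂ) (hf : f ∉ axI x) :
    ∀ᶠ t in 𝓝[≠] (0 : ℂ), eval (fun j => Complex.exp (x t j)) f ≠ 0 := by
  rcases (ax_an x hx f).eventually_eq_zero_or_eventually_ne_zero with h | h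
  · exact absurd h hf
  · exact h

theorem axI_prime {n : ℕ} (x : ℂ → Fin n → ℂ) (hx : ∀ j, AnalyticAt ℂ (fun t => x t j) 0) :
    (axI x).IsPrime := by
  refine ⟨?_, ?_⟩
  · intro h
    have h1 : (1 : MvPolynomial (Fin n) ℂ) ∈ axI x := by rw [h]; trivial
    have h2 := ((mem_axI x 1).1 h1).self_of_nhds
    simp at h2
  · intro a b hab
    by_contra hcon
    push Not at hcon
    have h1 := axI_ne x hx a hcon.1
    have h2 := axI_ne x hx b hcon.2
    have h3 : ∀ᶠ t in 𝓝[≠] (0 : ℂ), eval (fun j => Complex.exp (x t j)) (a * b) = 0 :=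
      ((mem_axI x _).1 hab).filter_mono nhdsWithin_le_nhds
    obtain ⟨t, h4, h5, h6⟩ := (h1.and (h2.and h3)).exists
    rw [map_mul] at h6
    exact (mul_ne_zero h4 h5) h6

theorem axI_X {n : ℕ} (x : ℂ → Fin n → ℂ) (j : Fin n) :
    (X j : MvPolynomial (Fin n) ℂ) ∉ axI x := by
  intro h
  have h1 := ((mem_axI x _).1 h).self_of_nhds
  rw [eval_X] at h1
  exact Complex.exp_ne_zero _ h1

theorem axI_sub {n : ℕ} (x : ℂ → Fin n → ℂ) (hx : ∀ j, AnalyticAt ℂ (fun t => x t j) 0)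
    (i : Fin n) (hi : ¬ ∀ᶠ t in 𝓝 (0 : ℂ), x t i = x 0 i) (c : ℂ) :
    (X i - C c : MvPolynomial (Fin n) ℂ) ∉ axI x := by
  intro h
  refine hi (ax_const (x := fun t => x t i) (hx i) (c := c) ?_)
  filter_upwards [(mem_axI x _).1 h] with t ht
  rw [map_sub, eval_X, eval_C, sub_eq_zero] at ht
  exact ht

theorem axI_trdeg {n : ℕ} (x : ℂ → Fin n → ℂ) (hx : ∀ j, AnalyticAt ℂ (fun t => x t j) 0)
    (i : Fin n) (hi : ¬ ∀ᶠ t in 𝓝 (0 : ℂ), x t i = x 0 i)
    (hrel : ∀ j, ∃ P : MvPolynomial (Fin 2) ℂ, P ≠ 0 ∧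
      ∀ᶠ t in 𝓝 (0 : ℂ), eval ![Complex.exp (x t i), Complex.exp (x t j)] P = 0) :
    Algebra.trdeg ℂ (MvPolynomial (Fin n) ℂ ⧸ axI x) = 1 := by
  have hQ := axI_prime x hx
  have : IsDomain (MvPolynomial (Fin n) ℂ ⧸ axI x) := Ideal.Quotient.isDomain _
  set mk : MvPolynomial (Fin n) ℂ →ₐ[ℂ] MvPolynomial (Fin n) ℂ ⧸ axI x :=
    Ideal.Quotient.mkₐ ℂ (axI x) with hmk
  have hker : ∀ f, mk f = 0 ↔ f ∈ axI x := fun f => Ideal.Quotient.eq_zero_iff_mem
  have hsurj : Function.Surjective mk := Ideal.Quotient.mkₐ_surjective ℂ _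
  -- `mk (X i)` is transcendental
  have htr : Transcendental ℂ (mk (X i)) := by
    rw [transcendental_iff]
    intro p hp
    by_contra hp0
    have h1 : Polynomial.aeval (X i : MvPolynomial (Fin n) ℂ) p ∈ axI x := by
      rw [← hker, ← hp, Polynomial.aeval_algHom_apply]
    have h2 : ∀ᶠ t in 𝓝[≠] (0 : ℂ), ∀ c ∈ p.roots.toFinset, Complex.exp (x t i) ≠ c := by
      rw [Filter.eventually_all_finset]
      intro c _
      filter_upwards [axI_ne x hx _ (axI_sub x hx i hi c)] with t ht h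
      apply ht
      rw [map_sub, eval_X, eval_C, h, sub_self]
    have h3 : ∀ᶠ t in 𝓝[≠] (0 : ℂ), p.eval (Complex.exp (x t i)) = 0 := by
      refine Eventually.filter_mono nhdsWithin_le_nhds ?_
      filter_upwards [(mem_axI x _).1 h1] with t ht
      rw [← ht]
      have h4 : ((aeval (fun j => Complex.exp (x t j)) : MvPolynomial (Fin n) ℂ →ₐ[ℂ] ℂ))
          (Polynomial.aeval (X i : MvPolynomial (Fin n) ℂ) p) = p.eval (Complex.exp (x t i)) := by
        rw [← Polynomial.aeval_algHom_apply, aeval_X]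
        rfl
      rw [← h4]
      rfl
    obtain ⟨t, h4, h5⟩ := (h2.and h3).exists
    exact h4 _ (by simpa [Polynomial.mem_roots hp0] using h5) rfl
  have hind : AlgebraicIndependent ℂ (fun _ : Unit => mk (X i)) :=
    algebraicIndependent_unique_type_iff.mpr htr
  have halg : ∀ j, IsAlgebraic (Algebra.adjoin ℂ (Set.range fun _ : Unit => mk (X i)))
      (mk (X j)) := by
    intro j
    by_contra hcon
    have h1 := (hind.option_iff_transcendental (mk (X j))).2 hcon
    have hinj : Function.Injective (![some (), none] : Fin 2 → Option Unit) := by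
      intro a b hab
      fin_cases a <;> fin_cases b <;> simp_all
    have h2 := h1.comp ![some (), none] hinj
    obtain ⟨P, hP, hP0⟩ := hrel j
    have h3 : bind₁ (![X i, X j] : Fin 2 → MvPolynomial (Fin n) ℂ) P ∈ axI x := by
      rw [mem_axI]
      filter_upwards [hP0] with t ht
      rw [← ht]
      have h4 : ((aeval (fun j => Complex.exp (x t j)) : MvPolynomial (Fin n) ℂ →ₐ[ℂ] ℂ))
          (bind₁ (![X i, X j] : Fin 2 → MvPolynomial (Fin n) ℂ) P) =
          aeval ![Complex.exp (x t i), Complex.exp (x t j)] P := by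
        rw [aeval_bind₁]
        congr 2
        funext k
        fin_cases k <;> simp
      exact h4
    rw [← hker] at h3
    have h5 : mk (bind₁ (![X i, X j] : Fin 2 → MvPolynomial (Fin n) ℂ) P) =
        aeval ((fun o : Option Unit => o.elim (mk (X j)) fun _ => mk (X i)) ∘ ![some (), none]) P := by
      have h6 : mk.comp (bind₁ (![X i, X j] : Fin 2 → MvPolynomial (Fin n) ℂ)) =
          aeval ((fun o : Option Unit => o.elim (mk (X j)) fun _ => mk (X i)) ∘
            ![some (), none]) := by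
        apply MvPolynomial.algHom_ext
        intro k
        fin_cases k <;> simp
      exact congrArg (fun g : MvPolynomial (Fin 2) ℂ →ₐ[ℂ] _ => g P) h6
    rw [h5] at h3
    exact hP ((injective_iff_map_eq_zero _).1 h2 P h3)
  have hbas : IsTranscendenceBasis ℂ (fun _ : Unit => mk (X i)) := by
    rw [hind.isTranscendenceBasis_iff_isAlgebraic]
    constructor
    intro a
    obtain ⟨f, rfl⟩ := hsurj a
    induction f using MvPolynomial.induction_on with
    | C c =>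
      have h1 : mk (C c) = algebraMap (Algebra.adjoin ℂ (Set.range fun _ : Unit => mk (X i))) _
          (algebraMap ℂ _ c) := by
        rw [← IsScalarTower.algebraMap_apply]
        exact mk.commutes c
      rw [h1]
      exact isAlgebraic_algebraMap _
    | add p q hp hq =>
      rw [map_add]
      exact hp.add hq
    | mul_X p j hp =>
      rw [map_mul]
      exact hp.mul (halg j)
  have h := hbas.cardinalMk_eq_trdeg
  rw [← h]
  simp

theorem germ_ideal {n : ℕ} (x : ℂ → Fin n → ℂ) (hx : ∀ j, AnalyticAt ℂ (fun t => x t j) 0)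
    (i : Fin n) (hi : ¬ ∀ᶠ t in 𝓝 (0 : ℂ), x t i = x 0 i)
    (hrel : ∀ j, ∃ P : MvPolynomial (Fin 2) ℂ, P ≠ 0 ∧
      ∀ᶠ t in 𝓝 (0 : ℂ), eval ![Complex.exp (x t i), Complex.exp (x t j)] P = 0) :
    ∃ Q : Ideal (MvPolynomial (Fin n) ℂ), Q.IsPrime ∧
      (∀ j, (X j : MvPolynomial (Fin n) ℂ) ∉ Q) ∧
      Algebra.trdeg ℂ (MvPolynomial (Fin n) ℂ ⧸ Q) = 1 ∧
      (∀ c : ℂ, (X i - C c : MvPolynomial (Fin n) ℂ) ∉ Q) ∧
      ∀ f, f ∈ Q ↔ ∀ᶠ t in 𝓝 (0 : ℂ), eval (fun j => Complex.exp (x t j)) f = 0 :=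
  ⟨axI x, axI_prime x hx, axI_X x, axI_trdeg x hx i hi hrel, axI_sub x hx i hi, mem_axI x⟩

end Pool.Agent.EXP
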