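import Pool.Agent.EXP.Dens

/-!
# EXP / DensB: density of `c . Z^n`, `c` not proportional to a rational vector
-/

set_option autoImplicit false

namespace Pool.Agent.EXP

theorem dens_of_irr {n : ℕ} (c : Fin n → ℝ) (hc0 : c ≠ 0)
    (hc : ∀ μ : Fin n → ℤ, μ ≠ 0 → ∃ w : Fin n → ℤ, ∑ j, μ j * w j = 0 ∧ ∑ j, c j * w j ≠ 0)
    (θ ε : ℝ) (hε : 0 < ε) : ∃ l : Fin n → ℤ, |∑ j, c j * l j - θ| < ε := by
  classical
  obtain ⟨j, hj⟩ : ∃ j, c j ≠ 0 := by
    by_contra hcon
    push Not at hcon
    exact hc0 (funext hcon)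
  by_cases H : ∃ i, Irrational (c i / c j)
  · obtain ⟨i, hi⟩ := H
    have hij : i ≠ j := by
      rintro rfl
      rw [div_self hj] at hi
      exact hi ⟨1, by simp⟩
    obtain ⟨l, hl⟩ := dens (n := 2) le_rfl ![c i, c j] (by
      intro v hv h0
      rw [Fin.sum_univ_two] at h0
      simp only [Matrix.cons_val_zero, Matrix.cons_val_one] at h0
      by_cases h1 : v 0 = 0
      · rw [h1, Int.cast_zero, mul_zero, zero_add] at h0
        have h2 : v 1 = 0 := by
          have := (mul_eq_zero.1 h0).resolve_left hj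
          exact_mod_cast this
        apply hv
        funext k
        fin_cases k
        · exact h1
        · exact h2
      · apply hi
        refine ⟨(-(v 1) : ℚ) / (v 0 : ℚ), ?_⟩
        push_cast
        have h1' : (v 0 : ℝ) ≠ 0 := by exact_mod_cast h1
        field_simp
        linarith) θ ε hε
    refine ⟨fun k => if k = i then l 0 else if k = j then l 1 else 0, ?_⟩
    have h3 : ∑ k, c k * ((if k = i then l 0 else if k = j then l 1 else 0 : ℤ) : ℝ) =
        ∑ k, (![c i, c j] : Fin 2 → ℝ) k * l k := by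
      rw [Fin.sum_univ_two]
      simp only [Matrix.cons_val_zero, Matrix.cons_val_one]
      rw [← Finset.add_sum_erase _ _ (Finset.mem_univ i), ← Finset.add_sum_erase _ _
        (Finset.mem_erase.2 ⟨hij.symm, Finset.mem_univ j⟩)]
      rw [if_pos rfl, if_neg hij.symm, if_pos rfl, Finset.sum_eq_zero, add_zero]
      intro k hk
      rw [Finset.mem_erase, Finset.mem_erase] at hk
      rw [if_neg hk.2.1, if_neg hk.1, Int.cast_zero, mul_zero]
    rw [h3]
    exact hl
  · exfalso
    push Not at H
    have H' : ∀ i, ∃ q : ℚ, (q : ℝ) = c i / c j := by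
      intro i
      have := H i
      rw [Irrational, not_not] at this
      exact this
    choose q hq using H'
    set N : ℕ := ∏ i, (q i).den with hN
    have hN0 : N ≠ 0 := Finset.prod_ne_zero_iff.2 fun i _ => (q i).den_nz
    have hμ : ∀ i, ∃ a : ℤ, (a : ℚ) = q i * N := by
      intro i
      obtain ⟨k, hk⟩ : (q i).den ∣ N := Finset.dvd_prod_of_mem _ (Finset.mem_univ i)
      refine ⟨(q i).num * k, ?_⟩
      rw [hk]
      push_cast
      rw [← mul_assoc, Rat.mul_den_eq_num]
    choose μ hμ' using hμ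
    have hμr : ∀ i, (μ i : ℝ) = c i / c j * N := by
      intro i
      rw [← hq i]
      exact_mod_cast hμ' i
    obtain ⟨w, hw1, hw2⟩ := hc μ (by
      intro h0
      have h1 := hμr j
      rw [h0, div_self hj, one_mul, Pi.zero_apply, Int.cast_zero] at h1
      exact hN0 (by exact_mod_cast h1.symm))
    apply hw2
    have h1 : (∑ i, (μ i : ℝ) * w i) = 0 := by exact_mod_cast hw1
    have h2 : (N : ℝ) / c j * ∑ i, c i * w i = 0 := by
      rw [← h1, Finset.mul_sum]
      refine Finset.sum_congr rfl fun i _ => ?_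
      rw [hμr i]
      field_simp
    have h3 : (N : ℝ) / c j ≠ 0 := div_ne_zero (by exact_mod_cast hN0) hj
    exact (mul_eq_zero.1 h2).resolve_left h3

end Pool.Agent.EXP
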