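import Pool.Agent.EXP.MainA

/-!
# EXP / Dir: directional derivatives
-/

set_option autoImplicit false

namespace Pool.Agent.EXP

open MvPolynomial

theorem not_dvd_dirD' {n : ℕ} (v : Fin n → ℤ) (G : MvPolynomial (Fin n) ℂ)
    (h0 : dirD v G ≠ 0) : ¬ G ∣ dirD v G := by
  refine not_dvd_dirD v G ?_
  by_contra hcon
  push Not at hcon
  apply h0
  apply MvPolynomial.funext
  intro x
  rw [map_zero]
  have h1 := hasDerivAt_line v x G 0
  have h2 : (fun t : ℂ => eval (fun j => x j + t * v j) G) = fun _ => eval x G :=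
    _root_.funext fun t => hcon x t
  rw [h2] at h1
  have h3 := h1.unique (hasDerivAt_const (0 : ℂ) (eval x G))
  simpa using h3

/-- No integer period: for every `μ ≠ 0` some direction orthogonal to `μ`. -/
theorem exists_dir {n : ℕ} (hn : 2 ≤ n) (G : MvPolynomial (Fin n) ℂ)
    (hper : ∀ v : Fin n → ℤ, v ≠ 0 → dirD v G ≠ 0) (μ : Fin n → ℤ) (hμ : μ ≠ 0) :
    ∃ w : Fin n → ℤ, ∑ j, μ j * w j = 0 ∧ dirD w G ≠ 0 := by
  classical
  obtain ⟨i, hi⟩ : ∃ i, μ i ≠ 0 := by
    by_contra hcon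
    push Not at hcon
    exact hμ (_root_.funext hcon)
  obtain ⟨j, hj⟩ : ∃ j, j ≠ i := by
    haveI : Nontrivial (Fin n) := Fin.nontrivial_iff_two_le.2 hn
    exact exists_ne i
  refine ⟨Pi.single j (μ i) - Pi.single i (μ j), ?_, hper _ ?_⟩
  · simp only [Pi.sub_apply, mul_sub, Finset.sum_sub_distrib]
    rw [Finset.sum_eq_single j, Finset.sum_eq_single i]
    · simp only [Pi.single_eq_same]
      ring
    · intro b _ hb
      simp [hb]
    · simp
    · intro b _ hb
      simp [hb]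
    · simp
  · intro h0
    have h1 := congrFun h0 j
    simp [hj] at h1
    exact hi h1

theorem dirD_pair {n : ℕ} (G : MvPolynomial (Fin n) ℂ) (i j : Fin n) (a b : ℤ) :
    dirD (Pi.single i a + Pi.single j b) G =
      C (a : ℂ) * pderiv i G + C (b : ℂ) * pderiv j G := by
  classical
  unfold dirD
  simp only [Pi.add_apply, Int.cast_add, C_add, add_mul, Finset.sum_add_distrib]
  congr 1
  · rw [Finset.sum_eq_single i]
    · simp
    · intro b _ hb
      simp [hb]
    · simp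
  · rw [Finset.sum_eq_single j]
    · simp
    · intro b _ hb
      simp [hb]
    · simp

/-- `G` is not a rational linear form: for every `μ ≠ 0` some direction orthogonal to `μ`. -/
theorem exists_dir' {n r : ℕ} (G : MvPolynomial (Fin n) ℂ) (hG : Irreducible G)
    (hGh : G.IsHomogeneous r)
    (hrat : ∀ (c : ℂ) (a : Fin n → ℤ), G ≠ C c * ∑ j, C (a j : ℂ) * X j) (μ : Fin n → ℤ)
    (hμ : μ ≠ 0) : ∃ w : Fin n → ℤ, ∑ j, μ j * w j = 0 ∧ dirD w G ≠ 0 := by
  classical
  by_contra hcon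
  push Not at hcon
  obtain ⟨i, hi⟩ : ∃ i, μ i ≠ 0 := by
    by_contra hcon
    push Not at hcon
    exact hμ (_root_.funext hcon)
  have hi' : (μ i : ℂ) ≠ 0 := by exact_mod_cast hi
  have hrel : ∀ j, C (μ i : ℂ) * pderiv j G = C (μ j : ℂ) * pderiv i G := by
    intro j
    have h1 := hcon (Pi.single j (μ i) + Pi.single i (-(μ j))) (by
      simp only [Pi.add_apply, mul_add, Finset.sum_add_distrib]
      rw [Finset.sum_eq_single j, Finset.sum_eq_single i]
      · simp only [Pi.single_eq_same]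
        ring
      · intro b _ hb
        simp [hb]
      · simp
      · intro b _ hb
        simp [hb]
      · simp)
    rw [dirD_pair] at h1
    push_cast at h1
    rw [C_neg, neg_mul, ← sub_eq_add_neg, sub_eq_zero] at h1
    exact h1
  have heul : ∑ j, X j * pderiv j G = r • G := hGh.sum_X_mul_pderiv
  set ℓ : MvPolynomial (Fin n) ℂ := ∑ j, C (μ j : ℂ) * X j with hℓ
  have h1 : C (μ i : ℂ) * (r • G) = ℓ * pderiv i G := by
    rw [← heul, Finset.mul_sum, hℓ, Finset.sum_mul]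
    refine Finset.sum_congr rfl fun j _ => ?_
    calc C (μ i : ℂ) * (X j * pderiv j G) = X j * (C (μ i : ℂ) * pderiv j G) := by ring
      _ = _ := by rw [hrel j]; ring
  have hr : r ≠ 0 := by
    rintro rfl
    have h2 := totalDegree_eq_zero_iff_eq_C.1 (Nat.le_zero.1 hGh.totalDegree_le)
    rw [h2] at hG
    have h3 : coeff 0 G ≠ 0 := by
      intro h4
      rw [h4, C_0] at hG
      exact hG.ne_zero rfl
    exact hG.not_isUnit ((isUnit_iff_ne_zero.2 h3).map C)
  have hG1 : G = C ((μ i : ℂ) * r)⁻¹ * (ℓ * pderiv i G) := by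
    rw [← h1, nsmul_eq_mul, ← mul_assoc, ← mul_assoc]
    have h2 : ((r : MvPolynomial (Fin n) ℂ)) = C (r : ℂ) := by simp
    rw [h2, ← C_mul, ← C_mul]
    have h3 : ((μ i : ℂ) * r)⁻¹ * (μ i : ℂ) * r = 1 := by
      have : (r : ℂ) ≠ 0 := by exact_mod_cast hr
      field_simp
    rw [h3, C_1, one_mul]
  have hℓ' : ¬ IsUnit ℓ := by
    intro hu
    have h2 : eval (0 : Fin n → ℂ) ℓ = 0 := by
      rw [hℓ, map_sum]
      simp
    have h3 := hu.map (eval (0 : Fin n → ℂ))
    rw [h2] at h3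
    exact not_isUnit_zero h3
  have hu : IsUnit (C ((μ i : ℂ) * r)⁻¹ * pderiv i G) :=
    (hG.isUnit_or_isUnit (a := ℓ) (b := C ((μ i : ℂ) * r)⁻¹ * pderiv i G) (by
      rw [← mul_assoc, mul_comm ℓ, mul_assoc]
      exact hG1)).resolve_left hℓ'
  obtain ⟨c, hc, hc'⟩ := MvPolynomial.isUnit_iff_eq_C_of_isReduced.1 hu
  refine hrat c μ ?_
  rw [← hℓ, ← hc']
  calc G = C ((μ i : ℂ) * r)⁻¹ * (ℓ * pderiv i G) := hG1
    _ = _ := by ring

end Pool.Agent.EXP
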