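import Pool.Agent.EXP.Defs
import Pool.Agent.EXK.KTrd
import Pool.Agent.EXK.KKer

/-!
# EXP / FibreA: the transcendence degree of the base of a fibration over a hypersurface
-/

set_option autoImplicit false

namespace Pool.Agent.EXP

open MvPolynomial Topology Pool.Agent.EXL Pool.Agent.EXI Pool.Agent.EXK

private theorem fa_aut {ι : Type} (k : Subfield ℂ) (σ : ℂ ≃+* ℂ) (hσ : ∀ c ∈ k, σ c = c)
    (p : ι → ℂ) (f : MvPolynomial ι k) : aeval (fun i => σ (p i)) f = σ (aeval p f) := by
  induction f using MvPolynomial.induction_on with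
  | C a =>
    rw [aeval_C, aeval_C]
    exact (hσ _ a.2).symm
  | add f g hf hg => rw [map_add, map_add, map_add, hf, hg]
  | mul_X f i hf => rw [map_mul, map_mul, map_mul, hf, aeval_X, aeval_X]

/-- the field generated by `k` and the coefficients of `g` -/
private theorem fa_field {κ : Type} (k : Subfield ℂ) (hk : (k : Set ℂ).Countable)
    (g : MvPolynomial κ ℂ) : ∃ (k' : Subfield ℂ) (_ : (k' : Set ℂ).Countable) (_ : k ≤ k')
      (g' : MvPolynomial κ k'), map (algebraMap k' ℂ) g' = g := by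
  have hC : ((k : Set ℂ) ∪ (g.coeffs : Set ℂ)).Countable := hk.union (Finset.countable_toSet _)
  refine ⟨Subfield.closure ((k : Set ℂ) ∪ (g.coeffs : Set ℂ)), ?_, ?_, ?_⟩
  · rw [← Set.countable_coe_iff]
    refine Cardinal.mk_le_aleph0_iff.1 ((Subfield.cardinalMk_closure_le_max _).trans ?_)
    exact max_le (Cardinal.mk_le_aleph0_iff.2 hC.to_subtype) le_rfl
  · exact fun c hc => Subfield.subset_closure (Or.inl hc)
  · have : g ∈ Set.range (MvPolynomial.map (algebraMap
        (Subfield.closure ((k : Set ℂ) ∪ (g.coeffs : Set ℂ)) : Subfield ℂ) ℂ)) := by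
      rw [MvPolynomial.mem_range_map_iff_coeffs_subset]
      intro c hc
      exact ⟨⟨c, Subfield.subset_closure (Or.inr hc)⟩, rfl⟩
    exact this

theorem td_fibre {m : ℕ} (P : Ideal (MvPolynomial (Fin (m + 1) ⊕ Fin (m + 1)) ℂ)) (hP : P.IsPrime)
    (F : MvPolynomial (Fin (m + 1)) ℂ) (hF0 : F ≠ 0)
    (hF : ∀ f : MvPolynomial (Fin (m + 1)) ℂ, rename Sum.inl f ∈ P ↔ F ∣ f)
    (k : Subfield ℂ) (hk : (k : Set ℂ).Countable) (p : Fin (m + 1) ⊕ Fin (m + 1) → ℂ)
    (hp : ∀ f : MvPolynomial (Fin (m + 1) ⊕ Fin (m + 1)) k,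
      aeval p f = 0 ↔ map (algebraMap k ℂ) f ∈ P)
    (hx : ∀ x : Fin (m + 1) ⊕ Fin (m + 1) → ℂ,
      (∀ f : MvPolynomial (Fin (m + 1) ⊕ Fin (m + 1)) k,
        map (algebraMap k ℂ) f ∈ P → aeval x f = 0) → ∀ f ∈ P, eval x f = 0) :
    td (k : Set ℂ) (fun j => p (Sum.inl j)) = m := by
  classical
  set a : Fin (m + 1) → ℂ := fun j => p (Sum.inl j) with ha
  have hle : td (k : Set ℂ) a ≤ m + 1 := by
    have := rk_le_card (DerOver (k : Set ℂ)) a
    rwa [Fintype.card_fin] at this
  have hne : td (k : Set ℂ) a ≠ m + 1 := by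
    intro h
    have hind := (ind_iff k a).2 h
    obtain ⟨k', hk', hle', F', hF'⟩ := fa_field k hk F
    obtain ⟨z, _, hz⟩ := exists_ind_near k' hk' (m := m + 1) (fun _ => 0) 1 one_pos
    obtain ⟨y, hyd⟩ : ∃ y : Fin (m + 1) → ℂ, y = fun i => Complex.I * (z i : ℂ) := ⟨_, rfl⟩
    have hy : AlgebraicIndependent k' y := by rw [hyd]; exact hz
    rw [algebraicIndependent_iff] at hy hind
    have hyk : ∀ f : MvPolynomial (Fin (m + 1)) k, aeval y f = 0 → f = 0 := by
      intro f hf
      have h1 : map (Subfield.inclusion hle') f = 0 := by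
        apply hy
        rw [← hf, aeval_def, eval₂_map, aeval_def]
        rfl
      exact (map_injective _ (Subfield.inclusion hle').injective) (by rw [h1, map_zero])
    obtain ⟨σ, hσ1, hσ2⟩ := exists_aut k hk a y (fun f =>
      ⟨fun h => by rw [hind f h, map_zero], fun h => by rw [hyk f h, map_zero]⟩)
    have h1 := hx (fun i => σ (p i)) (fun f hf => by
      rw [fa_aut k σ hσ1, (hp f).2 hf, map_zero]) _ ((hF F).2 dvd_rfl)
    rw [eval_rename] at h1
    have h2 : ((fun i => σ (p i)) ∘ Sum.inl) = y := funext hσ2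
    rw [h2, ← hF', eval_map] at h1
    have h3 := hy F' h1
    apply hF0
    rw [← hF', h3, map_zero]
  have hv : F.vars.Nonempty := by
    rw [Finset.nonempty_iff_ne_empty]
    intro h
    rw [vars_eq_empty_iff_eq_C] at h
    apply hP.ne_top
    rw [Ideal.eq_top_iff_one]
    have h1 : F ∣ 1 := by
      have hc : coeff 0 F ≠ 0 := by
        intro h0
        apply hF0
        rw [h, h0, C_0]
      refine ⟨C (coeff 0 F)⁻¹, ?_⟩
      conv_rhs => rw [h]
      rw [coeff_C, if_pos rfl, ← C_mul, mul_inv_cancel₀ hc, C_1]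
    have h2 := (hF 1).2 h1
    rwa [map_one] at h2
  obtain ⟨i0, hi0⟩ := hv
  have hd : F.degreeOf i0 ≠ 0 := mem_vars_iff_degreeOf_ne_zero.1 hi0
  have hind : AlgebraicIndependent k (fun i : (Finset.univ.erase i0 : Finset (Fin (m + 1))) =>
      a i) := by
    rw [algebraicIndependent_iff]
    intro q hq
    by_contra hq0
    obtain ⟨g, hg⟩ : ∃ g : MvPolynomial (Fin (m + 1)) k, g =
      rename (fun i : (Finset.univ.erase i0 : Finset (Fin (m + 1))) => (i : Fin (m + 1))) q :=
      ⟨_, rfl⟩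
    have h1 : aeval p (rename Sum.inl g) = 0 := by
      rw [aeval_rename, hg, aeval_rename]
      exact hq
    have h1' := (hp _).1 h1
    rw [map_rename] at h1'
    obtain ⟨r, hr⟩ := (hF _).1 h1'
    have h2 : map (algebraMap k ℂ) g ≠ 0 := by
      intro h
      have h3 : g = 0 := (map_injective _ (algebraMap k ℂ).injective) (by rw [h, map_zero])
      rw [hg] at h3
      exact hq0 (rename_injective _ Subtype.val_injective (h3.trans (map_zero _).symm))
    have hr0 : r ≠ 0 := by
      rintro rfl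
      rw [mul_zero] at hr
      exact h2 hr
    have h3 : degreeOf i0 (map (algebraMap k ℂ) g) ≠ 0 := by
      rw [hr, degreeOf_mul_eq hF0 hr0]
      omega
    rw [← mem_vars_iff_degreeOf_ne_zero, hg, map_rename] at h3
    obtain ⟨i, -, hi⟩ := mem_vars_rename _ _ h3
    exact (Finset.mem_erase.1 i.2).1 hi
  have hge := card_le_td (k := k) a (Finset.univ.erase i0) hind
  have hr : Set.range (algebraMap k ℂ) = (k : Set ℂ) := by
    ext x
    constructor
    · rintro ⟨c, rfl⟩
      exact c.2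
    · intro hx
      exact ⟨⟨x, hx⟩, rfl⟩
  rw [hr, Finset.card_erase_of_mem (Finset.mem_univ _), Finset.card_univ, Fintype.card_fin] at hge
  omega

end Pool.Agent.EXP
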