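import Pool.Agent.EXP.Defs

/-!
# EXP / FinZ: a polynomial not in `Q` has finitely many zeros on the curve

PROOF.  `Q'` = `Q + (S)`: every coordinate `X j` is algebraic over `ℂ` modulo every prime `P' ⊇ Q'`
(`trdeg` drops: `P' ≠ Q`, `Q ⊂ P'`), or: `R = ℂ[Y]/Q` is a domain of transcendence degree one, `s` the
class of `S`, not zero. For each `j` the elements `s, x_j` are algebraically dependent over `ℂ`: there is
`G_j(T, X) ∈ ℂ[T, X]`, `G_j ≠ 0`, `G_j(s, x_j) = 0`, and dividing by powers of `T` (domain, `s ≠ 0`) we may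
assume that `G_j(0, X) ≠ 0`. If `w` is a zero of `Q` and of `S` then `G_j(0, w_j) = 0`: finitely many
possible values for every coordinate.
-/

set_option autoImplicit false

namespace Pool.Agent.EXP

open MvPolynomial

/-- evaluation of a polynomial in `T` with coefficients in `ℂ[X]` at `T = s`, `X = x` -/
private noncomputable def ps {A : Type} [CommRing A] [Algebra ℂ A] (s x : A) :
    Polynomial (MvPolynomial (Fin 1) ℂ) →+* A :=
  Polynomial.eval₂RingHom (aeval (R := ℂ) (fun _ : Fin 1 => x)).toRingHom s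

private lemma ps_fin {A : Type} [CommRing A] [Algebra ℂ A] (s x : A)
    (p : MvPolynomial (Fin 2) ℂ) :
    ps s x (finSuccEquiv ℂ 1 p) = aeval (fun i : Fin 2 => if i = 0 then s else x) p := by
  have h : (ps s x).comp (finSuccEquiv ℂ 1 : MvPolynomial (Fin 2) ℂ →+* _) =
      (aeval (R := ℂ) (fun i : Fin 2 => if i = 0 then s else x)).toRingHom := by
    apply MvPolynomial.ringHom_ext
    · intro r
      have h1 : (finSuccEquiv ℂ 1) (C r) = Polynomial.C (C r) := by
        have := (finSuccEquiv ℂ 1).commutes r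
        exact this
      show ps s x ((finSuccEquiv ℂ 1) (C r)) = aeval (fun i : Fin 2 => if i = 0 then s else x) (C r)
      rw [h1]
      show Polynomial.eval₂ _ s (Polynomial.C (C r)) = _
      rw [Polynomial.eval₂_C]
      show aeval (fun _ : Fin 1 => x) (C r) = _
      rw [aeval_C, aeval_C]
    · intro i
      show ps s x ((finSuccEquiv ℂ 1) (X i)) = aeval (fun i : Fin 2 => if i = 0 then s else x) (X i)
      rw [aeval_X]
      refine Fin.cases ?_ (fun j => ?_) i
      · rw [finSuccEquiv_X_zero]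
        show Polynomial.eval₂ _ s Polynomial.X = _
        rw [Polynomial.eval₂_X, if_pos rfl]
      · rw [finSuccEquiv_X_succ]
        show Polynomial.eval₂ _ s (Polynomial.C (X j)) = _
        rw [Polynomial.eval₂_C, if_neg (Fin.succ_ne_zero j)]
        show aeval (fun _ : Fin 1 => x) (X j) = _
        rw [aeval_X]
  exact congrArg (fun g : MvPolynomial (Fin 2) ℂ →+* A => g p) h

private lemma exists_c {n : ℕ} (Q : Ideal (MvPolynomial (Fin n) ℂ)) (hQ : Q.IsPrime)
    (hdim : Algebra.trdeg ℂ (MvPolynomial (Fin n) ℂ ⧸ Q) = 1) (S : MvPolynomial (Fin n) ℂ)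
    (hS : S ∉ Q) (j : Fin n) : ∃ c : Polynomial ℂ, c ≠ 0 ∧ ∀ w : Fin n → ℂ,
      (∀ f ∈ Q, eval w f = 0) → eval w S = 0 → c.eval (w j) = 0 := by
  haveI : IsDomain (MvPolynomial (Fin n) ℂ ⧸ Q) := Ideal.Quotient.isDomain Q
  set mk : MvPolynomial (Fin n) ℂ →ₐ[ℂ] MvPolynomial (Fin n) ℂ ⧸ Q := Ideal.Quotient.mkₐ ℂ Q with hmk
  have hker : ∀ f, mk f = 0 ↔ f ∈ Q := fun f => Ideal.Quotient.eq_zero_iff_mem
  have hs : mk S ≠ 0 := fun h => hS ((hker S).1 h)
  have hdep : ¬ AlgebraicIndependent ℂ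
      (fun i : Fin 2 => if i = 0 then mk S else mk (X j)) := by
    intro h
    have h1 := h.cardinalMk_le_trdeg
    rw [hdim, Cardinal.mk_fin] at h1
    simp at h1
  rw [AlgebraicIndependent, injective_iff_map_eq_zero] at hdep
  push Not at hdep
  obtain ⟨p, hp, hp0⟩ := hdep
  rw [← ps_fin] at hp
  have hq0 : finSuccEquiv ℂ 1 p ≠ 0 := fun h => hp0 ((finSuccEquiv ℂ 1).injective (by
    rw [h, map_zero]))
  obtain ⟨q, hq, hqX⟩ := Polynomial.exists_eq_pow_rootMultiplicity_mul_and_not_dvd _ hq0 0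
  rw [map_zero, sub_zero] at hq hqX
  have hq1 : ps (mk S) (mk (X j)) q = 0 := by
    rw [hq, map_mul, map_pow] at hp
    have h1 : ps (mk S) (mk (X j)) Polynomial.X = mk S := by
      show Polynomial.eval₂ _ _ Polynomial.X = _
      rw [Polynomial.eval₂_X]
    rw [h1] at hp
    exact (mul_eq_zero.1 hp).resolve_left (pow_ne_zero _ hs)
  have hc0 : q.coeff 0 ≠ 0 := fun h => hqX (Polynomial.X_dvd_iff.2 h)
  obtain ⟨p', hp'⟩ := (finSuccEquiv ℂ 1).surjective q
  rw [← hp', ps_fin] at hq1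
  have hmem : aeval (fun i : Fin 2 => if i = 0 then S else X j) p' ∈ Q := by
    rw [← hker, ← hq1, ← AlgHom.comp_apply, comp_aeval]
    congr 2
    funext i
    split_ifs <;> rfl
  refine ⟨uniqueAlgEquiv ℂ (Fin 1) (q.coeff 0), fun h => hc0 ((uniqueAlgEquiv ℂ (Fin 1)).injective
    (by rw [h, map_zero])), fun w hw hwS => ?_⟩
  have h1 := hw _ hmem
  have h2 : eval w (aeval (fun i : Fin 2 => if i = 0 then S else X j) p') =
      aeval (fun i : Fin 2 => if i = 0 then (0 : ℂ) else w j) p' := by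
    have h3 : (aeval w : MvPolynomial (Fin n) ℂ →ₐ[ℂ] ℂ)
        (aeval (fun i : Fin 2 => if i = 0 then S else X j) p') =
        aeval (fun i : Fin 2 => if i = 0 then (0 : ℂ) else w j) p' := by
      rw [← AlgHom.comp_apply, comp_aeval]
      congr 2
      funext i
      split_ifs
      · exact hwS
      · exact eval_X _
    exact h3
  rw [h2, ← ps_fin, hp'] at h1
  have h4 : ps (0 : ℂ) (w j) q = aeval (fun _ : Fin 1 => w j) (q.coeff 0) := by
    show Polynomial.eval₂ _ 0 q = _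
    rw [Polynomial.eval₂_at_zero]
    rfl
  rw [h4] at h1
  rw [← h1]
  have h5 : (Polynomial.aeval (w j)).comp (uniqueAlgEquiv ℂ (Fin 1)).toAlgHom =
      (aeval (fun _ : Fin 1 => w j) : MvPolynomial (Fin 1) ℂ →ₐ[ℂ] ℂ) := by
    apply MvPolynomial.algHom_ext
    intro i
    rw [aeval_X]
    show Polynomial.aeval (w j) (uniqueAlgEquiv ℂ (Fin 1) (X i)) = _
    simp
  exact congrArg (fun g : MvPolynomial (Fin 1) ℂ →ₐ[ℂ] ℂ => g (q.coeff 0)) h5

theorem fin_zeros {n : ℕ} (Q : Ideal (MvPolynomial (Fin n) ℂ)) (hQ : Q.IsPrime)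
    (hdim : Algebra.trdeg ℂ (MvPolynomial (Fin n) ℂ ⧸ Q) = 1) (S : MvPolynomial (Fin n) ℂ)
    (hS : S ∉ Q) : {w : Fin n → ℂ | (∀ f ∈ Q, eval w f = 0) ∧ eval w S = 0}.Finite := by
  choose c hc hw using exists_c Q hQ hdim S hS
  refine (Set.Finite.pi' (fun j => Polynomial.finite_setOf_isRoot (hc j))).subset ?_
  rintro w ⟨h1, h2⟩ j
  exact hw j w h1 h2

end Pool.Agent.EXP
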