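import Pool.Agent.EXP.Defs

/-!
# EXP / LocB: finiteness of the bad values (helper42)

PROOF. `p` is irreducible over `ℂ(z)` (Gauss), characteristic zero, so Bezout `U p + V p' = E(z) ≠ 0`.
-/

set_option autoImplicit false

namespace Pool.Agent.EXP

open Topology

theorem sep_finite (p : Polynomial (Polynomial ℂ)) (hm : p.Monic) (hirr : Irreducible p) :
    {z : ℂ | ¬ (p.map (Polynomial.evalRingHom z)).Separable}.Finite := by
  classical
  set R := Polynomial ℂ with hR
  set K := FractionRing R with hK
  have hinj : Function.Injective (algebraMap R K) := IsFractionRing.injective R K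
  have h1 : Irreducible (p.map (algebraMap R K)) :=
    (Polynomial.Monic.irreducible_iff_irreducible_map_fraction_map (K := K) hm).1 hirr
  have : CharZero K := charZero_of_injective_algebraMap hinj
  obtain ⟨a, b, hab⟩ := h1.separable
  obtain ⟨c, hcm, hc⟩ := IsLocalization.integerNormalization_spec (nonZeroDivisors R) a
  obtain ⟨d, hdm, hd⟩ := IsLocalization.integerNormalization_spec (nonZeroDivisors R) b
  set A := IsLocalization.integerNormalization (nonZeroDivisors R) a
  set B := IsLocalization.integerNormalization (nonZeroDivisors R) b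
  have key : Polynomial.C d * A * p + Polynomial.C c * B * Polynomial.derivative p =
      Polynomial.C (c * d) := by
    apply Polynomial.map_injective (algebraMap R K) hinj
    rw [Polynomial.map_add, Polynomial.map_mul, Polynomial.map_mul, Polynomial.map_mul,
      Polynomial.map_mul, hc, hd, Polynomial.map_C, Polynomial.map_C, Polynomial.map_C,
      ← Polynomial.derivative_map]
    have e1 : (c • a : Polynomial K) = Polynomial.C (algebraMap R K c) * a := by
      rw [← algebraMap_smul K c a, Polynomial.smul_eq_C_mul]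
    have e2 : (d • b : Polynomial K) = Polynomial.C (algebraMap R K d) * b := by
      rw [← algebraMap_smul K d b, Polynomial.smul_eq_C_mul]
    rw [e1, e2, map_mul, Polynomial.C_mul]
    linear_combination (Polynomial.C (algebraMap R K c) * Polynomial.C (algebraMap R K d)) * hab
  have hne : (c * d) ≠ 0 :=
    mul_ne_zero (nonZeroDivisors.ne_zero hcm) (nonZeroDivisors.ne_zero hdm)
  obtain ⟨A1, hA1⟩ : ∃ A1, A1 = Polynomial.C d * A := ⟨_, rfl⟩
  obtain ⟨B1, hB1⟩ : ∃ B1, B1 = Polynomial.C c * B := ⟨_, rfl⟩
  obtain ⟨E, hE⟩ : ∃ E, E = c * d := ⟨_, rfl⟩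
  rw [← hA1, ← hB1, ← hE] at key
  rw [← hE] at hne
  refine (E.rootSet_finite ℂ).subset ?_
  intro z hz
  by_contra hz2
  apply hz
  have hz3 : E.eval z ≠ 0 := by
    intro h
    apply hz2
    rw [Polynomial.mem_rootSet]
    exact ⟨hne, by rw [Polynomial.coe_aeval_eq_eval]; exact h⟩
  have h2 := congrArg (Polynomial.map (Polynomial.evalRingHom z)) key
  rw [Polynomial.map_add, Polynomial.map_mul, Polynomial.map_mul, ← Polynomial.derivative_map,
    Polynomial.map_C] at h2
  refine ⟨Polynomial.C (E.eval z)⁻¹ * (Polynomial.map (Polynomial.evalRingHom z) A1),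
    Polynomial.C (E.eval z)⁻¹ * (Polynomial.map (Polynomial.evalRingHom z) B1), ?_⟩
  rw [mul_assoc, mul_assoc, ← mul_add, h2, ← Polynomial.C_mul]
  have : (Polynomial.evalRingHom z) E = E.eval z := rfl
  rw [this, inv_mul_cancel₀ hz3, Polynomial.C_1]

end Pool.Agent.EXP
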