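import Pool.Agent.EXP.Defs

/-!
# EXP / LocC: polynomials from bounds

PROOF.  `g z = lim f` at every point: `g = f` off `S` and near a point of `S` it is the extension over the
removable singularity (`Complex.differentiableOn_update_limUnder_of_bddAbove`), so `g` is entire; Cauchy
estimates on large circles: the Taylor coefficients of index `> M` vanish.
-/

set_option autoImplicit false

namespace Pool.Agent.EXP

open Topology

private theorem entire_ext (S : Finset ℂ) (f : ℂ → ℂ) (hf : DifferentiableOn ℂ f (↑S)ᶜ)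
    (C : ℝ) (M : ℕ) (hb : ∀ z ∉ S, ‖f z‖ ≤ C * (1 + ‖z‖) ^ M) :
    ∃ g : ℂ → ℂ, Differentiable ℂ g ∧ ∀ z ∉ S, f z = g z := by
  classical
  have hop : ∀ T : Finset ℂ, IsOpen ((T : Set ℂ)ᶜ) := fun T =>
    T.finite_toSet.isClosed.isOpen_compl
  have hoff : ∀ z ∉ S, (𝓝[≠] z).limUnder f = f z := by
    intro z hz
    have h1 : ContinuousAt f z :=
      (hf.differentiableAt ((hop S).mem_nhds hz)).continuousAt
    exact (h1.tendsto.mono_left nhdsWithin_le_nhds).limUnder_eq
  refine ⟨fun z => (𝓝[≠] z).limUnder f, fun z => ?_, fun z hz => (hoff z hz).symm⟩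
  by_cases hz : z ∈ S
  · have hs : Metric.ball z 1 ∩ ((S.erase z : Finset ℂ) : Set ℂ)ᶜ ∈ 𝓝 z :=
      Filter.inter_mem (Metric.ball_mem_nhds z one_pos)
        ((hop _).mem_nhds (by simp))
    have hsub : ∀ w ∈ (Metric.ball z 1 ∩ ((S.erase z : Finset ℂ) : Set ℂ)ᶜ) \ {z}, w ∉ S := by
      rintro w ⟨⟨-, h2⟩, h3⟩ hw
      exact h2 (Finset.mem_coe.2 (Finset.mem_erase.2 ⟨h3, hw⟩))
    have h1 := Complex.differentiableOn_update_limUnder_of_bddAbove hs
      (hf.mono hsub) ⟨|C| * (2 + ‖z‖) ^ M, by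
        rintro _ ⟨w, hw, rfl⟩
        have h2 := hb w (hsub w hw)
        have h3 : ‖w‖ ≤ 1 + ‖z‖ := by
          have h4 : ‖w - z‖ < 1 := by
            have := hw.1.1
            rwa [Metric.mem_ball, dist_eq_norm] at this
          have h5 : ‖w‖ ≤ ‖w - z‖ + ‖z‖ := by
            calc ‖w‖ = ‖(w - z) + z‖ := by rw [sub_add_cancel]
              _ ≤ _ := norm_add_le _ _
          linarith
        show ‖f w‖ ≤ _
        refine h2.trans ?_
        calc C * (1 + ‖w‖) ^ M ≤ |C| * (1 + ‖w‖) ^ M :=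
              mul_le_mul_of_nonneg_right (le_abs_self C) (by positivity)
          _ ≤ |C| * (2 + ‖z‖) ^ M := by
              refine mul_le_mul_of_nonneg_left ?_ (abs_nonneg C)
              exact pow_le_pow_left₀ (by positivity) (by linarith) M⟩
    have h2 := h1.differentiableAt hs
    refine h2.congr_of_eventuallyEq ?_
    filter_upwards [hs] with w hw
    by_cases hwz : w = z
    · subst hwz
      rw [Function.update_self]
    · rw [Function.update_of_ne hwz]
      exact hoff w (hsub w ⟨hw, hwz⟩)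
  · have h1 : DifferentiableAt ℂ f z := hf.differentiableAt ((hop S).mem_nhds hz)
    refine h1.congr_of_eventuallyEq ?_
    filter_upwards [(hop S).mem_nhds hz] with w hw
    exact hoff w hw

theorem poly_of_bound (S : Finset ℂ) (f : ℂ → ℂ) (hf : DifferentiableOn ℂ f (↑S)ᶜ)
    (C : ℝ) (M : ℕ) (hb : ∀ z ∉ S, ‖f z‖ ≤ C * (1 + ‖z‖) ^ M) :
    ∃ q : Polynomial ℂ, ∀ z ∉ S, f z = q.eval z := by
  obtain ⟨g, hg, hfg⟩ := entire_ext S f hf C M hb
  -- large circles avoid `S`
  obtain ⟨R₀, hR₀⟩ : ∃ R₀ : ℝ, R₀ = 1 + ∑ s ∈ S, ‖s‖ := ⟨_, rfl⟩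
  have hR₀1 : 1 ≤ R₀ := by
    rw [hR₀]
    linarith [Finset.sum_nonneg fun s (_ : s ∈ S) => norm_nonneg s]
  have hlarge : ∀ w : ℂ, R₀ ≤ ‖w‖ → w ∉ S := by
    intro w hw hwS
    have h1 : ‖w‖ ≤ ∑ s ∈ S, ‖s‖ :=
      Finset.single_le_sum (f := fun s : ℂ => ‖s‖) (fun s _ => norm_nonneg s) hwS
    rw [hR₀] at hw
    linarith
  have hzero : ∀ n, M < n → iteratedDeriv n g 0 = 0 := by
    intro n hn
    have hbd : ∀ R : ℝ, R₀ ≤ R → ‖iteratedDeriv n g 0‖ ≤
        (n.factorial * (|C| * 2 ^ M)) / R := by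
      intro R hR
      have hR0 : 0 < R := by linarith
      have h1 := Complex.norm_iteratedDeriv_le_of_forall_mem_sphere_norm_le (c := 0) n hR0
        hg.diffContOnCl (C := C * (1 + R) ^ M) (fun z hz => by
          have h2 : ‖z‖ = R := by simpa using hz
          have h3 := hb z (hlarge z (by rw [h2]; exact hR))
          rw [hfg z (hlarge z (by rw [h2]; exact hR)), h2] at h3
          exact h3)
      refine h1.trans ?_
      have h4 : C * (1 + R) ^ M ≤ |C| * (2 ^ M * R ^ M) := by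
        calc C * (1 + R) ^ M ≤ |C| * (1 + R) ^ M :=
              mul_le_mul_of_nonneg_right (le_abs_self C) (by positivity)
          _ ≤ |C| * (2 * R) ^ M := by
              refine mul_le_mul_of_nonneg_left ?_ (abs_nonneg C)
              exact pow_le_pow_left₀ (by positivity) (by linarith) M
          _ = _ := by rw [mul_pow]
      have h5 : R ^ M * R ≤ R ^ n := by
        rw [← pow_succ]
        exact pow_le_pow_right₀ (by linarith) hn
      rw [div_le_div_iff₀ (by positivity) hR0]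
      calc (n.factorial : ℝ) * (C * (1 + R) ^ M) * R
          ≤ (n.factorial : ℝ) * (|C| * (2 ^ M * R ^ M)) * R := by gcongr
        _ = (n.factorial * (|C| * 2 ^ M)) * (R ^ M * R) := by ring
        _ ≤ (n.factorial * (|C| * 2 ^ M)) * R ^ n :=
            mul_le_mul_of_nonneg_left h5 (by positivity)
    have hlim : Filter.Tendsto (fun R : ℝ => (n.factorial * (|C| * 2 ^ M)) / R) Filter.atTop
        (𝓝 0) := Filter.Tendsto.div_atTop tendsto_const_nhds Filter.tendsto_id
    have h6 : ‖iteratedDeriv n g 0‖ ≤ 0 :=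
      ge_of_tendsto hlim (by
        filter_upwards [Filter.eventually_ge_atTop R₀] with R hR
        exact hbd R hR)
    exact norm_le_zero_iff.1 h6
  refine ⟨∑ n ∈ Finset.range (M + 1), Polynomial.C ((n.factorial : ℂ)⁻¹ * iteratedDeriv n g 0) *
    Polynomial.X ^ n, fun z hz => ?_⟩
  rw [hfg z hz, Polynomial.eval_finsetSum]
  have h1 := Complex.hasSum_taylorSeries_of_entire hg 0 z
  have h2 : HasSum (fun n : ℕ => (n.factorial : ℂ)⁻¹ • (z - 0) ^ n • iteratedDeriv n g 0)
      (∑ n ∈ Finset.range (M + 1), (n.factorial : ℂ)⁻¹ • (z - 0) ^ n • iteratedDeriv n g 0) := by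
    refine hasSum_sum_of_ne_finset_zero fun n hn => ?_
    rw [Finset.mem_range, not_lt] at hn
    rw [hzero n (by omega), smul_zero, smul_zero]
  rw [h1.unique h2]
  refine Finset.sum_congr rfl fun n _ => ?_
  rw [Polynomial.eval_mul, Polynomial.eval_C, Polynomial.eval_pow, Polynomial.eval_X, sub_zero,
    smul_eq_mul, smul_eq_mul]
  ring

end Pool.Agent.EXP
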