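import Mathlib

/-!
# EXP / MainA: small lemmas for the assembly
-/

set_option autoImplicit false

namespace Pool.Agent.EXP

open MvPolynomial

/-- The derivative of `G` in the direction `v`. -/
noncomputable def dirD {n : ℕ} (v : Fin n → ℤ) (G : MvPolynomial (Fin n) ℂ) :
    MvPolynomial (Fin n) ℂ :=
  ∑ j, C (v j : ℂ) * pderiv j G

theorem hasDerivAt_line {n : ℕ} (v : Fin n → ℤ) (x : Fin n → ℂ) (G : MvPolynomial (Fin n) ℂ)
    (t : ℂ) : HasDerivAt (fun t : ℂ => eval (fun j => x j + t * v j) G)
      (eval (fun j => x j + t * v j) (dirD v G)) t := by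
  unfold dirD
  induction G using MvPolynomial.induction_on with
  | C a => simpa using hasDerivAt_const t a
  | add p q hp hq =>
    have h := hp.add hq
    simp only [map_add, mul_add, Finset.sum_add_distrib]
    exact h
  | mul_X p i hp =>
    have h1 : HasDerivAt (fun t : ℂ => x i + t * v i) (v i : ℂ) t := by
      simpa using ((hasDerivAt_id t).mul_const (v i : ℂ)).const_add (x i)
    have h := hp.mul h1
    simp only [map_mul, eval_X]
    refine h.congr_deriv ?_
    simp only [map_sum, map_mul, eval_C, Derivation.leibniz, smul_eq_mul, map_add, eval_X,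
      pderiv_X, mul_add, Finset.sum_add_distrib, Finset.sum_mul]
    rw [add_comm]
    have h2 : ∑ j, (v j : ℂ) * (eval (fun j => x j + t * v j) p *
        eval (fun j => x j + t * v j) ((Pi.single j 1 : Fin n → MvPolynomial (Fin n) ℂ) i)) =
        eval (fun j => x j + t * v j) p * v i := by
      rw [Finset.sum_eq_single i]
      · simp
        ring
      · intro b _ hb
        simp [hb.symm]
      · simp
    rw [h2, ← Finset.sum_add_distrib]
    congr 1
    refine Finset.sum_congr rfl fun j _ => ?_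
    ring

theorem dirD_ne_zero {n : ℕ} (v : Fin n → ℤ) (G : MvPolynomial (Fin n) ℂ)
    (hv : ∃ (x : Fin n → ℂ) (t : ℂ), eval (fun j => x j + t * v j) G ≠ eval x G) :
    dirD v G ≠ 0 := by
  intro h0
  obtain ⟨x, t, hxt⟩ := hv
  apply hxt
  have hd : ∀ s : ℂ, HasDerivAt (fun t : ℂ => eval (fun j => x j + t * v j) G) 0 s := by
    intro s
    have h := hasDerivAt_line v x G s
    rwa [h0, map_zero] at h
  have h1 := is_const_of_deriv_eq_zero (fun s => (hd s).differentiableAt) (fun s => (hd s).deriv)
    t 0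
  simpa using h1

theorem not_dvd_dirD {n : ℕ} (v : Fin n → ℤ) (G : MvPolynomial (Fin n) ℂ)
    (hv : ∃ (x : Fin n → ℂ) (t : ℂ), eval (fun j => x j + t * v j) G ≠ eval x G) :
    ¬ G ∣ dirD v G := by
  rintro ⟨q, hq⟩
  have h0 := dirD_ne_zero v G hv
  have hG : G ≠ 0 := by
    rintro rfl
    rw [zero_mul] at hq
    exact h0 hq
  have hq0 : q ≠ 0 := by
    rintro rfl
    rw [mul_zero] at hq
    exact h0 hq
  have h1 : (dirD v G).totalDegree = G.totalDegree + q.totalDegree := by
    rw [hq, totalDegree_mul_of_isDomain hG hq0]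
  obtain ⟨μ, hμ, hμd⟩ : ∃ μ ∈ (dirD v G).support, (dirD v G).totalDegree = μ.degree := by
    have h2 := Finset.exists_mem_eq_sup (dirD v G).support
      (MvPolynomial.support_nonempty.2 h0) (fun μ => μ.sum fun _ e => e)
    obtain ⟨μ, hμ, h3⟩ := h2
    exact ⟨μ, hμ, by rw [totalDegree, h3]; rfl⟩
  rw [mem_support_iff] at hμ
  have h2 : ∃ j, coeff (μ + Finsupp.single j 1) G ≠ 0 := by
    by_contra hcon
    push Not at hcon
    apply hμ
    unfold dirD
    rw [coeff_sum]
    refine Finset.sum_eq_zero fun j _ => ?_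
    rw [coeff_C_mul, coeff_pderiv, hcon j]
    simp
  obtain ⟨j, hj⟩ := h2
  have h3 := le_totalDegree (mem_support_iff.2 hj)
  have h4 : (μ + Finsupp.single j 1).sum (fun _ e => e) = μ.degree + 1 := by
    change (μ + Finsupp.single j 1).degree = _
    rw [map_add, Finsupp.degree_single]
  omega

theorem degreeOf_pos {m : ℕ} (G : MvPolynomial (Fin (m + 1)) ℂ)
    (hper : ∀ v : Fin (m + 1) → ℤ, v ≠ 0 → ∃ (x : Fin (m + 1) → ℂ) (t : ℂ),
      eval (fun j => x j + t * v j) G ≠ eval x G) : 0 < degreeOf 0 G := by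
  by_contra hcon
  have h0 : degreeOf 0 G = 0 := by omega
  obtain ⟨x, t, hxt⟩ := hper (Pi.single 0 1) (by
    intro h
    have := congrFun h 0
    simp at this)
  apply hxt
  rw [eval_eq, eval_eq]
  refine Finset.sum_congr rfl fun μ hμ => ?_
  congr 1
  refine Finset.prod_congr rfl fun j _ => ?_
  by_cases hj : j = 0
  · subst hj
    have h1 := monomial_le_degreeOf 0 hμ
    have h2 : μ 0 = 0 := by omega
    rw [h2, pow_zero, pow_zero]
  · simp [hj]

theorem not_dvd_rename {m : ℕ} (G : MvPolynomial (Fin (m + 1)) ℂ) (hG : 0 < degreeOf 0 G)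
    (S : MvPolynomial (Fin m) ℂ) (hS : S ≠ 0) : ¬ G ∣ rename Fin.succ S := by
  rintro ⟨q, hq⟩
  have hS' : rename Fin.succ S ≠ 0 := by
    intro h
    exact hS (rename_injective _ (Fin.succ_injective m) (by rw [h, map_zero]))
  have hG0 : G ≠ 0 := by
    rintro rfl
    simp at hG
  have hq0 : q ≠ 0 := by
    rintro rfl
    rw [mul_zero] at hq
    exact hS' hq
  have h1 : degreeOf 0 (rename Fin.succ S) = degreeOf 0 G + degreeOf 0 q := by
    rw [hq, degreeOf_mul_eq hG0 hq0]
  have h2 : degreeOf 0 (rename (Fin.succ : Fin m → Fin (m + 1)) S) = 0 := by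
    rw [← Nat.le_zero, degreeOf_le_iff]
    intro μ hμ
    obtain ⟨ν, rfl, _⟩ := coeff_rename_ne_zero _ _ _ (mem_support_iff.1 hμ)
    rw [Finsupp.mapDomain_of_notMem_range]
    rintro ⟨i, hi⟩
    exact Fin.succ_ne_zero i hi
  omega

theorem top_ne_zero {n : ℕ} (s : MvPolynomial (Fin n) ℂ) (hs : s ≠ 0) :
    homogeneousComponent s.totalDegree s ≠ 0 := by
  obtain ⟨μ, hμ, h3⟩ := Finset.exists_mem_eq_sup s.support
    (MvPolynomial.support_nonempty.2 hs) (fun μ => μ.sum fun _ e => e)
  intro h0
  have h1 : coeff μ (homogeneousComponent s.totalDegree s) = 0 := by rw [h0, coeff_zero]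
  rw [coeff_homogeneousComponent, if_pos] at h1
  · exact (mem_support_iff.1 hμ) h1
  · rw [totalDegree, h3]
    rfl

theorem homogeneousComponent_map {σ A B : Type} [CommRing A] [CommRing B] (f : A →+* B) (D : ℕ)
    (E : MvPolynomial σ A) :
    homogeneousComponent D (map f E) = map f (homogeneousComponent D E) := by
  ext μ
  rw [coeff_homogeneousComponent, coeff_map, coeff_map, coeff_homogeneousComponent]
  split_ifs
  · rfl
  · rw [map_zero]

/-- Value of the top part. -/
theorem eval_top {m n : ℕ} (E : MvPolynomial (Fin m) (MvPolynomial (Fin n) ℂ)) (D : ℕ)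
    (α : Fin m → ℂ) (w : Fin n → ℂ) :
    eval α (homogeneousComponent D (map (eval w) E)) =
      eval w (eval (fun j => C (α j)) (homogeneousComponent D E)) := by
  rw [homogeneousComponent_map, eval_map]
  have h : ∀ P : MvPolynomial (Fin m) (MvPolynomial (Fin n) ℂ),
      eval₂ (eval w) α P = eval w (eval (fun j => C (α j)) P) := by
    intro P
    induction P using MvPolynomial.induction_on with
    | C a => simp
    | add p q hp hq => simp [hp, hq]
    | mul_X p i hp => simp [hp]
  exact h _

end Pool.Agent.EXP
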