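import Pool.Agent.EXP.Main
import Pool.Agent.EXP.Dir
import Pool.Agent.EXP.DensB

/-!
# EXP / MainB: the core of the product theorem
-/

set_option autoImplicit false

namespace Pool.Agent.EXP

open MvPolynomial Filter Topology

theorem line_of_dirD {n : ℕ} (v : Fin n → ℤ) (G : MvPolynomial (Fin n) ℂ) (h0 : dirD v G ≠ 0) :
    ∃ (x : Fin n → ℂ) (t : ℂ), eval (fun j => x j + t * v j) G ≠ eval x G := by
  by_contra hcon
  push Not at hcon
  apply h0
  apply MvPolynomial.funext
  intro x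
  rw [map_zero]
  have h1 := hasDerivAt_line v x G 0
  have h2 : (fun t : ℂ => eval (fun j => x j + t * v j) G) = fun _ => eval x G :=
    _root_.funext fun t => hcon x t
  rw [h2] at h1
  have h3 := h1.unique (hasDerivAt_const (0 : ℂ) (eval x G))
  simpa using h3

/-- The core: a puncture with order vector `v`, `D_v G ≠ 0`; `G` involves `X_0` and is not a rational linear
form. -/
theorem core {m : ℕ} (F G R : MvPolynomial (Fin (m + 1)) ℂ) (hF : Irreducible F)
    (hG : Irreducible G) (hL : homogeneousComponent F.totalDegree F = G * R) (hGR : ¬ G ∣ R)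
    (hG0 : 0 < degreeOf 0 G)
    (hrat : ∀ μ : Fin (m + 1) → ℤ, μ ≠ 0 → ∃ w : Fin (m + 1) → ℤ,
      ∑ j, μ j * w j = 0 ∧ dirD w G ≠ 0)
    (Q : Ideal (MvPolynomial (Fin (m + 1)) ℂ)) (hQ : Q.IsPrime)
    (hY : ∀ j, (X j : MvPolynomial (Fin (m + 1)) ℂ) ∉ Q)
    (hdim : Algebra.trdeg ℂ (MvPolynomial (Fin (m + 1)) ℂ ⧸ Q) = 1)
    (v : Fin (m + 1) → ℤ) (hvP : Punct Q v) (hvG : dirD v G ≠ 0)
    (h : MvPolynomial (Fin (m + 1) ⊕ Fin (m + 1)) ℂ)
    (hh : ∃ z w : Fin (m + 1) → ℂ, eval z F = 0 ∧ w ∈ Tz Q ∧ eval (Sum.elim z w) h ≠ 0) :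
    ∃ z : Fin (m + 1) → ℂ, eval z F = 0 ∧ (fun j => Complex.exp (z j)) ∈ Tz Q ∧
      eval (Sum.elim z fun j => Complex.exp (z j)) h ≠ 0 := by
  classical
  obtain ⟨z₁, w₁, hz₁, hw₁, hh₁⟩ := hh
  have hF0 := degreeOf_pos_of_top F G R hF.ne_zero hG0 hL
  obtain ⟨E, hE₁, hE⟩ := elim F hF hF0 h w₁ (by
    rintro ⟨q, hq⟩
    apply hh₁
    have h1 : eval z₁ (aeval (Sum.elim X fun j => C (w₁ j)) h) = eval (Sum.elim z₁ w₁) h := by
      have h2 : ∀ P : MvPolynomial (Fin (m + 1) ⊕ Fin (m + 1)) ℂ,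
          eval z₁ (aeval (Sum.elim X fun j => C (w₁ j)) P) = eval (Sum.elim z₁ w₁) P := by
        intro P
        induction P using MvPolynomial.induction_on with
        | C a => simp
        | add p q hp hq => rw [map_add, map_add, hp, hq, map_add]
        | mul_X p i hp =>
          rw [map_mul, map_mul, hp, map_mul, aeval_X, eval_X]
          rcases i with i | i <;> simp
      exact h2 h
    rw [← h1, hq, map_mul, hz₁, zero_mul])
  have hfin : ∀ z : Fin (m + 1) → ℂ, eval z F = 0 → (fun j => Complex.exp (z j)) ∈ Tz Q →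
      eval (fun j => z j.succ) (map (eval fun j => Complex.exp (z j)) E) ≠ 0 →
      ∃ z : Fin (m + 1) → ℂ, eval z F = 0 ∧ (fun j => Complex.exp (z j)) ∈ Tz Q ∧
      eval (Sum.elim z fun j => Complex.exp (z j)) h ≠ 0 :=
    fun z h1 h2 h3 => ⟨z, h1, h2, fun h4 => h3 (hE z _ h1 h4)⟩
  obtain ⟨u, hu, hu0, hW⟩ := hvP
  have hv0 : v ≠ 0 := by
    rintro rfl
    apply hvG
    unfold dirD
    simp
  obtain ⟨μ₁, hμ₁⟩ : ∃ μ, eval w₁ (coeff μ E) ≠ 0 := by
    by_contra hcon
    push Not at hcon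
    apply hE₁
    ext μ
    rw [coeff_map, hcon, coeff_zero]
  obtain ⟨N, a, s, hs0, ha, has, haE⟩ := exists_order v u hu hu0 E
    ⟨μ₁, puncture_dense Q hQ hdim v hv0 u hu hu0 hW _ (fun hmem => hμ₁ (hw₁.1 _ hmem))⟩
  obtain ⟨D, w₂, hw₂, hD, hD₂⟩ := exists_max_degree (Tz Q) E w₁ hw₁ hE₁
  set 𝒮 : Set (MvPolynomial (Fin (m + 1)) ℂ) := {S | ¬ G ∣ S ∧ (S = R ∨
    S = map (starRingEnd ℂ) G ∨ S = rename Fin.succ (homogeneousComponent s.totalDegree s) ∨
    S = rename Fin.succ (homogeneousComponent D (map (eval w₂) E)) ∨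
    ∃ w : Fin (m + 1) → ℤ, S = dirD w G)} with h𝒮
  have hcount : 𝒮.Countable := by
    refine Set.Countable.mono (s₂ := ({R, map (starRingEnd ℂ) G,
      rename Fin.succ (homogeneousComponent s.totalDegree s),
      rename Fin.succ (homogeneousComponent D (map (eval w₂) E))} :
        Set (MvPolynomial (Fin (m + 1)) ℂ)) ∪ Set.range fun w : Fin (m + 1) → ℤ => dirD w G) ?_
      ((Set.toFinite _).countable.union (Set.countable_range _))
    rintro S ⟨-, h1 | h1 | h1 | h1 | ⟨w, h1⟩⟩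
    · exact Or.inl (by simp [h1])
    · exact Or.inl (by simp [h1])
    · exact Or.inl (by simp [h1])
    · exact Or.inl (by simp [h1])
    · exact Or.inr ⟨w, h1.symm⟩
  haveI : Countable 𝒮 := hcount.to_subtype
  obtain ⟨y, ρ, hGρ, hσ, hS⟩ := gen G hG v (line_of_dirD v G hvG) (fun i : 𝒮 => i.1) (fun i => i.2.1)
  have hS' : ∀ S, ¬ G ∣ S → (S = R ∨
      S = map (starRingEnd ℂ) G ∨ S = rename Fin.succ (homogeneousComponent s.totalDegree s) ∨
      S = rename Fin.succ (homogeneousComponent D (map (eval w₂) E)) ∨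
      ∃ w : Fin (m + 1) → ℤ, S = dirD w G) → eval (fun j => (y j : ℂ) + ρ * v j) S ≠ 0 :=
    fun S h1 h2 => hS ⟨S, h1, h2⟩
  have hRρ := hS' R hGR (Or.inl rfl)
  have hsρ := hS' _ (not_dvd_rename G hG0 _ (top_ne_zero s hs0)) (Or.inr (Or.inr (Or.inl rfl)))
  have hDρ := hS' _ (not_dvd_rename G hG0 _ hD₂) (Or.inr (Or.inr (Or.inr (Or.inl rfl))))
  rw [eval_rename] at hsρ hDρ
  by_cases hρ : ρ.im = 0
  · -- the real case
    set α : Fin (m + 1) → ℝ := fun j => y j + ρ.re * v j with hα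
    have hρ' : (ρ.re : ℂ) = ρ := Complex.ext (by simp) (by simp [hρ])
    have hα' : (fun j => (α j : ℂ)) = fun j => (y j : ℂ) + ρ * v j := by
      funext j
      rw [hα]
      push_cast
      rw [hρ']
    rw [← hα'] at hGρ hRρ hsρ hDρ
    obtain ⟨ω, hω, hωc⟩ := real_of_generic G hG α hGρ (by
      intro h0
      by_contra h1
      have h2 := hS' _ h1 (Or.inr (Or.inl rfl))
      rw [← hα'] at h2
      exact h2 h0)
    choose c hc using hωc
    have hcv : ∀ w : Fin (m + 1) → ℤ, dirD w G ≠ 0 → ∑ j, c j * w j ≠ 0 := by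
      intro w hw h0
      have h1 := hS' (dirD w G) (not_dvd_dirD' w G hw)
        (Or.inr (Or.inr (Or.inr (Or.inr ⟨w, rfl⟩))))
      rw [← hα'] at h1
      apply h1
      have h2 : ω * eval (fun j => (α j : ℂ)) (dirD w G) = ((∑ j, c j * w j : ℝ) : ℂ) := by
        unfold dirD
        push_cast
        rw [map_sum, Finset.mul_sum]
        refine Finset.sum_congr rfl fun j _ => ?_
        rw [← hc j, pderiv_C_mul, map_mul, map_mul, eval_C, eval_C]
        ring
      rw [h0, Complex.ofReal_zero] at h2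
      exact (mul_eq_zero.1 h2).resolve_left hω
    obtain ⟨x, hx, hxW, hx0, hx1⟩ := amoeba Q hQ hY hdim c v ⟨u, hu, hu0, hW⟩ (hcv v hvG)
      (-(eval (fun j => (α j : ℂ)) (homogeneousComponent (F.totalDegree - 1) F)) /
        eval (fun j => (α j : ℂ)) (C ω⁻¹ * R)).re
    have hgQ : eval (fun j : Fin m => C (α j.succ : ℂ)) (homogeneousComponent D E) ∉ Q := by
      intro hmem
      apply hDρ
      have h1 := hw₂.1 _ hmem
      rw [← eval_top] at h1
      exact h1
    obtain ⟨x', hx', hxA', hx0', hx1', hg'⟩ := recenter c x hx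
      {X | (fun j => Complex.exp (X j)) ∈ Tz Q} hxW hx1
      (fun X => eval (fun j : Fin m => (α j.succ : ℂ))
        (homogeneousComponent D (map (eval fun j => Complex.exp (X j)) E)))
      (by
        simp only [eval_top]
        have h1 : ∀ P : MvPolynomial (Fin (m + 1)) ℂ,
            AnalyticAt ℂ (fun t => eval (fun j => Complex.exp (x t j)) P) 0 := by
          intro P
          induction P using MvPolynomial.induction_on with
          | C a => simpa using analyticAt_const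
          | add p q hp hq =>
            simp only [map_add]
            exact hp.add hq
          | mul_X p i hp =>
            simp only [map_mul, eval_X]
            exact hp.mul (hx i).cexp
        exact h1 _)
      (by
        simp only [eval_top]
        exact exp_dense Q hQ hdim c x hx hxW hx1 _ hgQ)
    obtain ⟨z, h1, h2, h3⟩ := nearB' Q F (C ω * G) (C ω⁻¹ * R) (by
        rw [hL]
        have h4 : (C ω * C ω⁻¹ : MvPolynomial (Fin (m + 1)) ℂ) = 1 := by
          rw [← C_mul, mul_inv_cancel₀ hω, C_1]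
        calc G * R = (C ω * C ω⁻¹) * (G * R) := by rw [h4, one_mul]
          _ = _ := by ring)
      (lt_of_lt_of_le hF0 (degreeOf_le_totalDegree F 0)) α
      (by rw [map_mul, hGρ, mul_zero]) c hc
      (fun θ ε hε => dens_of_irr c (by
        rintro rfl
        exact hcv v hvG (by simp)) (fun μ hμ => by
        obtain ⟨w, hw1, hw2⟩ := hrat μ hμ
        exact ⟨w, hw1, hcv w hw2⟩) θ ε hε)
      (by
        rw [map_mul, eval_C]
        exact mul_ne_zero (inv_ne_zero hω) hRρ)
      x' hx' hxA' (by rw [hx0', hx0]) hx1' E D hD hg'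
    exact hfin z h1 h2 h3
  · obtain ⟨z, h1, h2, h3⟩ := nearA Q F v u hu hu0 hW y ρ hρ
      (by rw [hL, map_mul, hGρ, zero_mul])
      (by
        rw [hL]
        exact exists_ne_line (fun j => (y j : ℂ)) v G R hσ ⟨ρ, hRρ⟩)
      E N a s ha has haE hsρ
    exact hfin z h1 h2 h3

end Pool.Agent.EXP
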