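import Pool.Agent.EXP.Defs

/-!
# EXP / NbA: asymptotics of polynomials at `T α + y`, `T → ∞`

Uniform first order Taylor expansion with bounded remainder on bounded sets, by induction on the
polynomial; then the expansion of `F (2 π i l + x)` for `l = T α + e`, `e`, `x` bounded.
-/

set_option autoImplicit false

namespace Pool.Agent.EXP

open MvPolynomial Filter Topology

/-- A polynomial is bounded on bounded sets. -/
theorem nb_bdd {n : ℕ} (P : MvPolynomial (Fin n) ℂ) (B : ℝ) : ∃ C : ℝ, 0 ≤ C ∧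
    ∀ a : Fin n → ℂ, (∀ j, ‖a j‖ ≤ B) → ‖eval a P‖ ≤ C := by
  obtain ⟨C, hC⟩ := (isCompact_closedBall (0 : Fin n → ℂ) (max B 0)).exists_bound_of_continuousOn
    (f := fun a => eval a P) (MvPolynomial.continuous_eval P).continuousOn
  refine ⟨max C 0, le_max_right _ _, fun a ha => (hC a ?_).trans (le_max_left _ _)⟩
  rw [mem_closedBall_zero_iff, pi_norm_le_iff_of_nonneg (le_max_right _ _)]
  exact fun j => (ha j).trans (le_max_left _ _)

/-- The directional derivative. -/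
noncomputable def nb_D {n : ℕ} (P : MvPolynomial (Fin n) ℂ) (a y : Fin n → ℂ) : ℂ :=
  ∑ j, y j * eval a (pderiv j P)

theorem nb_D_bdd {n : ℕ} (P : MvPolynomial (Fin n) ℂ) (B : ℝ) : ∃ C : ℝ, 0 ≤ C ∧
    ∀ a y : Fin n → ℂ, (∀ j, ‖a j‖ ≤ B) → (∀ j, ‖y j‖ ≤ B) → ‖nb_D P a y‖ ≤ C := by
  choose C hC0 hC using fun j => nb_bdd (pderiv j P) B
  refine ⟨∑ j, |B| * C j, Finset.sum_nonneg fun j _ => mul_nonneg (abs_nonneg B) (hC0 j),
    fun a y ha hy => ?_⟩
  unfold nb_D
  refine (norm_sum_le _ _).trans (Finset.sum_le_sum fun j _ => ?_)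
  rw [norm_mul]
  exact mul_le_mul ((hy j).trans (le_abs_self B)) (hC j a ha) (norm_nonneg _) (abs_nonneg B)

theorem nb_taylor {n : ℕ} (P : MvPolynomial (Fin n) ℂ) (B : ℝ) : ∃ C : ℝ, 0 ≤ C ∧
    ∀ (a y : Fin n → ℂ) (h : ℂ), (∀ j, ‖a j‖ ≤ B) → (∀ j, ‖y j‖ ≤ B) → ‖h‖ ≤ 1 →
      ‖eval (fun j => a j + h * y j) P - eval a P - h * nb_D P a y‖ ≤ C * ‖h‖ ^ 2 := by
  induction P using MvPolynomial.induction_on with
  | C c =>
    refine ⟨0, le_rfl, fun a y h _ _ _ => ?_⟩
    simp [nb_D]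
  | add P Q hP hQ =>
    obtain ⟨C₁, h10, h1⟩ := hP
    obtain ⟨C₂, h20, h2⟩ := hQ
    refine ⟨C₁ + C₂, by positivity, fun a y h ha hy hh => ?_⟩
    have e : eval (fun j => a j + h * y j) (P + Q) - eval a (P + Q) - h * nb_D (P + Q) a y =
        (eval (fun j => a j + h * y j) P - eval a P - h * nb_D P a y) +
        (eval (fun j => a j + h * y j) Q - eval a Q - h * nb_D Q a y) := by
      have hD : nb_D (P + Q) a y = nb_D P a y + nb_D Q a y := by
        unfold nb_D
        rw [← Finset.sum_add_distrib]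
        refine Finset.sum_congr rfl fun j _ => ?_
        rw [map_add, map_add, mul_add]
      rw [hD, map_add, map_add]
      ring
    rw [e]
    refine (norm_add_le _ _).trans ?_
    rw [add_mul]
    exact add_le_add (h1 a y h ha hy hh) (h2 a y h ha hy hh)
  | mul_X P i hP =>
    obtain ⟨C₁, h10, h1⟩ := hP
    obtain ⟨C₂, h20, h2⟩ := nb_D_bdd P B
    refine ⟨C₂ * |B| + C₁ * (2 * |B|), by positivity, fun a y h ha hy hh => ?_⟩
    have hD : nb_D (P * X i) a y = nb_D P a y * a i + eval a P * y i := by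
      unfold nb_D
      rw [Finset.sum_mul]
      have h3 : ∀ j : Fin n, y j * eval a (pderiv j (P * X i)) =
          y j * eval a (pderiv j P) * a i + (if j = i then eval a P * y i else 0) := by
        intro j
        rw [pderiv_mul, map_add, map_mul, map_mul, eval_X]
        by_cases hji : j = i
        · subst hji
          rw [pderiv_X_self, map_one, if_pos rfl]
          ring
        · rw [pderiv_X_of_ne (Ne.symm hji), map_zero, if_neg hji]
          ring
      rw [Finset.sum_congr rfl fun j _ => h3 j, Finset.sum_add_distrib,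
        Finset.sum_ite_eq' Finset.univ i]
      simp
    have e : eval (fun j => a j + h * y j) (P * X i) - eval a (P * X i) -
        h * nb_D (P * X i) a y = h ^ 2 * (nb_D P a y * y i) +
        (eval (fun j => a j + h * y j) P - eval a P - h * nb_D P a y) * (a i + h * y i) := by
      rw [hD, map_mul, map_mul, eval_X, eval_X]
      ring
    rw [e]
    refine (norm_add_le _ _).trans ?_
    have hyi : ‖y i‖ ≤ |B| := (hy i).trans (le_abs_self B)
    have hai : ‖a i‖ ≤ |B| := (ha i).trans (le_abs_self B)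
    have h3 : ‖a i + h * y i‖ ≤ 2 * |B| := by
      refine (norm_add_le _ _).trans ?_
      rw [norm_mul]
      have : ‖h‖ * ‖y i‖ ≤ 1 * |B| := mul_le_mul hh hyi (norm_nonneg _) zero_le_one
      linarith
    have h4 : ‖h ^ 2 * (nb_D P a y * y i)‖ ≤ C₂ * |B| * ‖h‖ ^ 2 := by
      rw [norm_mul, norm_mul, norm_pow, mul_comm]
      exact mul_le_mul_of_nonneg_right
        (mul_le_mul (h2 a y ha hy) hyi (norm_nonneg _) h20) (by positivity)
    have h5 : ‖(eval (fun j => a j + h * y j) P - eval a P - h * nb_D P a y) *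
        (a i + h * y i)‖ ≤ C₁ * (2 * |B|) * ‖h‖ ^ 2 := by
      rw [norm_mul]
      calc _ ≤ C₁ * ‖h‖ ^ 2 * (2 * |B|) :=
            mul_le_mul (h1 a y h ha hy hh) h3 (norm_nonneg _) (by positivity)
        _ = _ := by ring
    rw [add_mul]
    exact add_le_add h4 h5

theorem nb_lip {n : ℕ} (P : MvPolynomial (Fin n) ℂ) (B : ℝ) : ∃ C : ℝ, 0 ≤ C ∧
    ∀ (a y : Fin n → ℂ) (h : ℂ), (∀ j, ‖a j‖ ≤ B) → (∀ j, ‖y j‖ ≤ B) → ‖h‖ ≤ 1 →
      ‖eval (fun j => a j + h * y j) P - eval a P‖ ≤ C * ‖h‖ := by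
  obtain ⟨C₁, h10, h1⟩ := nb_taylor P B
  obtain ⟨C₂, h20, h2⟩ := nb_D_bdd P B
  refine ⟨C₁ + C₂, by positivity, fun a y h ha hy hh => ?_⟩
  have e : eval (fun j => a j + h * y j) P - eval a P =
      (eval (fun j => a j + h * y j) P - eval a P - h * nb_D P a y) + h * nb_D P a y := by ring
  rw [e]
  refine (norm_add_le _ _).trans ?_
  have h3 : C₁ * ‖h‖ ^ 2 ≤ C₁ * ‖h‖ := by
    refine mul_le_mul_of_nonneg_left ?_ h10
    rw [sq]
    exact mul_le_of_le_one_left (norm_nonneg _) hh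
  have h4 : ‖h * nb_D P a y‖ ≤ C₂ * ‖h‖ := by
    rw [norm_mul, mul_comm]
    exact mul_le_mul_of_nonneg_right (h2 a y ha hy) (norm_nonneg _)
  calc _ ≤ C₁ * ‖h‖ ^ 2 + C₂ * ‖h‖ := add_le_add (h1 a y h ha hy hh) h4
    _ ≤ (C₁ + C₂) * ‖h‖ := by linarith

theorem nb_scale {n d : ℕ} {L : MvPolynomial (Fin n) ℂ} (hL : L.IsHomogeneous d) (c : ℂ)
    (x : Fin n → ℂ) : eval (fun j => c * x j) L = c ^ d * eval x L := by
  rw [eval_eq, eval_eq, Finset.mul_sum]
  refine Finset.sum_congr rfl fun s hs => ?_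
  have hd : ∑ i ∈ s.support, s i = d := by
    have := hL (mem_support_iff.mp hs)
    rw [Finsupp.weight_apply] at this
    simpa [Finsupp.sum] using this
  simp only [mul_pow]
  rw [Finset.prod_mul_distrib, Finset.prod_pow_eq_pow_sum, hd]
  ring

/-- Expansion of `F (2 π i l + x)`, `l = T α + e`, after division by `(2 π i T)^(d-1) R(α)`. -/
theorem nb_main {n : ℕ} (F G R : MvPolynomial (Fin n) ℂ)
    (hL : homogeneousComponent F.totalDegree F = G * R) (hd : 0 < F.totalDegree)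
    (α : Fin n → ℝ) (hα : eval (fun j => (α j : ℂ)) G = 0) (c : Fin n → ℝ)
    (hc : ∀ j, eval (fun j => (α j : ℂ)) (pderiv j G) = c j)
    (hR : eval (fun j => (α j : ℂ)) R ≠ 0) (B : ℝ) :
    ∃ C : ℝ, 0 ≤ C ∧ ∀ (T : ℝ) (l : Fin n → ℝ) (x : Fin n → ℂ), 1 ≤ T →
      (∀ j, |l j - T * α j| ≤ B) → (∀ j, ‖x j‖ ≤ B) →
      ‖eval (fun j => 2 * Real.pi * Complex.I * l j + x j) F /
          ((2 * Real.pi * Complex.I * T) ^ (F.totalDegree - 1) * eval (fun j => (α j : ℂ)) R) -
        (2 * Real.pi * Complex.I * ∑ j, (c j : ℂ) * (l j - T * α j) + ∑ j, (c j : ℂ) * x j -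
          (-(eval (fun j => (α j : ℂ)) (homogeneousComponent (F.totalDegree - 1) F)) /
            eval (fun j => (α j : ℂ)) R))‖ ≤ C / T := by
  obtain ⟨d, hdd⟩ : ∃ d, F.totalDegree = d + 1 := ⟨F.totalDegree - 1, by omega⟩
  set A : Fin n → ℂ := fun j => (α j : ℂ) with hA
  set ρ : ℂ := eval A R with hρ
  -- a common bound
  obtain ⟨B', hB', hBα, hB0⟩ : ∃ B' : ℝ, B + B ≤ B' ∧ (∀ j, ‖A j‖ ≤ B') ∧ 0 ≤ B' := by
    refine ⟨|B| + |B| + ∑ j, ‖A j‖, ?_, fun j => ?_, by positivity⟩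
    · have h1 := le_abs_self B
      have h2 : 0 ≤ ∑ j, ‖A j‖ := Finset.sum_nonneg fun j _ => norm_nonneg _
      linarith
    · have h1 := Finset.single_le_sum (f := fun j => ‖A j‖) (fun j _ => norm_nonneg _)
        (Finset.mem_univ j)
      have h2 := abs_nonneg B
      linarith
  obtain ⟨C₁, h10, h1⟩ := nb_taylor (homogeneousComponent (d + 1) F) B'
  obtain ⟨C₂, h20, h2⟩ := nb_lip (homogeneousComponent d F) B'
  choose C₃ h30 h3 using fun k => nb_bdd (homogeneousComponent k F) (B' + B')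
  have hpi := Real.pi_gt_three
  have hρ0 : 0 < ‖ρ‖ := norm_pos_iff.2 hR
  refine ⟨(2 * Real.pi * C₁ + C₂ + ∑ k ∈ Finset.range d, C₃ k) / ‖ρ‖, by
    have : 0 ≤ ∑ k ∈ Finset.range d, C₃ k := Finset.sum_nonneg fun k _ => h30 k
    positivity, fun T l x hT hl hx => ?_⟩
  have hT0 : 0 < T := by linarith
  set θ : ℂ := 2 * Real.pi * Complex.I with hθ
  have hθn : ‖θ‖ = 2 * Real.pi := by
    rw [hθ]
    simp [abs_of_pos Real.pi_pos]
  have hθ0 : θ ≠ 0 := by
    rw [← norm_pos_iff, hθn]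
    positivity
  have hTc : (T : ℂ) ≠ 0 := by exact_mod_cast hT0.ne'
  obtain ⟨y, hy⟩ : ∃ y : Fin n → ℂ, y = fun j => ((l j : ℂ) - T * α j) + x j / θ := ⟨_, rfl⟩
  obtain ⟨h, hh⟩ : ∃ h : ℂ, h = (T : ℂ)⁻¹ := ⟨_, rfl⟩
  have hhn : ‖h‖ = 1 / T := by
    rw [hh, norm_inv, Complex.norm_real, Real.norm_eq_abs, abs_of_pos hT0, one_div]
  have hh1 : ‖h‖ ≤ 1 := by
    rw [hhn, div_le_one hT0]
    exact hT
  have hyB : ∀ j, ‖y j‖ ≤ B' := by
    intro j
    rw [hy]
    refine (norm_add_le _ _).trans ?_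
    have e1 : ‖(l j : ℂ) - T * α j‖ ≤ B := by
      have : (l j : ℂ) - T * α j = ((l j - T * α j : ℝ) : ℂ) := by push_cast; ring
      rw [this, Complex.norm_real, Real.norm_eq_abs]
      exact hl j
    have e2 : ‖x j / θ‖ ≤ B := by
      rw [norm_div, hθn]
      refine (div_le_self (norm_nonneg _) (by linarith)).trans (hx j)
    linarith
  have hpt : (fun j => θ * l j + x j) = fun j => (θ * T) * (A j + h * y j) := by
    funext j
    rw [hy, hh, hA]
    field_simp
    ring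
  have hAy : ∀ j, ‖A j + h * y j‖ ≤ B' + B' := by
    intro j
    refine (norm_add_le _ _).trans (add_le_add (hBα j) ?_)
    rw [norm_mul]
    calc ‖h‖ * ‖y j‖ ≤ 1 * B' := mul_le_mul hh1 (hyB j) (norm_nonneg _) zero_le_one
      _ = B' := one_mul _
  have hsum : eval (fun j => θ * l j + x j) F = ∑ k ∈ Finset.range (d + 1 + 1),
      (θ * T) ^ k * eval (fun j => A j + h * y j) (homogeneousComponent k F) := by
    conv_lhs => rw [← MvPolynomial.sum_homogeneousComponent F]
    rw [map_sum, hdd]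
    refine Finset.sum_congr rfl fun k _ => ?_
    rw [hpt, nb_scale (homogeneousComponent_isHomogeneous k F)]
  have hgrad : nb_D (homogeneousComponent (d + 1) F) A y = ρ * ∑ j, (c j : ℂ) * y j := by
    unfold nb_D
    rw [← hdd, hL, Finset.mul_sum]
    refine Finset.sum_congr rfl fun j _ => ?_
    rw [pderiv_mul, map_add, map_mul, map_mul, hα, hc j]
    ring
  have hLα : eval A (homogeneousComponent (d + 1) F) = 0 := by
    rw [← hdd, hL, map_mul, hα, zero_mul]
  have hθT0 : θ * T ≠ 0 := mul_ne_zero hθ0 hTc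
  have hcy : θ * ∑ j, (c j : ℂ) * y j = θ * ∑ j, (c j : ℂ) * (l j - T * α j) +
      ∑ j, (c j : ℂ) * x j := by
    rw [hy, Finset.mul_sum, Finset.mul_sum, ← Finset.sum_add_distrib]
    refine Finset.sum_congr rfl fun j _ => ?_
    field_simp
  -- the three groups of terms
  set P1 := eval (fun j => A j + h * y j) (homogeneousComponent (d + 1) F) with hP1
  set P0 := eval (fun j => A j + h * y j) (homogeneousComponent d F) with hP0
  set κ : ℂ := -(eval A (homogeneousComponent d F)) / ρ with hκ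
  have hmain : eval (fun j => θ * l j + x j) F / ((θ * T) ^ d * ρ) -
      (θ * ∑ j, (c j : ℂ) * (l j - T * α j) + ∑ j, (c j : ℂ) * x j - κ) =
      (θ * T) * (P1 - eval A (homogeneousComponent (d + 1) F) -
        h * nb_D (homogeneousComponent (d + 1) F) A y) / ρ +
      (P0 - eval A (homogeneousComponent d F)) / ρ +
      ∑ k ∈ Finset.range d, eval (fun j => A j + h * y j) (homogeneousComponent k F) /
        ((θ * T) ^ (d - k) * ρ) := by
    rw [hsum, Finset.sum_range_succ, Finset.sum_range_succ, ← hcy, hgrad, hLα, hκ]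
    have e1 : ∑ k ∈ Finset.range d, eval (fun j => A j + h * y j) (homogeneousComponent k F) /
        ((θ * T) ^ (d - k) * ρ) = (∑ k ∈ Finset.range d, (θ * T) ^ k *
          eval (fun j => A j + h * y j) (homogeneousComponent k F)) / ((θ * T) ^ d * ρ) := by
      rw [Finset.sum_div]
      refine Finset.sum_congr rfl fun k hk => ?_
      have hkd : k ≤ d := (Finset.mem_range.1 hk).le
      have e2 : (θ * T) ^ d = (θ * T) ^ k * (θ * T) ^ (d - k) := by
        rw [← pow_add]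
        congr 1
        omega
      rw [e2]
      have := pow_ne_zero k hθT0
      field_simp
    rw [e1, ← hP1, ← hP0]
    have hTh : (T : ℂ) * h = 1 := by rw [hh]; exact mul_inv_cancel₀ hTc
    have hp := pow_ne_zero d hθT0
    have hρc : ρ ≠ 0 := hR
    have e3 : θ * T * (P1 - 0 - h * (ρ * ∑ j, (c j : ℂ) * y j)) / ρ =
        θ * T * P1 / ρ - θ * ∑ j, (c j : ℂ) * y j := by
      field_simp
      linear_combination (-ρ * ∑ j, (c j : ℂ) * y j) * hTh
    rw [e3, pow_succ]
    field_simp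
    ring
  have hd1 : F.totalDegree - 1 = d := by omega
  rw [hd1, hmain]
  have b1 : ‖(θ * T) * (P1 - eval A (homogeneousComponent (d + 1) F) -
      h * nb_D (homogeneousComponent (d + 1) F) A y) / ρ‖ ≤ 2 * Real.pi * C₁ / ‖ρ‖ / T := by
    rw [norm_div, norm_mul, norm_mul, hθn, Complex.norm_real, Real.norm_eq_abs, abs_of_pos hT0]
    have := h1 A y h hBα hyB hh1
    rw [hhn] at this
    calc 2 * Real.pi * T * ‖P1 - eval A (homogeneousComponent (d + 1) F) -
          h * nb_D (homogeneousComponent (d + 1) F) A y‖ / ‖ρ‖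
        ≤ 2 * Real.pi * T * (C₁ * (1 / T) ^ 2) / ‖ρ‖ := by gcongr
      _ = 2 * Real.pi * C₁ / ‖ρ‖ / T := by
          field_simp
  have b2 : ‖(P0 - eval A (homogeneousComponent d F)) / ρ‖ ≤ C₂ / ‖ρ‖ / T := by
    rw [norm_div]
    have := h2 A y h hBα hyB hh1
    rw [hhn] at this
    calc ‖P0 - eval A (homogeneousComponent d F)‖ / ‖ρ‖ ≤ C₂ * (1 / T) / ‖ρ‖ := by gcongr
      _ = C₂ / ‖ρ‖ / T := by field_simp
  have b3 : ‖∑ k ∈ Finset.range d, eval (fun j => A j + h * y j) (homogeneousComponent k F) /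
      ((θ * T) ^ (d - k) * ρ)‖ ≤ (∑ k ∈ Finset.range d, C₃ k) / ‖ρ‖ / T := by
    rw [Finset.sum_div, Finset.sum_div]
    refine (norm_sum_le _ _).trans (Finset.sum_le_sum fun k hk => ?_)
    have hkd : k < d := Finset.mem_range.1 hk
    rw [norm_div, norm_mul, norm_pow, norm_mul, hθn, Complex.norm_real, Real.norm_eq_abs,
      abs_of_pos hT0]
    have e1 : T ≤ (2 * Real.pi * T) ^ (d - k) := by
      have e2 : T ≤ 2 * Real.pi * T := by nlinarith
      have e3 : (1 : ℝ) ≤ 2 * Real.pi * T := by linarith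
      calc T ≤ (2 * Real.pi * T) ^ 1 := by rw [pow_one]; exact e2
        _ ≤ (2 * Real.pi * T) ^ (d - k) := pow_le_pow_right₀ e3 (by omega)
    calc ‖eval (fun j => A j + h * y j) (homogeneousComponent k F)‖ /
          ((2 * Real.pi * T) ^ (d - k) * ‖ρ‖) ≤ C₃ k / (T * ‖ρ‖) := by
          have := h3 k _ hAy
          gcongr
          exact h30 k
      _ = C₃ k / ‖ρ‖ / T := by field_simp
  calc _ ≤ 2 * Real.pi * C₁ / ‖ρ‖ / T + C₂ / ‖ρ‖ / T +
        (∑ k ∈ Finset.range d, C₃ k) / ‖ρ‖ / T :=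
        (norm_add₃_le).trans (add_le_add (add_le_add b1 b2) b3)
    _ = _ := by ring

end Pool.Agent.EXP
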