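import Pool.Agent.EXP.Defs

/-!
# EXP / NormA: norms are rational, positivity

PROOF.  `norm_poly`: the resultant of `p` and `A` (as polynomials over `ℂ[z]`).
-/

set_option autoImplicit false

namespace Pool.Agent.EXP

open Topology

theorem norm_poly (p : Polynomial (Polynomial ℂ)) (hm : p.Monic) (A : Polynomial (Polynomial ℂ)) :
    ∃ R : Polynomial ℂ, ∀ z : ℂ,
      R.eval z = ((p.map (Polynomial.evalRingHom z)).roots.map fun θ => ev A z θ).prod := by
  refine ⟨Polynomial.resultant p A p.natDegree A.natDegree, fun z => ?_⟩
  have h1 : (p.map (Polynomial.evalRingHom z)).Monic := hm.map _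
  have h2 : (p.map (Polynomial.evalRingHom z)).natDegree = p.natDegree := hm.natDegree_map _
  have h3 := Polynomial.resultant_eq_prod_eval (p.map (Polynomial.evalRingHom z))
    (A.map (Polynomial.evalRingHom z)) A.natDegree Polynomial.natDegree_map_le
    (IsAlgClosed.splits _)
  rw [h2, Polynomial.resultant_map_map, h1.leadingCoeff, one_pow, one_mul] at h3
  exact h3

end Pool.Agent.EXP
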