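import Pool.Agent.EXP.Defs
import Pool.Agent.EXI.CTd
import Pool.Agent.EXI.CLoc

/-!
# EXP / PunctA: monomials which are not constant on a curve are transcendental
-/

set_option autoImplicit false

namespace Pool.Agent.EXP

open MvPolynomial Pool.Agent.EXL Pool.Agent.EXI

/-- the positive part of a monomial -/
noncomputable def mpos {n : ℕ} (R : Type) [CommRing R] (μ : Fin n → ℤ) : MvPolynomial (Fin n) R :=
  ∏ j, X j ^ (μ j).toNat

theorem mpos_ne {n : ℕ} {R S : Type} [CommRing R] [Field S] [Algebra R S] (μ : Fin n → ℤ)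
    (w : Fin n → S) (hw : ∀ j, w j ≠ 0) : aeval w (mpos R μ) ≠ 0 := by
  unfold mpos
  rw [map_prod]
  refine Finset.prod_ne_zero_iff.2 fun j _ => ?_
  rw [map_pow, aeval_X]
  exact pow_ne_zero _ (hw j)

theorem mpos_quot {n : ℕ} {R S : Type} [CommRing R] [Field S] [Algebra R S] (μ : Fin n → ℤ)
    (w : Fin n → S) (hw : ∀ j, w j ≠ 0) :
    (∏ j, w j ^ μ j) * aeval w (mpos R (fun j => -μ j)) = aeval w (mpos R μ) := by
  unfold mpos
  rw [map_prod, map_prod, ← Finset.prod_mul_distrib]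
  refine Finset.prod_congr rfl fun j _ => ?_
  rw [map_pow, map_pow, aeval_X, ← zpow_natCast, ← zpow_natCast, ← zpow_add₀ (hw j)]
  congr 1
  show μ j + ((-μ j).toNat : ℤ) = ((μ j).toNat : ℤ)
  omega

theorem trans_mono {n : ℕ} (Q : Ideal (MvPolynomial (Fin n) ℂ)) (hQ : Q.IsPrime)
    (hY : ∀ j : Fin n, (X j : MvPolynomial (Fin n) ℂ) ∉ Q) (k : Subfield ℂ) (b : Fin n → ℂ)
    (hb : ∀ j, b j ≠ 0)
    (hp : ∀ f : MvPolynomial (Fin n) k, aeval b f = 0 ↔ map (algebraMap k ℂ) f ∈ Q)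
    (μ : Fin n → ℤ) (hμ : ∀ c : ℂ, ∃ w ∈ Tz Q, ∏ j, w j ^ μ j ≠ c) :
    Transcendental k (∏ j, b j ^ μ j) := by
  classical
  intro halg
  obtain ⟨q, hq0, hq⟩ := halg
  -- the values of the monomial on `Tz Q` are roots of `q`
  have hspec : ∀ w ∈ Tz Q, Spec k b w := by
    intro w hw f hf
    have h1 := hw.1 _ ((hp f).1 hf)
    rw [eval_map] at h1
    exact h1
  have hval : ∀ w ∈ Tz Q, Polynomial.aeval (∏ j, w j ^ μ j) q = 0 := by
    intro w hw
    have h1 := spec_frac b w (hspec w hw) (fun _ : Unit => ∏ j, b j ^ μ j)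
      (fun _ => mpos k μ) (fun _ => mpos k (fun j => -μ j))
      (fun _ => mpos_quot μ b hb) (fun _ => mpos_ne _ w hw.2)
    have h2 : aeval w (mpos k μ) / aeval w (mpos k fun j => -μ j) = ∏ j, w j ^ μ j := by
      rw [div_eq_iff (mpos_ne _ w hw.2)]
      exact (mpos_quot μ w hw.2).symm
    -- `q` as a polynomial in the last variable
    let qq : MvPolynomial (Fin n ⊕ Unit) k := Polynomial.aeval (X (Sum.inr ())) q
    have h3 : ∀ {L : Type} [Field L] [Algebra k L] (x : Fin n ⊕ Unit → L),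
        aeval x qq = Polynomial.aeval (x (Sum.inr ())) q := by
      intro L _ _ x
      change aeval x (Polynomial.aeval (X (Sum.inr ())) q) = _
      rw [← Polynomial.aeval_algHom_apply, aeval_X]
    have h4 := h1 qq (by rw [h3]; exact hq)
    rw [h3] at h4
    simp only [Sum.elim_inr] at h4
    rw [h2] at h4
    exact h4
  obtain ⟨qC, hqC⟩ : ∃ qC : Polynomial ℂ, qC = q.map (algebraMap k ℂ) := ⟨_, rfl⟩
  have hqC0 : qC ≠ 0 := by
    rw [hqC]
    exact (Polynomial.map_ne_zero_iff (algebraMap k ℂ).injective).2 hq0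
  have hroot : ∀ w ∈ Tz Q, (∏ j, w j ^ μ j) ∈ qC.roots.toFinset := by
    intro w hw
    rw [Multiset.mem_toFinset, Polynomial.mem_roots hqC0, Polynomial.IsRoot.def, hqC,
      Polynomial.eval_map]
    exact hval w hw
  -- the product is in `Q`
  obtain ⟨E, hE⟩ : ∃ E : ℂ → MvPolynomial (Fin n) ℂ, E = fun c =>
    mpos ℂ μ - C c * mpos ℂ (fun j => -μ j) := ⟨_, rfl⟩
  have hEv : ∀ (c : ℂ) (w : Fin n → ℂ), (∀ j, w j ≠ 0) →
      (aeval w (E c) = 0 ↔ ∏ j, w j ^ μ j = c) := by
    intro c w hw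
    rw [hE]
    simp only
    rw [map_sub, map_mul, aeval_C, ← mpos_quot (R := ℂ) μ w hw, ← sub_mul]
    constructor
    · intro h
      rcases mul_eq_zero.1 h with h1 | h1
      · exact sub_eq_zero.1 h1
      · exact absurd h1 (mpos_ne _ w hw)
    · intro h
      rw [h]
      simp
  have hmem : (∏ c ∈ qC.roots.toFinset, E c) * ∏ j, X j ∈ Q := by
    have h1 : (∏ c ∈ qC.roots.toFinset, E c) * ∏ j, X j ∈ Q.radical := by
      rw [← MvPolynomial.vanishingIdeal_zeroLocus_eq_radical (k := ℂ) (K := ℂ) Q]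
      rw [mem_vanishingIdeal_iff]
      intro w hw
      rw [mem_zeroLocus_iff] at hw
      rw [map_mul]
      by_cases h0 : ∀ j, w j ≠ 0
      · have hwT : w ∈ Tz Q := ⟨fun f hf => by
          have := hw f hf
          rwa [← coe_aeval_eq_eval] , h0⟩
        have h2 := hroot w hwT
        rw [map_prod]
        rw [Finset.prod_eq_zero h2 ((hEv _ w h0).2 rfl), zero_mul]
      · push Not at h0
        obtain ⟨j, hj⟩ := h0
        have : aeval w (∏ j, X j : MvPolynomial (Fin n) ℂ) = 0 := by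
          rw [map_prod]
          refine Finset.prod_eq_zero (Finset.mem_univ j) ?_
          rw [aeval_X]
          exact hj
        rw [this, mul_zero]
    rwa [hQ.radical] at h1
  rcases hQ.mem_or_mem hmem with h1 | h1
  · obtain ⟨c, hc, hcQ⟩ := (Ideal.IsPrime.prod_mem_iff (hp := hQ)).1 h1
    obtain ⟨w, hw, hwc⟩ := hμ c
    apply hwc
    have h2 := hw.1 _ hcQ
    rw [← hEv c w hw.2]
    exact h2
  · obtain ⟨j, -, hj⟩ := (Ideal.IsPrime.prod_mem_iff (hp := hQ)).1 h1
    exact hY j hj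

end Pool.Agent.EXP
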